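import Pool.Agent.H78.UC.Defs
import Pool.Agent.H80.Arith

/-!
Project UC, part A: closure properties of `Δ⁰ₙ` and of the arithmetical predicates.
-/

set_option autoImplicit false

namespace Pool.Agent.H78.UC

open Pool.Agent.H80

variable {α β : Type} [Primcodable α] [Primcodable β]

theorem IsDelta.of_eq {n : ℕ} {p q : α → Prop} (hp : IsDelta n p) (h : ∀ a, p a ↔ q a) :
    IsDelta n q :=
  ⟨hp.1.of_eq h, hp.2.of_eq h⟩

theorem IsDelta.not {n : ℕ} {p : α → Prop} (hp : IsDelta n p) : IsDelta n (fun a => ¬ p a) :=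
  ⟨hp.2, isPi_not.2 hp.1⟩

theorem IsDelta.and {n : ℕ} {p q : α → Prop} (hp : IsDelta n p) (hq : IsDelta n q) :
    IsDelta n (fun a => p a ∧ q a) :=
  ⟨hp.1.and hq.1, hp.2.and hq.2⟩

theorem IsDelta.or {n : ℕ} {p q : α → Prop} (hp : IsDelta n p) (hq : IsDelta n q) :
    IsDelta n (fun a => p a ∨ q a) :=
  ⟨hp.1.or hq.1, hp.2.or hq.2⟩

theorem IsDelta.comp {n : ℕ} {p : β → Prop} {f : α → β} (hp : IsDelta n p) (hf : Computable f) :
    IsDelta n (fun a => p (f a)) :=
  ⟨hp.1.comp hf, hp.2.comp hf⟩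

theorem IsDelta.ball {n : ℕ} {p : α × ℕ → Prop} {f : α → ℕ} (hp : IsDelta n p)
    (hf : Computable f) : IsDelta n (fun a => ∀ i < f a, p (a, i)) :=
  ⟨hp.1.ball hf, hp.2.ball hf⟩

theorem IsDelta.bex {n : ℕ} {p : α × ℕ → Prop} {f : α → ℕ} (hp : IsDelta n p)
    (hf : Computable f) : IsDelta n (fun a => ∃ i < f a, p (a, i)) :=
  ⟨hp.1.bex hf, hp.2.bex hf⟩

theorem IsDelta.mono {m n : ℕ} (h : m ≤ n) {p : α → Prop} (hp : IsDelta m p) : IsDelta n p :=
  ⟨hp.1.mono h, hp.2.mono h⟩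

theorem delta_of_computable {p : α → Prop} (hp : ComputablePred p) (n : ℕ) : IsDelta n p :=
  ⟨ComputablePred.sigma hp n, ComputablePred.pi hp n⟩

theorem delta_of_sigma {n : ℕ} {p : α → Prop} (hp : IsSigma n p) : IsDelta (n + 1) p :=
  ⟨hp.succ, hp.pi_succ⟩

theorem delta_of_pi {n : ℕ} {p : α → Prop} (hp : IsPi n p) : IsDelta (n + 1) p :=
  ⟨hp.sigma_succ, hp.succ⟩

theorem ArX_ne : ComputablePred (fun z : β × β => z.1 ≠ z.2) := by
  have h : PrimrecPred (fun z : ℕ × ℕ => z.1 = z.2) := Primrec.eq (α := ℕ)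
  have h2 : ComputablePred (fun z : ℕ × ℕ => z.1 = z.2) := PrimrecPred.computablePred h
  have h3 := cp_comp (p := fun z : ℕ × ℕ => z.1 = z.2)
    (f := fun z : β × β => (Encodable.encode z.1, Encodable.encode z.2)) h2
    ((Computable.encode.comp Computable.fst).pair (Computable.encode.comp Computable.snd))
  exact h3.not.of_eq (fun z => not_congr Encodable.encode_inj)

/-- A total function with a `Σ⁰ₙ₊₁` graph has a `Δ⁰ₙ₊₁` graph: `f a ≠ b` iff `∃ b' ≠ b, f a = b'`. -/
theorem delta_graph {n : ℕ} {f : α → β}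
    (h : IsSigma (n + 1) (fun z : α × β => f z.1 = z.2)) :
    IsDelta (n + 1) (fun z : α × β => f z.1 = z.2) := by
  refine ⟨h, ?_⟩
  have h1 : IsSigma (n + 1) (fun w : (α × β) × β => f w.1.1 = w.2) :=
    h.comp (f := fun w : (α × β) × β => (w.1.1, w.2))
      ((Computable.fst.comp Computable.fst).pair Computable.snd)
  have h2 : IsSigma (n + 1) (fun w : (α × β) × β => w.2 ≠ w.1.2) :=
    (ComputablePred.sigma (ArX_ne (β := β)) (n + 1)).comp
      (f := fun w : (α × β) × β => (w.2, w.1.2))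
      (Computable.snd.pair (Computable.snd.comp Computable.fst))
  refine ((h1.and h2).ex_type).of_eq (fun z => ?_)
  constructor
  · rintro ⟨x, hx, hne⟩ he
    exact hne (hx.symm.trans he)
  · intro hne
    exact ⟨f z.1, rfl, hne⟩

/-- Composition with a total function with `Δ⁰ₙ₊₁` graph: `p (a, f a)` iff `∃ b, f a = b ∧ p (a, b)` iff
`∀ b, f a = b → p (a, b)`. -/
theorem delta_comp_graph {n : ℕ} {f : α → β} {p : α × β → Prop}
    (h : IsDelta (n + 1) (fun z : α × β => f z.1 = z.2)) (hp : IsDelta (n + 1) p) :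
    IsDelta (n + 1) (fun a => p (a, f a)) := by
  refine ⟨?_, ?_⟩
  · refine ((h.1.and hp.1).ex_type).of_eq (fun a => ?_)
    constructor
    · rintro ⟨x, hx, hpx⟩
      have hx' : f a = x := hx
      rw [hx']
      exact hpx
    · intro hpx
      exact ⟨f a, rfl, hpx⟩
  · refine ((h.not.2.or hp.2).all_type).of_eq (fun a => ?_)
    constructor
    · intro H
      rcases H (f a) with h1 | h1
      · exact absurd rfl h1
      · exact h1
    · intro hpx x
      by_cases hx : f a = x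
      · right
        rw [← hx]
        exact hpx
      · left
        exact hx

/-- Arithmetical predicates. -/
def IsAr (p : α → Prop) : Prop := ∃ n, IsSigma n p

theorem IsAr.of_eq {p q : α → Prop} (hp : IsAr p) (h : ∀ a, p a ↔ q a) : IsAr q := by
  obtain ⟨n, hn⟩ := hp
  exact ⟨n, hn.of_eq h⟩

theorem ar_of_sigma {n : ℕ} {p : α → Prop} (hp : IsSigma n p) : IsAr p := ⟨n, hp⟩

theorem ar_of_pi {n : ℕ} {p : α → Prop} (hp : IsPi n p) : IsAr p :=
  ⟨n + 1, hp.sigma_succ⟩

theorem ar_of_delta {n : ℕ} {p : α → Prop} (hp : IsDelta n p) : IsAr p := ⟨n, hp.1⟩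

theorem ar_of_computable {p : α → Prop} (hp : ComputablePred p) : IsAr p := ⟨0, hp⟩

theorem ar_const (P : Prop) : IsAr (fun _ : α => P) := by
  classical
  refine ⟨0, ?_⟩
  refine ComputablePred.computable_iff.2 ⟨fun _ => decide P, Computable.const _, ?_⟩
  funext a
  simp

theorem IsAr.exists_pi {p : α → Prop} (hp : IsAr p) : ∃ n, ∀ m ≥ n, IsPi m p := by
  obtain ⟨n, hn⟩ := hp
  exact ⟨n + 1, fun m hm => hn.pi_succ.mono hm⟩

theorem IsAr.not {p : α → Prop} (hp : IsAr p) : IsAr (fun a => ¬ p a) := by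
  obtain ⟨n, hn⟩ := hp
  exact ar_of_pi (isPi_not.2 hn)

theorem IsAr.and {p q : α → Prop} (hp : IsAr p) (hq : IsAr q) : IsAr (fun a => p a ∧ q a) := by
  obtain ⟨n, hn⟩ := hp
  obtain ⟨m, hm⟩ := hq
  exact ⟨max n m, (hn.mono (le_max_left _ _)).and (hm.mono (le_max_right _ _))⟩

theorem IsAr.or {p q : α → Prop} (hp : IsAr p) (hq : IsAr q) : IsAr (fun a => p a ∨ q a) := by
  obtain ⟨n, hn⟩ := hp
  obtain ⟨m, hm⟩ := hq
  exact ⟨max n m, (hn.mono (le_max_left _ _)).or (hm.mono (le_max_right _ _))⟩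

theorem IsAr.imp {p q : α → Prop} (hp : IsAr p) (hq : IsAr q) : IsAr (fun a => p a → q a) :=
  (hp.not.or hq).of_eq (fun a => by tauto)

theorem IsAr.iff {p q : α → Prop} (hp : IsAr p) (hq : IsAr q) : IsAr (fun a => p a ↔ q a) :=
  ((hp.imp hq).and (hq.imp hp)).of_eq (fun a => by tauto)

theorem IsAr.comp {p : β → Prop} {f : α → β} (hp : IsAr p) (hf : Computable f) :
    IsAr (fun a => p (f a)) := by
  obtain ⟨n, hn⟩ := hp
  exact ⟨n, hn.comp hf⟩

theorem IsAr.ex {p : α × β → Prop} (hp : IsAr p) : IsAr (fun a => ∃ x, p (a, x)) := by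
  obtain ⟨n, hn⟩ := hp
  exact ⟨n + 1, hn.succ.ex_type⟩

theorem IsAr.all {p : α × β → Prop} (hp : IsAr p) : IsAr (fun a => ∀ x, p (a, x)) :=
  (IsAr.ex (p := fun z => ¬ p z) hp.not).not.of_eq (fun a => by push Not; rfl)

/-- The number of `m < n` with `p m`. -/
noncomputable def cnt (p : ℕ → Prop) (n : ℕ) : ℕ := {m | m < n ∧ p m}.ncard

theorem ArX_ball {p : α × ℕ → Prop} {f : α → ℕ} (hp : IsAr p) (hf : Computable f) :
    IsAr (fun a => ∀ i < f a, p (a, i)) := by
  obtain ⟨n, hn⟩ := hp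
  exact ⟨n, hn.ball hf⟩

theorem ArX_bex {p : α × ℕ → Prop} {f : α → ℕ} (hp : IsAr p) (hf : Computable f) :
    IsAr (fun a => ∃ i < f a, p (a, i)) := by
  obtain ⟨n, hn⟩ := hp
  exact ⟨n, hn.bex hf⟩

theorem ArX_cnt_iff (q : ℕ → Prop) (n k : ℕ) :
    UC.cnt q n = k ↔ ∃ l : List ℕ, l.length = k ∧
      (∀ i < l.length, l.getD i 0 < n ∧ q (l.getD i 0)) ∧
      (∀ i < l.length, ∀ j < i, l.getD i 0 ≠ l.getD j 0) ∧
      (∀ m < n, q m → ∃ i < l.length, l.getD i 0 = m) := by
  have hfin : {m | m < n ∧ q m}.Finite := (Set.finite_lt_nat n).subset (fun m hm => hm.1)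
  constructor
  · intro h
    refine ⟨hfin.toFinset.toList, ?_, ?_, ?_, ?_⟩
    · rw [Finset.length_toList, ← Set.ncard_eq_toFinset_card _ hfin]
      exact h
    · intro i hi
      have h1 : (hfin.toFinset.toList).getD i 0 ∈ hfin.toFinset.toList := by
        rw [List.getD_eq_getElem _ _ hi]
        exact List.getElem_mem _
      rw [Finset.mem_toList, Set.Finite.mem_toFinset] at h1
      exact h1
    · intro i hi j hj he
      have hnd : (hfin.toFinset.toList).Nodup := Finset.nodup_toList _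
      rw [List.getD_eq_getElem _ _ hi, List.getD_eq_getElem _ _ (hj.trans hi)] at he
      have := (List.Nodup.getElem_inj_iff hnd).1 he
      omega
    · intro m hm hq
      have h1 : m ∈ hfin.toFinset.toList := by
        rw [Finset.mem_toList, Set.Finite.mem_toFinset]
        exact ⟨hm, hq⟩
      obtain ⟨i, hi, he⟩ := List.getElem_of_mem h1
      exact ⟨i, hi, by rw [List.getD_eq_getElem _ _ hi]; exact he⟩
  · rintro ⟨l, hl, h1, h2, h3⟩
    have hnd : l.Nodup := by
      rw [List.nodup_iff_injective_getElem]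
      intro i j hij
      by_contra hne
      have hne' : i.1 ≠ j.1 := fun h => hne (Fin.ext h)
      rcases lt_or_gt_of_ne hne' with h | h
      · have := h2 j.1 j.2 i.1 h
        rw [List.getD_eq_getElem _ _ j.2, List.getD_eq_getElem _ _ i.2] at this
        exact this hij.symm
      · have := h2 i.1 i.2 j.1 h
        rw [List.getD_eq_getElem _ _ j.2, List.getD_eq_getElem _ _ i.2] at this
        exact this hij
    have hset : {m | m < n ∧ q m} = (l.toFinset : Set ℕ) := by
      ext m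
      simp only [Set.mem_ofPred_eq, List.coe_toFinset]
      constructor
      · rintro ⟨hm, hq⟩
        obtain ⟨i, hi, he⟩ := h3 m hm hq
        rw [List.getD_eq_getElem _ _ hi] at he
        rw [← he]
        exact List.getElem_mem _
      · intro hm
        obtain ⟨i, hi, he⟩ := List.getElem_of_mem hm
        have := h1 i hi
        rw [List.getD_eq_getElem _ _ hi, he] at this
        exact this
    unfold UC.cnt
    rw [hset, Set.ncard_coe_finset, List.toFinset_card_of_nodup hnd, hl]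

theorem ArX_eq_nat : ComputablePred (fun z : ℕ × ℕ => z.1 = z.2) :=
  PrimrecPred.computablePred (Primrec.eq (α := ℕ))

theorem ArX_lt_nat : ComputablePred (fun z : ℕ × ℕ => z.1 < z.2) :=
  PrimrecPred.computablePred Primrec.nat_lt

theorem ArX_getD {γ : Type} [Primcodable γ] {f : γ → List ℕ} {g : γ → ℕ} (hf : Computable f)
    (hg : Computable g) : Computable (fun a => (f a).getD (g a) 0) :=
  (((Primrec.list_getD 0).to_comp).comp hf hg)

theorem ArX_length {γ : Type} [Primcodable γ] {f : γ → List ℕ} (hf : Computable f) :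
    Computable (fun a => (f a).length) :=
  Primrec.list_length.to_comp.comp hf

/-- `cnt = k` iff there is a list `l` without repetitions, of length `k`, with `m ∈ l ↔ m < n ∧ p (a, m)`. -/
theorem IsAr.cnt {p : α × ℕ → Prop} (hp : IsAr p) :
    IsAr (fun z : α × ℕ × ℕ => UC.cnt (fun m => p (z.1, m)) z.2.1 = z.2.2) := by
  -- the components of `w : (α × ℕ × ℕ) × List ℕ`
  have A0 : Computable (fun w : (α × ℕ × ℕ) × List ℕ => w.1.1) :=
    Computable.fst.comp Computable.fst
  have A1 : Computable (fun w : (α × ℕ × ℕ) × List ℕ => w.1.2.1) :=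
    Computable.fst.comp (Computable.snd.comp Computable.fst)
  have A2 : Computable (fun w : (α × ℕ × ℕ) × List ℕ => w.1.2.2) :=
    Computable.snd.comp (Computable.snd.comp Computable.fst)
  have A3 : Computable (fun w : (α × ℕ × ℕ) × List ℕ => w.2) := Computable.snd
  have A4 : Computable (fun w : (α × ℕ × ℕ) × List ℕ => w.2.length) := ArX_length A3
  -- the first condition
  have B1 : IsAr (fun w : (α × ℕ × ℕ) × List ℕ => w.2.length = w.1.2.2) :=
    (ar_of_computable ArX_eq_nat).comp (f := fun w : (α × ℕ × ℕ) × List ℕ => (w.2.length, w.1.2.2))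
      (A4.pair A2)
  -- the second condition
  have G1 : Computable (fun v : ((α × ℕ × ℕ) × List ℕ) × ℕ => v.1.2.getD v.2 0) :=
    ArX_getD (A3.comp Computable.fst) Computable.snd
  have B2 : IsAr (fun w : (α × ℕ × ℕ) × List ℕ => ∀ i < w.2.length,
      w.2.getD i 0 < w.1.2.1 ∧ p (w.1.1, w.2.getD i 0)) := by
    have C1 : IsAr (fun v : ((α × ℕ × ℕ) × List ℕ) × ℕ => v.1.2.getD v.2 0 < v.1.1.2.1) :=
      (ar_of_computable ArX_lt_nat).comp
        (f := fun v : ((α × ℕ × ℕ) × List ℕ) × ℕ => (v.1.2.getD v.2 0, v.1.1.2.1))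
        (G1.pair (A1.comp Computable.fst))
    have C2 : IsAr (fun v : ((α × ℕ × ℕ) × List ℕ) × ℕ => p (v.1.1.1, v.1.2.getD v.2 0)) :=
      hp.comp (f := fun v : ((α × ℕ × ℕ) × List ℕ) × ℕ => (v.1.1.1, v.1.2.getD v.2 0))
        ((A0.comp Computable.fst).pair G1)
    exact ArX_ball (C1.and C2) A4
  -- the third condition
  have B3 : IsAr (fun w : (α × ℕ × ℕ) × List ℕ => ∀ i < w.2.length, ∀ j < i,
      w.2.getD i 0 ≠ w.2.getD j 0) := by
    have C1 : IsAr (fun u : (((α × ℕ × ℕ) × List ℕ) × ℕ) × ℕ =>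
        u.1.1.2.getD u.1.2 0 ≠ u.1.1.2.getD u.2 0) :=
      (ar_of_computable (ArX_ne (β := ℕ))).comp
        (f := fun u : (((α × ℕ × ℕ) × List ℕ) × ℕ) × ℕ =>
          (u.1.1.2.getD u.1.2 0, u.1.1.2.getD u.2 0))
        ((G1.comp Computable.fst).pair
          (ArX_getD (A3.comp (Computable.fst.comp Computable.fst)) Computable.snd))
    exact ArX_ball (ArX_ball C1 Computable.snd) A4
  -- the fourth condition
  have B4 : IsAr (fun w : (α × ℕ × ℕ) × List ℕ => ∀ m < w.1.2.1, p (w.1.1, m) →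
      ∃ i < w.2.length, w.2.getD i 0 = m) := by
    have C1 : IsAr (fun v : ((α × ℕ × ℕ) × List ℕ) × ℕ => p (v.1.1.1, v.2)) :=
      hp.comp (f := fun v : ((α × ℕ × ℕ) × List ℕ) × ℕ => (v.1.1.1, v.2))
        ((A0.comp Computable.fst).pair Computable.snd)
    have C2 : IsAr (fun u : (((α × ℕ × ℕ) × List ℕ) × ℕ) × ℕ => u.1.1.2.getD u.2 0 = u.1.2) :=
      (ar_of_computable ArX_eq_nat).comp
        (f := fun u : (((α × ℕ × ℕ) × List ℕ) × ℕ) × ℕ => (u.1.1.2.getD u.2 0, u.1.2))
        ((ArX_getD (A3.comp (Computable.fst.comp Computable.fst)) Computable.snd).pair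
          (Computable.snd.comp Computable.fst))
    exact ArX_ball (C1.imp (ArX_bex C2 (A4.comp Computable.fst))) A1
  refine (IsAr.ex (p := fun w : (α × ℕ × ℕ) × List ℕ => w.2.length = w.1.2.2 ∧
      (∀ i < w.2.length, w.2.getD i 0 < w.1.2.1 ∧ p (w.1.1, w.2.getD i 0)) ∧
      (∀ i < w.2.length, ∀ j < i, w.2.getD i 0 ≠ w.2.getD j 0) ∧
      (∀ m < w.1.2.1, p (w.1.1, m) → ∃ i < w.2.length, w.2.getD i 0 = m))
      (B1.and (B2.and (B3.and B4)))).of_eq (fun z => ?_)
  exact (ArX_cnt_iff (fun m => p (z.1, m)) z.2.1 z.2.2).symm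

end Pool.Agent.H78.UC
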