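import Pool.Agent.H78.UC.ArX

/-!
Project UC, part C: arithmetical bijections which respect an equivalence.
-/

set_option autoImplicit false

namespace Pool.Agent.H78.UC

open Pool.Agent.H80

open Classical in
private theorem Match_cnt (p : ℕ → Prop) (n : ℕ) : cnt p n = Nat.count p n := by
  unfold cnt
  rw [Nat.count_eq_card_filter_range, ← Set.ncard_coe_finset]
  congr 1
  ext m
  simp

open Classical in
/-- The matching. -/
private noncomputable def Match_beta (E : ℕ → ℕ → ℕ → Prop) (p v : ℕ) : ℕ :=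
  Nat.nth (fun d => E p v d) (Nat.count (fun v' => ∃ d, E p v d ∧ E p v' d) v)

open Classical in
private theorem Match_iff {E : ℕ → ℕ → ℕ → Prop}
    (hdif : ∀ p v v' d d', E p v d → E p v' d → E p v' d' → E p v d')
    (h1 : ∀ p v, {d | E p v d}.Infinite) (p v d : ℕ) : Match_beta E p v = d ↔
      (E p v d ∧ ∃ k, cnt (fun v' => E p v' d) v = k ∧ cnt (fun d' => E p v d') d = k) := by
  have hV : ∀ d, E p v d → (fun v' => ∃ d, E p v d ∧ E p v' d) = (fun v' => E p v' d) := by
    intro d hd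
    funext v'
    apply propext
    constructor
    · rintro ⟨d0, h0, h0'⟩
      exact hdif p v' v d0 d h0' h0 hd
    · intro h
      exact ⟨d, hd, h⟩
  unfold Match_beta
  constructor
  · intro h
    have hd : E p v d := by
      rw [← h]
      exact Nat.nth_mem_of_infinite (p := fun d => E p v d) (h1 p v) _
    refine ⟨hd, Nat.count (fun v' => E p v' d) v, Match_cnt _ _, ?_⟩
    rw [Match_cnt]
    simp only [hV d hd] at h
    have h2 := Nat.count_nth_of_infinite (p := fun d => E p v d) (h1 p v)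
      (Nat.count (fun v' => E p v' d) v)
    rw [h] at h2
    exact h2
  · rintro ⟨hd, k, hk1, hk2⟩
    simp only [hV d hd]
    rw [Match_cnt] at hk1 hk2
    rw [hk1, ← hk2]
    exact Nat.nth_count (p := fun d => E p v d) hd

/-- `E p v d` relates the elements `v` of one copy of `ℕ` and the elements `d` of another copy (`p` is a parameter).
`β p v = d` iff `E p v d` and `cnt (fun v' => E p v' d) v = cnt (fun d' => E p v d') d`. -/
theorem exists_match {E : ℕ → ℕ → ℕ → Prop} (hE : IsAr (fun z : (ℕ × ℕ) × ℕ => E z.1.1 z.1.2 z.2))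
    (hdif : ∀ p v v' d d', E p v d → E p v' d → E p v' d' → E p v d')
    (h1 : ∀ p v, {d | E p v d}.Infinite) (h2 : ∀ p d, {v | E p v d}.Infinite) :
    ∃ β : ℕ → ℕ → ℕ, (∀ p, Function.Bijective (β p)) ∧ (∀ p v, E p v (β p v)) ∧
      IsAr (fun z : (ℕ × ℕ) × ℕ => β z.1.1 z.1.2 = z.2) := by
  classical
  refine ⟨Match_beta E, fun p => ⟨?_, ?_⟩, fun p v => ?_, ?_⟩
  · intro v v' hvv
    obtain ⟨a1, k, a2, a3⟩ := (Match_iff hdif h1 p v _).1 rfl
    obtain ⟨b1, k', b2, b3⟩ := (Match_iff hdif h1 p v' _).1 rfl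
    rw [← hvv] at b1 b2 b3
    have hD : (fun d' => E p v d') = (fun d' => E p v' d') := by
      funext d'
      apply propext
      constructor
      · intro h
        exact hdif p v' v _ d' b1 a1 h
      · intro h
        exact hdif p v v' _ d' a1 b1 h
    rw [hD] at a3
    have hk : k = k' := a3.symm.trans b3
    rw [Match_cnt] at a2 b2
    have e1 := Nat.nth_count (p := fun v' => E p v' (Match_beta E p v)) (n := v) a1
    have e2 := Nat.nth_count (p := fun v' => E p v' (Match_beta E p v)) (n := v') b1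
    rw [a2] at e1
    rw [b2, ← hk] at e2
    exact e1.symm.trans e2
  · intro d
    obtain ⟨v0, hv0⟩ : ∃ v0, E p v0 d := (h2 p d).nonempty
    obtain ⟨v, hv⟩ : ∃ v, v = Nat.nth (fun v => E p v d) (Nat.count (fun d' => E p v0 d') d) :=
      ⟨_, rfl⟩
    have hvd : E p v d := by
      rw [hv]
      exact Nat.nth_mem_of_infinite (p := fun v => E p v d) (h2 p d) _
    refine ⟨v, (Match_iff hdif h1 p v d).2 ⟨hvd, Nat.count (fun d' => E p v0 d') d, ?_, ?_⟩⟩
    · rw [Match_cnt, hv]
      exact Nat.count_nth_of_infinite (p := fun v => E p v d) (h2 p d) _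
    · rw [Match_cnt]
      have hD : (fun d' => E p v d') = (fun d' => E p v0 d') := by
        funext d'
        apply propext
        constructor
        · intro h
          exact hdif p v0 v _ d' hv0 hvd h
        · intro h
          exact hdif p v v0 _ d' hvd hv0 h
      simp only [hD]
  · exact ((Match_iff hdif h1 p v _).1 rfl).1
  · have hA : IsAr (fun w : (ℕ × ℕ) × ℕ × ℕ => cnt (fun m => E w.1.1 m w.1.2) w.2.1 = w.2.2) := by
      have h3 : IsAr (fun z : (ℕ × ℕ) × ℕ => E z.1.1 z.2 z.1.2) :=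
        hE.comp (f := fun z : (ℕ × ℕ) × ℕ => ((z.1.1, z.2), z.1.2))
          (((Primrec.fst.comp Primrec.fst).pair Primrec.snd).pair
            (Primrec.snd.comp Primrec.fst)).to_comp
      exact IsAr.cnt h3
    have hB : IsAr (fun w : (ℕ × ℕ) × ℕ × ℕ => cnt (fun m => E w.1.1 w.1.2 m) w.2.1 = w.2.2) :=
      IsAr.cnt hE
    have hA' : IsAr (fun z : ((ℕ × ℕ) × ℕ) × ℕ =>
        cnt (fun v' => E z.1.1.1 v' z.1.2) z.1.1.2 = z.2) :=
      hA.comp (f := fun z : ((ℕ × ℕ) × ℕ) × ℕ => ((z.1.1.1, z.1.2), (z.1.1.2, z.2)))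
        (((Primrec.fst.comp (Primrec.fst.comp Primrec.fst)).pair (Primrec.snd.comp Primrec.fst)).pair
          ((Primrec.snd.comp (Primrec.fst.comp Primrec.fst)).pair Primrec.snd)).to_comp
    have hB' : IsAr (fun z : ((ℕ × ℕ) × ℕ) × ℕ =>
        cnt (fun d' => E z.1.1.1 z.1.1.2 d') z.1.2 = z.2) :=
      hB.comp (f := fun z : ((ℕ × ℕ) × ℕ) × ℕ => ((z.1.1.1, z.1.1.2), (z.1.2, z.2)))
        (((Primrec.fst.comp (Primrec.fst.comp Primrec.fst)).pair
          (Primrec.snd.comp (Primrec.fst.comp Primrec.fst))).pair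
          ((Primrec.snd.comp Primrec.fst).pair Primrec.snd)).to_comp
    exact (hE.and (hA'.and hB').ex).of_eq fun z => (Match_iff hdif h1 z.1.1 z.1.2 z.2).symm

end Pool.Agent.H78.UC
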