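import Pool.Agent.H78.UC.TyZ
import Pool.Agent.H78.UC.Match

/-!
Project UC, part C: the base presentation.  `S 0` is `ℕ` with the constants `c p m`, `S 1` is `ℕ` and the type of `v` is
`τ v.unpair.1` (`p` is a parameter).
-/

set_option autoImplicit false

namespace Pool.Agent.H78.UC

open Pool.Agent.H80

variable {N : ℕ} {T : ℕ → Finset ℕ → Set (List ℕ)}

theorem Base_TyZ_update {c : ℕ → ℕ} (z : Fin (N + 1) → ℕ) (x : ℕ) :
    TyZ N T c (Function.update z (Fin.last N) x) = TyZ N T c z := by
  have hne : ∀ t : Fin (N + 1), t.val < N → Function.update z (Fin.last N) x t = z t := by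
    intro t ht
    apply Function.update_of_ne
    intro h
    rw [h] at ht
    simp at ht
  have he : eset N (Function.update z (Fin.last N) x) = eset N z := by
    ext y
    constructor
    · rintro ⟨t, ht, h⟩
      exact ⟨t, ht, by rw [← hne t ht]; exact h⟩
    · rintro ⟨t, ht, h⟩
      exact ⟨t, ht, by rw [hne t ht]; exact h⟩
  have hcs : cset N (fun m x => x = c m) (Function.update z (Fin.last N) x) =
      cset N (fun m x => x = c m) z := by
    ext y
    constructor
    · rintro ⟨t, ht, h⟩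
      refine ⟨t, ht, ?_⟩
      rw [hne t ht] at h
      exact h
    · rintro ⟨t, ht, h⟩
      refine ⟨t, ht, ?_⟩
      rw [hne t ht]
      exact h
  unfold TyZ
  rw [he, hcs]

theorem Base_ar (hT : IsTy N T) {c : ℕ → ℕ → ℕ} (hc : Computable₂ c)
    (hci : ∀ p, Function.Injective (c p)) {τ : ℕ → Set (List ℕ)}
    (hτa : IsAr (fun p : ℕ × List ℕ => p.2 ∈ τ p.1)) :
    IsAr (fun z : (ℕ × ℕ) × ℕ => τ z.1.2.unpair.1 = TyZ N T (c z.1.1) (utc N z.2)) := by
  have h1 : IsAr (fun y : ((ℕ × ℕ) × ℕ) × List ℕ => y.2 ∈ τ y.1.1.2.unpair.1) := by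
    have hf : Computable (fun y : ((ℕ × ℕ) × ℕ) × List ℕ => (y.1.1.2.unpair.1, y.2)) :=
      Computable.pair
        (Computable.fst.comp (Computable.unpair.comp
          (Computable.snd.comp (Computable.fst.comp Computable.fst)))) Computable.snd
    exact hτa.comp hf
  have h2 : IsAr (fun y : ((ℕ × ℕ) × ℕ) × List ℕ => y.2 ∈ TyZ N T (c y.1.1.1) (utc N y.1.2)) := by
    have hf : Computable (fun y : ((ℕ × ℕ) × ℕ) × List ℕ => ((y.1.1.1, y.1.2), y.2)) :=
      Computable.pair (Computable.pair (Computable.fst.comp (Computable.fst.comp Computable.fst))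
        (Computable.snd.comp Computable.fst)) Computable.snd
    exact (TyZ_ar hT hc hci).comp hf
  refine (h1.iff h2).all.of_eq ?_
  intro a
  exact Set.ext_iff.symm

/-- `exists_match` for `E p v d`: `τ v.unpair.1 = TyZ N T (c p) (utc N d)`.  The classes are infinite, because
`v.unpair.2` and the last coordinate of `utc N d` are arbitrary. -/
theorem exists_base (hT : IsTy N T) (hN : 1 ≤ N) {c : ℕ → ℕ → ℕ} (hc : Computable₂ c)
    (hci : ∀ p, Function.Injective (c p)) {τ : ℕ → Set (List ℕ)}
    (hτ : ∀ p, Set.range τ = realz N T (Set.range (c p))ᶜ.encard)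
    (hτa : IsAr (fun p : ℕ × List ℕ => p.2 ∈ τ p.1)) :
    ∃ β : ℕ → ℕ → ℕ, (∀ p, Function.Bijective (β p)) ∧
      (∀ p v, τ v.unpair.1 = TyZ N T (c p) (utc N (β p v))) ∧
      IsAr (fun z : (ℕ × ℕ) × ℕ => β z.1.1 z.1.2 = z.2) := by
  refine exists_match (E := fun p v d => τ v.unpair.1 = TyZ N T (c p) (utc N d))
    (Base_ar hT hc hci hτa) ?_ ?_ ?_
  · intro p v v' d d' h1 h2 h3
    rw [h1, ← h2, h3]
  · intro p v
    have hmem : τ v.unpair.1 ∈ Set.range (TyZ N T (c p)) := by
      rw [range_TyZ hN (hci p), ← hτ p]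
      exact ⟨_, rfl⟩
    obtain ⟨z, hz⟩ := hmem
    refine Set.infinite_of_injective_forall_mem
      (f := fun x : ℕ => tc (N + 1) (Function.update z (Fin.last N) x)) ?_ ?_
    · intro x y hxy
      have h := congrArg (utc N) hxy
      simp only [utc_tc] at h
      have h' := congrFun h (Fin.last N)
      simpa using h'
    · intro x
      show τ v.unpair.1 = TyZ N T (c p) (utc N (tc (N + 1) (Function.update z (Fin.last N) x)))
      rw [utc_tc, Base_TyZ_update, hz]
  · intro p d
    have hmem : TyZ N T (c p) (utc N d) ∈ Set.range τ := by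
      rw [hτ p, ← range_TyZ hN (hci p)]
      exact ⟨_, rfl⟩
    obtain ⟨a, ha⟩ := hmem
    refine Set.infinite_of_injective_forall_mem (f := fun x : ℕ => Nat.pair a x) ?_ ?_
    · intro x y hxy
      have h := congrArg (fun n => (Nat.unpair n).2) hxy
      simpa using h
    · intro x
      show τ (Nat.pair a x).unpair.1 = TyZ N T (c p) (utc N d)
      rw [Nat.unpair_pair]
      exact ha

end Pool.Agent.H78.UC
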