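import Pool.Agent.H78.UC.Cls

/-!
Project UC, part B: cardinalities.
-/

set_option autoImplicit false

namespace Pool.Agent.H78.UC

open FirstOrder Cardinal

variable {N h : ℕ} {T : ℕ → Finset ℕ → Set (List ℕ)} {U U' : Type}
  {S C P : ℕ → U → Prop} {R : ∀ i, (Fin (N + 2 + i) → U) → Prop}
  {S' C' P' : ℕ → U' → Prop} {R' : ∀ i, (Fin (N + 2 + i) → U') → Prop}

theorem CardD_const (hM : IsUC N h T S C P R) : ∃ c : ℕ → {x // S 0 x},
    Function.Injective c ∧ ∀ m, C m (c m).1 := by
  choose c hc using hM.c_ex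
  refine ⟨fun m => ⟨c m, hM.c_sort m _ (hc m)⟩, ?_, hc⟩
  intro m m' he
  have he' : c m = c m' := congrArg Subtype.val he
  exact hM.c_inj m m' (c m) (hc m) (by rw [he']; exact hc m')

/-- The sort `S 0` contains infinitely many constants. -/
theorem infinite_S0 (hM : IsUC N h T S C P R) : Infinite {x // S 0 x} := by
  obtain ⟨c, hc, -⟩ := CardD_const hM
  exact Infinite.of_injective c hc

/-- tuples -/
theorem CardD_tuple {κ : Cardinal.{0}} (hκ : ℵ₀ ≤ κ) {A : Set U} (hA : #A ≤ κ) (n : ℕ) :
    #(Fin n → A) ≤ κ := by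
  have h1 : #(Fin n → A) = #A ^ n := by simp
  rw [h1]
  calc #A ^ n ≤ κ ^ n := by gcongr
    _ ≤ κ := Cardinal.power_nat_le hκ

theorem CardD_sort (hM : IsUC N h T S C P R) : ∀ i ≤ h + 1,
    #({x | ∃ j ≤ i, S j x} : Set U) ≤ #{x // S 0 x} := by
  have hinf : ℵ₀ ≤ #{x // S 0 x} := by
    have := infinite_S0 hM
    exact Cardinal.aleph0_le_mk _
  intro i
  induction i with
  | zero =>
    intro _
    have : ({x | ∃ j ≤ 0, S j x} : Set U) = {x | S 0 x} := by
      ext x
      simp
    rw [this]
    exact le_refl _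
  | succ i ih =>
    intro hi
    have ih' := ih (by omega)
    have hsub : ({x | ∃ j ≤ i + 1, S j x} : Set U) ⊆ {x | ∃ j ≤ i, S j x} ∪ {x | S (i + 1) x} := by
      rintro x ⟨j, hj, hx⟩
      rcases Nat.lt_or_ge i j with h1 | h1
      · right
        have : j = i + 1 := by omega
        rw [← this]
        exact hx
      · left
        exact ⟨j, h1, hx⟩
    have key : #({x | S (i + 1) x} : Set U) ≤ #{x // S 0 x} := by
      rcases Nat.eq_zero_or_pos i with h0 | h0
      · subst h0
        -- the elements of `S 1`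
        have H : ∀ v : ({x | S (0 + 1) x} : Set U), ∃ d : Fin (N + 1) → ({x | ∃ j ≤ 0, S j x} : Set U),
            R 0 (Fin.snoc (α := fun _ => U) (fun t => (d t).1) v.1) := by
          intro v
          obtain ⟨d, hd, -⟩ := hM.zero_fun v.1 v.2
          have hs := hM.r_sort 0 (Nat.zero_le _) _ hd
          refine ⟨fun t => ⟨d t, 0, le_refl _, ?_⟩, hd⟩
          have h1 := hs (Fin.castSucc (n := N + 1) t)
          have h2 : (Fin.snoc (α := fun _ => U) d v.1 : Fin (N + 1 + 1) → U) (Fin.castSucc t) = d t :=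
            Fin.snoc_castSucc (α := fun _ => U) _ _ _
          have h3 : (Fin.castSucc (n := N + 1) t).val - N = 0 := by
            have := t.2
            simp only [Fin.val_castSucc]
            omega
          rw [h3] at h1
          rw [← h2]
          exact h1
        choose F hF using H
        have hinj : Function.Injective F := by
          intro v v' he
          have h1 := hF v
          have h2 := hF v'
          rw [he] at h1
          have hs : ∀ t, S 0 ((F v' t).1) := by
            intro t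
            obtain ⟨j, hj, hx⟩ := (F v' t).2
            obtain rfl : j = 0 := by omega
            exact hx
          exact Subtype.ext ((hM.zero_bij _ hs).unique h1 h2)
        exact (Cardinal.mk_le_of_injective hinj).trans (CardD_tuple hinf ih' _)
      · obtain ⟨i, rfl⟩ := Nat.exists_eq_succ_of_ne_zero (Nat.pos_iff_ne_zero.1 h0)
        have hih : i < h := by omega
        have H : ∀ v : ({x | S (i.succ + 1) x} : Set U), ∃ d : Fin (N + 2 + i) →
            ({x | ∃ j ≤ i.succ, S j x} : Set U),
            R (i + 1) (Fin.snoc (α := fun _ => U) (fun t => (d t).1) v.1) := by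
          intro v
          obtain ⟨z, hz, -⟩ := hM.step_fun i hih v.1 v.2
          have hs := hM.r_sort (i + 1) (by omega) _ hz
          refine ⟨fun t => ⟨z t, t.val - N, ?_, ?_⟩, hz⟩
          · have := t.2
            simp only [Nat.succ_eq_add_one]
            omega
          · have h1 := hs (Fin.castSucc (n := N + 2 + i) t)
            have h2 : (Fin.snoc (α := fun _ => U) z v.1 : Fin (N + 2 + i + 1) → U)
                (Fin.castSucc t) = z t := Fin.snoc_castSucc (α := fun _ => U) _ _ _
            rw [← h2]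
            exact h1
        choose F hF using H
        have hinj : Function.Injective F := by
          intro v v' he
          have h1 := hF v
          have h2 := hF v'
          rw [he] at h1
          exact Subtype.ext (hM.step_inj i hih _ _ _ h1 h2)
        exact (Cardinal.mk_le_of_injective hinj).trans (CardD_tuple hinf ih' _)
    calc #({x | ∃ j ≤ i + 1, S j x} : Set U)
        ≤ #(({x | ∃ j ≤ i, S j x} ∪ {x | S (i + 1) x} : Set U)) := Cardinal.mk_le_mk_of_subset hsub
      _ ≤ #({x | ∃ j ≤ i, S j x} : Set U) + #({x | S (i + 1) x} : Set U) := Cardinal.mk_union_le _ _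
      _ ≤ #{x // S 0 x} + #{x // S 0 x} := add_le_add ih' key
      _ = #{x // S 0 x} := Cardinal.add_eq_self hinf

/-- The elements of `S 1` are determined by tuples of elements of `S 0`, the elements of `S (i + 2)` by tuples of elements of
lower sorts; so each sort has at most as many elements as `S 0`. -/
theorem card_S0 (hM : IsUC N h T S C P R) : #{x // S 0 x} = #U := by
  refine le_antisymm (Cardinal.mk_subtype_le _) ?_
  have h1 := CardD_sort hM (h + 1) le_rfl
  have h2 : ({x | ∃ j ≤ h + 1, S j x} : Set U) = Set.univ := by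
    ext x
    simp only [Set.mem_univ, iff_true]
    exact hM.sort_ex x
  rw [h2, Cardinal.mk_univ] at h1
  exact h1

/-- There are only countably many constants. -/
theorem card_gen (hM : IsUC N h T S C P R) (hU : ℵ₀ < #U) :
    #{x // S 0 x ∧ ∀ m, ¬ C m x} = #U := by
  refine le_antisymm (Cardinal.mk_subtype_le _) ?_
  by_contra hlt
  rw [not_le] at hlt
  have h1 : #({x | S 0 x} : Set U) ≤ #({x | S 0 x ∧ ∀ m, ¬ C m x} : Set U) +
      #(⋃ m, {x | C m x} : Set U) := by
    refine (Cardinal.mk_le_mk_of_subset ?_).trans (Cardinal.mk_union_le _ _)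
    intro x hx
    by_cases h : ∃ m, C m x
    · right
      exact Set.mem_iUnion.2 h
    · left
      exact ⟨hx, fun m hm => h ⟨m, hm⟩⟩
  have h2 : #(⋃ m, {x | C m x} : Set U) ≤ ℵ₀ := by
    rw [Cardinal.le_aleph0_iff_set_countable]
    refine Set.countable_iUnion (fun m => ?_)
    refine Set.Subsingleton.countable ?_
    intro x hx y hy
    exact hM.c_uniq m x y hx hy
  have h3 : #U ≤ #({x | S 0 x ∧ ∀ m, ¬ C m x} : Set U) + ℵ₀ := by
    rw [← card_S0 hM]
    exact h1.trans (add_le_add le_rfl h2)
  exact absurd h3 (not_le.2 (Cardinal.add_lt_of_lt hU.le hlt hU))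

theorem CardD_sum (hM : IsUC N h T S C P R) :
    ∃ f : ({x // S 0 x ∧ ∀ m, ¬ C m x} ⊕ ℕ) ≃ {x // S 0 x},
      (∀ m g, ¬ C m (f (Sum.inl g)).1) ∧ ∀ m k, C m (f (Sum.inr k)).1 ↔ m = k := by
  obtain ⟨c, hc, hC⟩ := CardD_const hM
  let F : ({x // S 0 x ∧ ∀ m, ¬ C m x} ⊕ ℕ) → {x // S 0 x} := fun y =>
    Sum.elim (fun g => ⟨g.1, g.2.1⟩) c y
  have hF : Function.Bijective F := by
    constructor
    · rintro (g | k) (g' | k') he
      · have h1 : g.1 = g'.1 := congrArg (fun y : {x // S 0 x} => y.1) he
        exact congrArg Sum.inl (Subtype.ext h1)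
      · exfalso
        have h1 : g.1 = (c k').1 := congrArg (fun y : {x // S 0 x} => y.1) he
        exact g.2.2 k' (by rw [h1]; exact hC k')
      · exfalso
        have h1 : (c k).1 = g'.1 := congrArg (fun y : {x // S 0 x} => y.1) he
        exact g'.2.2 k (by rw [← h1]; exact hC k)
      · have h1 : c k = c k' := he
        exact congrArg Sum.inr (hc h1)
    · intro x
      by_cases h : ∃ m, C m x.1
      · obtain ⟨m, hm⟩ := h
        exact ⟨Sum.inr m, Subtype.ext (hM.c_uniq m _ _ (hC m) hm)⟩
      · exact ⟨Sum.inl ⟨x.1, x.2, fun m hm => h ⟨m, hm⟩⟩, rfl⟩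
  refine ⟨Equiv.ofBijective F hF, fun m g => g.2.2 m, fun m k => ?_⟩
  constructor
  · intro hm
    exact hM.c_inj m k _ hm (hC k)
  · rintro rfl
    exact hC m

theorem exists_D_equiv (hM : IsUC N h T S C P R) (hM' : IsUC N h T S' C' P' R')
    (hc : #{x // S 0 x ∧ ∀ m, ¬ C m x} = #{x // S' 0 x ∧ ∀ m, ¬ C' m x}) :
    ∃ e : {x // S 0 x} ≃ {x // S' 0 x}, ∀ m x, C m x.1 ↔ C' m (e x).1 := by
  obtain ⟨f, hf1, hf2⟩ := CardD_sum hM
  obtain ⟨f', hf1', hf2'⟩ := CardD_sum hM'
  obtain ⟨g⟩ := Cardinal.eq.1 hc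
  refine ⟨f.symm.trans ((Equiv.sumCongr g (Equiv.refl ℕ)).trans f'), fun m x => ?_⟩
  obtain ⟨y, rfl⟩ := f.surjective x
  rcases y with y | k
  · have h1 : (f.symm.trans ((Equiv.sumCongr g (Equiv.refl ℕ)).trans f')) (f (Sum.inl y)) =
        f' (Sum.inl (g y)) := by simp
    rw [h1]
    exact ⟨fun h => absurd h (hf1 m y), fun h => absurd h (hf1' m (g y))⟩
  · have h1 : (f.symm.trans ((Equiv.sumCongr g (Equiv.refl ℕ)).trans f')) (f (Sum.inr k)) =
        f' (Sum.inr k) := by simp
    rw [h1, hf2, hf2']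

end Pool.Agent.H78.UC
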