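import Pool.Agent.H78.UC.Rdef

/-!
Project UC, part B: the class is elementary.
-/

set_option autoImplicit false

namespace Pool.Agent.H78.UC

open FirstOrder Cardinal

/-- The relations of the structure. -/
def Thy_R (N h : ℕ) (M : Type) [(RL (arU N h)).Structure M] (i : ℕ) (z : Fin (N + 2 + i) → M) :
    Prop :=
  ∀ hi : i ≤ h, Rf N h (h - i) i (by omega) M z

theorem Thy_R_iff {N h : ℕ} {M : Type} [(RL (arU N h)).Structure M] {i : ℕ} (hi : i ≤ h)
    (z : Fin (N + 2 + i) → M) : Thy_R N h M i z ↔ Rf N h (h - i) i (by omega) M z := by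
  unfold Thy_R
  exact ⟨fun H => H hi, fun H _ => H⟩

theorem Thy_R_top {N h : ℕ} {M : Type} [(RL (arU N h)).Structure M]
    (z : Fin (N + 2 + h) → M) : Thy_R N h M h z ↔ sQ N h M z := by
  rw [Thy_R_iff le_rfl]
  have key : ∀ (k : ℕ) (hk : h + k = h), Rf N h k h hk M z ↔ sQ N h M z := by
    intro k hk
    obtain rfl : k = 0 := by omega
    rfl
  exact key _ _

theorem Thy_fo_R (N h i : ℕ) :
    IsFO (RL (arU N h)) (n := N + 2 + i) (fun M _ z => Thy_R N h M i z) := by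
  by_cases hi : i ≤ h
  · exact (isFO_Rf N h (h - i) i (by omega)).of_iff (fun M _ z => (Thy_R_iff hi z).symm)
  · refine (isFO_const True).of_iff (fun M _ z => ?_)
    exact ⟨fun _ hi' => absurd hi' hi, fun _ => trivial⟩

theorem Thy_congr {N h : ℕ} {T : ℕ → Finset ℕ → Set (List ℕ)} {U : Type} {S C P : ℕ → U → Prop}
    {R R' : ∀ i, (Fin (N + 2 + i) → U) → Prop} (H : IsUC N h T S C P R)
    (hR : ∀ i ≤ h, ∀ z, R i z ↔ R' i z) : IsUC N h T S C P R' := by
  refine ⟨H.sort_ex, H.sort_uniq, H.c_ex, H.c_uniq, H.c_sort, H.c_inj, ?_, ?_, ?_, ?_, ?_, ?_,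
    H.p_sort, ?_⟩
  · intro i hi z hz
    exact H.r_sort i hi z ((hR i hi z).2 hz)
  · intro v hv
    obtain ⟨d, hd, hu⟩ := H.zero_fun v hv
    exact ⟨d, (hR 0 (Nat.zero_le _) _).1 hd, fun d' hd' => hu d' ((hR 0 (Nat.zero_le _) _).2 hd')⟩
  · intro d hd
    obtain ⟨v, hv, hu⟩ := H.zero_bij d hd
    exact ⟨v, (hR 0 (Nat.zero_le _) _).1 hv, fun d' hd' => hu d' ((hR 0 (Nat.zero_le _) _).2 hd')⟩
  · intro i hi z
    rw [← hR i hi.le z, H.step_iff i hi z]
    constructor
    · rintro ⟨h1, h2⟩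
      exact ⟨h1, fun ⟨w, hw⟩ => h2 ⟨w, (hR (i + 1) hi _).2 hw⟩⟩
    · rintro ⟨h1, h2⟩
      exact ⟨h1, fun ⟨w, hw⟩ => h2 ⟨w, (hR (i + 1) hi _).1 hw⟩⟩
  · intro i hi w hw
    obtain ⟨z, hz, hu⟩ := H.step_fun i hi w hw
    exact ⟨z, (hR (i + 1) hi _).1 hz, fun d' hd' => hu d' ((hR (i + 1) hi _).2 hd')⟩
  · intro i hi z w w' h1 h2
    exact H.step_inj i hi z w w' ((hR (i + 1) hi _).2 h1) ((hR (i + 1) hi _).2 h2)
  · intro k z hz
    exact H.p_iff k z ((hR 0 (Nat.zero_le _) _).2 hz)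

theorem Thy_cls_iff {N h : ℕ} {T : ℕ → Finset ℕ → Set (List ℕ)} {M : Type}
    [(RL (arU N h)).Structure M] :
    Cls N h T M ↔ IsUC N h T (sS N h M) (sC N h M) (sP N h M) (Thy_R N h M) := by
  constructor
  · rintro ⟨R, hR, hQ⟩
    refine Thy_congr hR (fun i hi z => ?_)
    rw [Thy_R_iff hi z]
    exact (Rf_eq hR hQ (h - i) i (by omega) z).symm
  · intro H
    exact ⟨Thy_R N h M, H, Thy_R_top⟩

/-- The type of the tuple from the numbers below `r`. -/
def Thy_G (N : ℕ) (T : ℕ → Finset ℕ → Set (List ℕ)) (r k : ℕ) {U : Type} (C : ℕ → U → Prop)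
    (z : Fin (N + 2) → U) : Prop :=
  ∃ u : Finset ℕ, (u : Set ℕ) = {c | c < r ∧ c ∈ cset N C z} ∧ dec k ∈ T (eset N z).ncard u

/-- The same, from the equalities and the truth of `C c (z t)`. -/
def Thy_F (N : ℕ) (T : ℕ → Finset ℕ → Set (List ℕ)) (r k : ℕ)
    (q : (Fin (N + 2) × Fin (N + 2)) ⊕ (Fin r × Fin (N + 2)) → Prop) : Prop :=
  ∃ u : Finset ℕ, (u : Set ℕ) = {c | ∃ hc : c < r, ∃ t : Fin (N + 2), t.val < N ∧
    q (Sum.inr (⟨c, hc⟩, t))} ∧ dec k ∈ T ({A : Set (Fin (N + 2)) | ∃ t : Fin (N + 2), t.val < N ∧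
      A = {t' | q (Sum.inl (t, t'))}}.ncard) u

theorem Thy_ncard (N : ℕ) {U : Type} (z : Fin (N + 2) → U) :
    ({A : Set (Fin (N + 2)) | ∃ t : Fin (N + 2), t.val < N ∧ A = {t' | z t = z t'}}).ncard =
      (eset N z).ncard := by
  have h1 : {A : Set (Fin (N + 2)) | ∃ t : Fin (N + 2), t.val < N ∧ A = {t' | z t = z t'}} =
      (fun x => {t' | x = z t'}) '' (eset N z) := by
    ext A
    constructor
    · rintro ⟨t, ht, hA⟩
      exact ⟨z t, ⟨t, ht, rfl⟩, hA.symm⟩
    · rintro ⟨x, ⟨t, ht, rfl⟩, hA⟩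
      exact ⟨t, ht, hA.symm⟩
  rw [h1]
  refine Set.InjOn.ncard_image ?_
  rintro x ⟨t, ht, rfl⟩ y ⟨t', ht', rfl⟩ hxy
  have h2 : t ∈ {t'' | z t' = z t''} := by
    have h3 : t ∈ {t'' | z t = z t''} := rfl
    have h4 : {t'' | z t = z t''} = {t'' | z t' = z t''} := hxy
    rw [← h4]; exact h3
  exact h2.symm

theorem Thy_F_iff (N : ℕ) (T : ℕ → Finset ℕ → Set (List ℕ)) (r k : ℕ) {U : Type}
    (C : ℕ → U → Prop) (z : Fin (N + 2) → U) :
    Thy_F N T r k (fun a => match a with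
      | Sum.inl p => z p.1 = z p.2
      | Sum.inr p => C p.1.val (z p.2)) ↔ Thy_G N T r k C z := by
  unfold Thy_F Thy_G
  have h1 : {c | ∃ hc : c < r, ∃ t : Fin (N + 2), t.val < N ∧ C c (z t)} =
      {c | c < r ∧ c ∈ cset N C z} := by
    ext c
    constructor
    · rintro ⟨hc, t, ht, h⟩
      exact ⟨hc, t, ht, h⟩
    · rintro ⟨hc, t, ht, h⟩
      exact ⟨hc, t, ht, h⟩
  have h2 := Thy_ncard N z
  constructor
  · rintro ⟨u, hu, hw⟩
    refine ⟨u, ?_, ?_⟩
    · rw [← h1]; exact hu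
    · rw [← h2]; exact hw
  · rintro ⟨u, hu, hw⟩
    refine ⟨u, ?_, ?_⟩
    · rw [← h1] at hu; exact hu
    · rw [← h2] at hw; exact hw

theorem Thy_fo_S (N h : ℕ) {n : ℕ} (i : ℕ) (j : Fin n) :
    IsFO (RL (arU N h)) (n := n) (fun M _ v => sS N h M i (v j)) :=
  isFO_rel (ar := arU N h) (3 * i + 1) (fun _ => j)

theorem Thy_fo_C (N h : ℕ) {n : ℕ} (i : ℕ) (j : Fin n) :
    IsFO (RL (arU N h)) (n := n) (fun M _ v => sC N h M i (v j)) :=
  isFO_rel (ar := arU N h) (3 * i + 2) (fun _ => j)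

theorem Thy_fo_P (N h : ℕ) {n : ℕ} (i : ℕ) (j : Fin n) :
    IsFO (RL (arU N h)) (n := n) (fun M _ v => sP N h M i (v j)) :=
  isFO_rel (ar := arU N h) (3 * i + 3) (fun _ => j)

theorem Thy_fo_G (N h : ℕ) (T : ℕ → Finset ℕ → Set (List ℕ)) (r k : ℕ) :
    IsFO (RL (arU N h)) (n := N + 2) (fun M _ z => Thy_G N T r k (sC N h M) z) := by
  have h1 := isFO_of_data (L := RL (arU N h)) (n := N + 2)
    (ι := (Fin (N + 2) × Fin (N + 2)) ⊕ (Fin r × Fin (N + 2)))
    (fun a M _ z => match a with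
      | Sum.inl p => z p.1 = z p.2
      | Sum.inr p => sC N h M p.1.val (z p.2))
    (fun a => by
      rcases a with p | p
      · exact isFO_eq p.1 p.2
      · exact Thy_fo_C N h p.1.val p.2) (Thy_F N T r k)
  exact h1.of_iff (fun M _ z => Thy_F_iff N T r k (sC N h M) z)

theorem Thy_allT {L : FirstOrder.Language.{0, 0}} {m : ℕ}
    {P : ∀ (M : Type) [L.Structure M], (Fin m → M) → Prop} (hP : IsFO L P) :
    IsFO L (n := 0) (fun M _ _ => ∀ z : Fin m → M, P M z) := by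
  have h1 := (hP.reindex (n := 0 + m) (Fin.natAdd 0)).all_tuple
  refine h1.of_iff (fun M _ v => ?_)
  refine forall_congr' (fun x => ?_)
  have h2 : (fun i => Fin.append v x (Fin.natAdd 0 i)) = x := by
    funext i
    exact Fin.append_right v x i
  rw [h2]

theorem Thy_all1 {L : FirstOrder.Language.{0, 0}}
    {P : ∀ (M : Type) [L.Structure M], (Fin 1 → M) → Prop} (hP : IsFO L P) :
    IsFO L (n := 0) (fun M _ _ => ∀ x : M, P M (fun _ => x)) := by
  refine (Thy_allT hP).of_iff (fun M _ v => ?_)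
  constructor
  · intro H x
    exact H (fun _ => x)
  · intro H z
    have h1 : z = (fun _ => z 0) := by
      funext i
      rw [Subsingleton.elim i 0]
    rw [h1]
    exact H (z 0)

theorem Thy_ex1 {L : FirstOrder.Language.{0, 0}}
    {P : ∀ (M : Type) [L.Structure M], (Fin 1 → M) → Prop} (hP : IsFO L P) :
    IsFO L (n := 0) (fun M _ _ => ∃ x : M, P M (fun _ => x)) := by
  refine (Thy_all1 hP.not).not.of_iff (fun M _ v => ?_)
  push Not
  rfl

theorem Thy_exT {L : FirstOrder.Language.{0, 0}} {n m : ℕ}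
    {P : ∀ (M : Type) [L.Structure M], (Fin n → M) → (Fin m → M) → Prop}
    (hP : IsFO L (n := n + m) (fun M _ w => P M (fun t => w (Fin.castAdd m t))
      (fun t => w (Fin.natAdd n t)))) :
    IsFO L (n := n) (fun M _ v => ∃ z : Fin m → M, P M v z) := by
  refine hP.ex_tuple.of_iff (fun M _ v => ?_)
  refine exists_congr (fun x => ?_)
  have h1 : (fun t => Fin.append v x (Fin.castAdd m t)) = v := by
    funext t
    exact Fin.append_left v x t
  have h2 : (fun t => Fin.append v x (Fin.natAdd n t)) = x := by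
    funext t
    exact Fin.append_right v x t
  rw [h1, h2]

theorem Thy_allF {L : FirstOrder.Language.{0, 0}} {n a : ℕ}
    {P : Fin a → ∀ (M : Type) [L.Structure M], (Fin n → M) → Prop} (hP : ∀ t, IsFO L (P t)) :
    IsFO L (n := n) (fun M _ v => ∀ t, P t M v) :=
  isFO_of_data (ι := Fin a) P hP (fun q => ∀ t, q t)

/-- The names of the axioms. -/
inductive Thy_I : Type
  | ex : Thy_I
  | uq : ℕ → ℕ → Thy_I
  | ce : ℕ → Thy_I
  | cu : ℕ → Thy_I
  | cs : ℕ → Thy_I
  | ci : ℕ → ℕ → Thy_I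
  | rs : ℕ → Thy_I
  | z1 : Thy_I
  | z2 : Thy_I
  | z3 : Thy_I
  | z4 : Thy_I
  | s1 : ℕ → Thy_I
  | s2 : ℕ → Thy_I
  | s3 : ℕ → Thy_I
  | s4 : ℕ → Thy_I
  | ps : ℕ → Thy_I
  | pi : ℕ → Thy_I

/-- The axioms. -/
def Thy_Ax (N h : ℕ) (T : ℕ → Finset ℕ → Set (List ℕ)) (r : ℕ → ℕ) (a : Thy_I) (M : Type)
    [(RL (arU N h)).Structure M] : Prop :=
  match a with
  | .ex => ∀ x : M, ∃ i : Fin (h + 2), sS N h M i.val x
  | .uq i j => ∀ x : M, sS N h M i x → sS N h M j x → i = j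
  | .ce m => ∃ x : M, sC N h M m x
  | .cu m => ∀ z : Fin 2 → M, sC N h M m (z 0) → sC N h M m (z 1) → z 0 = z 1
  | .cs m => ∀ x : M, sC N h M m x → sS N h M 0 x
  | .ci m m' => ∀ x : M, sC N h M m x → sC N h M m' x → m = m'
  | .rs i => ∀ z : Fin (N + 2 + i) → M, i ≤ h → Thy_R N h M i z → Zs N (sS N h M) z
  | .z1 => ∀ v : M, sS N h M 1 v → ∃ z : Fin (N + 2) → M, Thy_R N h M 0 z ∧
      z (Fin.last (N + 1)) = v
  | .z2 => ∀ z : Fin ((N + 2) + (N + 2)) → M, Thy_R N h M 0 (fun t => z (Fin.castAdd _ t)) →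
      Thy_R N h M 0 (fun t => z (Fin.natAdd _ t)) →
      z (Fin.castAdd _ (Fin.last (N + 1))) = z (Fin.natAdd _ (Fin.last (N + 1))) →
      ∀ t : Fin (N + 2), z (Fin.castAdd _ t) = z (Fin.natAdd _ t)
  | .z3 => ∀ d : Fin (N + 1) → M, (∀ t, sS N h M 0 (d t)) →
      ∃ v : M, Thy_R N h M 0 (Fin.snoc (α := fun _ => M) d v)
  | .z4 => ∀ z : Fin ((N + 2) + (N + 2)) → M, Thy_R N h M 0 (fun t => z (Fin.castAdd _ t)) →
      Thy_R N h M 0 (fun t => z (Fin.natAdd _ t)) →
      (∀ t : Fin (N + 1), z (Fin.castAdd _ (Fin.castSucc t)) = z (Fin.natAdd _ (Fin.castSucc t))) →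
      z (Fin.castAdd _ (Fin.last (N + 1))) = z (Fin.natAdd _ (Fin.last (N + 1)))
  | .s1 i => ∀ z : Fin (N + 2 + i) → M, i < h → (Thy_R N h M i z ↔ Zs N (sS N h M) z ∧
      ¬ ∃ w : M, Thy_R N h M (i + 1) (Fin.snoc (α := fun _ => M) z w))
  | .s2 i => ∀ v : M, i < h → sS N h M (i + 2) v → ∃ z : Fin (N + 2 + i + 1) → M,
      Thy_R N h M (i + 1) z ∧ z (Fin.last (N + 2 + i)) = v
  | .s3 i => ∀ z : Fin ((N + 2 + i + 1) + (N + 2 + i + 1)) → M, i < h →
      Thy_R N h M (i + 1) (fun t => z (Fin.castAdd _ t)) →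
      Thy_R N h M (i + 1) (fun t => z (Fin.natAdd _ t)) →
      z (Fin.castAdd _ (Fin.last (N + 2 + i))) = z (Fin.natAdd _ (Fin.last (N + 2 + i))) →
      ∀ t : Fin (N + 2 + i + 1), z (Fin.castAdd _ t) = z (Fin.natAdd _ t)
  | .s4 i => ∀ z : Fin ((N + 2 + i + 1) + (N + 2 + i + 1)) → M, i < h →
      Thy_R N h M (i + 1) (fun t => z (Fin.castAdd _ t)) →
      Thy_R N h M (i + 1) (fun t => z (Fin.natAdd _ t)) →
      (∀ t : Fin (N + 2 + i), z (Fin.castAdd _ (Fin.castSucc t)) =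
        z (Fin.natAdd _ (Fin.castSucc t))) →
      z (Fin.castAdd _ (Fin.last (N + 2 + i))) = z (Fin.natAdd _ (Fin.last (N + 2 + i)))
  | .ps k => ∀ v : M, sP N h M k v → sS N h M 1 v
  | .pi k => ∀ z : Fin (N + 2) → M, Thy_R N h M 0 z →
      (sP N h M k (z (Fin.last (N + 1))) ↔ Thy_G N T (r k) k (sC N h M) z)

theorem Thy_fo_Ax (N h : ℕ) (T : ℕ → Finset ℕ → Set (List ℕ)) (r : ℕ → ℕ) (a : Thy_I) :
    IsFO (RL (arU N h)) (n := 0) (fun M _ _ => Thy_Ax N h T r a M) := by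
  have hR0 : ∀ (i n : ℕ) (g : Fin (N + 2 + i) → Fin n),
      IsFO (RL (arU N h)) (n := n) (fun M _ v => Thy_R N h M i (fun t => v (g t))) := by
    intro i n g
    exact (Thy_fo_R N h i).reindex g
  cases a with
  | ex =>
    exact Thy_all1 (P := fun M _ v => ∃ i : Fin (h + 2), sS N h M i.val (v 0))
      (isFO_of_data (ι := Fin (h + 2)) (fun i M _ v => sS N h M i.val (v 0))
        (fun i => Thy_fo_S N h i.val 0) (fun q => ∃ t, q t))
  | uq i j =>
    exact Thy_all1 (P := fun M _ v => sS N h M i (v 0) → sS N h M j (v 0) → i = j)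
      ((Thy_fo_S N h i 0).imp ((Thy_fo_S N h j 0).imp (isFO_const (i = j))))
  | ce m =>
    exact Thy_ex1 (P := fun M _ v => sC N h M m (v 0)) (Thy_fo_C N h m 0)
  | cu m =>
    exact Thy_allT ((Thy_fo_C N h m 0).imp ((Thy_fo_C N h m 1).imp (isFO_eq 0 1)))
  | cs m =>
    exact Thy_all1 (P := fun M _ v => sC N h M m (v 0) → sS N h M 0 (v 0))
      ((Thy_fo_C N h m 0).imp (Thy_fo_S N h 0 0))
  | ci m m' =>
    exact Thy_all1 (P := fun M _ v => sC N h M m (v 0) → sC N h M m' (v 0) → m = m')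
      ((Thy_fo_C N h m 0).imp ((Thy_fo_C N h m' 0).imp (isFO_const (m = m'))))
  | rs i =>
    exact Thy_allT ((isFO_const (i ≤ h)).imp ((Thy_fo_R N h i).imp (isFO_Zs N h (N + 2 + i))))
  | z1 =>
    refine Thy_all1 (P := fun M _ v => sS N h M 1 (v 0) → ∃ z : Fin (N + 2) → M,
      Thy_R N h M 0 z ∧ z (Fin.last (N + 1)) = v 0) ?_
    refine (Thy_fo_S N h 1 0).imp ?_
    refine Thy_exT (P := fun M _ v z => Thy_R N h M 0 z ∧ z (Fin.last (N + 1)) = v 0) ?_
    exact (hR0 0 _ (Fin.natAdd 1)).and (isFO_eq _ _)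
  | z2 =>
    exact Thy_allT ((hR0 0 _ (Fin.castAdd _)).imp ((hR0 0 _ (Fin.natAdd _)).imp
      ((isFO_eq _ _).imp (Thy_allF (fun t => isFO_eq _ _)))))
  | z3 =>
    refine Thy_allT ((Thy_allF (fun t => Thy_fo_S N h 0 t)).imp ?_)
    exact (Thy_fo_R N h 0).ex
  | z4 =>
    exact Thy_allT ((hR0 0 _ (Fin.castAdd _)).imp ((hR0 0 _ (Fin.natAdd _)).imp
      ((Thy_allF (fun t => isFO_eq _ _)).imp (isFO_eq _ _))))
  | s1 i =>
    refine Thy_allT ((isFO_const (i < h)).imp ((Thy_fo_R N h i).iff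
      ((isFO_Zs N h (N + 2 + i)).and ?_)))
    exact (Thy_fo_R N h (i + 1)).ex.not
  | s2 i =>
    refine Thy_all1 (P := fun M _ v => i < h → sS N h M (i + 2) (v 0) →
      ∃ z : Fin (N + 2 + i + 1) → M,
      Thy_R N h M (i + 1) z ∧ z (Fin.last (N + 2 + i)) = v 0) ?_
    refine (isFO_const (i < h)).imp ((Thy_fo_S N h (i + 2) 0).imp ?_)
    refine Thy_exT (P := fun M _ v z => Thy_R N h M (i + 1) z ∧
      z (Fin.last (N + 2 + i)) = v 0) ?_
    exact (hR0 (i + 1) _ (Fin.natAdd 1)).and (isFO_eq _ _)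
  | s3 i =>
    exact Thy_allT ((isFO_const (i < h)).imp ((hR0 (i + 1) _ (Fin.castAdd _)).imp
      ((hR0 (i + 1) _ (Fin.natAdd _)).imp
      ((isFO_eq _ _).imp (Thy_allF (fun t => isFO_eq _ _))))))
  | s4 i =>
    exact Thy_allT ((isFO_const (i < h)).imp ((hR0 (i + 1) _ (Fin.castAdd _)).imp
      ((hR0 (i + 1) _ (Fin.natAdd _)).imp
      ((Thy_allF (fun t => isFO_eq _ _)).imp (isFO_eq _ _)))))
  | ps k =>
    exact Thy_all1 (P := fun M _ v => sP N h M k (v 0) → sS N h M 1 (v 0))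
      ((Thy_fo_P N h k 0).imp (Thy_fo_S N h 1 0))
  | pi k =>
    exact Thy_allT ((Thy_fo_R N h 0).imp ((Thy_fo_P N h k _).iff (Thy_fo_G N h T (r k) k)))

/-- Uniqueness, from tuples of double length. -/
theorem Thy_pair {M : Type} {m : ℕ} {Q : (Fin (m + m) → M) → Prop} (H : ∀ z, Q z)
    (z z' : Fin m → M) : Q (Fin.append z z') := H _

theorem Thy_append1 {M : Type} {m : ℕ} (z z' : Fin m → M) :
    (fun t => Fin.append z z' (Fin.castAdd m t)) = z := by
  funext t
  exact Fin.append_left z z' t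

theorem Thy_append2 {M : Type} {m : ℕ} (z z' : Fin m → M) :
    (fun t => Fin.append z z' (Fin.natAdd m t)) = z' := by
  funext t
  exact Fin.append_right z z' t

theorem Thy_snoc_eq {M : Type} {m : ℕ} (z : Fin (m + 1) → M) (v : M) (hv : z (Fin.last m) = v) :
    Fin.snoc (α := fun _ => M) (fun t => z (Fin.castSucc t)) v = z := by
  subst hv
  exact Fin.snoc_init_self z

theorem Thy_card {N : ℕ} {U : Type} {C : ℕ → U → Prop}
    (hC : ∀ m m' x, C m x → C m' x → m = m') (z : Fin (N + 2) → U) :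
    (cset N C z).Finite ∧ (cset N C z).ncard ≤ (eset N z).ncard ∧ (eset N z).ncard ≤ N := by
  classical
  haveI : Nonempty U := ⟨z 0⟩
  have hE : (eset N z).Finite := by
    refine (Set.finite_range z).subset ?_
    rintro x ⟨t, _, rfl⟩
    exact ⟨t, rfl⟩
  have h1 : ∀ c ∈ cset N C z, ∃ x, x ∈ eset N z ∧ C c x := by
    rintro c ⟨t, ht, hc⟩
    exact ⟨z t, ⟨t, ht, rfl⟩, hc⟩
  choose! g hg hgc using h1
  have hinj : Set.InjOn g (cset N C z) := by
    intro a ha b hb hab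
    refine hC a b (g a) (hgc a ha) ?_
    rw [hab]
    exact hgc b hb
  have hmap : Set.MapsTo g (cset N C z) (eset N z) := hg
  have hfin : (cset N C z).Finite := Set.Finite.of_injOn hmap hinj hE
  refine ⟨hfin, Set.ncard_le_ncard_of_injOn g hmap hinj hE, ?_⟩
  have h2 : eset N z ⊆ (fun t : Fin N => z (Fin.castLE (by omega) t)) '' Set.univ := by
    rintro x ⟨t, ht, rfl⟩
    exact ⟨⟨t.val, ht⟩, trivial, rfl⟩
  have h3 := Set.ncard_le_ncard h2 (Set.toFinite _)
  have h4 := Set.ncard_image_le (f := fun t : Fin N => z (Fin.castLE (by omega) t))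
    (s := Set.univ) (Set.toFinite _)
  rw [Set.ncard_univ, Nat.card_fin] at h4
  exact h3.trans h4

theorem Thy_G_iff {N : ℕ} {T : ℕ → Finset ℕ → Set (List ℕ)} {r k : ℕ}
    (hr : ∀ s ≤ N, ∀ u : Finset ℕ, u.card ≤ s →
      (dec k ∈ T s u ↔ dec k ∈ T s (u.filter fun m => m < r))) {U : Type} {C : ℕ → U → Prop}
    (hC : ∀ m m' x, C m x → C m' x → m = m') (z : Fin (N + 2) → U) :
    Thy_G N T r k C z ↔
      ∃ u : Finset ℕ, (u : Set ℕ) = cset N C z ∧ dec k ∈ T (eset N z).ncard u := by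
  classical
  obtain ⟨h1, h2, h3⟩ := Thy_card hC z
  obtain ⟨w, hw⟩ : ∃ w : Finset ℕ, (w : Set ℕ) = cset N C z := ⟨h1.toFinset, h1.coe_toFinset⟩
  have hwc : w.card ≤ (eset N z).ncard := by
    rw [← Set.ncard_coe_finset w, hw]; exact h2
  have h4 := hr (eset N z).ncard h3 w hwc
  have h5 : ((w.filter fun m => m < r : Finset ℕ) : Set ℕ) = {c | c < r ∧ c ∈ cset N C z} := by
    ext c
    rw [Finset.mem_coe, Finset.mem_filter, ← Finset.mem_coe, hw]
    exact ⟨fun h => ⟨h.2, h.1⟩, fun h => ⟨h.2, h.1⟩⟩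
  constructor
  · rintro ⟨u, hu, hk⟩
    refine ⟨w, hw, h4.2 ?_⟩
    have h6 : u = w.filter fun m => m < r := by
      apply Finset.coe_injective
      rw [hu, h5]
    rw [← h6]; exact hk
  · rintro ⟨u, hu, hk⟩
    have h6 : u = w := by
      apply Finset.coe_injective
      rw [hu, hw]
    rw [h6] at hk
    exact ⟨_, h5, h4.1 hk⟩

theorem Thy_main {N h : ℕ} {T : ℕ → Finset ℕ → Set (List ℕ)} {r : ℕ → ℕ}
    (hr : ∀ k, ∀ s ≤ N, ∀ u : Finset ℕ, u.card ≤ s →
      (dec k ∈ T s u ↔ dec k ∈ T s (u.filter fun m => m < r k)))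
    (M : Type) [(RL (arU N h)).Structure M] :
    (∀ a, Thy_Ax N h T r a M) ↔
      IsUC N h T (sS N h M) (sC N h M) (sP N h M) (Thy_R N h M) := by
  constructor
  · intro H
    have hci : ∀ m m' x, sC N h M m x → sC N h M m' x → m = m' := fun m m' x => H (.ci m m') x
    refine ⟨?_, fun i j x => H (.uq i j) x, fun m => H (.ce m), ?_, fun m x => H (.cs m) x, hci,
      fun i hi z hz => H (.rs i) z hi hz, ?_, ?_, fun i hi z => H (.s1 i) z hi, ?_, ?_,
      fun k v => H (.ps k) v, ?_⟩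
    · intro x
      obtain ⟨i, hi⟩ := H .ex x
      exact ⟨i.val, by omega, hi⟩
    · intro m x y hx hy
      exact H (.cu m) ![x, y] hx hy
    · intro v hv
      obtain ⟨z, hz, hzv⟩ := H .z1 v hv
      refine ⟨fun t => z (Fin.castSucc t), ?_, ?_⟩
      · show Thy_R N h M 0 (Fin.snoc (α := fun _ => M) (fun t => z (Fin.castSucc t)) v)
        rw [Thy_snoc_eq z v hzv]
        exact hz
      · intro d hd
        have h1 := H .z2 (Fin.append (m := N + 2) (Fin.snoc (α := fun _ => M) d v) z)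
        rw [Thy_append1, Thy_append2] at h1
        have h2 := h1 hd hz (by
          rw [Fin.append_left, Fin.append_right, Fin.snoc_last, hzv])
        funext t
        have h3 := h2 (Fin.castSucc t)
        rw [Fin.append_left, Fin.append_right, Fin.snoc_castSucc] at h3
        exact h3
    · intro d hd
      obtain ⟨v, hv⟩ := H .z3 d hd
      refine ⟨v, hv, ?_⟩
      intro v' hv'
      have h1 := H .z4 (Fin.append (m := N + 2) (Fin.snoc (α := fun _ => M) d v')
        (Fin.snoc (α := fun _ => M) d v))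
      rw [Thy_append1, Thy_append2] at h1
      have h2 := h1 hv' hv (fun t => by
        rw [Fin.append_left, Fin.append_right, Fin.snoc_castSucc, Fin.snoc_castSucc])
      rw [Fin.append_left, Fin.append_right, Fin.snoc_last, Fin.snoc_last] at h2
      exact h2
    · intro i hi v hv
      obtain ⟨z, hz, hzv⟩ := H (.s2 i) v hi hv
      refine ⟨fun t => z (Fin.castSucc t), ?_, ?_⟩
      · exact (congrArg (Thy_R N h M (i + 1)) (Thy_snoc_eq z v hzv)).mpr hz
      · intro d hd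
        have h1 := H (.s3 i) (Fin.append (m := N + 2 + i + 1) (Fin.snoc (α := fun _ => M) d v) z) hi
        have h2 := h1 ((congrArg (Thy_R N h M (i + 1)) (Thy_append1 _ _)).mpr hd)
          ((congrArg (Thy_R N h M (i + 1)) (Thy_append2 _ _)).mpr hz) (by
          rw [Fin.append_left, Fin.append_right, Fin.snoc_last, hzv])
        funext t
        have h3 := h2 (Fin.castSucc t)
        rw [Fin.append_left, Fin.append_right, Fin.snoc_castSucc] at h3
        exact h3
    · intro i hi d v' v hv' hv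
      have h1 := H (.s4 i) (Fin.append (m := N + 2 + i + 1) (Fin.snoc (α := fun _ => M) d v')
        (Fin.snoc (α := fun _ => M) d v)) hi
      have h2 := h1 ((congrArg (Thy_R N h M (i + 1)) (Thy_append1 _ _)).mpr hv')
          ((congrArg (Thy_R N h M (i + 1)) (Thy_append2 _ _)).mpr hv) (fun t => by
        rw [Fin.append_left, Fin.append_right, Fin.snoc_castSucc, Fin.snoc_castSucc])
      rw [Fin.append_left, Fin.append_right, Fin.snoc_last, Fin.snoc_last] at h2
      exact h2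
    · intro k z hz
      rw [H (.pi k) z hz]
      exact Thy_G_iff (hr k) hci z
  · intro H a
    cases a with
    | ex =>
      intro x
      obtain ⟨i, hi, hx⟩ := H.sort_ex x
      exact ⟨⟨i, by omega⟩, hx⟩
    | uq i j => exact fun x => H.sort_uniq i j x
    | ce m => exact H.c_ex m
    | cu m => exact fun z => H.c_uniq m (z 0) (z 1)
    | cs m => exact fun x => H.c_sort m x
    | ci m m' => exact fun x => H.c_inj m m' x
    | rs i => exact fun z hi hz => H.r_sort i hi z hz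
    | z1 =>
      intro v hv
      obtain ⟨d, hd, -⟩ := H.zero_fun v hv
      exact ⟨Fin.snoc (α := fun _ => M) d v, hd, Fin.snoc_last (α := fun _ => M) v d⟩
    | z2 =>
      intro z h1 h2 h3 t
      have hS := H.r_sort 0 (Nat.zero_le _) _ h1 (Fin.last (N + 1))
      have hS1 : sS N h M 1 (z (Fin.castAdd _ (Fin.last (N + 1)))) := by
        have e : (Fin.last (N + 1)).val - N = 1 := by
          rw [Fin.val_last]; omega
        rw [e] at hS
        exact hS
      obtain ⟨d, hd, hu⟩ := H.zero_fun _ hS1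
      have e1 := hu (fun t => z (Fin.castAdd (N + 2) (Fin.castSucc t))) (by
        show Thy_R N h M 0 (Fin.snoc (α := fun _ => M) _ _)
        rw [Thy_snoc_eq (fun t => z (Fin.castAdd (N + 2) t)) _ rfl]
        exact h1)
      have e2 := hu (fun t => z (Fin.natAdd (N + 2) (Fin.castSucc t))) (by
        show Thy_R N h M 0 (Fin.snoc (α := fun _ => M) _ _)
        rw [Thy_snoc_eq (fun t => z (Fin.natAdd (N + 2) t)) _ h3.symm]
        exact h2)
      refine Fin.lastCases ?_ (fun i => ?_) t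
      · exact h3
      · have e3 := congrFun (e1.trans e2.symm) i
        exact e3
    | z3 =>
      intro d hd
      obtain ⟨v, hv, -⟩ := H.zero_bij d hd
      exact ⟨v, hv⟩
    | z4 =>
      intro z h1 h2 h3
      have hS : ∀ t : Fin (N + 1), sS N h M 0 (z (Fin.castAdd _ (Fin.castSucc t))) := by
        intro t
        have hS := H.r_sort 0 (Nat.zero_le _) _ h1 (Fin.castSucc t)
        have e : (Fin.castSucc t).val - N = 0 := by
          rw [Fin.val_castSucc]; omega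
        rw [e] at hS
        exact hS
      obtain ⟨v, hv, hu⟩ := H.zero_bij _ hS
      have e1 := hu (z (Fin.castAdd (N + 2) (Fin.last (N + 1)))) (by
        show Thy_R N h M 0 (Fin.snoc (α := fun _ => M) _ _)
        rw [Thy_snoc_eq (fun t => z (Fin.castAdd (N + 2) t)) _ rfl]
        exact h1)
      have e2 := hu (z (Fin.natAdd (N + 2) (Fin.last (N + 1)))) (by
        show Thy_R N h M 0 (Fin.snoc (α := fun _ => M) _ _)
        rw [funext h3]
        rw [Thy_snoc_eq (fun t => z (Fin.natAdd (N + 2) t)) _ rfl]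
        exact h2)
      exact e1.trans e2.symm
    | s1 i => exact fun z hi => H.step_iff i hi z
    | s2 i =>
      intro v hi hv
      obtain ⟨d, hd, -⟩ := H.step_fun i hi v hv
      exact ⟨Fin.snoc (α := fun _ => M) d v, hd, Fin.snoc_last (α := fun _ => M) v d⟩
    | s3 i =>
      intro z hi h1 h2 h3 t
      have hS := H.r_sort (i + 1) hi _ h1 (Fin.last (N + 2 + i))
      have hS1 : sS N h M (i + 2) (z (Fin.castAdd _ (Fin.last (N + 2 + i)))) := by
        have e : (Fin.last (N + 2 + i)).val - N = i + 2 := by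
          rw [Fin.val_last]; omega
        rw [e] at hS
        exact hS
      obtain ⟨d, hd, hu⟩ := H.step_fun i hi _ hS1
      have e1 := hu (fun t => z (Fin.castAdd (N + 2 + i + 1) (Fin.castSucc t))) (by
        show Thy_R N h M (i + 1) (Fin.snoc (α := fun _ => M) _ _)
        rw [Thy_snoc_eq (fun t => z (Fin.castAdd (N + 2 + i + 1) t)) _ rfl]
        exact h1)
      have e2 := hu (fun t => z (Fin.natAdd (N + 2 + i + 1) (Fin.castSucc t))) (by
        show Thy_R N h M (i + 1) (Fin.snoc (α := fun _ => M) _ _)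
        rw [Thy_snoc_eq (fun t => z (Fin.natAdd (N + 2 + i + 1) t)) _ h3.symm]
        exact h2)
      refine Fin.lastCases ?_ (fun j => ?_) t
      · exact h3
      · have e3 := congrFun (e1.trans e2.symm) j
        exact e3
    | s4 i =>
      intro z hi h1 h2 h3
      refine H.step_inj i hi (fun t => z (Fin.castAdd (N + 2 + i + 1) (Fin.castSucc t))) _ _ ?_ ?_
      · rw [Thy_snoc_eq (fun t => z (Fin.castAdd (N + 2 + i + 1) t)) _ rfl]
        exact h1
      · rw [funext h3]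
        rw [Thy_snoc_eq (fun t => z (Fin.natAdd (N + 2 + i + 1) t)) _ rfl]
        exact h2
    | ps k => exact fun v => H.p_sort k v
    | pi k =>
      intro z hz
      rw [Thy_G_iff (hr k) H.c_inj z]
      exact H.p_iff k z hz

/-- For each `k` the statement `p_iff` is first order: by `IsTy.cont` there is `r` such that
`dec k ∈ T s u ↔ dec k ∈ T s (u ∩ [0, r))` for `s ≤ N`, `|u| ≤ s` (here `s` is the number of the elements of `eset N z` and
`|cset N C z| ≤ s` by `c_uniq`, `c_inj`), so it depends only on the equalities between the coordinates of `z` and on the truth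
of `C c (z t)` for `c < r` (`isFO_of_data`). -/
theorem exists_thy {N h : ℕ} {T : ℕ → Finset ℕ → Set (List ℕ)} (hT : IsTy N T) :
    ∃ T0 : (RL (arU N h)).Theory, ∀ (M : Type) [(RL (arU N h)).Structure M],
      M ⊨ T0 ↔ Cls N h T M := by
  choose r hr using fun k : ℕ => hT.cont (dec k)
  obtain ⟨T0, hT0⟩ := exists_theory (L := RL (arU N h)) (fun a M _ => Thy_Ax N h T r a M)
    (Thy_fo_Ax N h T r)
  refine ⟨T0, fun M _ => ?_⟩
  rw [hT0 M, Thy_cls_iff]
  exact Thy_main hr M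

end Pool.Agent.H78.UC
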