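import Pool.Agent.H78.UC.IsoExt
import Pool.Agent.H78.UC.CardD
import Pool.Agent.H78.UC.Thy

/-!
Project UC, part B: categoricity and completeness.
-/

set_option autoImplicit false

namespace Pool.Agent.H78.UC

open FirstOrder Cardinal

variable {N h : ℕ} {T : ℕ → Finset ℕ → Set (List ℕ)}

/-- The relational language is countable. -/
theorem Cat_card_le (ar : ℕ → ℕ) : (RL ar).card ≤ ℵ₀ := by
  have h1 : ∀ n, IsEmpty ((RL ar).Functions n) := fun n => inferInstanceAs (IsEmpty Empty)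
  have h2 : ∀ n, Countable ((RL ar).Relations n) := fun n =>
    inferInstanceAs (Countable {k : ℕ // ar k = n})
  have h3 : Countable (RL ar).Symbols := by
    unfold Language.Symbols
    infer_instance
  exact Cardinal.mk_le_aleph0_iff.mpr h3

theorem cls_iso {M M' : Type} [(RL (arU N h)).Structure M] [(RL (arU N h)).Structure M']
    (hM : Cls N h T M) (hM' : Cls N h T M')
    (hc : #{x : M // sS N h M 0 x ∧ ∀ m, ¬ sC N h M m x} =
      #{x : M' // sS N h M' 0 x ∧ ∀ m, ¬ sC N h M' m x}) :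
    Nonempty (M ≃[RL (arU N h)] M') := by
  obtain ⟨R, hR, hRQ⟩ := hM
  obtain ⟨R', hR', hRQ'⟩ := hM'
  obtain ⟨e, he⟩ := exists_D_equiv hR hR' hc
  obtain ⟨F, hF0, hFS, hFC, hFP, hFR⟩ := iso_ext hR hR' e he
  obtain ⟨g, hg⟩ := exists_iso F hFS hFC hFP (fun x => by
    rw [← hRQ, ← hRQ']
    exact hFR h le_rfl x)
  exact ⟨g⟩

theorem cls_infinite {M : Type} [(RL (arU N h)).Structure M] (hM : Cls N h T M) : Infinite M := by
  obtain ⟨R, hR, hRQ⟩ := hM
  have := infinite_S0 hR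
  exact Infinite.of_injective (fun x : {x : M // sS N h M 0 x} => x.1) Subtype.val_injective

theorem cls_categorical {T0 : (RL (arU N h)).Theory}
    (hT0 : ∀ (M : Type) [(RL (arU N h)).Structure M], M ⊨ T0 ↔ Cls N h T M) (κ : Cardinal.{0})
    (hκ : ℵ₀ < κ) : κ.Categorical T0 := by
  intro A B hA hB
  have hA1 : Cls N h T A := (hT0 A).1 A.is_model
  have hB1 : Cls N h T B := (hT0 B).1 B.is_model
  refine cls_iso hA1 hB1 ?_
  obtain ⟨R, hR, -⟩ := hA1
  obtain ⟨R', hR', -⟩ := hB1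
  rw [card_gen hR (by rw [hA]; exact hκ), card_gen hR' (by rw [hB]; exact hκ), hA, hB]

/-- `Cardinal.Categorical.isComplete` with `κ = ℵ₁`. -/
theorem cls_complete {T0 : (RL (arU N h)).Theory}
    (hT0 : ∀ (M : Type) [(RL (arU N h)).Structure M], M ⊨ T0 ↔ Cls N h T M)
    {M : Type} [(RL (arU N h)).Structure M] (hM : Cls N h T M) : T0.IsComplete := by
  have hi := cls_infinite hM
  have hmod : M ⊨ T0 := (hT0 M).2 hM
  refine Categorical.isComplete.{0, 0, 0} (Order.succ ℵ₀) T0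
    (cls_categorical hT0 _ (Order.lt_succ _)) (Order.le_succ _) ?_ ?_ ?_
  · rw [Cardinal.lift_id, Cardinal.lift_id]
    exact le_trans (Cat_card_le _) (Order.le_succ _)
  · exact Language.Theory.Model.isSatisfiable M
  · intro A
    exact cls_infinite ((hT0 A).1 A.is_model)

theorem gen_iso {M M' : Type} [(RL (arU N h)).Structure M] [(RL (arU N h)).Structure M']
    (e : M ≃[RL (arU N h)] M') : gen N h M = gen N h M' := by
  unfold gen
  have hS : ∀ i x, sS N h M' i (e x) ↔ sS N h M i x := by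
    intro i x
    unfold sS rel
    exact e.map_rel _ _
  have hC : ∀ i x, sC N h M' i (e x) ↔ sC N h M i x := by
    intro i x
    unfold sC rel
    exact e.map_rel _ _
  have himg : {x : M' | sS N h M' 0 x ∧ ∀ m, ¬ sC N h M' m x} =
      e '' {x : M | sS N h M 0 x ∧ ∀ m, ¬ sC N h M m x} := by
    ext y
    constructor
    · rintro ⟨h1, h2⟩
      obtain ⟨x, rfl⟩ := e.surjective y
      exact ⟨x, ⟨(hS 0 x).1 h1, fun m hm => h2 m ((hC m x).2 hm)⟩, rfl⟩
    · rintro ⟨x, ⟨h1, h2⟩, rfl⟩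
      exact ⟨(hS 0 x).2 h1, fun m hm => h2 m ((hC m x).1 hm)⟩
  rw [himg, e.injective.encard_image]

theorem cls_countable_iso {M M' : Type} [(RL (arU N h)).Structure M]
    [(RL (arU N h)).Structure M'] [Countable M] [Countable M'] (hM : Cls N h T M)
    (hM' : Cls N h T M') (hg : gen N h M = gen N h M') : Nonempty (M ≃[RL (arU N h)] M') := by
  refine cls_iso hM hM' ?_
  unfold gen at hg
  have h1 : #{x : M // sS N h M 0 x ∧ ∀ m, ¬ sC N h M m x} ≤ ℵ₀ := Cardinal.mk_le_aleph0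
  have h2 : #{x : M' // sS N h M' 0 x ∧ ∀ m, ¬ sC N h M' m x} ≤ ℵ₀ := Cardinal.mk_le_aleph0
  have h3 : Cardinal.toENat #{x : M // sS N h M 0 x ∧ ∀ m, ¬ sC N h M m x} =
    Cardinal.toENat #{x : M' // sS N h M' 0 x ∧ ∀ m, ¬ sC N h M' m x} := hg
  exact Cardinal.toENat_injOn (Set.mem_Iic.2 h1) (Set.mem_Iic.2 h2) h3

end Pool.Agent.H78.UC
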