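import Pool.Agent.H78.UC.Pt

/-!
Project UC, part A: the output of part A.
-/

set_option autoImplicit false

namespace Pool.Agent.H78.UC

open Pool.Agent.H80

/-- The output of part A.  `T s u` is the type (a set of strings) of a set of `s` elements which contains the constants
with numbers in `u`, and `s - |u|` other elements. -/
structure IsTy (N : ℕ) (T : ℕ → Finset ℕ → Set (List ℕ)) : Prop where
  cont : ∀ w, ∃ r, ∀ s ≤ N, ∀ u : Finset ℕ, u.card ≤ s →
    (w ∈ T s u ↔ w ∈ T s (u.filter fun m => m < r))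
  low : ∀ s, 1 ≤ s → s ≤ N → ∃ g : ℕ → List ℕ, Computable g ∧
    (∀ u : Finset ℕ, u.Nonempty → u.card ≤ s → ∃ a, T s u = {w | w <+: g a}) ∧
    ∀ a, ∃ u : Finset ℕ, u.card = s ∧ T s u = {w | w <+: g a}
  top : ∀ s, 1 ≤ s → s ≤ N →
    IsDelta (s + 1) (fun w => w ∈ T s ∅) ∧ ¬ IsDelta s (fun w => w ∈ T s ∅)
  ar : ∀ s ≤ N, IsAr (fun z : List ℕ × List ℕ => z.1 ∈ T s z.2.toFinset)

/-- The type of the system. -/
def TyS (s : ℕ) (S : ℕ → List ℕ → Prop) (f : ℕ → ℕ) (u : Finset ℕ) : Set (List ℕ) :=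
  {w | Ini s S f (u.sort (· ≥ ·)) w}

end Pool.Agent.H78.UC
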