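import Pool.Agent.H78.UC.Defs
import Pool.Agent.H78.UC.TyDef

/-!
Project UC, part B: the class of structures.

A structure has the sorts `S 0` (the strongly minimal set), `S 1` and `S 2, …, S (h + 1)`, the constants `C m` (unary
predicates with one element), the unary predicates `P k` on `S 1` and one relation of arity `N + 2 + h`.
The relations `R i`, `i ≤ h`, of arity `N + 2 + i`: `R 0` is the graph of a bijection `(S 0) ^ (N + 1) ≃ S 1`
(arguments: the `N + 1` elements of `S 0`, then the element of `S 1`), `R (i + 1)` is the graph of a bijection between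
the set of the sorted tuples `z` with `¬ R i z` and `S (i + 2)` (arguments: `z`, then the element of `S (i + 2)`).
Only `R h` is a relation of the structure, the other `R i` are definable from it.
-/

set_option autoImplicit false

namespace Pool.Agent.H78.UC

open FirstOrder Cardinal

/-- The tuple has the right sorts: the coordinates `0, …, N` are in `S 0`, the coordinate `N + 1` in `S 1`, the
coordinate `N + 1 + j` in `S (j + 1)`. -/
def Zs (N : ℕ) {U : Type} (S : ℕ → U → Prop) {m : ℕ} (z : Fin m → U) : Prop :=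
  ∀ t : Fin m, S (t.val - N) (z t)

/-- The set of the first `N` coordinates. -/
def eset (N : ℕ) {U : Type} {m : ℕ} (z : Fin m → U) : Set U := {x | ∃ t : Fin m, t.val < N ∧ z t = x}

/-- The set of the numbers of the constants among the first `N` coordinates. -/
def cset (N : ℕ) {U : Type} (C : ℕ → U → Prop) {m : ℕ} (z : Fin m → U) : Set ℕ :=
  {c | ∃ t : Fin m, t.val < N ∧ C c (z t)}

/-- The class of structures. -/
structure IsUC (N h : ℕ) (T : ℕ → Finset ℕ → Set (List ℕ)) {U : Type} (S C P : ℕ → U → Prop)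
    (R : ∀ i, (Fin (N + 2 + i) → U) → Prop) : Prop where
  sort_ex : ∀ x, ∃ i ≤ h + 1, S i x
  sort_uniq : ∀ i j x, S i x → S j x → i = j
  c_ex : ∀ m, ∃ x, C m x
  c_uniq : ∀ m x y, C m x → C m y → x = y
  c_sort : ∀ m x, C m x → S 0 x
  c_inj : ∀ m m' x, C m x → C m' x → m = m'
  r_sort : ∀ i ≤ h, ∀ z, R i z → Zs N S z
  zero_fun : ∀ v, S 1 v → ∃! d : Fin (N + 1) → U, R 0 (Fin.snoc (α := fun _ => U) d v)
  zero_bij : ∀ d : Fin (N + 1) → U, (∀ t, S 0 (d t)) → ∃! v, R 0 (Fin.snoc (α := fun _ => U) d v)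
  step_iff : ∀ i < h, ∀ z : Fin (N + 2 + i) → U,
    R i z ↔ Zs N S z ∧ ¬ ∃ w, R (i + 1) (Fin.snoc (α := fun _ => U) z w)
  step_fun : ∀ i < h, ∀ w, S (i + 2) w → ∃! z : Fin (N + 2 + i) → U,
    R (i + 1) (Fin.snoc (α := fun _ => U) z w)
  step_inj : ∀ i < h, ∀ (z : Fin (N + 2 + i) → U) w w', R (i + 1) (Fin.snoc (α := fun _ => U) z w) →
    R (i + 1) (Fin.snoc (α := fun _ => U) z w') → w = w'
  p_sort : ∀ k v, P k v → S 1 v
  p_iff : ∀ k (z : Fin (N + 2) → U), R 0 z → (P k (z (Fin.last (N + 1))) ↔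
    ∃ u : Finset ℕ, (u : Set ℕ) = cset N C z ∧ dec k ∈ T (eset N z).ncard u)

/-- The arities of the language: symbol `0` has arity `N + 2 + h`, all others are unary. -/
def arU (N h : ℕ) : ℕ → ℕ
  | 0 => N + 2 + h
  | _ + 1 => 1

theorem arU_comp (N h : ℕ) : Computable (arU N h) := by
  have h1 : Computable (fun n : ℕ => (Nat.casesOn n (N + 2 + h) (fun _ => 1) : ℕ)) :=
    Computable.nat_casesOn Computable.id (Computable.const (N + 2 + h)) (Computable.const 1).to₂
  refine h1.of_eq ?_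
  rintro (_ | n) <;> rfl

/-- The symbol `3 i + 1` is the sort `i`. -/
def sS (N h : ℕ) (M : Type) [(RL (arU N h)).Structure M] (i : ℕ) (x : M) : Prop :=
  rel (arU N h) M (3 * i + 1) (fun _ => x)

/-- The symbol `3 i + 2` is the constant `i`. -/
def sC (N h : ℕ) (M : Type) [(RL (arU N h)).Structure M] (i : ℕ) (x : M) : Prop :=
  rel (arU N h) M (3 * i + 2) (fun _ => x)

/-- The symbol `3 i + 3` is the predicate `P i`. -/
def sP (N h : ℕ) (M : Type) [(RL (arU N h)).Structure M] (i : ℕ) (x : M) : Prop :=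
  rel (arU N h) M (3 * i + 3) (fun _ => x)

/-- The symbol `0`. -/
def sQ (N h : ℕ) (M : Type) [(RL (arU N h)).Structure M] (x : Fin (N + 2 + h) → M) : Prop :=
  rel (arU N h) M 0 x

/-- The interpretation of all symbols from given relations. -/
def relU (N h : ℕ) {U : Type} (S C P : ℕ → U → Prop) (Q : (Fin (N + 2 + h) → U) → Prop) :
    ∀ k, (Fin (arU N h k) → U) → Prop
  | 0, x => Q x
  | k + 1, x => if k % 3 = 0 then S (k / 3) (x (0 : Fin 1)) else if k % 3 = 1 then
      C (k / 3) (x (0 : Fin 1)) else P (k / 3) (x (0 : Fin 1))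

/-- The structure with given relations. -/
@[reducible] def mkU (N h : ℕ) {U : Type} (S C P : ℕ → U → Prop) (Q : (Fin (N + 2 + h) → U) → Prop) :
    (RL (arU N h)).Structure U where
  funMap := fun f _ => Empty.elim f
  RelMap := fun r x => relU N h S C P Q r.1 (fun i => x (Fin.cast r.2 i))

section

variable {N h : ℕ} {U : Type} (S C P : ℕ → U → Prop) (Q : (Fin (N + 2 + h) → U) → Prop)

theorem sS_mk (i : ℕ) (x : U) : (letI := mkU N h S C P Q; sS N h U i x) ↔ S i x := by
  show (if (3 * i) % 3 = 0 then S ((3 * i) / 3) x else if (3 * i) % 3 = 1 then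
      C ((3 * i) / 3) x else P ((3 * i) / 3) x) ↔ S i x
  have h1 : (3 * i) % 3 = 0 := by omega
  have h2 : (3 * i) / 3 = i := by omega
  rw [if_pos h1, h2]

theorem sC_mk (i : ℕ) (x : U) : (letI := mkU N h S C P Q; sC N h U i x) ↔ C i x := by
  show (if (3 * i + 1) % 3 = 0 then S ((3 * i + 1) / 3) x else if (3 * i + 1) % 3 = 1 then
      C ((3 * i + 1) / 3) x else P ((3 * i + 1) / 3) x) ↔ C i x
  have h1 : (3 * i + 1) % 3 = 1 := by omega
  have h2 : (3 * i + 1) / 3 = i := by omega
  rw [h1, h2, if_neg one_ne_zero, if_pos rfl]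

theorem sP_mk (i : ℕ) (x : U) : (letI := mkU N h S C P Q; sP N h U i x) ↔ P i x := by
  show (if (3 * i + 2) % 3 = 0 then S ((3 * i + 2) / 3) x else if (3 * i + 2) % 3 = 1 then
      C ((3 * i + 2) / 3) x else P ((3 * i + 2) / 3) x) ↔ P i x
  have h1 : (3 * i + 2) % 3 = 2 := by omega
  have h2 : (3 * i + 2) / 3 = i := by omega
  rw [h1, h2, if_neg two_ne_zero, if_neg (by norm_num)]

theorem sQ_mk (x : Fin (N + 2 + h) → U) : (letI := mkU N h S C P Q; sQ N h U x) ↔ Q x :=
  Iff.rfl

theorem rel_mk (k : ℕ) (x : Fin (arU N h k) → U) :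
    (letI := mkU N h S C P Q; rel (arU N h) U k x) ↔ relU N h S C P Q k x :=
  Iff.rfl

end

/-- A bijection which preserves all the relations is an isomorphism. -/
theorem exists_iso {N h : ℕ} {M M' : Type} [(RL (arU N h)).Structure M]
    [(RL (arU N h)).Structure M'] (F : M ≃ M') (hS : ∀ i x, sS N h M i x ↔ sS N h M' i (F x))
    (hC : ∀ i x, sC N h M i x ↔ sC N h M' i (F x)) (hP : ∀ i x, sP N h M i x ↔ sP N h M' i (F x))
    (hQ : ∀ x, sQ N h M x ↔ sQ N h M' (F ∘ x)) :
    ∃ e : M ≃[RL (arU N h)] M', ∀ x, e x = F x := by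
  have key : ∀ (k : ℕ) (x : Fin (arU N h k) → M),
      rel (arU N h) M' k (F ∘ x) ↔ rel (arU N h) M k x := by
    intro k
    rcases k with _ | k
    · intro x
      exact (hQ x).symm
    · intro x
      obtain ⟨a, rfl⟩ : ∃ a, x = fun _ => a := by
        refine ⟨x (0 : Fin 1), ?_⟩
        funext t
        exact congrArg x (Subsingleton.elim (α := Fin 1) t 0)
      obtain ⟨i, hi⟩ : ∃ i, k = 3 * i ∨ k = 3 * i + 1 ∨ k = 3 * i + 2 := ⟨k / 3, by omega⟩
      rcases hi with rfl | rfl | rfl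
      · exact (hS i a).symm
      · exact (hC i a).symm
      · exact (hP i a).symm
  refine ⟨⟨F, fun f => Empty.elim f, ?_⟩, fun x => rfl⟩
  rintro n ⟨k, rfl⟩ x
  exact key k x

/-- The class as a class of structures of the language. -/
def Cls (N h : ℕ) (T : ℕ → Finset ℕ → Set (List ℕ)) (M : Type) [(RL (arU N h)).Structure M] :
    Prop :=
  ∃ R : ∀ i, (Fin (N + 2 + i) → M) → Prop, IsUC N h T (sS N h M) (sC N h M) (sP N h M) R ∧
    ∀ z, R h z ↔ sQ N h M z

/-- The number of the elements of `S 0` which are not constants. -/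
noncomputable def gen (N h : ℕ) (M : Type) [(RL (arU N h)).Structure M] : ℕ∞ :=
  {x : M | sS N h M 0 x ∧ ∀ m, ¬ sC N h M m x}.encard

end Pool.Agent.H78.UC
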