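import Pool.Agent.H78.UC.SysDef

/-!
Project UC, part A: one step down.
-/

set_option autoImplicit false

namespace Pool.Agent.H78.UC

open Pool.Agent.H80

theorem Step_fs_computable : Computable fs := by
  have h : Primrec (fun w : List ℕ => w.map fun x => x.unpair.1) :=
    Primrec.list_map Primrec.id
      ((Primrec.fst.comp (Primrec.unpair.comp Primrec.snd)).to₂)
  exact h.to_comp

theorem Step_fs_length (w : List ℕ) : (fs w).length = w.length := by simp [fs]

theorem Step_next {c : List ℕ → ℕ} {σ u : List ℕ} {b : ℕ} (h : rc c σ ++ [b] <+: rc c u) :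
    ∃ a ≤ b, σ ++ [a] <+: u := by
  obtain ⟨τ, hτ, he⟩ := prefix_rc_iff.1 h
  have hlen : τ.length = σ.length + 1 := by
    have := congrArg List.length he
    simp [rc_length] at this
    exact this.symm
  have hne : τ ≠ [] := by
    intro h0
    rw [h0] at hlen
    simp at hlen
  obtain ⟨τ', a, rfl⟩ : ∃ τ' a, τ = τ' ++ [a] :=
    ⟨τ.dropLast, τ.getLast hne, (List.dropLast_append_getLast hne).symm⟩
  rw [rc_append] at he
  have h1 := List.append_inj' he rfl
  have h2 : σ = τ' := rc_inj h1.1
  have h3 : b = Nat.pair a (c (τ' ++ [a])) := by simpa using h1.2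
  refine ⟨a, ?_, ?_⟩
  · rw [h3]
    exact Nat.left_le_pair _ _
  · rw [h2]
    exact hτ

/-- One step down.  `uniq_pad` for `S (j + 1)` in `Σ⁰ⱼ₊₂` and `m = List.length` gives `R` with `Wit (S (j + 1)) R`,
`R` in `Δ⁰ⱼ₊₁`.  New system: `S' j = LT R`, `S' l = im (stp R) (S l)` for `l > j`, `f' = rcf (stp R) f`.
`fin`, `inf` for `l = j` are `LT_fin`, `LT_inf` (each element of `S' (j + 1)` is of the form `rc σ`); for `l > j` they
follow from the old ones, because `Nat.pair b c ≥ b`.  `im (stp R) (S l) w ↔ im (stp R) (S (j + 1)) w ∧ S l (fs w)`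
for `l > j`; `w = pre f' |w| ↔ im (stp R) (S (j + 1)) w ∧ fs w = pre f |w|`.  `fn`: if the set of the initial
segments of `f'` were `Δ⁰ₛ`, so would be that for `f`: `w = pre f |w|` iff there is (iff for all) `w'` of the same length
with `w' = pre f' |w'|`, `fs w' = w`. -/
theorem step_sys {j s : ℕ} (hj : j + 1 < s) {S : ℕ → List ℕ → Prop} {f : ℕ → ℕ}
    (h : SysFrom (j + 1) s S f) :
    ∃ (S' : ℕ → List ℕ → Prop) (f' : ℕ → ℕ), SysFrom j s S' f' := by
  obtain ⟨R, hRd, hRp, hiff, huniq, hle⟩ := uniq_pad (n := j + 1) h.sig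
    (m := List.length) Primrec.list_length.to_comp
  have hW : Wit (S (j + 1)) R := ⟨h.tree (j + 1) le_rfl hj, hiff, huniq, hle⟩
  have hsub : ∀ l, j + 1 ≤ l → l < s → ∀ σ, S l σ → S (j + 1) σ := by
    intro l hl
    induction l, hl using Nat.le_induction with
    | base => intro _ σ hσ; exact hσ
    | succ l hl ih =>
      intro hls σ hσ
      exact ih (by omega) σ (h.sub l hl hls σ hσ)
  have him : ∀ l, j + 1 ≤ l → l < s → ∀ w,
      (im (stp R) (S (j + 1)) w ∧ S l (fs w)) ↔ im (stp R) (S l) w := by
    intro l hl hls w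
    constructor
    · rintro ⟨⟨σ, _, rfl⟩, h2⟩
      rw [fs_rc] at h2
      exact ⟨σ, h2, rfl⟩
    · rintro ⟨σ, hσ, rfl⟩
      refine ⟨⟨σ, hsub l hl hls σ hσ, rfl⟩, ?_⟩
      rw [fs_rc]
      exact hσ
  have hpath : ∀ w : List ℕ, (im (stp R) (S (j + 1)) w ∧ fs w = pre f (fs w).length) ↔
      w = pre (rcf (stp R) f) w.length := by
    intro w
    rw [← rc_pre, Step_fs_length]
    constructor
    · rintro ⟨⟨σ, _, rfl⟩, h2⟩
      rw [fs_rc] at h2
      rw [← h2]
    · intro hw
      have h1 : fs w = pre f w.length := by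
        conv_lhs => rw [hw]
        rw [fs_rc]
      refine ⟨⟨pre f w.length, hsub (s - 1) (by omega) (by omega) _ (h.path _), hw.symm⟩, h1⟩
  refine ⟨fun l => if l ≤ j then LT R else im (stp R) (S l), rcf (stp R) f, ?_⟩
  have e1 : ∀ l, j ≤ l → ∀ P : (List ℕ → Prop) → Prop, P (LT R) →
      (j + 1 ≤ l → P (im (stp R) (S l))) → P (if l ≤ j then LT R else im (stp R) (S l)) := by
    intro l hl P h1 h2
    split_ifs with h3
    · exact h1
    · exact h2 (by omega)
  have e2 : ∀ l, j < l → (if l ≤ j then LT R else im (stp R) (S l)) = im (stp R) (S l) := by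
    intro l hl
    rw [if_neg (by omega)]
  constructor
  · -- tree
    intro l hl hls
    exact e1 l hl IsTree (LT_tree R) fun h1 => (h.tree l h1 hls).im
  · -- sub
    intro l hl hls σ hσ
    simp only [e2 (l + 1) (by omega)] at hσ
    rcases Nat.eq_or_lt_of_le hl with rfl | hl'
    · simp only [le_refl, if_true]
      exact LT_of_im hW hσ
    · simp only [e2 l hl']
      obtain ⟨τ, hτ, rfl⟩ := hσ
      exact ⟨τ, h.sub l hl' hls τ hτ, rfl⟩
  · -- fin
    intro l hl hls σ hσ B
    simp only [e2 (l + 1) (by omega)] at hσ ⊢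
    rcases Nat.eq_or_lt_of_le hl with rfl | hl'
    · simp only [le_refl, if_true]
      obtain ⟨τ, hτ, rfl⟩ := hσ
      exact LT_fin hW hτ B
    · simp only [e2 l hl']
      obtain ⟨τ, hτ, rfl⟩ := hσ
      refine ((h.fin l hl' hls τ hτ B).image (rc (stp R))).subset ?_
      rintro u ⟨⟨u0, hu0, rfl⟩, h2, b, hb, h3⟩
      obtain ⟨a, ha, h4⟩ := Step_next h3
      exact ⟨u0, ⟨hu0, isLP_im_iff.1 h2, a, by omega, h4⟩, rfl⟩
  · -- inf
    intro l hl hls σ hσ B
    simp only [e2 (l + 1) (by omega)] at hσ ⊢
    rcases Nat.eq_or_lt_of_le hl with rfl | hl'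
    · simp only [le_refl, if_true]
      obtain ⟨τ, hτ, rfl⟩ := hσ
      exact LT_inf hW hτ B
    · simp only [e2 l hl']
      obtain ⟨τ, hτ, rfl⟩ := hσ
      obtain ⟨b, hb, h1, h2⟩ := h.inf l hl' hls τ hτ B
      refine ⟨Nat.pair b (stp R (τ ++ [b])), le_trans hb (Nat.left_le_pair _ _), ?_, ?_⟩
      · rw [← rc_append, im_rc_iff]; exact h1
      · rw [← rc_append, im_rc_iff]; exact h2
  · -- path
    intro n
    simp only [e2 (s - 1) (by omega)]
    rw [← rc_pre, im_rc_iff]
    exact h.path n
  · -- conv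
    intro n
    simp only [e2 (s - 1) (by omega)]
    refine ((h.conv n).image (rc (stp R))).subset ?_
    rintro u ⟨⟨u0, hu0, rfl⟩, h2⟩
    refine ⟨u0, ⟨hu0, fun h3 => h2 ?_⟩, rfl⟩
    rw [← rc_pre]
    exact rc_prefix_iff.2 h3
  · -- sig
    simp only [le_refl, if_true]
    exact (LT_delta hRd).1
  · -- ar
    intro l hl hls
    refine e1 l hl IsAr (ar_of_delta (LT_delta hRd)) fun h1 => ?_
    exact ((ar_of_pi (im_pi hW hRp)).and ((h.ar l h1 hls).comp Step_fs_computable)).of_eq
      (him l h1 hls)
  · -- fd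
    have h1 : IsDelta (s + 1) (im (stp R) (S (j + 1))) :=
      (delta_of_pi (im_pi hW hRp)).mono (by omega)
    exact (h1.and (h.fd.comp Step_fs_computable)).of_eq hpath
  · -- fn
    intro hd
    apply h.fn
    obtain ⟨t, rfl⟩ : ∃ t, s = t + 1 := ⟨s - 1, by omega⟩
    have key : ∀ w w' : List ℕ, w' = pre (rcf (stp R) f) w'.length → w'.length = w.length →
        (fs w' = w ↔ w = pre f w.length) := by
      intro w w' h1 h2
      have h3 := ((hpath w').2 h1).2
      rw [Step_fs_length, h2] at h3
      rw [h3]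
      exact eq_comm
    have hsnd : IsDelta (t + 1)
        (fun z : List ℕ × List ℕ => z.2 = pre (rcf (stp R) f) z.2.length) :=
      hd.comp Computable.snd
    have heq : ComputablePred (fun z : List ℕ × List ℕ => fs z.2 = z.1) := by
      have h1 : PrimrecPred (fun z : List ℕ × List ℕ => z.1 = z.2) :=
        Primrec.eq
      exact cp_comp (p := fun z : List ℕ × List ℕ => z.1 = z.2)
        (f := fun z : List ℕ × List ℕ => (fs z.2, z.1)) h1.computablePred
        ((Step_fs_computable.comp Computable.snd).pair Computable.fst)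
    have hlen : ComputablePred (fun z : List ℕ × List ℕ => z.2.length = z.1.length) := by
      have h1 : PrimrecPred (fun z : ℕ × ℕ => z.1 = z.2) := Primrec.eq
      exact cp_comp (p := fun z : ℕ × ℕ => z.1 = z.2)
        (f := fun z : List ℕ × List ℕ => (z.2.length, z.1.length)) h1.computablePred
        ((Primrec.list_length.to_comp.comp Computable.snd).pair
          (Primrec.list_length.to_comp.comp Computable.fst))
    constructor
    · refine (IsSigma.ex_type (hsnd.and (delta_of_computable heq (t + 1))).1).of_eq fun w => ?_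
      constructor
      · rintro ⟨w', h1, h2⟩
        have h1' : w' = pre (rcf (stp R) f) w'.length := h1
        have h2' : fs w' = w := h2
        refine (key w w' h1' ?_).1 h2'
        rw [← h2', Step_fs_length]
      · intro hw
        refine ⟨pre (rcf (stp R) f) w.length, ?_, ?_⟩
        · rw [pre_length]
        · change fs _ = w
          rw [← rc_pre, fs_rc]
          exact hw.symm
    · have hq : IsDelta (t + 1) (fun z : List ℕ × List ℕ =>
          ¬ (z.2 = pre (rcf (stp R) f) z.2.length ∧ z.2.length = z.1.length) ∨ fs z.2 = z.1) :=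
        ((hsnd.and (delta_of_computable hlen (t + 1))).not).or
          (delta_of_computable heq (t + 1))
      refine (IsPi.all_type hq.2).of_eq fun w => ?_
      constructor
      · intro hall
        have h1 := hall (pre (rcf (stp R) f) w.length)
        have h2 : pre (rcf (stp R) f) w.length =
            pre (rcf (stp R) f) (pre (rcf (stp R) f) w.length).length := by rw [pre_length]
        have h3 : (pre (rcf (stp R) f) w.length).length = w.length := pre_length _ _
        rcases h1 with h1 | h1
        · exact absurd ⟨h2, h3⟩ h1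
        · exact (key w _ h2 h3).1 h1
      · intro hw w'
        by_cases h1 : w' = pre (rcf (stp R) f) w'.length ∧ w'.length = w.length
        · exact Or.inr ((key w w' h1.1 h1.2).2 hw)
        · exact Or.inl h1

end Pool.Agent.H78.UC
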