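import Pool.Agent.H78.UC.Top
import Pool.Agent.H78.UC.Step

/-!
Project UC, part A: existence of the systems.
-/

set_option autoImplicit false

namespace Pool.Agent.H78.UC

open Pool.Agent.H80

theorem exists_sys (s : ℕ) (hs : 1 ≤ s) :
    ∃ (S : ℕ → List ℕ → Prop) (f : ℕ → ℕ), SysFrom 0 s S f := by
  obtain ⟨s, rfl⟩ := Nat.exists_eq_add_of_le' hs
  have key : ∀ k ≤ s, ∃ (S : ℕ → List ℕ → Prop) (f : ℕ → ℕ), SysFrom (s - k) (s + 1) S f := by
    intro k
    induction k with
    | zero => intro _; exact top_sys s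
    | succ k ih =>
      intro hk
      obtain ⟨S, f, h⟩ := ih (by omega)
      have h1 : s - k = s - (k + 1) + 1 := by omega
      rw [h1] at h
      exact step_sys (by omega) h
  have h := key s le_rfl
  rwa [Nat.sub_self] at h

end Pool.Agent.H78.UC
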