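import Pool.Agent.H78.UC.Pt

/-!
Project UC, part A: the points of the system are arithmetical.
-/

set_option autoImplicit false

namespace Pool.Agent.H78.UC

open Pool.Agent.H80

variable {s : ℕ} {S : ℕ → List ℕ → Prop} {f : ℕ → ℕ}

section general

variable {α β : Type} [Primcodable α] [Primcodable β]

theorem PtAr_eq {g h : α → β} (hg : Computable g) (hh : Computable h) :
    IsAr (fun a => g a = h a) := by
  have h1 : IsAr (fun z : β × β => z.1 = z.2) := by
    apply ar_of_computable
    obtain ⟨i, hi⟩ := (Primrec.eq (α := β))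
    exact ⟨i, hi.to_comp⟩
  exact h1.comp (f := fun a => (g a, h a)) (hg.pair hh)

theorem PtAr_prefix : IsAr (fun z : List ℕ × List ℕ => z.1 <+: z.2) := by
  have h1 : IsAr (fun z : (List ℕ × List ℕ) × List ℕ => z.1.1 ++ z.2 = z.1.2) := by
    apply PtAr_eq
    · exact Computable.list_append.comp (Computable.fst.comp Computable.fst) Computable.snd
    · exact Computable.snd.comp Computable.fst
  exact h1.ex

theorem PtAr_nth {p : ℕ → Prop} [DecidablePred p] (hp : {m | p m}.Infinite) (k m : ℕ) :
    Nat.nth p k = m ↔ p m ∧ UC.cnt p m = k := by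
  have hc : ∀ m, UC.cnt p m = Nat.count p m := by
    intro m
    unfold UC.cnt
    rw [Nat.count_eq_card_filter_range, ← Set.ncard_coe_finset]
    congr 1
    ext x
    simp
  rw [hc]
  constructor
  · rintro rfl
    exact ⟨Nat.nth_mem_of_infinite hp k, Nat.count_nth_of_infinite hp k⟩
  · rintro ⟨h1, rfl⟩
    exact Nat.nth_count h1

end general

theorem isLP_ar {T : List ℕ → Prop} (hT : IsAr T) :
    IsAr (fun z : List ℕ × List ℕ => IsLP T z.1 z.2) := by
  unfold IsLP
  have h1 : IsAr (fun z : (List ℕ × List ℕ) × List ℕ =>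
      T z.2 → z.2 <+: z.1.2 → z.2 <+: z.1.1) := by
    refine (hT.comp Computable.snd).imp (IsAr.imp ?_ ?_)
    · exact PtAr_prefix.comp (f := fun z : (List ℕ × List ℕ) × List ℕ => (z.2, z.1.2))
        (Computable.snd.pair (Computable.snd.comp Computable.fst))
    · exact PtAr_prefix.comp (f := fun z : (List ℕ × List ℕ) × List ℕ => (z.2, z.1.1))
        (Computable.snd.pair (Computable.fst.comp Computable.fst))
  exact (hT.comp Computable.fst).and (PtAr_prefix.and h1.all)

/-- For an infinite set the `k`-th element is `m` iff `m` is in the set and exactly `k` elements are smaller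
(`cnt`, `Nat.nth`); `fib_infinite`. -/
theorem nx_ar (h : SysFrom 0 s S f) {l : ℕ} (hl : l + 1 < s) :
    IsAr (fun z : (List ℕ × ℕ) × List ℕ => S (l + 1) z.1.1 ∧ nx S l z.1.1 z.1.2 = z.2) := by
  have hF : IsAr (fun z : List ℕ × ℕ => Fib S l z.1 z.2) := by
    unfold Fib
    refine IsAr.and ?_ ?_
    · exact (h.ar l (Nat.zero_le _) (by omega)).comp (f := fun z : List ℕ × ℕ => dec z.2)
        (dec_comp.comp Computable.snd)
    · exact (isLP_ar (h.ar (l + 1) (Nat.zero_le _) hl)).comp
        (f := fun z : List ℕ × ℕ => (z.1, dec z.2))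
        (Computable.fst.pair (dec_comp.comp Computable.snd))
  have hC := hF.cnt
  have h1 : IsAr (fun z : ((List ℕ × ℕ) × List ℕ) × ℕ =>
      dec z.2 = z.1.2 ∧ Fib S l z.1.1.1 z.2 ∧ UC.cnt (fun m => Fib S l z.1.1.1 m) z.2 = z.1.1.2) := by
    refine IsAr.and ?_ (IsAr.and ?_ ?_)
    · exact PtAr_eq (dec_comp.comp Computable.snd) (Computable.snd.comp Computable.fst)
    · exact hF.comp (f := fun z : ((List ℕ × ℕ) × List ℕ) × ℕ => (z.1.1.1, z.2))
        ((Computable.fst.comp (Computable.fst.comp Computable.fst)).pair Computable.snd)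
    · exact hC.comp (f := fun z : ((List ℕ × ℕ) × List ℕ) × ℕ => (z.1.1.1, z.2, z.1.1.2))
        ((Computable.fst.comp (Computable.fst.comp Computable.fst)).pair
          (Computable.snd.pair (Computable.snd.comp (Computable.fst.comp Computable.fst))))
  refine (((h.ar (l + 1) (Nat.zero_le _) hl).comp
    (f := fun z : (List ℕ × ℕ) × List ℕ => z.1.1)
    (Computable.fst.comp Computable.fst)).and h1.ex).of_eq fun z => ?_
  refine and_congr_right fun hS => ?_
  have hinf := fib_infinite h hl hS
  classical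
  constructor
  · rintro ⟨m, h2, h3, h4⟩
    rw [← h2]
    unfold nx
    congr 1
    exact (PtAr_nth hinf _ _).2 ⟨h3, h4⟩
  · intro h2
    obtain ⟨h3, h4⟩ := (PtAr_nth hinf z.1.2 _).1 rfl
    exact ⟨_, h2, h3, h4⟩

theorem tpt_ar (h : SysFrom 0 s S f) : IsAr (fun z : ℕ × List ℕ => tpt S s z.1 = z.2) := by
  have hS : IsAr (S (s - 1)) := by
    rcases Nat.eq_zero_or_pos s with hs | hs
    · subst hs
      exact ar_of_sigma h.sig
    · exact h.ar (s - 1) (Nat.zero_le _) (by omega)
  have hF : IsAr (fun z : Unit × ℕ => S (s - 1) (dec z.2)) :=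
    hS.comp (f := fun z : Unit × ℕ => dec z.2) (dec_comp.comp Computable.snd)
  have hC := hF.cnt
  have h1 : IsAr (fun z : (ℕ × List ℕ) × ℕ =>
      dec z.2 = z.1.2 ∧ S (s - 1) (dec z.2) ∧
        UC.cnt (fun m => S (s - 1) (dec m)) z.2 = z.1.1) := by
    refine IsAr.and ?_ (IsAr.and ?_ ?_)
    · exact PtAr_eq (dec_comp.comp Computable.snd) (Computable.snd.comp Computable.fst)
    · exact hS.comp (f := fun z : (ℕ × List ℕ) × ℕ => dec z.2) (dec_comp.comp Computable.snd)
    · exact hC.comp (f := fun z : (ℕ × List ℕ) × ℕ => ((), z.2, z.1.1))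
        ((Computable.const ()).pair
          (Computable.snd.pair (Computable.fst.comp Computable.fst)))
  refine h1.ex.of_eq fun z => ?_
  have hinf := top_infinite h
  classical
  constructor
  · rintro ⟨m, h2, h3, h4⟩
    rw [← h2]
    unfold tpt
    congr 1
    exact (PtAr_nth hinf _ _).2 ⟨h3, h4⟩
  · intro h2
    obtain ⟨h3, h4⟩ := (PtAr_nth hinf z.1 _).1 rfl
    exact ⟨_, h2, h3, h4⟩

/-- By induction on the length of the list. -/
theorem pt_ar (h : SysFrom 0 s S f) (i : ℕ) (hi : i ≤ s) :
    IsAr (fun z : List ℕ × List ℕ => z.1.length = i ∧ pt s S z.1 = z.2) := by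
  induction i with
  | zero =>
    have h1 : IsAr (fun z : List ℕ × List ℕ => z.1 = [] ∧ z.2 = []) :=
      (PtAr_eq Computable.fst (Computable.const _)).and
        (PtAr_eq Computable.snd (Computable.const _))
    refine h1.of_eq fun z => ?_
    rw [List.length_eq_zero_iff]
    refine and_congr_right fun h2 => ?_
    rw [h2]
    exact eq_comm
  | succ i ih =>
    rcases Nat.eq_zero_or_pos i with hi0 | hi0
    · subst hi0
      have h1 : IsAr (fun z : (List ℕ × List ℕ) × ℕ => z.1.1 = [z.2] ∧ tpt S s z.2 = z.1.2) := by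
        refine IsAr.and ?_ ?_
        · exact PtAr_eq (Computable.fst.comp Computable.fst)
            (Computable.list_cons.comp Computable.snd (Computable.const []))
        · exact (tpt_ar h).comp (f := fun z : (List ℕ × List ℕ) × ℕ => (z.2, z.1.2))
            (Computable.snd.pair (Computable.snd.comp Computable.fst))
      refine h1.ex.of_eq fun z => ?_
      constructor
      · rintro ⟨m, h2, h3⟩
        rw [h2]
        exact ⟨rfl, h3⟩
      · rintro ⟨h2, h3⟩
        obtain ⟨m, h4⟩ := List.length_eq_one_iff.1 h2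
        refine ⟨m, h4, ?_⟩
        rw [h4] at h3
        exact h3
    · obtain ⟨i, rfl⟩ := Nat.exists_eq_add_of_le' hi0
      have ih' := ih (by omega)
      have hl : s - (i + 2) + 1 < s := by omega
      have hl2 : s - (i + 2) + 1 = s - (i + 1) := by omega
      have hnx := nx_ar h hl
      -- variables: z, then ((m', m), (l', τ))
      have h1 : IsAr (fun z : (List ℕ × List ℕ) × ((ℕ × ℕ) × (List ℕ × List ℕ)) =>
          z.1.1 = z.2.1.1 :: z.2.1.2 :: z.2.2.1 ∧
          ((z.2.1.2 :: z.2.2.1).length = i + 1 ∧ pt s S (z.2.1.2 :: z.2.2.1) = z.2.2.2) ∧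
          (S (s - (i + 2) + 1) z.2.2.2 ∧
            nx S (s - (i + 2)) z.2.2.2 (z.2.1.1 - z.2.1.2 - 1) = z.1.2)) := by
        have c11 : Computable (fun z : (List ℕ × List ℕ) × ((ℕ × ℕ) × (List ℕ × List ℕ)) =>
            z.1.1) := Computable.fst.comp Computable.fst
        have c12 : Computable (fun z : (List ℕ × List ℕ) × ((ℕ × ℕ) × (List ℕ × List ℕ)) =>
            z.1.2) := Computable.snd.comp Computable.fst
        have c2 : Computable (fun z : (List ℕ × List ℕ) × ((ℕ × ℕ) × (List ℕ × List ℕ)) =>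
            z.2) := Computable.snd
        have c211 : Computable (fun z : (List ℕ × List ℕ) × ((ℕ × ℕ) × (List ℕ × List ℕ)) =>
            z.2.1.1) := Computable.fst.comp (Computable.fst.comp c2)
        have c212 : Computable (fun z : (List ℕ × List ℕ) × ((ℕ × ℕ) × (List ℕ × List ℕ)) =>
            z.2.1.2) := Computable.snd.comp (Computable.fst.comp c2)
        have c221 : Computable (fun z : (List ℕ × List ℕ) × ((ℕ × ℕ) × (List ℕ × List ℕ)) =>
            z.2.2.1) := Computable.fst.comp (Computable.snd.comp c2)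
        have c222 : Computable (fun z : (List ℕ × List ℕ) × ((ℕ × ℕ) × (List ℕ × List ℕ)) =>
            z.2.2.2) := Computable.snd.comp (Computable.snd.comp c2)
        have cml : Computable (fun z : (List ℕ × List ℕ) × ((ℕ × ℕ) × (List ℕ × List ℕ)) =>
            z.2.1.2 :: z.2.2.1) := Computable.list_cons.comp c212 c221
        refine IsAr.and ?_ (IsAr.and ?_ ?_)
        · exact PtAr_eq c11 (Computable.list_cons.comp c211 cml)
        · exact ih'.comp (f := fun z : (List ℕ × List ℕ) × ((ℕ × ℕ) × (List ℕ × List ℕ)) =>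
            (z.2.1.2 :: z.2.2.1, z.2.2.2)) (cml.pair c222)
        · refine hnx.comp (f := fun z : (List ℕ × List ℕ) × ((ℕ × ℕ) × (List ℕ × List ℕ)) =>
            ((z.2.2.2, z.2.1.1 - z.2.1.2 - 1), z.1.2)) ((c222.pair ?_).pair c12)
          exact (Primrec.nat_sub.to_comp).comp ((Primrec.nat_sub.to_comp).comp c211 c212)
            (Computable.const 1)
      refine h1.ex.of_eq fun z => ?_
      constructor
      · rintro ⟨⟨⟨m', m⟩, ⟨l', τ⟩⟩, h2, ⟨h3, h4⟩, h5, h6⟩
        simp only at h2 h3 h4 h5 h6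
        have h7 : l'.length = i := by simpa using h3
        refine ⟨by rw [h2]; simp [h7], ?_⟩
        rw [h2, pt_cons_cons, h4, h7]
        exact h6
      · rintro ⟨h2, h3⟩
        rcases hz : z.1 with _ | ⟨m', _ | ⟨m, l'⟩⟩
        · rw [hz] at h2
          simp at h2
        · rw [hz] at h2
          simp at h2
        · rw [hz] at h2 h3
          have h7 : l'.length = i := by simpa using h2
          have h8 : (m :: l').length = i + 1 := by simp [h7]
          refine ⟨((m', m), (l', pt s S (m :: l'))), hz, ⟨h8, rfl⟩, ?_, ?_⟩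
          · simp only
            rw [hl2, ← h8]
            exact pt_mem h (by simp) (by omega)
          · rw [pt_cons_cons, h7] at h3
            exact h3

theorem Ini_ar (h : SysFrom 0 s S f) :
    IsAr (fun z : List ℕ × List ℕ => z.1.length ≤ s ∧ Ini s S f z.1 z.2) := by
  have h1 : ∀ i ≤ s, IsAr (fun z : List ℕ × List ℕ => z.1.length ≤ i ∧ pt s S z.1 = z.2) := by
    intro i
    induction i with
    | zero =>
      intro hi
      refine (pt_ar h 0 hi).of_eq fun z => ?_
      rw [Nat.le_zero]
    | succ i ih =>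
      intro hi
      refine ((ih (by omega)).or (pt_ar h (i + 1) hi)).of_eq fun z => ?_
      constructor
      · rintro (⟨h2, h3⟩ | ⟨h2, h3⟩)
        · exact ⟨by omega, h3⟩
        · exact ⟨by omega, h3⟩
      · rintro ⟨h2, h3⟩
        rcases Nat.lt_or_ge i z.1.length with h4 | h4
        · exact Or.inr ⟨by omega, h3⟩
        · exact Or.inl ⟨h4, h3⟩
  have h2 := h1 s le_rfl
  have h3 : IsAr (fun z : (List ℕ × List ℕ) × List ℕ =>
      (z.1.1.length ≤ s ∧ pt s S z.1.1 = z.2) ∧ z.1.2 <+: z.2) := by
    refine IsAr.and ?_ ?_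
    · exact h2.comp (f := fun z : (List ℕ × List ℕ) × List ℕ => (z.1.1, z.2))
        ((Computable.fst.comp Computable.fst).pair Computable.snd)
    · exact PtAr_prefix.comp (f := fun z : (List ℕ × List ℕ) × List ℕ => (z.1.2, z.2))
        ((Computable.snd.comp Computable.fst).pair Computable.snd)
  have h4 : IsAr (fun z : List ℕ × List ℕ => z.1 = []) :=
    PtAr_eq Computable.fst (Computable.const _)
  have h5 : IsAr (fun z : List ℕ × List ℕ => z.2 = pre f z.2.length) :=
    (ar_of_delta h.fd).comp (f := fun z : List ℕ × List ℕ => z.2) Computable.snd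
  refine ((h4.and h5).or (h4.not.and h3.ex)).of_eq fun z => ?_
  unfold Ini
  constructor
  · rintro (⟨h6, h7⟩ | ⟨h6, τ, ⟨h7, h8⟩, h9⟩)
    · refine ⟨?_, Or.inl ⟨h6, h7⟩⟩
      rw [h6]
      exact Nat.zero_le _
    · refine ⟨h7, Or.inr ⟨h6, ?_⟩⟩
      rw [h8]
      exact h9
  · rintro ⟨h6, ⟨h7, h8⟩ | ⟨h7, h8⟩⟩
    · exact Or.inl ⟨h7, h8⟩
    · exact Or.inr ⟨h7, _, ⟨h6, rfl⟩, h8⟩

end Pool.Agent.H78.UC
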