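import Pool.Agent.H78.UC.Pt

/-!
Project UC, part A: all elements of `S 0` are points.
-/

set_option autoImplicit false

namespace Pool.Agent.H78.UC

open Pool.Agent.H80

variable {s : ℕ} {S : ℕ → List ℕ → Prop} {f : ℕ → ℕ}

theorem PtSurj_key (h : SysFrom 0 s S f) (i : ℕ) (hi : i < s) :
    ∀ w, S (s - 1 - i) w → ∃ l : List ℕ, l.Pairwise (· > ·) ∧ l.length = i + 1 ∧ pt s S l = w := by
  classical
  induction i with
  | zero =>
    intro w hw
    obtain ⟨m, rfl⟩ := dec_bij.2 w
    have hw' : (fun m => S (s - 1) (dec m)) m := hw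
    refine ⟨[Nat.count (fun m => S (s - 1) (dec m)) m], List.pairwise_singleton _ _, rfl, ?_⟩
    show dec (Nat.nth (fun m => S (s - 1) (dec m)) _) = dec m
    rw [Nat.nth_count hw']
  | succ i ih =>
    intro w hw
    obtain ⟨lev, hlev⟩ : ∃ lev, lev = s - 1 - (i + 1) := ⟨_, rfl⟩
    have h1 : lev + 1 < s := by omega
    have h2 : s - 1 - i = lev + 1 := by omega
    rw [← hlev] at hw
    obtain ⟨σ, hσ⟩ := exists_isLP (h.tree (lev + 1) (Nat.zero_le _) h1) w
    obtain ⟨l, hl1, hl2, hl3⟩ := ih (by omega) σ (by rw [h2]; exact hσ.1)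
    obtain ⟨m0, rfl⟩ := dec_bij.2 w
    have hF : Fib S lev σ m0 := ⟨hw, hσ⟩
    cases l with
    | nil => simp at hl2
    | cons m l' =>
      have hl4 : l'.length = i := by simpa using hl2
      refine ⟨(m + 1 + Nat.count (Fib S lev σ) m0) :: m :: l', ?_, ?_, ?_⟩
      · rw [List.pairwise_cons]
        refine ⟨?_, hl1⟩
        intro a ha
        rcases List.mem_cons.1 ha with rfl | ha
        · show a < a + 1 + _
          omega
        · have : m > a := (List.pairwise_cons.1 hl1).1 a ha
          show a < m + 1 + _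
          omega
      · simp [hl4]
      · rw [pt_cons_cons, hl3, hl4]
        have h3 : s - (i + 2) = lev := by omega
        have h4 : m + 1 + Nat.count (Fib S lev σ) m0 - m - 1 = Nat.count (Fib S lev σ) m0 := by
          omega
        rw [h3, h4]
        show dec (Nat.nth (Fib S lev σ) _) = dec m0
        rw [Nat.nth_count hF]

/-- Each element `w` of `S 0` is a point: by induction on `i < s` for `i = 0, 1, …`: each element of `S (s - 1 - i)` is
`pt s S l` for a decreasing list of length `i + 1`: let `σ` be its longest initial segment in `S (s - i)`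
(`exists_isLP`), `σ = pt s S (m :: l)`, and `m' = m + 1 + k`, where the code of the element is the `k`-th element of
the fibre (`Nat.nth_count`). -/
theorem pt_surj (h : SysFrom 0 s S f) (hs : 1 ≤ s) {w : List ℕ} (hw : S 0 w) :
    ∃ l : List ℕ, l.Pairwise (· > ·) ∧ l.length = s ∧ pt s S l = w := by
  obtain ⟨l, h1, h2, h3⟩ := PtSurj_key h (s - 1) (by omega) w (by rw [Nat.sub_self]; exact hw)
  exact ⟨l, h1, by omega, h3⟩

end Pool.Agent.H78.UC
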