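import Pool.Agent.H78.UC.TyDef
import Pool.Agent.H78.UC.PtSurj
import Pool.Agent.H78.UC.PtAr

/-!
Project UC, part A: complexity of the types.
-/

set_option autoImplicit false

namespace Pool.Agent.H78.UC

open Pool.Agent.H80

variable {s : ℕ} {S : ℕ → List ℕ → Prop} {f : ℕ → ℕ}

theorem TyLow_cp {α : Type} [Primcodable α] {p : α → Prop} (hp : PrimrecPred p) : IsAr p := by
  obtain ⟨hd, hp⟩ := hp
  exact ar_of_computable ⟨hd, hp.to_comp⟩

theorem TyLow_mem : PrimrecRel (fun (l : List ℕ) (b : ℕ) => b ∈ l) := by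
  have h : PrimrecRel (fun (l : List ℕ) (b : ℕ) => ∃ a ∈ l, a = b) :=
    PrimrecRel.exists_mem_list (R := fun a b : ℕ => a = b) Primrec.eq
  exact PrimrecPred.of_eq h (fun z => by simp)

theorem TyLow_sub : PrimrecRel (fun (l l' : List ℕ) => ∀ a ∈ l, a ∈ l') := by
  have h : PrimrecRel (fun (a : ℕ) (l' : List ℕ) => a ∈ l') :=
    PrimrecRel.comp TyLow_mem Primrec.snd Primrec.fst
  exact PrimrecRel.forall_mem_list h

theorem TyLow_lt {β : Type} [Primcodable β] {R : ℕ → β → Prop} (hf : PrimrecRel R) :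
    PrimrecRel fun (n : ℕ) (y : β) => ∀ x < n, R x y :=
  PrimrecPred.of_eq (PrimrecRel.comp (PrimrecRel.forall_mem_list hf)
    (f := fun z : ℕ × β => List.range z.1) (g := fun z : ℕ × β => z.2)
    (Primrec.list_range.comp Primrec.fst) Primrec.snd) (fun z => by simp)

theorem TyLow_dec : PrimrecPred (fun l : List ℕ => ∀ i < l.length, ∀ j < i,
    l.getD i 0 < l.getD j 0) := by
  have h1 : PrimrecRel (fun (j : ℕ) (y : ℕ × List ℕ) => y.2.getD y.1 0 < y.2.getD j 0) :=
    PrimrecRel.comp Primrec.nat_lt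
      ((Primrec.list_getD 0).comp (Primrec.snd.comp Primrec.snd) (Primrec.fst.comp Primrec.snd))
      ((Primrec.list_getD 0).comp (Primrec.snd.comp Primrec.snd) Primrec.fst)
  have h2 : PrimrecRel (fun (n : ℕ) (y : ℕ × List ℕ) => ∀ j < n,
      y.2.getD y.1 0 < y.2.getD j 0) := TyLow_lt h1
  have h3 : PrimrecRel (fun (i : ℕ) (l : List ℕ) => ∀ j < i, l.getD i 0 < l.getD j 0) :=
    PrimrecRel.comp h2 (f := fun y : ℕ × List ℕ => y.1) (g := fun y : ℕ × List ℕ => y)
      Primrec.fst Primrec.id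
  have h4 : PrimrecRel (fun (n : ℕ) (l : List ℕ) => ∀ i < n, ∀ j < i,
      l.getD i 0 < l.getD j 0) := TyLow_lt h3
  exact PrimrecRel.comp h4 (f := fun l : List ℕ => l.length) (g := fun l : List ℕ => l)
    Primrec.list_length Primrec.id

theorem TyLow_dec_iff (l : List ℕ) : l.Pairwise (· > ·) ↔ ∀ i < l.length, ∀ j < i,
    l.getD i 0 < l.getD j 0 := by
  rw [List.pairwise_iff_getElem]
  constructor
  · intro h i hi j hj
    have h1 := h j i (by omega) hi hj
    rw [List.getD_eq_getElem _ _ hi, List.getD_eq_getElem _ _ (by omega)]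
    exact h1
  · intro h j i hj hi hji
    have h1 := h i hi j hji
    rw [List.getD_eq_getElem _ _ hi, List.getD_eq_getElem _ _ hj] at h1
    exact h1

theorem TyLow_sort (u : Finset ℕ) : (u.sort (· ≥ ·)).Pairwise (· > ·) :=
  (Finset.sortedGT_sort u).pairwise

theorem TyLow_sort_eq {l : List ℕ} (h : l.Pairwise (· > ·)) : l.toFinset.sort (· ≥ ·) = l :=
  (List.toFinset_sort (· ≥ ·) (h.imp (fun hab => ne_of_gt hab))).2 (h.imp (fun hab => le_of_lt hab))

/-- `S 0` is a nonempty `Σ⁰₁` set, so it is the range of a computable function `g`; `pt_mem_zero`, `pt_surj`. -/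
theorem TyS_low (h : SysFrom 0 s S f) (hs : 1 ≤ s) : ∃ g : ℕ → List ℕ, Computable g ∧
    (∀ u : Finset ℕ, u.Nonempty → u.card ≤ s → ∃ a, TyS s S f u = {w | w <+: g a}) ∧
    ∀ a, ∃ u : Finset ℕ, u.card = s ∧ TyS s S f u = {w | w <+: g a} := by
  obtain ⟨q, hq, hS⟩ := h.sig
  have hq1 : ComputablePred q := isPi_zero.1 hq
  obtain ⟨b, hb, rfl⟩ := ComputablePred.computable_iff.1 hq1
  have hw0 : S 0 (pt s S [0]) := pt_mem_zero h (by simp) (by simpa using hs)
  set w0 := pt s S [0] with hw0d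
  let dz : ℕ → List ℕ × ℕ := fun a => Denumerable.ofNat (List ℕ × ℕ) a
  have hdz : Computable dz := Computable.ofNat (List ℕ × ℕ)
  let g : ℕ → List ℕ := fun a => bif b (dz a) then (dz a).1 else w0
  have hg : Computable g :=
    Computable.cond (hb.comp hdz) (Computable.fst.comp hdz) (Computable.const w0)
  have hgS : ∀ a, S 0 (g a) := by
    intro a
    by_cases hb' : b (dz a) = true
    · have e : g a = (dz a).1 := by simp [g, hb']
      rw [e, hS]
      exact ⟨(dz a).2, hb'⟩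
    · have e : g a = w0 := by simp [g, hb']
      rw [e]
      exact hw0
  have hSg : ∀ w, S 0 w → ∃ a, w = g a := by
    intro w hw
    obtain ⟨x, hx⟩ := (hS w).1 hw
    refine ⟨Encodable.encode (w, x), ?_⟩
    have e1 : dz (Encodable.encode (w, x)) = (w, x) := Denumerable.ofNat_encode (w, x)
    have hx' : b (w, x) = true := hx
    simp only [g, e1, hx', cond_true]
  refine ⟨g, hg, ?_, ?_⟩
  · intro u hu hc
    have hl : u.sort (· ≥ ·) ≠ [] := by
      intro h0
      have h1 := Finset.length_sort (s := u) (· ≥ ·)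
      rw [h0, List.length_nil] at h1
      exact (Finset.card_pos.2 hu).ne h1
    have hm := pt_mem_zero h hl (by rw [Finset.length_sort]; exact hc)
    obtain ⟨a, ha⟩ := hSg _ hm
    refine ⟨a, ?_⟩
    ext w
    simp only [TyS, Set.mem_ofPred_eq, Ini]
    rw [← ha]
    constructor
    · rintro (⟨h1, -⟩ | ⟨-, h1⟩)
      · exact absurd h1 hl
      · exact h1
    · intro h1
      exact Or.inr ⟨hl, h1⟩
  · intro a
    obtain ⟨l, hl1, hl2, hl3⟩ := pt_surj h hs (hgS a)
    have hl : l ≠ [] := by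
      rintro rfl
      rw [List.length_nil] at hl2
      omega
    refine ⟨l.toFinset, ?_, ?_⟩
    · rw [List.toFinset_card_of_nodup (hl1.imp (fun hab => ne_of_gt hab))]
      exact hl2
    · ext w
      simp only [TyS, Set.mem_ofPred_eq, Ini]
      rw [TyLow_sort_eq hl1, hl3]
      constructor
      · rintro (⟨h1, -⟩ | ⟨-, h1⟩)
        · exact absurd h1 hl
        · exact h1
      · intro h1
        exact Or.inr ⟨hl, h1⟩

theorem TyS_top (h : SysFrom 0 s S f) : IsDelta (s + 1) (fun w => w ∈ TyS s S f ∅) ∧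
    ¬ IsDelta s (fun w => w ∈ TyS s S f ∅) := by
  have e : (fun w => w ∈ TyS s S f ∅) = (fun w : List ℕ => w = pre f w.length) := by
    funext w
    simp only [TyS, Set.mem_ofPred_eq, Ini, Finset.sort_empty]
    simp
  rw [e]
  exact ⟨h.fd, h.fn⟩

/-- `Ini_ar`; the decreasing list of `l.toFinset` is the decreasing list with the same elements. -/
theorem TyS_ar (h : SysFrom 0 s S f) :
    IsAr (fun z : List ℕ × List ℕ => z.2.toFinset.card ≤ s ∧ z.1 ∈ TyS s S f z.2.toFinset) := by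
  have h1 : IsAr (fun y : (List ℕ × List ℕ) × List ℕ =>
      ((∀ i < y.2.length, ∀ j < i, y.2.getD i 0 < y.2.getD j 0) ∧
        (∀ a ∈ y.2, a ∈ y.1.2) ∧ (∀ a ∈ y.1.2, a ∈ y.2)) ∧
        (y.2.length ≤ s ∧ Ini s S f y.2 y.1.1)) := by
    refine IsAr.and (IsAr.and (TyLow_cp (TyLow_dec.comp Primrec.snd)) (IsAr.and
      (TyLow_cp (PrimrecRel.comp TyLow_sub Primrec.snd (Primrec.snd.comp Primrec.fst)))
      (TyLow_cp (PrimrecRel.comp TyLow_sub (Primrec.snd.comp Primrec.fst) Primrec.snd)))) ?_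
    exact IsAr.comp (f := fun y : (List ℕ × List ℕ) × List ℕ => (y.2, y.1.1)) (Ini_ar h)
      (Computable.snd.pair (Computable.fst.comp Computable.fst))
  refine h1.ex.of_eq (fun z => ?_)
  constructor
  · rintro ⟨l, ⟨h2, h3, h4⟩, h5, h6⟩
    have h7 : l.Pairwise (· > ·) := (TyLow_dec_iff l).2 h2
    have h8 : z.2.toFinset = l.toFinset := by
      ext a
      rw [List.mem_toFinset, List.mem_toFinset]
      exact ⟨h4 a, h3 a⟩
    rw [h8]
    refine ⟨?_, ?_⟩
    · rw [List.toFinset_card_of_nodup (h7.imp (fun hab => ne_of_gt hab))]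
      exact h5
    · simp only [TyS, Set.mem_ofPred_eq]
      rw [TyLow_sort_eq h7]
      exact h6
  · rintro ⟨h2, h3⟩
    refine ⟨z.2.toFinset.sort (· ≥ ·), ⟨(TyLow_dec_iff (z.2.toFinset.sort (· ≥ ·))).1
      (TyLow_sort z.2.toFinset), ?_, ?_⟩, ?_, h3⟩
    · intro a ha
      rw [Finset.mem_sort, List.mem_toFinset] at ha
      exact ha
    · intro a ha
      rw [Finset.mem_sort, List.mem_toFinset]
      exact ha
    · rw [Finset.length_sort]
      exact h2

end Pool.Agent.H78.UC
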