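import Pool.Agent.H78.UC.TyCont
import Pool.Agent.H78.UC.TyLow
import Pool.Agent.H78.UC.Sys

/-!
Project UC, part A: existence of the types.
-/

set_option autoImplicit false

namespace Pool.Agent.H78.UC

open Pool.Agent.H80

/-- `T s u = TyS s (S_s) f_s u` for `1 ≤ s ≤ N` and `|u| ≤ s`, and `T s u = ∅` otherwise. -/
theorem exists_ty (N : ℕ) : ∃ T, IsTy N T := by
  have h0 : ∀ s : ℕ, ∃ (S : ℕ → List ℕ → Prop) (f : ℕ → ℕ), 1 ≤ s → SysFrom 0 s S f := by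
    intro s
    by_cases hs : 1 ≤ s
    · obtain ⟨S, f, h⟩ := exists_sys s hs
      exact ⟨S, f, fun _ => h⟩
    · exact ⟨fun _ _ => False, fun _ => 0, fun h => absurd h hs⟩
  choose S f h using h0
  refine ⟨fun s u => {w | 1 ≤ s ∧ u.card ≤ s ∧ w ∈ TyS s (S s) (f s) u}, ?_, ?_, ?_, ?_⟩
  · intro w
    have h1 : ∀ s : ℕ, ∃ r, 1 ≤ s → ∀ r' ≥ r, ∀ u : Finset ℕ, u.card ≤ s →
        (w ∈ TyS s (S s) (f s) u ↔ w ∈ TyS s (S s) (f s) (u.filter fun m => m < r')) := by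
      intro s
      by_cases hs : 1 ≤ s
      · obtain ⟨r, hr⟩ := unif_of_pt (s := s) (P := fun u => w ∈ TyS s (S s) (f s) u)
          (fun v => TyS_cont_pt (h s hs) v w)
        exact ⟨r, fun _ => hr⟩
      · exact ⟨0, fun h => absurd h hs⟩
    choose r hr using h1
    refine ⟨(Finset.range (N + 1)).sup r, fun s hs u hu => ?_⟩
    have hle : r s ≤ (Finset.range (N + 1)).sup r :=
      Finset.le_sup (f := r) (Finset.mem_range.mpr (by omega))
    have hc : (u.filter fun m => m < (Finset.range (N + 1)).sup r).card ≤ s :=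
      (Finset.card_filter_le _ _).trans hu
    constructor
    · rintro ⟨h1, -, h3⟩
      exact ⟨h1, hc, (hr s h1 _ hle u hu).mp h3⟩
    · rintro ⟨h1, -, h3⟩
      exact ⟨h1, hu, (hr s h1 _ hle u hu).mpr h3⟩
  · intro s hs _
    obtain ⟨g, hg, hg1, hg2⟩ := TyS_low (h s hs) hs
    refine ⟨g, hg, ?_, ?_⟩
    · intro u hu hus
      obtain ⟨a, ha⟩ := hg1 u hu hus
      refine ⟨a, ?_⟩
      rw [← ha]
      ext w
      exact ⟨fun h => h.2.2, fun h => ⟨hs, hus, h⟩⟩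
    · intro a
      obtain ⟨u, hu, ha⟩ := hg2 a
      refine ⟨u, hu, ?_⟩
      rw [← ha]
      ext w
      exact ⟨fun h => h.2.2, fun h => ⟨hs, hu.le, h⟩⟩
  · intro s hs _
    obtain ⟨h1, h2⟩ := TyS_top (h s hs)
    have h3 : ∀ w, w ∈ TyS s (S s) (f s) ∅ ↔
        w ∈ ({w | 1 ≤ s ∧ (∅ : Finset ℕ).card ≤ s ∧ w ∈ TyS s (S s) (f s) ∅} : Set (List ℕ)) :=
      fun w => ⟨fun h => ⟨hs, by simp, h⟩, fun h => h.2.2⟩
    exact ⟨h1.of_eq h3, fun h4 => h2 (h4.of_eq fun w => (h3 w).symm)⟩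
  · intro s _
    by_cases hs : 1 ≤ s
    · exact (TyS_ar (h s hs)).of_eq fun z => ⟨fun h => ⟨hs, h⟩, fun h => h.2⟩
    · exact (ar_const False).of_eq fun z => ⟨fun h => h.elim, fun h => absurd h.1 hs⟩

end Pool.Agent.H78.UC
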