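import Mathlib
import Pool.Agent.H80.ArithDefs

/-!
Project UC (MP_674a48_lc): definitions of the final statement.
-/

set_option autoImplicit false

namespace Pool.Agent.H78.UC

open FirstOrder Cardinal
open Pool.Agent.H80 (IsSigma IsPi)

/-- `p` is `Δ⁰ₙ`. -/
def IsDelta (n : ℕ) {α : Type} [Primcodable α] (p : α → Prop) : Prop := IsSigma n p ∧ IsPi n p

/-- The relational language with the relation symbols `0, 1, 2, …`, the symbol `k` has arity `ar k`. -/
def RL (ar : ℕ → ℕ) : FirstOrder.Language.{0, 0} := ⟨fun _ => Empty, fun n => {k : ℕ // ar k = n}⟩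

/-- The interpretation of the symbol `k`. -/
def rel (ar : ℕ → ℕ) (M : Type) [(RL ar).Structure M] (k : ℕ) (x : Fin (ar k) → M) : Prop :=
  Language.Structure.RelMap (L := RL ar) (⟨k, rfl⟩ : (RL ar).Relations (ar k)) x

/-- The atomic diagram of the numbered structure `(M, ν)`: the pairs of a symbol `k` and a list of `ar k` numbers
for which the relation `k` holds. -/
def diagRel (ar : ℕ → ℕ) (M : Type) [(RL ar).Structure M] (ν : ℕ → M) (p : ℕ × List ℕ) : Prop :=
  p.2.length = ar p.1 ∧ rel ar M p.1 (fun i => ν (p.2.getD i 0))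

/-- The pairs of numbers of the same element. -/
def diagEq {M : Type} (ν : ℕ → M) (p : ℕ × ℕ) : Prop := ν p.1 = ν p.2

/-- `M` has a constructivization whose atomic diagram is computable in `0^(i)`, that is, `Δ⁰ᵢ₊₁`. -/
def PresentedIn (i : ℕ) (ar : ℕ → ℕ) (M : Type) [(RL ar).Structure M] : Prop :=
  ∃ ν : ℕ → M, Function.Surjective ν ∧ IsDelta (i + 1) (diagRel ar M ν) ∧ IsDelta (i + 1) (diagEq ν)

end Pool.Agent.H78.UC
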