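import Pool.Agent.H78.UC.Cat

/-!
Project UC, part B: elementary embeddings.
-/

set_option autoImplicit false

namespace Pool.Agent.H78.UC

open FirstOrder Cardinal

variable {N h : ℕ} {T : ℕ → Finset ℕ → Set (List ℕ)}

private theorem Emb_comp_snoc {A B : Type} (g : A → B) {n : ℕ} (z : Fin n → A) (w : A) :
    g ∘ (Fin.snoc (α := fun _ => A) z w) = Fin.snoc (α := fun _ => B) (g ∘ z) (g w) := by
  funext t
  refine Fin.lastCases ?_ (fun i => ?_) t
  · simp
  · simp

/-- Let `R1` be an elementary extension of `M'` in the class, `F` a map from `M` to `R1` which preserves sorts and the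
relations `R i`, and which maps `S 0` of `M` into (the image of) `M'`.  Then it maps all of `M` into `M'`: by induction on
the sort; for `w` in `S (i + 2)` with `R (i + 1) (z, w)` the tuple `F z` is in `M'`, hence so is the unique `w'` with
`R (i + 1) (F z, w')` (it exists in `M'` by `step_iff`, and is unique by `step_inj`). -/
theorem maps_into {M M' K : Type} [(RL (arU N h)).Structure M] [(RL (arU N h)).Structure M']
    [(RL (arU N h)).Structure K]
    {R : ∀ i, (Fin (N + 2 + i) → M) → Prop} {R' : ∀ i, (Fin (N + 2 + i) → M') → Prop}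
    {RK : ∀ i, (Fin (N + 2 + i) → K) → Prop}
    (hR : IsUC N h T (sS N h M) (sC N h M) (sP N h M) R)
    (hR' : IsUC N h T (sS N h M') (sC N h M') (sP N h M') R')
    (hRK : IsUC N h T (sS N h K) (sC N h K) (sP N h K) RK)
    (g : M' → K) (hgS : ∀ i x, sS N h M' i x → sS N h K i (g x))
    (hgR : ∀ i ≤ h, ∀ z, RK i (g ∘ z) ↔ R' i z) (hgi : Function.Injective g)
    (F : M → K) (hFS : ∀ i x, sS N h M i x → sS N h K i (F x))
    (hFR : ∀ i ≤ h, ∀ z, RK i (F ∘ z) ↔ R i z)
    (h0 : ∀ x, sS N h M 0 x → ∃ y, g y = F x) (x : M) : ∃ y, g y = F x := by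
  classical
  have hsort : ∀ i y x, sS N h M i x → g y = F x → sS N h M' i y := by
    intro i y x hx hy
    obtain ⟨j, _, hj⟩ := hR'.sort_ex y
    have h1 := hgS j y hj
    rw [hy] at h1
    rw [hRK.sort_uniq i j _ (hFS i x hx) h1]
    exact hj
  have key : ∀ i, ∀ x, sS N h M i x → ∃ y, g y = F x := by
    intro i
    induction i using Nat.strong_induction_on with
    | _ i ih =>
      intro x hx
      match i, ih, hx with
      | 0, _, hx => exact h0 x hx
      | 1, _, hx =>
        obtain ⟨d, hd, _⟩ := hR.zero_fun x hx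
        have hZ := hR.r_sort 0 (Nat.zero_le _) _ hd
        have hdS : ∀ t : Fin (N + 1), sS N h M 0 (d t) := by
          intro t
          have h1 := hZ t.castSucc
          rw [Fin.snoc_castSucc (α := fun _ => M)] at h1
          have h2 : (t.castSucc : Fin (N + 2)).val - N = 0 := by
            simp only [Fin.val_castSucc]
            omega
          rwa [h2] at h1
        choose y hy using fun t => h0 (d t) (hdS t)
        obtain ⟨v, hv, _⟩ := hR'.zero_bij y (fun t => hsort 0 _ _ (hdS t) (hy t))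
        refine ⟨v, ?_⟩
        have e1 : g ∘ y = F ∘ d := funext hy
        have h3 := (hFR 0 (Nat.zero_le _) _).2 hd
        have h4 := (hgR 0 (Nat.zero_le _) _).2 hv
        rw [Emb_comp_snoc] at h3 h4
        rw [e1] at h4
        exact (hRK.zero_bij (F ∘ d) (fun t => hFS 0 _ (hdS t))).unique h4 h3
      | i + 2, ih, hx =>
        have hih : i < h := by
          obtain ⟨j, hj, hjx⟩ := hR.sort_ex x
          have := hR.sort_uniq _ _ _ hx hjx
          omega
        obtain ⟨z, hz, _⟩ := hR.step_fun i hih x hx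
        have hZ := hR.r_sort (i + 1) hih _ hz
        have hzS : ∀ t : Fin (N + 2 + i), sS N h M (t.val - N) (z t) := by
          intro t
          have h1 := hZ t.castSucc
          have h2 : (Fin.snoc (α := fun _ => M) z x) t.castSucc = z t :=
            Fin.snoc_castSucc (α := fun _ => M) _ _ _
          rw [h2] at h1
          simpa using h1
        choose y hy using fun t => ih (t.val - N) (by have := t.2; omega) (z t) (hzS t)
        have hyS : Zs N (sS N h M') y := fun t => hsort _ _ _ (hzS t) (hy t)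
        have e1 : g ∘ y = F ∘ z := funext hy
        have hn : ¬ R i z := fun h1 => ((hR.step_iff i hih z).1 h1).2 ⟨x, hz⟩
        have hn' : ¬ R' i y := by
          rw [← hgR i hih.le, e1, hFR i hih.le]
          exact hn
        have hex : ∃ w, R' (i + 1) (Fin.snoc (α := fun _ => M') y w) := by
          by_contra hc
          exact hn' ((hR'.step_iff i hih y).2 ⟨hyS, hc⟩)
        obtain ⟨w, hw⟩ := hex
        refine ⟨w, ?_⟩
        have h3 := (hFR (i + 1) hih _).2 hz
        have h4 := (hgR (i + 1) hih _).2 hw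
        have e3 : F ∘ (Fin.snoc (α := fun _ => M) z x) = Fin.snoc (α := fun _ => K) (F ∘ z) (F x) :=
          Emb_comp_snoc F z x
        have e4 : g ∘ (Fin.snoc (α := fun _ => M') y w) = Fin.snoc (α := fun _ => K) (g ∘ y) (g w) :=
          Emb_comp_snoc g y w
        have h3' : RK (i + 1) (Fin.snoc (α := fun _ => K) (F ∘ z) (F x)) := by
          rw [← e3]; exact h3
        have h4' : RK (i + 1) (Fin.snoc (α := fun _ => K) (F ∘ z) (g w)) := by
          rw [← e1, ← e4]; exact h4
        exact hRK.step_inj i hih (F ∘ z) _ _ h4' h3'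
  obtain ⟨i, _, hi⟩ := hR.sort_ex x
  exact key i x hi

private theorem Emb_card (ar : ℕ → ℕ) : (RL ar).card ≤ ℵ₀ := by
  have h1 : Countable ((Σ l, (RL ar).Functions l) ⊕ (Σ l, (RL ar).Relations l)) := by
    have i1 : ∀ l, Countable ((RL ar).Functions l) := fun l =>
      inferInstanceAs (Countable Empty)
    have i2 : ∀ l, Countable ((RL ar).Relations l) := fun l =>
      inferInstanceAs (Countable {k : ℕ // ar k = l})
    infer_instance
  exact Cardinal.mk_le_aleph0_iff.2 h1

private theorem Emb_equiv {X D D' : Type} (a : X → D) (ha : Function.Injective a) (b : X → D')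
    (hb : Function.Injective b)
    (hc : #((Set.range a)ᶜ : Set D) = #((Set.range b)ᶜ : Set D')) :
    ∃ e : D ≃ D', (∀ x, e (a x) = b x) ∧ ∀ d, d ∉ Set.range a → e d ∉ Set.range b := by
  classical
  obtain ⟨e2⟩ := Cardinal.eq.1 hc
  let e1 : Set.range a ≃ Set.range b := (Equiv.ofInjective a ha).symm.trans (Equiv.ofInjective b hb)
  let e : D ≃ D' := (Equiv.Set.sumCompl (Set.range a)).symm.trans
    ((Equiv.sumCongr e1 e2).trans (Equiv.Set.sumCompl (Set.range b)))
  refine ⟨e, fun x => ?_, fun d hd => ?_⟩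
  · have h1 : (Equiv.Set.sumCompl (Set.range a)).symm (a x) = Sum.inl ⟨a x, x, rfl⟩ :=
      Equiv.Set.sumCompl_symm_apply_of_mem (s := Set.range a) ⟨x, rfl⟩
    have h2 : (Equiv.ofInjective a ha).symm ⟨a x, x, rfl⟩ = x := by
      rw [Equiv.symm_apply_eq]
      rfl
    simp only [e, Equiv.trans_apply, h1, Equiv.sumCongr_apply, Sum.map_inl, e1, h2,
      Equiv.Set.sumCompl_apply_inl, Equiv.ofInjective_apply]
  · have h1 : (Equiv.Set.sumCompl (Set.range a)).symm d = Sum.inr ⟨d, hd⟩ :=
      Equiv.Set.sumCompl_symm_apply_of_notMem hd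
    simp only [e, Equiv.trans_apply, h1, Equiv.sumCongr_apply, Sum.map_inr,
      Equiv.Set.sumCompl_apply_inr]
    exact (e2 ⟨d, hd⟩).2

private theorem Emb_compl {D X : Type} {κ : Cardinal.{0}} (hκ : ℵ₀ ≤ κ) (hD : #D = κ) (a : X → D)
    (hX : #X < κ) : #((Set.range a)ᶜ : Set D) = κ := by
  have h1 : #(Set.range a) < #D := lt_of_le_of_lt Cardinal.mk_range_le (hD ▸ hX)
  have : Infinite D := Cardinal.infinite_iff.2 (hD ▸ hκ)
  rw [← hD]
  exact Cardinal.mk_compl_of_infinite (Set.range a) h1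

private theorem Emb_sS {M M' : Type} [(RL (arU N h)).Structure M] [(RL (arU N h)).Structure M']
    (f : M ↪ₑ[RL (arU N h)] M') (i : ℕ) (x : M) : sS N h M' i (f x) ↔ sS N h M i x := by
  have := f.toEmbedding.map_rel (⟨3 * i + 1, rfl⟩ : (RL (arU N h)).Relations (arU N h (3 * i + 1)))
    (fun _ => x)
  exact this

private theorem Emb_sC {M M' : Type} [(RL (arU N h)).Structure M] [(RL (arU N h)).Structure M']
    (f : M ↪ₑ[RL (arU N h)] M') (i : ℕ) (x : M) : sC N h M' i (f x) ↔ sC N h M i x := by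
  have := f.toEmbedding.map_rel (⟨3 * i + 2, rfl⟩ : (RL (arU N h)).Relations (arU N h (3 * i + 2)))
    (fun _ => x)
  exact this

/-- Let `κ` be uncountable and larger than `#M`, `#M'`.  Take elementary extensions `K` of `M` and `K'` of `M'` of
cardinality `κ` (`exists_elementaryEmbedding_card_eq`).  The injection of `S 0` of `M` into `S 0` of `M'` extends to
a bijection of `S 0` of `K` and `S 0` of `K'` preserving the constants (both complements have cardinality `κ`),
hence to an isomorphism `K ≃ K'` (`iso_ext`); by `maps_into` it maps `M` into `M'`, and this map is elementary. -/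
theorem exists_emb {M M' : Type} [(RL (arU N h)).Structure M] [(RL (arU N h)).Structure M']
    (hT : IsTy N T) (hM : Cls N h T M) (hM' : Cls N h T M')
    (ι : {x : M // sS N h M 0 x} → {x : M' // sS N h M' 0 x}) (hι : Function.Injective ι)
    (hιC : ∀ m x, sC N h M m x.1 ↔ sC N h M' m (ι x).1) :
    Nonempty (M ↪ₑ[RL (arU N h)] M') := by
  classical
  obtain ⟨T0, hT0⟩ := exists_thy (h := h) hT
  have hMi : Infinite M := cls_infinite hM
  have hMi' : Infinite M' := cls_infinite hM'
  -- the cardinal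
  obtain ⟨κ, hκ1, hκ2, hκ3⟩ : ∃ κ : Cardinal.{0}, ℵ₀ < κ ∧ #M < κ ∧ #M' < κ :=
    ⟨2 ^ (max #M #M'), lt_of_le_of_lt ((Cardinal.infinite_iff.1 hMi).trans (le_max_left _ _))
      (Cardinal.cantor _), lt_of_le_of_lt (le_max_left _ _) (Cardinal.cantor _),
      lt_of_le_of_lt (le_max_right _ _) (Cardinal.cantor _)⟩
  have hcard : Cardinal.lift.{0} (RL (arU N h)).card ≤ Cardinal.lift.{max 0 0} κ := by
    simpa using (Emb_card (arU N h)).trans hκ1.le
  obtain ⟨K, ⟨f⟩, hK⟩ := Language.exists_elementaryEmbedding_card_eq_of_ge (RL (arU N h)) M κ hcard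
    (by simpa using hκ2.le)
  obtain ⟨K', ⟨f'⟩, hK'⟩ := Language.exists_elementaryEmbedding_card_eq_of_ge (RL (arU N h)) M' κ hcard
    (by simpa using hκ3.le)
  have hKc : Cls N h T K := (hT0 K).1 ((f.theory_model_iff T0).1 ((hT0 M).2 hM))
  have hKc' : Cls N h T K' := (hT0 K').1 ((f'.theory_model_iff T0).1 ((hT0 M').2 hM'))
  obtain ⟨R, hR, hQ⟩ := hM
  obtain ⟨R', hR', hQ'⟩ := hM'
  obtain ⟨RK, hRK, hQK⟩ := hKc
  obtain ⟨RK', hRK', hQK'⟩ := hKc'
  -- the bijection
  let a : {x : M // sS N h M 0 x} → {x : K // sS N h K 0 x} := fun x =>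
    ⟨f x.1, (Emb_sS f 0 x.1).2 x.2⟩
  let b0 : {x : M' // sS N h M' 0 x} → {x : K' // sS N h K' 0 x} := fun x =>
    ⟨f' x.1, (Emb_sS f' 0 x.1).2 x.2⟩
  have ha : Function.Injective a := fun x y hxy => by
    have := congrArg Subtype.val hxy
    exact Subtype.ext (f.injective this)
  have hb0 : Function.Injective b0 := fun x y hxy => by
    have := congrArg Subtype.val hxy
    exact Subtype.ext (f'.injective this)
  have hXM : #{x : M // sS N h M 0 x} < κ := lt_of_le_of_lt (Cardinal.mk_subtype_le _) hκ2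
  obtain ⟨e, he1, he2⟩ := Emb_equiv a ha (b0 ∘ ι) (hb0.comp hι) (by
    rw [Emb_compl hκ1.le ((card_S0 hRK).trans hK) a hXM,
      Emb_compl hκ1.le ((card_S0 hRK').trans hK') (b0 ∘ ι) hXM])
  have hCa : ∀ m (d : {x : K // sS N h K 0 x}), sC N h K m d.1 → d ∈ Set.range a := by
    intro m d hd
    obtain ⟨c, hc⟩ := hR.c_ex m
    have hc' : sC N h K m (f c) := (Emb_sC f m c).2 hc
    exact ⟨⟨c, hR.c_sort m c hc⟩, Subtype.ext (hRK.c_uniq m _ _ hc' hd)⟩
  have hCb : ∀ m (d : {x : K' // sS N h K' 0 x}), sC N h K' m d.1 → d ∈ Set.range (b0 ∘ ι) := by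
    intro m d hd
    obtain ⟨c, hc⟩ := hR.c_ex m
    have h1 : sC N h M' m (ι ⟨c, hR.c_sort m c hc⟩).1 := (hιC m ⟨c, hR.c_sort m c hc⟩).1 hc
    have hc' : sC N h K' m (f' (ι ⟨c, hR.c_sort m c hc⟩).1) := (Emb_sC f' m _).2 h1
    exact ⟨⟨c, hR.c_sort m c hc⟩, Subtype.ext (hRK'.c_uniq m _ _ hc' hd)⟩
  have heC : ∀ m (x : {x : K // sS N h K 0 x}), sC N h K m x.1 ↔ sC N h K' m (e x).1 := by
    intro m x
    by_cases hx : x ∈ Set.range a
    · obtain ⟨y, rfl⟩ := hx
      rw [he1 y]
      exact (Emb_sC f m y.1).trans ((hιC m y).trans (Emb_sC f' m (ι y).1).symm)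
    · exact ⟨fun h1 => absurd (hCa m x h1) hx, fun h1 => absurd (hCb m _ h1) (he2 x hx)⟩
  obtain ⟨F, hF0, hFS, hFC, hFP, hFR⟩ := iso_ext hRK hRK' e heC
  obtain ⟨E, hE⟩ := exists_iso F hFS hFC hFP (fun x => by
    rw [← hQK, ← hQK']
    exact hFR h le_rfl x)
  -- the map
  have hmap : ∀ x : M, ∃ y : M', f' y = F (f x) := by
    intro x
    refine maps_into hR hR' hRK' f' (fun i x hx => (Emb_sS f' i x).2 hx)
      (fun i hi z => R_elem hR' hQ' hRK' hQK' f' i hi z) f'.injective (fun x => F (f x))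
      (fun i x hx => (hFS i _).1 ((Emb_sS f i x).2 hx)) (fun i hi z => ?_) (fun x hx => ?_) x
    · have h1 := R_elem hR hQ hRK hQK f i hi z
      have h2 := hFR i hi (f ∘ z)
      exact h2.symm.trans h1
    · refine ⟨(ι ⟨x, hx⟩).1, ?_⟩
      have h1 := he1 ⟨x, hx⟩
      have h2 := hF0 (a ⟨x, hx⟩)
      change F (f x) = _ at h2
      rw [h2, h1]
      rfl
  choose φ hφ using hmap
  refine ⟨⟨φ, fun n ψ v => ?_⟩⟩
  have h1 : f' ∘ (φ ∘ v) = E ∘ (f ∘ v) := by
    funext t
    simp only [Function.comp_apply]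
    rw [hφ, hE]
  rw [← f'.map_formula, ← f.map_formula, h1]
  exact (E.toElementaryEmbedding.map_formula ψ (f ∘ v))

/-- For countable `M` (or `gen N h M` at most the number of the generic elements of `M'`). -/
theorem exists_emb_of_le {M M' : Type} [(RL (arU N h)).Structure M]
    [(RL (arU N h)).Structure M'] [Countable M] (hT : IsTy N T) (hM : Cls N h T M)
    (hM' : Cls N h T M') (hg : gen N h M ≤ gen N h M') : Nonempty (M ↪ₑ[RL (arU N h)] M') := by
  classical
  obtain ⟨R, hR, hQ⟩ := id hM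
  obtain ⟨R', hR', hQ'⟩ := id hM'
  have h1 : #{x : M | sS N h M 0 x ∧ ∀ m, ¬ sC N h M m x} ≤
      #{x : M' | sS N h M' 0 x ∧ ∀ m, ¬ sC N h M' m x} := by
    rw [← Cardinal.toENat_le_iff_of_le_aleph0 Cardinal.mk_le_aleph0]
    exact hg
  obtain ⟨j⟩ := h1
  choose c hc using hR'.c_ex
  let ι : {x : M // sS N h M 0 x} → {x : M' // sS N h M' 0 x} := fun x =>
    if hx : ∃ m, sC N h M m x.1 then ⟨c hx.choose, hR'.c_sort _ _ (hc _)⟩
    else ⟨(j ⟨x.1, x.2, not_exists.1 hx⟩).1, (j ⟨x.1, x.2, not_exists.1 hx⟩).2.1⟩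
  have hι1 : ∀ (x : {x : M // sS N h M 0 x}) m, sC N h M m x.1 → (ι x).1 = c m := by
    intro x m hm
    have hx : ∃ m, sC N h M m x.1 := ⟨m, hm⟩
    have h2 : hx.choose = m := hR.c_inj _ _ _ hx.choose_spec hm
    simp only [ι, dif_pos hx, h2]
  have hι2 : ∀ (x : {x : M // sS N h M 0 x}) (hx : ¬ ∃ m, sC N h M m x.1),
      (ι x).1 = (j ⟨x.1, x.2, not_exists.1 hx⟩).1 := by
    intro x hx
    simp only [ι, dif_neg hx]
  refine exists_emb hT hM hM' ι ?_ ?_
  · intro x y hxy
    have hxy' : (ι x).1 = (ι y).1 := congrArg Subtype.val hxy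
    by_cases hx : ∃ m, sC N h M m x.1
    · obtain ⟨m, hm⟩ := hx
      by_cases hy : ∃ m, sC N h M m y.1
      · obtain ⟨m', hm'⟩ := hy
        rw [hι1 x m hm, hι1 y m' hm'] at hxy'
        have h3 := hR'.c_inj m m' _ (hc m) (hxy' ▸ hc m')
        subst h3
        exact Subtype.ext (hR.c_uniq m _ _ hm hm')
      · rw [hι1 x m hm, hι2 y hy] at hxy'
        exact absurd (hxy' ▸ hc m) ((j ⟨y.1, y.2, not_exists.1 hy⟩).2.2 m)
    · by_cases hy : ∃ m, sC N h M m y.1
      · obtain ⟨m', hm'⟩ := hy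
        rw [hι1 y m' hm', hι2 x hx] at hxy'
        exact absurd (hxy'.symm ▸ hc m') ((j ⟨x.1, x.2, not_exists.1 hx⟩).2.2 m')
      · rw [hι2 x hx, hι2 y hy] at hxy'
        have h4 := j.injective (Subtype.ext hxy')
        have h5 := congrArg Subtype.val h4
        exact Subtype.ext h5
  · intro m x
    constructor
    · intro hm
      rw [hι1 x m hm]
      exact hc m
    · intro hm
      by_cases hx : ∃ m, sC N h M m x.1
      · obtain ⟨m', hm'⟩ := hx
        rw [hι1 x m' hm'] at hm
        rw [hR'.c_inj m m' _ hm (hc m')]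
        exact hm'
      · rw [hι2 x hx] at hm
        exact absurd hm ((j ⟨x.1, x.2, not_exists.1 hx⟩).2.2 m)

end Pool.Agent.H78.UC
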