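import Pool.Agent.H78.UC.TyDef

/-!
Project UC, part C: enumeration of the types realized in the model with `j` generic elements.
-/

set_option autoImplicit false

namespace Pool.Agent.H78.UC

open Pool.Agent.H80

/-- The realized types. -/
def realz (N : ℕ) (T : ℕ → Finset ℕ → Set (List ℕ)) (j : ℕ∞) : Set (Set (List ℕ)) :=
  {t | ∃ s, 1 ≤ s ∧ s ≤ N ∧ ∃ u : Finset ℕ, u.card ≤ s ∧ ((s - u.card : ℕ) : ℕ∞) ≤ j ∧ t = T s u}

variable {N : ℕ} {T : ℕ → Finset ℕ → Set (List ℕ)}

theorem Enum_prefix {g : ℕ → List ℕ} (hg : Computable g) :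
    ComputablePred (fun p : ℕ × List ℕ => p.2 <+: g p.1) := by
  have h1 : ComputablePred (fun z : List ℕ × List ℕ => z.1 = z.2) :=
    (PrimrecPred.computablePred (Primrec.eq.comp Primrec.fst Primrec.snd))
  have h2 : Computable (fun p : ℕ × List ℕ => (p.2, (g p.1).take p.2.length)) :=
    Computable.snd.pair
      ((Primrec.list_take.to_comp).comp (Primrec.list_length.to_comp.comp Computable.snd)
        (hg.comp Computable.fst))
  exact (cp_comp h1 h2).of_eq fun p => List.prefix_iff_eq_take.symm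

/-- The set `A` of types is the range of a sequence which is `Δ⁰ₖ₊₁`. -/
def Enum_E (k : ℕ) (A : Set (Set (List ℕ))) : Prop :=
  ∃ τ : ℕ → Set (List ℕ), Set.range τ = A ∧ IsDelta (k + 1) (fun p : ℕ × List ℕ => p.2 ∈ τ p.1)

theorem Enum_union {k : ℕ} {A B : Set (Set (List ℕ))} (hA : Enum_E k A) (hB : Enum_E k B) :
    Enum_E k (A ∪ B) := by
  obtain ⟨τ₁, h1, d1⟩ := hA
  obtain ⟨τ₂, h2, d2⟩ := hB
  refine ⟨fun m => if m % 2 = 0 then τ₁ (m / 2) else τ₂ (m / 2), ?_, ?_⟩
  · ext t
    constructor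
    · rintro ⟨m, rfl⟩
      by_cases hm : m % 2 = 0
      · left
        simp only [if_pos hm]
        rw [← h1]
        exact ⟨_, rfl⟩
      · right
        simp only [if_neg hm]
        rw [← h2]
        exact ⟨_, rfl⟩
    · rintro (ht | ht)
      · rw [← h1] at ht
        obtain ⟨m, rfl⟩ := ht
        refine ⟨2 * m, ?_⟩
        have e1 : (2 * m) % 2 = 0 := by omega
        have e2 : (2 * m) / 2 = m := by omega
        simp only [if_pos e1, e2]
      · rw [← h2] at ht
        obtain ⟨m, rfl⟩ := ht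
        refine ⟨2 * m + 1, ?_⟩
        have e1 : ¬ (2 * m + 1) % 2 = 0 := by omega
        have e2 : (2 * m + 1) / 2 = m := by omega
        simp only [if_neg e1, e2]
  · have c1 : Computable (fun p : ℕ × List ℕ => (p.1 / 2, p.2)) :=
      ((Primrec.nat_div.comp Primrec.fst (Primrec.const 2)).pair Primrec.snd).to_comp
    have c2 : IsDelta (k + 1) (fun p : ℕ × List ℕ => p.1 % 2 = 0) :=
      delta_of_computable (PrimrecPred.computablePred
        (Primrec.eq.comp (Primrec.nat_mod.comp Primrec.fst (Primrec.const 2))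
          (Primrec.const 0))) _
    refine ((c2.and (d1.comp c1)).or (c2.not.and (d2.comp c1))).of_eq fun p => ?_
    by_cases hm : p.1 % 2 = 0
    · simp [hm]
    · simp [hm]

theorem Enum_range {k : ℕ} {g : ℕ → List ℕ} (hg : Computable g) :
    Enum_E k (Set.range fun a => {w | w <+: g a}) :=
  ⟨fun a => {w | w <+: g a}, rfl, delta_of_computable (Enum_prefix hg) _⟩

theorem Enum_single {k : ℕ} {t : Set (List ℕ)} (ht : IsDelta (k + 1) (fun w => w ∈ t)) :
    Enum_E k {t} :=
  ⟨fun _ => t, Set.range_const, ht.comp Computable.snd⟩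

theorem Enum_level (hT : IsTy N T) (j : ℕ∞) (k : ℕ) (hk : (k : ℕ∞) = min j N) (s : ℕ)
    (hs : 1 ≤ s) (hsN : s ≤ N) :
    Enum_E k {t | ∃ u : Finset ℕ, u.card ≤ s ∧ ((s - u.card : ℕ) : ℕ∞) ≤ j ∧ t = T s u} := by
  obtain ⟨g, hg, h1, h2⟩ := hT.low s hs hsN
  have hG : (Set.range fun a => {w | w <+: g a}) ⊆
      {t | ∃ u : Finset ℕ, u.card ≤ s ∧ ((s - u.card : ℕ) : ℕ∞) ≤ j ∧ t = T s u} := by
    rintro _ ⟨a, rfl⟩
    obtain ⟨u, hu, he⟩ := h2 a
    refine ⟨u, hu.le, ?_, he.symm⟩
    rw [hu, Nat.sub_self]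
    exact zero_le
  by_cases hsk : s ≤ k
  · have hsj : (s : ℕ∞) ≤ j := by
      have h3 : (s : ℕ∞) ≤ k := by exact_mod_cast hsk
      rw [hk] at h3
      exact h3.trans (min_le_left _ _)
    have he : {t | ∃ u : Finset ℕ, u.card ≤ s ∧ ((s - u.card : ℕ) : ℕ∞) ≤ j ∧ t = T s u} =
        (Set.range fun a => {w | w <+: g a}) ∪ {T s ∅} := by
      ext t
      constructor
      · rintro ⟨u, hu, hj, rfl⟩
        rcases u.eq_empty_or_nonempty with rfl | hne
        · right
          rfl
        · left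
          obtain ⟨a, ha⟩ := h1 u hne hu
          exact ⟨a, ha.symm⟩
      · rintro (ht | rfl)
        · exact hG ht
        · refine ⟨∅, by simp, ?_, rfl⟩
          simpa using hsj
    rw [he]
    exact Enum_union (Enum_range hg) (Enum_single ((hT.top s hs hsN).1.mono (by omega)))
  · have he : {t | ∃ u : Finset ℕ, u.card ≤ s ∧ ((s - u.card : ℕ) : ℕ∞) ≤ j ∧ t = T s u} =
        (Set.range fun a => {w | w <+: g a}) := by
      refine Set.Subset.antisymm ?_ hG
      rintro t ⟨u, hu, hj, rfl⟩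
      rcases u.eq_empty_or_nonempty with rfl | hne
      · exfalso
        apply hsk
        have h3 : (s : ℕ∞) ≤ j := by simpa using hj
        have h4 : (s : ℕ∞) ≤ N := by exact_mod_cast hsN
        have h5 : (s : ℕ∞) ≤ k := by
          rw [hk]
          exact le_min h3 h4
        exact_mod_cast h5
      · obtain ⟨a, ha⟩ := h1 u hne hu
        exact ⟨a, ha.symm⟩
    rw [he]
    exact Enum_range hg

/-- By `IsTy.low` the set of types is the union over `1 ≤ s ≤ N` of the sets `{w | w <+: g_s a}`, `a ∈ ℕ`, and of the types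
`T s ∅` with `s ≤ k`; the latter are `Δ⁰ₛ₊₁`, hence `Δ⁰ₖ₊₁`.  A finite union of sequences (`N ≥ 1`) is a sequence. -/
theorem exists_enum (hT : IsTy N T) (hN : 1 ≤ N) (j : ℕ∞) (k : ℕ) (hk : (k : ℕ∞) = min j N) :
    ∃ τ : ℕ → Set (List ℕ), Set.range τ = realz N T j ∧
      IsDelta (k + 1) (fun p : ℕ × List ℕ => p.2 ∈ τ p.1) := by
  have key : ∀ n, 1 ≤ n → n ≤ N → Enum_E k {t | ∃ s, 1 ≤ s ∧ s ≤ n ∧
      ∃ u : Finset ℕ, u.card ≤ s ∧ ((s - u.card : ℕ) : ℕ∞) ≤ j ∧ t = T s u} := by
    intro n hn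
    induction n, hn using Nat.le_induction with
    | base =>
      intro h1
      have h2 := Enum_level hT j k hk 1 le_rfl h1
      convert h2 using 1
      ext t
      constructor
      · rintro ⟨s, hs, hs1, h3⟩
        obtain rfl : s = 1 := by omega
        exact h3
      · intro h3
        exact ⟨1, le_rfl, le_rfl, h3⟩
    | succ n hn ih =>
      intro h1
      have h2 := Enum_union (ih (by omega)) (Enum_level hT j k hk (n + 1) (by omega) h1)
      convert h2 using 1
      ext t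
      constructor
      · rintro ⟨s, hs, hs1, h3⟩
        rcases Nat.lt_or_ge n s with h4 | h4
        · obtain rfl : s = n + 1 := by omega
          exact Or.inr h3
        · exact Or.inl ⟨s, hs, h4, h3⟩
      · rintro (⟨s, hs, hs1, h3⟩ | h3)
        · exact ⟨s, hs, by omega, h3⟩
        · exact ⟨n + 1, by omega, le_rfl, h3⟩
  exact key N hN le_rfl

/-- The set of realized types depends only on `min j N`. -/
theorem realz_congr {j j' : ℕ∞} (h : min j N = min j' N) : realz N T j = realz N T j' := by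
  have key : ∀ {i i' : ℕ∞}, min i N = min i' N → ∀ m : ℕ, m ≤ N → (m : ℕ∞) ≤ i → (m : ℕ∞) ≤ i' := by
    intro i i' hi m hm h1
    have h2 : (m : ℕ∞) ≤ N := by exact_mod_cast hm
    have h3 : (m : ℕ∞) ≤ min i' N := hi ▸ le_min h1 h2
    exact h3.trans (min_le_left _ _)
  ext t
  constructor
  · rintro ⟨s, hs, hsN, u, hu, hj, rfl⟩
    exact ⟨s, hs, hsN, u, hu, key h _ (by omega) hj, rfl⟩
  · rintro ⟨s, hs, hsN, u, hu, hj, rfl⟩
    exact ⟨s, hs, hsN, u, hu, key h.symm _ (by omega) hj, rfl⟩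

end Pool.Agent.H78.UC
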