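import Pool.Agent.H78.UC.Defs

/-!
Project UC, part B: first-order definable predicates, uniformly in all structures.
-/

set_option autoImplicit false

namespace Pool.Agent.H78.UC

open FirstOrder Cardinal

/-- The predicate `P` (given for all structures and all `n`-tuples) is first-order definable. -/
def IsFO (L : FirstOrder.Language.{0, 0}) {n : ℕ}
    (P : ∀ (M : Type) [L.Structure M], (Fin n → M) → Prop) : Prop :=
  ∃ φ : L.Formula (Fin n), ∀ (M : Type) [L.Structure M] (v : Fin n → M), φ.Realize v ↔ P M v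

variable {L : FirstOrder.Language.{0, 0}} {n m : ℕ}

theorem IsFO.of_iff {P Q : ∀ (M : Type) [L.Structure M], (Fin n → M) → Prop} (h : IsFO L P)
    (hPQ : ∀ (M : Type) [L.Structure M] (v : Fin n → M), P M v ↔ Q M v) : IsFO L Q := by
  obtain ⟨φ, hφ⟩ := h
  exact ⟨φ, fun M _ v => (hφ M v).trans (hPQ M v)⟩

theorem isFO_const (P : Prop) : IsFO L (n := n) (fun _ _ _ => P) := by
  by_cases h : P
  · exact ⟨⊤, fun M _ v => by simp [h]⟩
  · exact ⟨⊥, fun M _ v => by simp [h]⟩

theorem IsFO.not {P : ∀ (M : Type) [L.Structure M], (Fin n → M) → Prop} (h : IsFO L P) :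
    IsFO L (fun M _ v => ¬ P M v) := by
  obtain ⟨φ, hφ⟩ := h
  exact ⟨φ.not, fun M _ v => by rw [Language.Formula.realize_not, hφ]⟩

theorem IsFO.and {P Q : ∀ (M : Type) [L.Structure M], (Fin n → M) → Prop} (hP : IsFO L P)
    (hQ : IsFO L Q) : IsFO L (fun M _ v => P M v ∧ Q M v) := by
  obtain ⟨φ, hφ⟩ := hP
  obtain ⟨ψ, hψ⟩ := hQ
  exact ⟨φ ⊓ ψ, fun M _ v => by rw [Language.Formula.realize_inf, hφ, hψ]⟩

theorem IsFO.or {P Q : ∀ (M : Type) [L.Structure M], (Fin n → M) → Prop} (hP : IsFO L P)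
    (hQ : IsFO L Q) : IsFO L (fun M _ v => P M v ∨ Q M v) := by
  obtain ⟨φ, hφ⟩ := hP
  obtain ⟨ψ, hψ⟩ := hQ
  exact ⟨φ ⊔ ψ, fun M _ v => by rw [Language.Formula.realize_sup, hφ, hψ]⟩

theorem IsFO.imp {P Q : ∀ (M : Type) [L.Structure M], (Fin n → M) → Prop} (hP : IsFO L P)
    (hQ : IsFO L Q) : IsFO L (fun M _ v => P M v → Q M v) := by
  obtain ⟨φ, hφ⟩ := hP
  obtain ⟨ψ, hψ⟩ := hQ
  exact ⟨φ.imp ψ, fun M _ v => by rw [Language.Formula.realize_imp, hφ, hψ]⟩

theorem IsFO.iff {P Q : ∀ (M : Type) [L.Structure M], (Fin n → M) → Prop} (hP : IsFO L P)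
    (hQ : IsFO L Q) : IsFO L (fun M _ v => (P M v ↔ Q M v)) :=
  ((hP.imp hQ).and (hQ.imp hP)).of_iff fun _ _ _ => iff_iff_implies_and_implies.symm

theorem isFO_eq (i j : Fin n) : IsFO L (n := n) (fun _ _ v => v i = v j) := by
  refine ⟨Language.Term.equal (Language.Term.var i) (Language.Term.var j), fun M _ v => ?_⟩
  rw [Language.Formula.realize_equal]
  rfl

/-- Substitution of variables. -/
theorem IsFO.reindex {P : ∀ (M : Type) [L.Structure M], (Fin m → M) → Prop} (h : IsFO L P)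
    (g : Fin m → Fin n) : IsFO L (n := n) (fun M _ v => P M (fun i => v (g i))) := by
  obtain ⟨φ, hφ⟩ := h
  refine ⟨φ.relabel g, fun M _ v => ?_⟩
  rw [Language.Formula.realize_relabel, hφ]
  rfl

theorem FO_append {M : Type} (v : Fin n → M) (x : Fin m → M) :
    Sum.elim v x ∘ finSumFinEquiv.symm = Fin.append v x := by
  funext i
  refine Fin.addCases (fun i => ?_) (fun i => ?_) i
  · simp
  · simp

theorem FO_ex_tuple {P : ∀ (M : Type) [L.Structure M], (Fin (n + m) → M) → Prop}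
    (h : IsFO L P) :
    IsFO L (n := n) (fun M _ v => ∃ x : Fin m → M, P M (Fin.append v x)) := by
  obtain ⟨φ, hφ⟩ := h
  refine ⟨(φ.relabel (finSumFinEquiv (m := n) (n := m)).symm).iExs (Fin m), fun M _ v => ?_⟩
  rw [Language.Formula.realize_iExs]
  apply exists_congr
  intro x
  rw [Language.Formula.realize_relabel, FO_append, hφ]

theorem IsFO.ex {P : ∀ (M : Type) [L.Structure M], (Fin (n + 1) → M) → Prop} (h : IsFO L P) :
    IsFO L (n := n) (fun M _ v => ∃ x : M, P M (Fin.snoc (α := fun _ => M) v x)) := by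
  refine (FO_ex_tuple (m := 1) h).of_iff fun M _ v => ?_
  constructor
  · rintro ⟨x, hx⟩
    refine ⟨x 0, ?_⟩
    rw [Fin.append_right_eq_snoc] at hx
    exact hx
  · rintro ⟨x, hx⟩
    refine ⟨fun _ => x, ?_⟩
    rw [Fin.append_right_eq_snoc]
    exact hx

theorem IsFO.all {P : ∀ (M : Type) [L.Structure M], (Fin (n + 1) → M) → Prop} (h : IsFO L P) :
    IsFO L (n := n) (fun M _ v => ∀ x : M, P M (Fin.snoc (α := fun _ => M) v x)) := by
  refine (h.not.ex.not).of_iff fun M _ v => ?_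
  push Not
  rfl

/-- Quantification over a tuple. -/
theorem IsFO.ex_tuple {P : ∀ (M : Type) [L.Structure M], (Fin (n + m) → M) → Prop}
    (h : IsFO L P) :
    IsFO L (n := n) (fun M _ v => ∃ x : Fin m → M, P M (Fin.append v x)) := FO_ex_tuple h

theorem IsFO.all_tuple {P : ∀ (M : Type) [L.Structure M], (Fin (n + m) → M) → Prop}
    (h : IsFO L P) :
    IsFO L (n := n) (fun M _ v => ∀ x : Fin m → M, P M (Fin.append v x)) := by
  refine (h.not.ex_tuple.not).of_iff fun M _ v => ?_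
  push Not
  rfl

theorem FO_exists {β : Type} [Finite β] {P : β → ∀ (M : Type) [L.Structure M], (Fin n → M) → Prop}
    (h : ∀ b, IsFO L (P b)) : IsFO L (n := n) (fun M _ v => ∃ b, P b M v) := by
  choose φ hφ using h
  refine ⟨Language.Formula.iSup φ, fun M _ v => ?_⟩
  rw [Language.Formula.realize_iSup]
  exact exists_congr fun b => hφ b M v

theorem FO_forall {β : Type} [Finite β] {P : β → ∀ (M : Type) [L.Structure M], (Fin n → M) → Prop}
    (h : ∀ b, IsFO L (P b)) : IsFO L (n := n) (fun M _ v => ∀ b, P b M v) := by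
  refine ((FO_exists fun b => (h b).not).not).of_iff fun M _ v => ?_
  push Not
  rfl

/-- A predicate which depends only on finitely many definable predicates. -/
theorem isFO_of_data {ι : Type} [Finite ι]
    (Q : ι → ∀ (M : Type) [L.Structure M], (Fin n → M) → Prop) (hQ : ∀ i, IsFO L (Q i))
    (F : (ι → Prop) → Prop) : IsFO L (n := n) (fun M _ v => F (fun i => Q i M v)) := by
  have h : IsFO L (n := n) (fun M _ v => ∃ S : Set ι, F (fun i => i ∈ S) ∧
      ∀ i, (Q i M v ↔ i ∈ S)) :=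
    FO_exists fun S => (isFO_const _).and (FO_forall fun i => (hQ i).iff (isFO_const _))
  refine h.of_iff fun M _ v => ?_
  constructor
  · rintro ⟨S, hS, h1⟩
    have h2 : (fun i => Q i M v) = fun i => i ∈ S := funext fun i => propext (h1 i)
    rw [h2]
    exact hS
  · intro h1
    exact ⟨{i | Q i M v}, h1, fun i => Iff.rfl⟩

theorem isFO_rel {ar : ℕ → ℕ} (k : ℕ) (g : Fin (ar k) → Fin n) :
    IsFO (RL ar) (n := n) (fun M _ v => rel ar M k (fun i => v (g i))) := by
  obtain ⟨R, hR⟩ : ∃ R : (RL ar).Relations (ar k), R = (⟨k, rfl⟩ : {j : ℕ // ar j = ar k}) :=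
    ⟨_, rfl⟩
  refine ⟨Language.Relations.formula R (fun i => Language.Term.var (g i)), fun M _ v => ?_⟩
  rw [Language.Formula.realize_rel, hR]
  rfl

/-- Elementary embeddings preserve definable predicates. -/
theorem IsFO.elem {P : ∀ (M : Type) [L.Structure M], (Fin n → M) → Prop} (h : IsFO L P)
    {M N : Type} [L.Structure M] [L.Structure N] (f : M ↪ₑ[L] N) (v : Fin n → M) :
    P N (f ∘ v) ↔ P M v := by
  obtain ⟨φ, hφ⟩ := h
  rw [← hφ, ← hφ]
  exact f.map_formula φ v

/-- Axiomatization. -/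
theorem exists_theory {ι : Type} (Ax : ι → ∀ (M : Type) [L.Structure M], Prop)
    (h : ∀ i, IsFO L (n := 0) (fun M _ _ => Ax i M)) :
    ∃ T : L.Theory, ∀ (M : Type) [L.Structure M], M ⊨ T ↔ ∀ i, Ax i M := by
  choose φ hφ using h
  refine ⟨Set.range fun i => ((φ i).relabel (Fin.elim0 : Fin 0 → Empty) : L.Sentence),
    fun M _ => ?_⟩
  have key : ∀ i, M ⊨ ((φ i).relabel (Fin.elim0 : Fin 0 → Empty) : L.Sentence) ↔ Ax i M := by
    intro i
    have h1 : M ⊨ ((φ i).relabel (Fin.elim0 : Fin 0 → Empty) : L.Sentence) ↔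
        ((φ i).relabel (Fin.elim0 : Fin 0 → Empty)).Realize (default : Empty → M) := Iff.rfl
    rw [h1, Language.Formula.realize_relabel, hφ]
  rw [Language.Theory.model_iff]
  constructor
  · intro h i
    exact (key i).1 (h _ ⟨i, rfl⟩)
  · rintro h _ ⟨i, rfl⟩
    exact (key i).2 (h i)

end Pool.Agent.H78.UC
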