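import Pool.Agent.H78.UC.ArX

/-!
Project UC, part A: the arithmetical hierarchy does not collapse.
-/

set_option autoImplicit false

namespace Pool.Agent.H78.UC

open Pool.Agent.H80

/-- The universal predicate of level one. -/
def Hier_U0 : ℕ × ℕ → Prop := fun z =>
  (Nat.Partrec.Code.eval (Encodable.decode (α := Nat.Partrec.Code) z.1 |>.getD Nat.Partrec.Code.zero)
    z.2).Dom

theorem Hier_U0_sigma : IsSigma 1 Hier_U0 := by
  refine ⟨fun w : (ℕ × ℕ) × ℕ => (Nat.Partrec.Code.evaln w.2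
    (Encodable.decode (α := Nat.Partrec.Code) w.1.1 |>.getD Nat.Partrec.Code.zero) w.1.2).isSome = true,
    ?_, ?_⟩
  · refine ComputablePred.not ?_
    refine ComputablePred.computable_iff.2 ⟨fun w : (ℕ × ℕ) × ℕ => (Nat.Partrec.Code.evaln w.2
      (Encodable.decode (α := Nat.Partrec.Code) w.1.1 |>.getD Nat.Partrec.Code.zero) w.1.2).isSome,
      ?_, rfl⟩
    have h1 : Computable (fun w : (ℕ × ℕ) × ℕ =>
        (Encodable.decode (α := Nat.Partrec.Code) w.1.1 |>.getD Nat.Partrec.Code.zero)) := by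
      refine Computable.option_getD ?_ (Computable.const _)
      exact Computable.decode.comp (Computable.fst.comp Computable.fst)
    have h2 := Nat.Partrec.Code.primrec_evaln.to_comp
    have h3 : Computable (fun w : (ℕ × ℕ) × ℕ => ((w.2,
        (Encodable.decode (α := Nat.Partrec.Code) w.1.1 |>.getD Nat.Partrec.Code.zero)), w.1.2)) :=
      (Computable.snd.pair h1).pair (Computable.snd.comp Computable.fst)
    exact (Primrec.option_isSome.to_comp).comp (h2.comp h3)
  · rintro ⟨e, x⟩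
    show (Nat.Partrec.Code.eval _ _).Dom ↔ _
    rw [Part.dom_iff_mem]
    constructor
    · rintro ⟨y, hy⟩
      obtain ⟨k, hk⟩ := Nat.Partrec.Code.evaln_complete.1 hy
      exact ⟨k, by
        show (Nat.Partrec.Code.evaln k _ _).isSome = true
        rw [Option.mem_def] at hk
        rw [hk]; rfl⟩
    · rintro ⟨k, hk⟩
      obtain ⟨y, hy⟩ := Option.isSome_iff_exists.1 hk
      exact ⟨y, Nat.Partrec.Code.evaln_complete.2 ⟨k, hy⟩⟩

theorem Hier_U0_univ (p : ℕ → Prop) (hp : IsSigma 1 p) : ∃ e, ∀ x, p x ↔ Hier_U0 (e, x) := by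
  obtain ⟨q, hq, h⟩ := hp
  have hq' : ComputablePred q := (isPi_zero (p := q)).1 hq
  obtain ⟨g, hg, hqg⟩ := ComputablePred.computable_iff.1 hq'
  have hf : Partrec (fun a : ℕ => Nat.rfind (fun x => (Part.some (g (a, x))))) := by
    refine Partrec.rfind (p := fun (a : ℕ) (x : ℕ) => (Part.some (g (a, x)) : Part Bool)) ?_
    exact (hg.partrec).to₂
  obtain ⟨c, hc⟩ := Nat.Partrec.Code.exists_code.1 (Partrec.nat_iff.1 hf)
  refine ⟨Encodable.encode c, fun x => ?_⟩
  rw [h x]
  show _ ↔ (Nat.Partrec.Code.eval (Encodable.decode (α := Nat.Partrec.Code)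
    (Encodable.encode c) |>.getD Nat.Partrec.Code.zero) x).Dom
  rw [Encodable.encodek, Option.getD_some, hc]
  rw [Nat.rfind_dom]
  constructor
  · rintro ⟨y, hy⟩
    refine ⟨y, ?_, fun _ => trivial⟩
    rw [hqg] at hy
    rw [Part.mem_some_iff]
    exact hy.symm
  · rintro ⟨y, hy, -⟩
    refine ⟨y, ?_⟩
    rw [Part.mem_some_iff] at hy
    rw [hqg]
    exact hy.symm

/-- Universal predicates: for `n = 0` (level one) `U (e, x)` says that the partial recursive function with code `e`
(`Nat.Partrec.Code`) is defined at `x`; each `Σ⁰₁` predicate is the domain of a partial recursive function.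
Step: `U' (e, x) = ∃ y, ¬ U (e, Nat.pair x y)`. -/
theorem exists_universal (n : ℕ) : ∃ U : ℕ × ℕ → Prop, IsSigma (n + 1) U ∧
    ∀ p : ℕ → Prop, IsSigma (n + 1) p → ∃ e, ∀ x, p x ↔ U (e, x) := by
  induction n with
  | zero => exact ⟨Hier_U0, Hier_U0_sigma, Hier_U0_univ⟩
  | succ n ih =>
    obtain ⟨U, hU, hu⟩ := ih
    refine ⟨fun z => ∃ y, ¬ U (z.1, Nat.pair z.2 y), ?_, ?_⟩
    · refine ⟨fun w : (ℕ × ℕ) × ℕ => ¬ U (w.1.1, Nat.pair w.1.2 w.2), ?_, fun a => Iff.rfl⟩
      have h1 : IsSigma (n + 1) (fun w : (ℕ × ℕ) × ℕ => U (w.1.1, Nat.pair w.1.2 w.2)) := by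
        refine IsSigma.comp (p := U) (f := fun w : (ℕ × ℕ) × ℕ => (w.1.1, Nat.pair w.1.2 w.2)) hU ?_
        exact (Computable.fst.comp Computable.fst).pair
          ((Primrec₂.natPair.to_comp).comp (Computable.snd.comp Computable.fst) Computable.snd)
      exact h1.of_eq (fun a => not_not.symm)
    · rintro p ⟨q, hq, h⟩
      obtain ⟨e, he⟩ := hu (fun m => ¬ q (Nat.unpair m)) (by
        refine IsSigma.comp (p := fun z => ¬ q z) (f := fun m : ℕ => Nat.unpair m) hq ?_
        exact Computable.unpair)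
      refine ⟨e, fun x => ?_⟩
      rw [h x]
      constructor
      · rintro ⟨y, hy⟩
        refine ⟨y, fun hU' => ?_⟩
        have h2 := (he (Nat.pair x y)).2 hU'
        rw [Nat.unpair_pair] at h2
        exact h2 hy
      · rintro ⟨y, hy⟩
        refine ⟨y, ?_⟩
        by_contra h3
        apply hy
        refine (he (Nat.pair x y)).1 ?_
        rw [Nat.unpair_pair]
        exact h3

/-- Diagonal argument: `K x = U (x, x)`. -/
theorem exists_sigma_not_pi (n : ℕ) : ∃ K : ℕ → Prop, IsSigma (n + 1) K ∧ ¬ IsPi (n + 1) K := by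
  obtain ⟨U, hU, hu⟩ := exists_universal n
  refine ⟨fun x => U (x, x), ?_, fun hp => ?_⟩
  · exact IsSigma.comp (p := U) (f := fun x : ℕ => (x, x)) hU (Computable.id.pair Computable.id)
  · obtain ⟨e, he⟩ := hu (fun x => ¬ U (x, x)) hp
    have h1 := he e
    by_cases h2 : U (e, e)
    · exact h1.2 h2 h2
    · exact h2 (h1.1 h2)

end Pool.Agent.H78.UC
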