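import Pool.Agent.H78.UC.Cls

/-!
Project UC, part B: a bijection between the sorts `S 0` which preserves the constants extends to an isomorphism.
-/

set_option autoImplicit false

namespace Pool.Agent.H78.UC

open FirstOrder Cardinal

variable {N h : ℕ} {T : ℕ → Finset ℕ → Set (List ℕ)} {U U' : Type}
  {S C P : ℕ → U → Prop} {R : ∀ i, (Fin (N + 2 + i) → U) → Prop}
  {S' C' P' : ℕ → U' → Prop} {R' : ∀ i, (Fin (N + 2 + i) → U') → Prop}

/-- `F` is an isomorphism for the sorts `0, …, j + 1` and the relations `R 0, …, R j`. -/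
structure PIso (N : ℕ) (j : ℕ) (S : ℕ → U → Prop) (R : ∀ i, (Fin (N + 2 + i) → U) → Prop)
    (S' : ℕ → U' → Prop) (R' : ∀ i, (Fin (N + 2 + i) → U') → Prop) (F : U → U') : Prop where
  maps : ∀ i ≤ j + 1, ∀ x, S i x → S' i (F x)
  inj : ∀ i ≤ j + 1, ∀ x y, S i x → S i y → F x = F y → x = y
  surj : ∀ i ≤ j + 1, ∀ y, S' i y → ∃ x, S i x ∧ F x = y
  rel : ∀ i ≤ j, ∀ z, Zs N S z → (R i z ↔ R' i (F ∘ z))

theorem IsoExt_zs_init {i : ℕ} {z : Fin (N + 2 + i) → U} {w : U}
    (hz : Zs N S (Fin.snoc (α := fun _ => U) z w : Fin (N + 2 + (i + 1)) → U)) : Zs N S z := by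
  intro t
  have h1 := hz (Fin.castSucc t)
  rw [show (Fin.snoc (α := fun _ => U) z w : Fin (N + 2 + (i + 1)) → U) (Fin.castSucc t) = z t from
    Fin.snoc_castSucc (α := fun _ => U) w z t] at h1
  exact h1

theorem IsoExt_zs_last {i : ℕ} {z : Fin (N + 2 + i) → U} {w : U}
    (hz : Zs N S (Fin.snoc (α := fun _ => U) z w : Fin (N + 2 + (i + 1)) → U)) :
    S (i + 2) w := by
  have h1 := hz (Fin.last (N + 2 + i))
  rw [show (Fin.snoc (α := fun _ => U) z w : Fin (N + 2 + (i + 1)) → U) (Fin.last (N + 2 + i)) = w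
    from Fin.snoc_last (α := fun _ => U) w z] at h1
  have h2 : (Fin.last (N + 2 + i)).val - N = i + 2 := by
    simp only [Fin.val_last]
    omega
  rwa [h2] at h1

theorem IsoExt_zs_init0 {d : Fin (N + 1) → U} {v : U}
    (hz : Zs N S (Fin.snoc (α := fun _ => U) d v : Fin (N + 2 + 0) → U)) (t : Fin (N + 1)) :
    S 0 (d t) := by
  have h1 := hz (Fin.castSucc t)
  rw [show (Fin.snoc (α := fun _ => U) d v : Fin (N + 2 + 0) → U) (Fin.castSucc t) = d t from
    Fin.snoc_castSucc (α := fun _ => U) v d t] at h1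
  have h2 : (Fin.castSucc t).val - N = 0 := by
    simp only [Fin.val_castSucc]
    omega
  rwa [h2] at h1

theorem IsoExt_zs_last0 {d : Fin (N + 1) → U} {v : U}
    (hz : Zs N S (Fin.snoc (α := fun _ => U) d v : Fin (N + 2 + 0) → U)) : S 1 v := by
  have h1 := hz (Fin.last (N + 1))
  rw [show (Fin.snoc (α := fun _ => U) d v : Fin (N + 2 + 0) → U) (Fin.last (N + 1)) = v
    from Fin.snoc_last (α := fun _ => U) v d] at h1
  have h2 : (Fin.last (N + 1)).val - N = 1 := by
    simp only [Fin.val_last]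
    omega
  rwa [h2] at h1

theorem IsoExt_snoc_eq {m : ℕ} (z : Fin (m + 1) → U) :
    ∃ (d : Fin m → U) (v : U), z = Fin.snoc (α := fun _ => U) d v :=
  ⟨Fin.init z, z (Fin.last m), (Fin.snoc_init_self z).symm⟩

theorem IsoExt_comp_snoc {m : ℕ} (F : U → U') (d : Fin m → U) (v : U) :
    F ∘ (Fin.snoc (α := fun _ => U) d v) = Fin.snoc (α := fun _ => U') (F ∘ d) (F v) := by
  funext t
  refine Fin.lastCases ?_ (fun i => ?_) t
  · simp
  · simp

/-- Let `F` be `e` on `S 0`, and for `v` in `S 1` let `F v` be the element with `R' 0 (e d, F v)`, where `d` is the tuple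
with `R 0 (d, v)` (`zero_fun`, `zero_bij`). -/
theorem piso_zero (hM : IsUC N h T S C P R) (hM' : IsUC N h T S' C' P' R')
    (e : {x // S 0 x} ≃ {x // S' 0 x}) :
    ∃ F : U → U', PIso N 0 S R S' R' F ∧ ∀ x : {x // S 0 x}, F x.1 = (e x).1 := by
  classical
  obtain ⟨c0, hc0⟩ := hM'.c_ex 0
  -- the tuple of images
  have hE : ∃ E : U → U', ∀ x (hx : S 0 x), E x = (e ⟨x, hx⟩).1 := by
    refine ⟨fun x => if hx : S 0 x then (e ⟨x, hx⟩).1 else c0, ?_⟩
    intro x hx
    simp only [hx, dif_pos]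
  obtain ⟨E, hE⟩ := hE
  have hES : ∀ x, S 0 x → S' 0 (E x) := by
    intro x hx
    rw [hE x hx]
    exact (e ⟨x, hx⟩).2
  have hEi : ∀ x y, S 0 x → S 0 y → E x = E y → x = y := by
    intro x y hx hy hxy
    rw [hE x hx, hE y hy] at hxy
    have := e.injective (Subtype.ext hxy)
    exact congrArg Subtype.val this
  have hEs : ∀ y, S' 0 y → ∃ x, S 0 x ∧ E x = y := by
    intro y hy
    refine ⟨(e.symm ⟨y, hy⟩).1, (e.symm ⟨y, hy⟩).2, ?_⟩
    rw [hE _ (e.symm ⟨y, hy⟩).2]
    simp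
  have hex : ∀ x, ∃ y, (S 0 x → y = E x) ∧ (∀ d : Fin (N + 1) → U,
      R 0 (Fin.snoc (α := fun _ => U) d x) → R' 0 (Fin.snoc (α := fun _ => U') (E ∘ d) y)) := by
    intro x
    by_cases hx : S 0 x
    · refine ⟨E x, fun _ => rfl, ?_⟩
      intro d hd
      have h1 : S 1 x := IsoExt_zs_last0 (hM.r_sort 0 (Nat.zero_le _) _ hd)
      have := hM.sort_uniq 0 1 x hx h1
      omega
    · by_cases hx1 : S 1 x
      · obtain ⟨d, hd, hdu⟩ := hM.zero_fun x hx1
        have hd0 := IsoExt_zs_init0 (hM.r_sort 0 (Nat.zero_le _) _ hd)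
        obtain ⟨y, hy, -⟩ := hM'.zero_bij (E ∘ d) (fun t => hES _ (hd0 t))
        refine ⟨y, fun h0 => absurd h0 hx, ?_⟩
        intro d' hd'
        rw [hdu d' hd']
        exact hy
      · refine ⟨c0, fun h0 => absurd h0 hx, ?_⟩
        intro d hd
        exact absurd (IsoExt_zs_last0 (hM.r_sort 0 (Nat.zero_le _) _ hd)) hx1
  choose F hF using hex
  have hF0 : ∀ x, S 0 x → F x = E x := fun x hx => (hF x).1 hx
  have hFE : ∀ d : Fin (N + 1) → U, (∀ t, S 0 (d t)) → F ∘ d = E ∘ d := by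
    intro d hd
    funext t
    exact hF0 _ (hd t)
  have hmap1 : ∀ x, S 1 x → S' 1 (F x) := by
    intro x hx
    obtain ⟨d, hd, -⟩ := hM.zero_fun x hx
    exact IsoExt_zs_last0 (hM'.r_sort 0 (Nat.zero_le _) _ ((hF x).2 d hd))
  have hinj1 : ∀ x y, S 1 x → S 1 y → F x = F y → x = y := by
    intro x y hx hy hxy
    obtain ⟨d, hd, -⟩ := hM.zero_fun x hx
    obtain ⟨d', hd', -⟩ := hM.zero_fun y hy
    have h1 := (hF x).2 d hd
    have h2 := (hF y).2 d' hd'
    rw [← hxy] at h2
    have h3 := (hM'.zero_fun (F x) (hmap1 x hx)).unique h1 h2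
    have hd0 := IsoExt_zs_init0 (hM.r_sort 0 (Nat.zero_le _) _ hd)
    have hd0' := IsoExt_zs_init0 (hM.r_sort 0 (Nat.zero_le _) _ hd')
    have h4 : d = d' := by
      funext t
      exact hEi _ _ (hd0 t) (hd0' t) (congrFun h3 t)
    subst h4
    exact (hM.zero_bij d hd0).unique hd hd'
  refine ⟨F, ⟨?_, ?_, ?_, ?_⟩, ?_⟩
  · intro i hi x hx
    rcases Nat.le_one_iff_eq_zero_or_eq_one.1 hi with rfl | rfl
    · rw [hF0 x hx]
      exact hES x hx
    · exact hmap1 x hx
  · intro i hi x y hx hy hxy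
    rcases Nat.le_one_iff_eq_zero_or_eq_one.1 hi with rfl | rfl
    · rw [hF0 x hx, hF0 y hy] at hxy
      exact hEi x y hx hy hxy
    · exact hinj1 x y hx hy hxy
  · intro i hi y hy
    rcases Nat.le_one_iff_eq_zero_or_eq_one.1 hi with rfl | rfl
    · obtain ⟨x, hx, hxy⟩ := hEs y hy
      exact ⟨x, hx, by rw [hF0 x hx, hxy]⟩
    · obtain ⟨d', hd', -⟩ := hM'.zero_fun y hy
      have hd0' := IsoExt_zs_init0 (hM'.r_sort 0 (Nat.zero_le _) _ hd')
      choose d hd using fun t => hEs (d' t) (hd0' t)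
      obtain ⟨v, hv, -⟩ := hM.zero_bij d (fun t => (hd t).1)
      have hv1 : S 1 v := IsoExt_zs_last0 (hM.r_sort 0 (Nat.zero_le _) _ hv)
      refine ⟨v, hv1, ?_⟩
      have h1 := (hF v).2 d hv
      have h2 : E ∘ d = d' := by
        funext t
        exact (hd t).2
      rw [h2] at h1
      exact (hM'.zero_bij d' hd0').unique h1 hd'
  · intro i hi z hz
    obtain rfl : i = 0 := Nat.le_zero.1 hi
    obtain ⟨d, v, rfl⟩ := IsoExt_snoc_eq (m := N + 1) z
    have hd0 := IsoExt_zs_init0 hz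
    have hv1 := IsoExt_zs_last0 hz
    have hcomp : F ∘ (Fin.snoc (α := fun _ => U) d v : Fin (N + 2 + 0) → U) =
        Fin.snoc (α := fun _ => U') (E ∘ d) (F v) := by
      rw [← hFE d hd0]
      exact IsoExt_comp_snoc (m := N + 1) F d v
    rw [hcomp]
    constructor
    · intro hR
      exact (hF v).2 d hR
    · intro hR
      obtain ⟨w, hw, -⟩ := hM.zero_bij d hd0
      have hw1 : S 1 w := IsoExt_zs_last0 (hM.r_sort 0 (Nat.zero_le _) _ hw)
      have h1 := (hF w).2 d hw
      have h2 : F v = F w := (hM'.zero_bij (E ∘ d) (fun t => hES _ (hd0 t))).unique hR h1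
      rw [hinj1 v w hv1 hw1 h2]
      exact hw
  · intro x
    rw [hF0 x.1 x.2, hE x.1 x.2]

/-- For `w` in `S (j + 2)` let `z` be the tuple with `R (j + 1) (z, w)` (`step_fun`); then `Zs z`, `¬ R j z`, hence
`¬ R' j (F z)` and there is a unique `w'` with `R' (j + 1) (F z, w')`; new value of `F` at `w`.  The other values are
not changed. -/
theorem piso_succ (hM : IsUC N h T S C P R) (hM' : IsUC N h T S' C' P' R') {j : ℕ} (hj : j < h)
    {F : U → U'} (hF : PIso N j S R S' R' F) :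
    ∃ F' : U → U', PIso N (j + 1) S R S' R' F' ∧ ∀ x, S 0 x → F' x = F x := by
  classical
  have hzs : ∀ z : Fin (N + 2 + j) → U, Zs N S z → Zs N S' (F ∘ z) := by
    intro z hz t
    exact hF.maps _ (by have := t.isLt; omega) _ (hz t)
  have hzi : ∀ z z' : Fin (N + 2 + j) → U, Zs N S z → Zs N S z' → F ∘ z = F ∘ z' → z = z' := by
    intro z z' hz hz' h1
    funext t
    exact hF.inj _ (by have := t.isLt; omega) _ _ (hz t) (hz' t) (congrFun h1 t)
  have hex : ∀ x, ∃ y, (¬ S (j + 2) x → y = F x) ∧ (∀ z : Fin (N + 2 + j) → U,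
      R (j + 1) (Fin.snoc (α := fun _ => U) z x) →
      R' (j + 1) (Fin.snoc (α := fun _ => U') (F ∘ z) y)) := by
    intro x
    by_cases hx : S (j + 2) x
    · obtain ⟨z, hz, hzu⟩ := hM.step_fun j hj x hx
      have hzs0 : Zs N S z := IsoExt_zs_init (hM.r_sort (j + 1) (by omega) _ hz)
      have h1 : ¬ R j z := by
        intro h2
        exact ((hM.step_iff j hj z).1 h2).2 ⟨x, hz⟩
      have h3 : ¬ R' j (F ∘ z) := fun h4 => h1 ((hF.rel j le_rfl z hzs0).2 h4)
      have h5 : ∃ w, R' (j + 1) (Fin.snoc (α := fun _ => U') (F ∘ z) w) := by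
        by_contra h6
        exact h3 ((hM'.step_iff j hj (F ∘ z)).2 ⟨hzs z hzs0, h6⟩)
      obtain ⟨w, hw⟩ := h5
      refine ⟨w, fun h0 => absurd hx h0, ?_⟩
      intro z' hz'
      rw [hzu z' hz']
      exact hw
    · refine ⟨F x, fun _ => rfl, ?_⟩
      intro z hz
      exact absurd (IsoExt_zs_last (hM.r_sort (j + 1) (by omega) _ hz)) hx
  choose F' hF' using hex
  have hold : ∀ i ≤ j + 1, ∀ x, S i x → F' x = F x := by
    intro i hi x hx
    refine (hF' x).1 ?_
    intro h1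
    have := hM.sort_uniq i (j + 2) x hx h1
    omega
  have holdz : ∀ i ≤ j, ∀ z : Fin (N + 2 + i) → U, Zs N S z → F' ∘ z = F ∘ z := by
    intro i hi z hz
    funext t
    exact hold _ (by have := t.isLt; omega) _ (hz t)
  have hmapn : ∀ x, S (j + 2) x → S' (j + 2) (F' x) := by
    intro x hx
    obtain ⟨z, hz, -⟩ := hM.step_fun j hj x hx
    exact IsoExt_zs_last (hM'.r_sort (j + 1) (by omega) _ ((hF' x).2 z hz))
  refine ⟨F', ⟨?_, ?_, ?_, ?_⟩, ?_⟩
  · intro i hi x hx
    rcases Nat.lt_or_ge i (j + 2) with h1 | h1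
    · rw [hold i (by omega) x hx]
      exact hF.maps i (by omega) x hx
    · obtain rfl : i = j + 2 := by omega
      exact hmapn x hx
  · intro i hi x y hx hy hxy
    rcases Nat.lt_or_ge i (j + 2) with h1 | h1
    · rw [hold i (by omega) x hx, hold i (by omega) y hy] at hxy
      exact hF.inj i (by omega) x y hx hy hxy
    · obtain rfl : i = j + 2 := by omega
      obtain ⟨z, hz, -⟩ := hM.step_fun j hj x hx
      obtain ⟨z', hz', -⟩ := hM.step_fun j hj y hy
      have h2 := (hF' x).2 z hz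
      have h3 := (hF' y).2 z' hz'
      rw [← hxy] at h3
      have h4 := (hM'.step_fun j hj (F' x) (hmapn x hx)).unique h2 h3
      have hzs0 : Zs N S z := IsoExt_zs_init (hM.r_sort (j + 1) (by omega) _ hz)
      have hzs0' : Zs N S z' := IsoExt_zs_init (hM.r_sort (j + 1) (by omega) _ hz')
      have h5 := hzi z z' hzs0 hzs0' h4
      subst h5
      exact hM.step_inj j hj z x y hz hz'
  · intro i hi y hy
    rcases Nat.lt_or_ge i (j + 2) with h1 | h1
    · obtain ⟨x, hx, hxy⟩ := hF.surj i (by omega) y hy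
      exact ⟨x, hx, by rw [hold i (by omega) x hx, hxy]⟩
    · obtain rfl : i = j + 2 := by omega
      obtain ⟨z', hz', -⟩ := hM'.step_fun j hj y hy
      have hzs0' : Zs N S' z' := IsoExt_zs_init (hM'.r_sort (j + 1) (by omega) _ hz')
      have h2 : ∀ t : Fin (N + 2 + j), ∃ x, S (t.val - N) x ∧ F x = z' t := by
        intro t
        exact hF.surj _ (by have := t.isLt; omega) _ (hzs0' t)
      choose z hz using h2
      have hzs0 : Zs N S z := fun t => (hz t).1
      have hFz : F ∘ z = z' := by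
        funext t
        exact (hz t).2
      have h3 : ¬ R' j z' := by
        intro h4
        exact ((hM'.step_iff j hj z').1 h4).2 ⟨y, hz'⟩
      have h5 : ¬ R j z := by
        intro h6
        have := (hF.rel j le_rfl z hzs0).1 h6
        rw [hFz] at this
        exact h3 this
      have h7 : ∃ w, R (j + 1) (Fin.snoc (α := fun _ => U) z w) := by
        by_contra h6
        exact h5 ((hM.step_iff j hj z).2 ⟨hzs0, h6⟩)
      obtain ⟨w, hw⟩ := h7
      have hws : S (j + 2) w := IsoExt_zs_last (hM.r_sort (j + 1) (by omega) _ hw)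
      refine ⟨w, hws, ?_⟩
      have h8 := (hF' w).2 z hw
      rw [hFz] at h8
      exact hM'.step_inj j hj z' _ _ h8 hz'
  · intro i hi z hz
    rcases Nat.lt_or_ge i (j + 1) with h1 | h1
    · rw [holdz i (by omega) z hz]
      exact hF.rel i (by omega) z hz
    · obtain rfl : i = j + 1 := by omega
      obtain ⟨d, v, rfl⟩ := IsoExt_snoc_eq (m := N + 2 + j) z
      have hd0 : Zs N S d := IsoExt_zs_init hz
      have hv1 : S (j + 2) v := IsoExt_zs_last hz
      have hcomp : F' ∘ (Fin.snoc (α := fun _ => U) d v : Fin (N + 2 + (j + 1)) → U) =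
          Fin.snoc (α := fun _ => U') (F ∘ d) (F' v) := by
        rw [← holdz j le_rfl d hd0]
        exact IsoExt_comp_snoc (m := N + 2 + j) F' d v
      rw [hcomp]
      constructor
      · intro hR
        exact (hF' v).2 d hR
      · intro hR
        obtain ⟨z', hz', -⟩ := hM.step_fun j hj v hv1
        have h2 := (hF' v).2 z' hz'
        have h3 := (hM'.step_fun j hj (F' v) (hmapn v hv1)).unique hR h2
        have hzs0' : Zs N S z' := IsoExt_zs_init (hM.r_sort (j + 1) (by omega) _ hz')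
        rw [hzi d z' hd0 hzs0' h3]
        exact hz'
  · intro x hx
    exact hold 0 (by omega) x hx

theorem IsoExt_piso (hM : IsUC N h T S C P R) (hM' : IsUC N h T S' C' P' R')
    (e : {x // S 0 x} ≃ {x // S' 0 x}) (j : ℕ) (hj : j ≤ h) :
    ∃ F : U → U', PIso N j S R S' R' F ∧ ∀ x : {x // S 0 x}, F x.1 = (e x).1 := by
  induction j with
  | zero => exact piso_zero hM hM' e
  | succ j ih =>
    obtain ⟨F, hF, hFe⟩ := ih (by omega)
    obtain ⟨F', hF', h0⟩ := piso_succ hM hM' (by omega) hF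
    exact ⟨F', hF', fun x => by rw [h0 x.1 x.2, hFe x]⟩

/-- The predicates `P k` are determined by `p_sort`, `p_iff`, `zero_fun`. -/
theorem iso_ext (hM : IsUC N h T S C P R) (hM' : IsUC N h T S' C' P' R')
    (e : {x // S 0 x} ≃ {x // S' 0 x}) (he : ∀ m x, C m x.1 ↔ C' m (e x).1) :
    ∃ F : U ≃ U', (∀ x : {x // S 0 x}, F x.1 = (e x).1) ∧ (∀ i x, S i x ↔ S' i (F x)) ∧
      (∀ i x, C i x ↔ C' i (F x)) ∧ (∀ i x, P i x ↔ P' i (F x)) ∧
      ∀ i ≤ h, ∀ z, R i z ↔ R' i (F ∘ z) := by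
  obtain ⟨F, hF, hFe⟩ := IsoExt_piso hM hM' e h le_rfl
  have hinj : Function.Injective F := by
    intro x y hxy
    obtain ⟨i, hi, hx⟩ := hM.sort_ex x
    obtain ⟨i', hi', hy⟩ := hM.sort_ex y
    have h1 := hF.maps i hi x hx
    have h2 := hF.maps i' hi' y hy
    rw [← hxy] at h2
    have h3 := hM'.sort_uniq i i' _ h1 h2
    subst h3
    exact hF.inj i hi x y hx hy hxy
  have hsurj : Function.Surjective F := by
    intro y
    obtain ⟨i, hi, hy⟩ := hM'.sort_ex y
    obtain ⟨x, -, hx⟩ := hF.surj i hi y hy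
    exact ⟨x, hx⟩
  have hS : ∀ i x, S i x ↔ S' i (F x) := by
    intro i x
    obtain ⟨i0, hi0, hx⟩ := hM.sort_ex x
    constructor
    · intro h1
      have h2 := hM.sort_uniq i i0 x h1 hx
      subst h2
      exact hF.maps i hi0 x hx
    · intro h1
      have h2 := hM'.sort_uniq i i0 (F x) h1 (hF.maps i0 hi0 x hx)
      subst h2
      exact hx
  have hC : ∀ i x, C i x ↔ C' i (F x) := by
    intro i x
    constructor
    · intro h1
      have h2 := hM.c_sort i x h1
      have h3 := (he i ⟨x, h2⟩).1 h1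
      rwa [← hFe ⟨x, h2⟩] at h3
    · intro h1
      have h2 := (hS 0 x).2 (hM'.c_sort i _ h1)
      refine (he i ⟨x, h2⟩).2 ?_
      rw [← hFe ⟨x, h2⟩]
      exact h1
  have hR : ∀ i ≤ h, ∀ z, R i z ↔ R' i (F ∘ z) := by
    intro i hi z
    constructor
    · intro h1
      exact (hF.rel i hi z (hM.r_sort i hi z h1)).1 h1
    · intro h1
      have h2 := hM'.r_sort i hi _ h1
      have h3 : Zs N S z := fun t => (hS _ _).2 (h2 t)
      exact (hF.rel i hi z h3).2 h1
  refine ⟨Equiv.ofBijective F ⟨hinj, hsurj⟩, hFe, hS, hC, ?_, hR⟩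
  have key : ∀ k (z : Fin (N + 2) → U), R 0 z →
      (P k (z (Fin.last (N + 1))) ↔ P' k (F (z (Fin.last (N + 1))))) := by
    intro k z hz
    have hz' : R' 0 (F ∘ z) := (hR 0 (Nat.zero_le _) z).1 hz
    rw [hM.p_iff k z hz]
    have h1 := hM'.p_iff k (F ∘ z) hz'
    rw [show F (z (Fin.last (N + 1))) = (F ∘ z) (Fin.last (N + 1)) from rfl, h1]
    have h2 : cset N C' (F ∘ z) = cset N C z := by
      ext c
      unfold cset
      simp only [Set.mem_setOf_eq, Function.comp_apply, ← hC]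
    have h3 : eset N (F ∘ z) = F '' eset N z := by
      ext x
      unfold eset
      simp only [Set.mem_setOf_eq, Function.comp_apply, Set.mem_image]
      constructor
      · rintro ⟨t, ht, rfl⟩
        exact ⟨z t, ⟨t, ht, rfl⟩, rfl⟩
      · rintro ⟨_, ⟨t, ht, rfl⟩, rfl⟩
        exact ⟨t, ht, rfl⟩
    rw [h2, h3, Set.ncard_image_of_injective _ hinj]
  intro k v
  show P k v ↔ P' k (F v)
  constructor
  · intro h1
    obtain ⟨d, hd, -⟩ := hM.zero_fun v (hM.p_sort k v h1)
    have h2 := key k (Fin.snoc (α := fun _ => U) d v) hd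
    rw [Fin.snoc_last] at h2
    exact h2.1 h1
  · intro h1
    have h3 : S 1 v := (hS 1 v).2 (hM'.p_sort k _ h1)
    obtain ⟨d, hd, -⟩ := hM.zero_fun v h3
    have h2 := key k (Fin.snoc (α := fun _ => U) d v) hd
    rw [Fin.snoc_last] at h2
    exact h2.2 h1

end Pool.Agent.H78.UC
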