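import Pool.Agent.H78.UC.Cls
import Pool.Agent.H78.UC.ArX

/-!
Project UC: the lower bound.
-/

set_option autoImplicit false

namespace Pool.Agent.H78.UC

open FirstOrder Cardinal

variable {N h : ℕ} {T : ℕ → Finset ℕ → Set (List ℕ)}

/-- A tuple whose first `N` coordinates are exactly the elements of a given set with `i + 1 ≤ N` elements. -/
theorem Low_tuple {M : Type} {i N : ℕ} (hi : i + 1 ≤ N) {t : Set M} (ht : t.encard = (i + 1 : ℕ)) :
    ∃ d : Fin (N + 1) → M, (∀ j, d j ∈ t) ∧ ∀ x ∈ t, ∃ j : Fin (N + 1), j.val < N ∧ d j = x := by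
  have hfin : t.Finite := Set.finite_of_encard_eq_coe ht
  have := hfin.fintype
  have hc : Fintype.card t = i + 1 := by
    have h1 : t.encard = (Fintype.card t : ℕ) := by
      rw [Set.encard_eq_coe_toFinset_card, Set.toFinset_card]
    rw [h1] at ht
    exact_mod_cast ht
  let e : Fin (i + 1) ≃ t := (Fintype.equivFinOfCardEq hc).symm
  refine ⟨fun j => (e ⟨min j.val i, by omega⟩ : t).1, fun j => (e _).2, fun x hx => ?_⟩
  have h2 := (e.symm ⟨x, hx⟩).2
  refine ⟨⟨(e.symm ⟨x, hx⟩).val, by omega⟩, by simp only; omega, ?_⟩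
  have h3 : (⟨min (e.symm ⟨x, hx⟩).val i, by omega⟩ : Fin (i + 1)) = e.symm ⟨x, hx⟩ := by
    apply Fin.ext
    simp only
    omega
  show (e ⟨min (e.symm ⟨x, hx⟩).val i, _⟩ : t).1 = x
  rw [h3, Equiv.apply_symm_apply]

/-- Choose `i + 1` elements of `S 0` which are not constants, a tuple `d` of length `N + 1` whose first `N` coordinates
are exactly these elements, and `v` with `R 0 (d, v)`.  Then `P k v ↔ dec k ∈ T (i + 1) ∅`.  From a presentation with
a `Δ⁰ᵢ₊₁` diagram one gets that `{w | w ∈ T (i + 1) ∅}` is `Δ⁰ᵢ₊₁`, against `IsTy.top`. -/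
theorem not_presented (hT : IsTy N T) {M : Type} [(RL (arU N h)).Structure M] (hM : Cls N h T M)
    (i : ℕ) (hi : i + 1 ≤ N) (hg : ((i + 1 : ℕ) : ℕ∞) ≤ gen N h M) :
    ¬ PresentedIn i (arU N h) M := by
  rintro ⟨ν, hν, hd, -⟩
  obtain ⟨R, hR, -⟩ := hM
  obtain ⟨t, hts, ht⟩ := Set.exists_subset_encard_eq hg
  obtain ⟨d, hdt, hds⟩ := Low_tuple hi ht
  obtain ⟨v, hv, -⟩ := hR.zero_bij d (fun j => (hts (hdt j)).1)
  have hlast : (Fin.snoc (α := fun _ => M) d v : Fin (N + 2) → M) (Fin.last (N + 1)) = v :=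
    Fin.snoc_last _ _
  have hcoord : ∀ j : Fin (N + 2), j.val < N →
      ∃ j' : Fin (N + 1), j'.val = j.val ∧
        (Fin.snoc (α := fun _ => M) d v : Fin (N + 2) → M) j = d j' := by
    intro j hj
    obtain ⟨j', rfl⟩ : ∃ j' : Fin (N + 1), j'.castSucc = j := ⟨⟨j.val, by omega⟩, Fin.ext rfl⟩
    exact ⟨j', rfl, Fin.snoc_castSucc (α := fun _ => M) v d _⟩
  have hes : eset N (Fin.snoc (α := fun _ => M) d v : Fin (N + 2) → M) = t := by
    ext x
    constructor
    · rintro ⟨j, hj, rfl⟩
      obtain ⟨j', -, h2⟩ := hcoord j hj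
      rw [h2]
      exact hdt j'
    · intro hx
      obtain ⟨j', hj', h3⟩ := hds x hx
      refine ⟨j'.castSucc, hj', ?_⟩
      rw [Fin.snoc_castSucc]
      exact h3
  have hcs : cset N (sC N h M) (Fin.snoc (α := fun _ => M) d v : Fin (N + 2) → M) = ∅ := by
    ext c
    simp only [Set.mem_empty_iff_false, iff_false]
    rintro ⟨j, hj, h2⟩
    obtain ⟨j', -, h3⟩ := hcoord j hj
    rw [h3] at h2
    exact (hts (hdt j')).2 c h2
  have hn : t.ncard = i + 1 := by
    have h4 : t.ncard = ((i + 1 : ℕ) : ℕ∞).toNat := by rw [Set.ncard, ht]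
    rw [h4]
    rfl
  have hP : ∀ k, sP N h M k v ↔ dec k ∈ T (i + 1) ∅ := by
    intro k
    have h5 := hR.p_iff k _ hv
    rw [hlast, hes, hcs, hn] at h5
    rw [h5]
    constructor
    · rintro ⟨u, hu, h6⟩
      have : u = ∅ := by
        apply Finset.coe_eq_empty.1 hu
      rw [this] at h6
      exact h6
    · intro h6
      exact ⟨∅, Finset.coe_empty, h6⟩
  obtain ⟨n, rfl⟩ := hν v
  have hw : ∀ w : List ℕ, diagRel (arU N h) M ν (3 * Encodable.encode w + 3, [n]) ↔
      w ∈ T (i + 1) ∅ := by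
    intro w
    have h7 : dec (Encodable.encode w) = w := Denumerable.ofNat_encode w
    have h8 := hP (Encodable.encode w)
    rw [h7] at h8
    rw [← h8]
    constructor
    · rintro ⟨-, h9⟩
      have h10 : (fun i : Fin (arU N h (3 * Encodable.encode w + 3)) =>
          ν (([n] : List ℕ).getD i.val 0)) = fun _ => ν n := by
        funext j
        have hj : j.val = 0 := Nat.lt_one_iff.1 j.2
        rw [hj]
        rfl
      have h11 : rel (arU N h) M (3 * Encodable.encode w + 3)
          (fun i => ν (([n] : List ℕ).getD i.val 0)) := h9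
      rw [h10] at h11
      exact h11
    · intro h9
      refine ⟨rfl, ?_⟩
      have h10 : (fun i : Fin (arU N h (3 * Encodable.encode w + 3)) =>
          ν (([n] : List ℕ).getD i.val 0)) = fun _ => ν n := by
        funext j
        have hj : j.val = 0 := Nat.lt_one_iff.1 j.2
        rw [hj]
        rfl
      show rel (arU N h) M (3 * Encodable.encode w + 3)
          (fun i => ν (([n] : List ℕ).getD i.val 0))
      rw [h10]
      exact h9
  have hf : Computable (fun w : List ℕ => ((3 * Encodable.encode w + 3, [n]) : ℕ × List ℕ)) := by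
    refine Computable.pair ?_ (Computable.const [n])
    have h12 : Primrec (fun w : List ℕ => 3 * Encodable.encode w + 3) :=
      Primrec.nat_add.comp (Primrec.nat_mul.comp (Primrec.const 3) Primrec.encode)
        (Primrec.const 3)
    exact h12.to_comp
  have hΔ := hd.comp hf
  refine (hT.top (i + 1) (by omega) hi).2 ?_
  have h13 : (fun w : List ℕ => w ∈ T (i + 1) ∅) =
      fun w => diagRel (arU N h) M ν (3 * Encodable.encode w + 3, [n]) := by
    funext w
    exact propext (hw w).symm
  rw [h13]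
  exact hΔ

end Pool.Agent.H78.UC
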