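import Pool.Agent.H78.UC.Models
import Pool.Agent.H78.UC.Core
import Pool.Agent.H78.UC.Emb
import Pool.Agent.H78.UC.Low

/-!
Project UC: final theorem.
-/

set_option autoImplicit false

namespace Pool.Agent.H78.UC

open FirstOrder Cardinal

universe u

/-- A small model is isomorphic to a model in `Type`. -/
theorem Main_shrink {L : FirstOrder.Language.{0, 0}} {T : L.Theory}
    (K : Language.Theory.ModelType.{0, 0, u} T) [Small.{0} K] :
    ∃ K0 : Language.Theory.ModelType.{0, 0, 0} T, Nonempty (K ≃[L] K0) := by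
  refine ⟨K.shrink, ⟨?_⟩⟩
  exact (equivShrink K).inducedStructureEquiv

/-- Every model has an elementary submodel which is isomorphic to a model in `Type`. -/
theorem Main_down {L : FirstOrder.Language.{0, 0}} {T : L.Theory}
    (K : Language.Theory.ModelType.{0, 0, u} T) :
    ∃ K0 : Language.Theory.ModelType.{0, 0, 0} T, Nonempty (K0 ↪ₑ[L] K) := by
  obtain ⟨S, hS⟩ := Language.exists_small_elementarySubstructure L K
  have _ : Small.{0} (S.toModel T) := hS
  obtain ⟨K0, ⟨e⟩⟩ := Main_shrink (S.toModel T)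
  exact ⟨K0, ⟨S.subtype.comp e.symm.toElementaryEmbedding⟩⟩

/-- For each `N ≥ 1` there is an uncountably categorical theory `T` with the countable models
`A 0 ≼ A 1 ≼ … ≼ A ω` such that `A 0` is computably presentable, and for each `i < N` the model `A (i + 1)` has a
`0^(i+1)`-computable presentation but no `0^(i)`-computable one; the models `A j`, `j ≥ N` (`j = ω` included), have
`0^(N)`-computable presentations but no `0^(N-1)`-computable ones. -/
theorem main (N : ℕ) (hN : 1 ≤ N) :
    ∃ (ar : ℕ → ℕ) (T : (RL ar).Theory) (A : ℕ∞ → T.ModelType), Computable ar ∧ T.IsComplete ∧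
      (∀ M : T.ModelType, Infinite M) ∧
      (∀ κ : Cardinal.{0}, ℵ₀ < κ → κ.Categorical T) ∧
      (∀ j, Countable (A j)) ∧
      (∀ M : T.ModelType, Countable M → ∃! j, Nonempty (M ≃[RL ar] A j)) ∧
      (∀ i j, i ≤ j → Nonempty (A i ↪ₑ[RL ar] A j)) ∧
      (∀ M : T.ModelType, Nonempty (A 0 ↪ₑ[RL ar] M)) ∧
      PresentedIn 0 ar (A 0) ∧
      (∀ i : ℕ, i < N → PresentedIn (i + 1) ar (A (i + 1 : ℕ)) ∧
        ¬ PresentedIn i ar (A (i + 1 : ℕ))) ∧
      ∀ j : ℕ∞, (N : ℕ∞) ≤ j → PresentedIn N ar (A j) ∧ ¬ PresentedIn (N - 1) ar (A j) := by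
  obtain ⟨T, hT⟩ := exists_ty N
  obtain ⟨h, hmod⟩ := exists_models hT hN
  obtain ⟨T0, hT0⟩ := exists_thy (h := h) hT
  choose M inst hcount hcls hgen hpres using hmod
  have hm : ∀ j, (letI := inst j; M j ⊨ T0) := fun j => by
    let _ := inst j
    exact (hT0 (M j)).2 (hcls j)
  have hne : ∀ j, Nonempty (M j) := fun j => by
    let _ := inst j
    have := cls_infinite (hcls j)
    exact inferInstance
  let A : ℕ∞ → T0.ModelType := fun j =>
    letI := inst j
    haveI := hm j
    haveI := hne j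
    Language.Theory.ModelType.of T0 (M j)
  have hAcls : ∀ j : ℕ∞, Cls N h T (A j) := fun j => hcls j
  have hAgen : ∀ j : ℕ∞, gen N h (A j) = j := fun j => hgen j
  have hAcount : ∀ j : ℕ∞, Countable (A j) := fun j => hcount j
  have hApres : ∀ j : ℕ∞, ∀ k : ℕ, (k : ℕ∞) = min j N → PresentedIn k (arU N h) (A j) :=
    fun j => hpres j
  have hcl : ∀ K : Language.Theory.ModelType.{0, 0, 0} T0, Cls N h T K :=
    fun K => (hT0 K).1 K.is_model
  refine ⟨arU N h, T0, A, arU_comp N h, cls_complete hT0 (hAcls 0), ?_,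
    fun κ hκ => cls_categorical hT0 κ hκ, hAcount, ?_, ?_, ?_, ?_, ?_, ?_⟩
  · intro K
    obtain ⟨K0, ⟨e⟩⟩ := Main_down K
    have := cls_infinite (hcl K0)
    exact Infinite.of_injective e e.injective
  · intro K hK
    have hs : Small.{0} K := Countable.toSmall K
    obtain ⟨K0, ⟨e⟩⟩ := Main_shrink K
    have hK0 : Countable K0 := e.symm.injective.countable
    refine ⟨gen N h K0, ?_, ?_⟩
    · have := hAcount (gen N h K0)
      obtain ⟨f⟩ := cls_countable_iso (hcl K0) (hAcls (gen N h K0)) (hAgen _).symm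
      exact ⟨f.comp e⟩
    · rintro j ⟨f⟩
      rw [gen_iso (M := K0) (M' := A j) (f.comp e.symm), hAgen]
  · intro i j hij
    have := hAcount i
    exact exists_emb_of_le hT (hAcls i) (hAcls j) (by rw [hAgen, hAgen]; exact hij)
  · intro K
    obtain ⟨K0, ⟨e⟩⟩ := Main_down K
    have := hAcount 0
    obtain ⟨f⟩ := exists_emb_of_le hT (hAcls 0) (hcl K0)
      (by rw [hAgen]; exact bot_le)
    exact ⟨e.comp f⟩
  · exact hApres 0 0 (by simp)
  · intro i hi
    have hle : ((i + 1 : ℕ) : ℕ∞) ≤ (N : ℕ∞) := by exact_mod_cast hi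
    refine ⟨hApres _ (i + 1) (min_eq_left hle).symm, ?_⟩
    exact not_presented hT (hAcls _) i hi (by rw [hAgen])
  · intro j hj
    refine ⟨hApres j N (min_eq_right hj).symm, ?_⟩
    refine not_presented hT (hAcls j) (N - 1) (by omega) ?_
    rw [hAgen, Nat.sub_add_cancel hN]
    exact hj

end Pool.Agent.H78.UC
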