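import Pool.Agent.H78.UC.Uniq

/-!
Project UC, part C: one Marker step.
-/

set_option autoImplicit false

namespace Pool.Agent.H78.UC

open Pool.Agent.H80

/-- The inverse of a computable injection with computable range is computable. -/
theorem Mark_inv {ρ : ℕ → ℕ} (hρ : Computable ρ) (hi : Function.Injective ρ)
    (hr : ComputablePred fun x => ∃ y, ρ y = x) : ∃ g : ℕ → ℕ, Computable g ∧ ∀ y, g (ρ y) = y := by
  obtain ⟨r, hrc, hre⟩ := ComputablePred.computable_iff.1 hr
  have hre' : ∀ x, (∃ y, ρ y = x) ↔ r x = true := fun x => by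
    have := congrFun hre x
    exact iff_of_eq this
  have hq : Computable₂ (fun x y : ℕ => (!(r x)) || decide (ρ y = x)) := by
    have h1 : Computable (fun z : ℕ × ℕ => !(r z.1)) :=
      Primrec.not.to_comp.comp (hrc.comp Computable.fst)
    have h2 : Computable (fun z : ℕ × ℕ => decide (ρ z.2 = z.1)) := by
      have h3 : Computable₂ (fun a b : ℕ => decide (a = b)) :=
        (Primrec.eq (α := ℕ)).decide.to_comp
      exact h3.comp (hρ.comp Computable.snd) Computable.fst
    exact (Primrec.or.to_comp).comp h1 h2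
  have hp : Partrec₂ (fun x y : ℕ => (Part.some ((!(r x)) || decide (ρ y = x)) : Part Bool)) := hq.partrec₂
  have hf := Partrec.rfind hp
  have hdom : ∀ x, (Nat.rfind fun y => (Part.some ((!(r x)) || decide (ρ y = x)) : Part Bool)).Dom := by
    intro x
    rw [Nat.rfind_dom]
    by_cases hx : ∃ y, ρ y = x
    · obtain ⟨y, hy⟩ := hx
      exact ⟨y, by simp [hy], fun {m} _ => trivial⟩
    · refine ⟨0, ?_, fun {m} _ => trivial⟩
      have : r x = false := by
        rw [hre'] at hx; simpa using hx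
      simp [this]
  refine ⟨fun x => (Nat.rfind fun y => (Part.some ((!(r x)) || decide (ρ y = x)) : Part Bool)).get (hdom x), ?_, ?_⟩
  · refine hf.of_eq fun x => ?_
    exact (Part.some_get (hdom x)).symm
  · intro y
    have h1 := Nat.rfind_spec (Part.get_mem (hdom (ρ y)))
    have h2 : r (ρ y) = true := (hre' _).1 ⟨y, rfl⟩
    rw [Part.mem_some_iff] at h1
    have h3 := h1.symm
    rw [Bool.or_eq_true] at h3
    rcases h3 with h3 | h3
    · exact absurd h2 (by simpa using h3)
    · exact hi (of_decide_eq_true h3)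

/-- Let `Q` be `Π⁰ₙ₊₁` and let `ρ` be a computable injection with computable range into the complement of `Q` (the
reserved elements).  Then there is a bijection `β` of `ℕ` with the complement of `Q` whose graph is `Π⁰ₙ`.

Proof.  `uniq_sigma` for the complement of `Q`: `¬ Q x ↔ ∃ c, ∀ b, R ((x, c), b)` with unique `c`.  Names:
the number `2 * Nat.pair x c` is right if `x` is not reserved and `∀ b, R ((x, c), b)`; then `β` of it is `x`.
Otherwise there is a unique `t` with `disc (x, c, t)`, which means: (`x` is reserved and `t = 0`) or (`x` is not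
reserved, `¬ R ((x, c), t)` and `R ((x, c), b)` for all `b < t`); then `β` of it is `ρ (Nat.pair θ 0)`, `θ` the code
of `(x, c, t)`.  The number `2 * Nat.pair θ l + 1` goes to `ρ (Nat.pair θ (l + 1))` if `disc θ`, and to
`ρ (Nat.pair θ l)` otherwise.  `disc` is `Δ⁰ₙ`, “right” is `Π⁰ₙ`. -/
theorem mark_step {n : ℕ} {Q : ℕ → Prop} (hQ : IsPi (n + 1) Q) {ρ : ℕ → ℕ} (hρ : Computable ρ)
    (hi : Function.Injective ρ) (hr : ComputablePred fun x => ∃ y, ρ y = x)
    (hres : ∀ y, ¬ Q (ρ y)) :
    ∃ β : ℕ → ℕ, Function.Injective β ∧ (∀ x, (∃ w, β w = x) ↔ ¬ Q x) ∧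
      IsPi n (fun z : ℕ × ℕ => β z.1 = z.2) := by
  classical
  obtain ⟨R, hRd, hRp, hA, hu⟩ := uniq_sigma (n := n) (A := fun x => ¬ Q x) hQ
  obtain ⟨g, hg, hgρ⟩ := Mark_inv hρ hi hr
  -- reserved elements
  set res : ℕ → Prop := fun x => ∃ y, ρ y = x with hresdef
  set disc : ℕ → Prop := fun θ =>
    (res θ.unpair.1.unpair.1 ∧ θ.unpair.2 = 0) ∨
    (¬ res θ.unpair.1.unpair.1 ∧ ¬ R ((θ.unpair.1.unpair.1, θ.unpair.1.unpair.2), θ.unpair.2) ∧
      ∀ b < θ.unpair.2, R ((θ.unpair.1.unpair.1, θ.unpair.1.unpair.2), b)) with hdisc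
  set D1 : ℕ × ℕ → Prop := fun z =>
    ((g z.2).unpair.2 = 0 ∧ z.1 = 2 * (g z.2).unpair.1.unpair.1) ∨
    ((g z.2).unpair.2 ≠ 0 ∧ z.1 = 2 * Nat.pair (g z.2).unpair.1 ((g z.2).unpair.2 - 1) + 1) with hD1
  set D2 : ℕ × ℕ → Prop := fun z =>
    z.1 = 2 * Nat.pair (g z.2).unpair.1 (g z.2).unpair.2 + 1 with hD2
  set D0 : ℕ × ℕ → Prop := fun z => z.1 % 2 = 0 ∧ (z.1 / 2).unpair.1 = z.2 with hD0
  set G : ℕ × ℕ → Prop := fun z =>
    (¬ res z.2 ∧ D0 z ∧ ∀ b, R (((z.1 / 2).unpair.1, (z.1 / 2).unpair.2), b)) ∨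
    (res z.2 ∧ ((disc (g z.2).unpair.1 ∧ D1 z) ∨ (¬ disc (g z.2).unpair.1 ∧ D2 z))) with hG
  -- complexity
  have cu1 : Computable (fun x : ℕ => x.unpair.1) := Computable.fst.comp Computable.unpair
  have cu2 : Computable (fun x : ℕ => x.unpair.2) := Computable.snd.comp Computable.unpair
  have ceq : ComputablePred (fun z : ℕ × ℕ => z.1 = z.2) :=
    PrimrecPred.computablePred (Primrec.eq (α := ℕ))
  have ceqf : ∀ {α : Type} [Primcodable α] {f h : α → ℕ}, Computable f → Computable h →
      ComputablePred (fun a => f a = h a) := by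
    intro α _ f h hf hh
    exact cp_comp (p := fun z : ℕ × ℕ => z.1 = z.2) (f := fun a => (f a, h a)) ceq (hf.pair hh)
  have cmul2 : Computable (fun x : ℕ => 2 * x) :=
    (Primrec.nat_mul.comp (Primrec.const 2) Primrec.id).to_comp
  have cpair : ∀ {α : Type} [Primcodable α] {f h : α → ℕ}, Computable f → Computable h →
      Computable (fun a => Nat.pair (f a) (h a)) := by
    intro α _ f h hf hh
    exact (Primrec₂.natPair.to_comp).comp hf hh
  have cdisc : IsDelta n disc := by
    have h1 : ComputablePred (fun θ : ℕ => res θ.unpair.1.unpair.1) :=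
      cp_comp (p := res) (f := fun θ : ℕ => θ.unpair.1.unpair.1) hr (cu1.comp cu1)
    have h2 : ComputablePred (fun θ : ℕ => θ.unpair.2 = 0) := ceqf cu2 (Computable.const 0)
    have h3 : IsDelta n (fun θ : ℕ => R ((θ.unpair.1.unpair.1, θ.unpair.1.unpair.2), θ.unpair.2)) :=
      IsDelta.comp (p := R) (f := fun θ : ℕ => ((θ.unpair.1.unpair.1, θ.unpair.1.unpair.2), θ.unpair.2))
        hRd (((cu1.comp cu1).pair (cu2.comp cu1)).pair cu2)
    have h4 : IsDelta n (fun z : ℕ × ℕ =>
        R ((z.1.unpair.1.unpair.1, z.1.unpair.1.unpair.2), z.2)) :=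
      IsDelta.comp (p := R) (f := fun z : ℕ × ℕ => ((z.1.unpair.1.unpair.1, z.1.unpair.1.unpair.2), z.2))
        hRd ((((cu1.comp cu1).comp Computable.fst).pair ((cu2.comp cu1).comp Computable.fst)).pair
          Computable.snd)
    have h5 := IsDelta.ball (f := fun θ : ℕ => θ.unpair.2) h4 cu2
    exact ((delta_of_computable h1 n).and (delta_of_computable h2 n)).or
      ((delta_of_computable h1 n).not.and (h3.not.and h5))
  have cg : Computable (fun z : ℕ × ℕ => g z.2) := hg.comp Computable.snd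
  have cD0 : ComputablePred D0 := by
    have h1 : ComputablePred (fun z : ℕ × ℕ => z.1 % 2 = 0) :=
      ceqf ((Primrec.nat_mod.comp Primrec.fst (Primrec.const 2)).to_comp) (Computable.const 0)
    have h2 : ComputablePred (fun z : ℕ × ℕ => (z.1 / 2).unpair.1 = z.2) :=
      ceqf (cu1.comp ((Primrec.nat_div.comp Primrec.fst (Primrec.const 2)).to_comp)) Computable.snd
    exact cp_and h1 h2
  have cD1 : ComputablePred D1 := by
    have h1 : ComputablePred (fun z : ℕ × ℕ => (g z.2).unpair.2 = 0) :=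
      ceqf (cu2.comp cg) (Computable.const 0)
    have h2 : ComputablePred (fun z : ℕ × ℕ => z.1 = 2 * (g z.2).unpair.1.unpair.1) :=
      ceqf Computable.fst (cmul2.comp ((cu1.comp cu1).comp cg))
    have h3 : ComputablePred (fun z : ℕ × ℕ =>
        z.1 = 2 * Nat.pair (g z.2).unpair.1 ((g z.2).unpair.2 - 1) + 1) :=
      ceqf Computable.fst (Computable.succ.comp (cmul2.comp (cpair (cu1.comp cg)
        (Primrec.pred.to_comp.comp (cu2.comp cg)))))
    exact cp_or (cp_and h1 h2) (cp_and h1.not h3)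
  have cD2 : ComputablePred D2 :=
    ceqf Computable.fst (Computable.succ.comp (cmul2.comp (cpair (cu1.comp cg) (cu2.comp cg))))
  have cG : IsPi n G := by
    have h1 : ComputablePred (fun z : ℕ × ℕ => res z.2) :=
      cp_comp (p := res) (f := fun z : ℕ × ℕ => z.2) hr Computable.snd
    have h2 : IsPi n (fun z : ℕ × ℕ => ∀ b, R (((z.1 / 2).unpair.1, (z.1 / 2).unpair.2), b)) := by
      have c2 : Computable (fun z : ℕ × ℕ => z.1 / 2) :=
        (Primrec.nat_div.comp Primrec.fst (Primrec.const 2)).to_comp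
      exact IsPi.comp (p := fun z : ℕ × ℕ => ∀ b, R (z, b))
        (f := fun z : ℕ × ℕ => ((z.1 / 2).unpair.1, (z.1 / 2).unpair.2)) hRp
        ((cu1.comp c2).pair (cu2.comp c2))
    have h3 : IsDelta n (fun z : ℕ × ℕ => disc (g z.2).unpair.1) :=
      IsDelta.comp (p := disc) (f := fun z : ℕ × ℕ => (g z.2).unpair.1) cdisc (cu1.comp cg)
    exact ((delta_of_computable h1.not n).2.and ((delta_of_computable cD0 n).2.and h2)).or
      ((delta_of_computable h1 n).2.and ((h3.and (delta_of_computable cD1 n)).or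
        (h3.not.and (delta_of_computable cD2 n))).2)
  -- uniqueness of the discovery time
  have hdu : ∀ θ θ' : ℕ, disc θ → disc θ' → θ.unpair.1 = θ'.unpair.1 → θ = θ' := by
    intro θ θ' h h' he
    have hs : θ.unpair.2 = θ'.unpair.2 := by
      rw [hdisc] at h h'
      rw [he] at h
      rcases h with ⟨h1, h2⟩ | ⟨h1, h2, h3⟩
      · rcases h' with ⟨_, h2'⟩ | ⟨h1', _, _⟩
        · rw [h2, h2']
        · exact absurd h1 h1'
      · rcases h' with ⟨h1', _⟩ | ⟨_, h2', h3'⟩
        · exact absurd h1' h1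
        · rcases lt_trichotomy θ.unpair.2 θ'.unpair.2 with hl | hl | hl
          · exact absurd (h3' _ hl) h2
          · exact hl
          · exact absurd (h3 _ hl) h2'
    calc θ = Nat.pair θ.unpair.1 θ.unpair.2 := (Nat.pair_unpair θ).symm
      _ = Nat.pair θ'.unpair.1 θ'.unpair.2 := by rw [he, hs]
      _ = θ' := Nat.pair_unpair θ'
  have hde : ∀ k : ℕ, ¬ (¬ res k.unpair.1 ∧ ∀ b, R ((k.unpair.1, k.unpair.2), b)) →
      ∃ θ : ℕ, disc θ ∧ θ.unpair.1 = k := by
    intro k hk
    by_cases h1 : res k.unpair.1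
    · refine ⟨Nat.pair k 0, ?_, by simp⟩
      rw [hdisc]; left; simpa using h1
    · have h2 : ∃ b, ¬ R ((k.unpair.1, k.unpair.2), b) := by
        by_contra hcon
        push Not at hcon
        exact hk ⟨h1, hcon⟩
      refine ⟨Nat.pair k (Nat.find h2), ?_, by simp⟩
      rw [hdisc]; right
      refine ⟨by simpa using h1, by simpa using Nat.find_spec h2, ?_⟩
      intro b hb
      have := Nat.find_min h2 (m := b) (by simpa using hb)
      simpa using this
  have hdn : ∀ θ : ℕ, disc θ →
      ¬ (¬ res θ.unpair.1.unpair.1 ∧ ∀ b, R ((θ.unpair.1.unpair.1, θ.unpair.1.unpair.2), b)) := by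
    intro θ h
    rcases h with ⟨h1, _⟩ | ⟨_, h2, _⟩
    · exact fun hc => hc.1 h1
    · exact fun hc => h2 (hc.2 _)
  -- for each `m` there is a unique `x`
  have hex : ∀ m, ∃ x, G (m, x) := by
    intro m
    rcases Nat.even_or_odd' m with ⟨k, rfl | rfl⟩
    · by_cases hk : ¬ res k.unpair.1 ∧ ∀ b, R ((k.unpair.1, k.unpair.2), b)
      · refine ⟨k.unpair.1, Or.inl ⟨hk.1, ⟨by simp, by simp⟩, ?_⟩⟩
        simpa using hk.2
      · obtain ⟨θ, hθ, hθk⟩ := hde k hk
        refine ⟨ρ (Nat.pair θ 0), Or.inr ⟨⟨_, rfl⟩, Or.inl ⟨?_, ?_⟩⟩⟩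
        · simpa [hgρ] using hθ
        · left
          simp [hgρ, hθk]
    · set θ := k.unpair.1 with hθ
      set l := k.unpair.2 with hl
      have hk : Nat.pair θ l = k := Nat.pair_unpair k
      by_cases hd : disc θ
      · refine ⟨ρ (Nat.pair θ (l + 1)), Or.inr ⟨⟨_, rfl⟩, Or.inl ⟨?_, ?_⟩⟩⟩
        · simpa [hgρ] using hd
        · right
          simp [hgρ, hk]
      · refine ⟨ρ (Nat.pair θ l), Or.inr ⟨⟨_, rfl⟩, Or.inr ⟨?_, ?_⟩⟩⟩
        · simpa [hgρ] using hd
        · simp [hD2, hgρ, hk]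
  have hun : ∀ m x x', G (m, x) → G (m, x') → x = x' := by
    -- reserved elements are determined by `g`
    have hgi : ∀ x x', res x → res x' → g x = g x' → x = x' := by
      rintro x x' ⟨y, rfl⟩ ⟨y', rfl⟩ h
      rw [hgρ, hgρ] at h
      rw [h]
    have key : ∀ m x x', G (m, x) → G (m, x') → ¬ res x → x = x' := by
      intro m x x' h h' hx
      rcases h with ⟨_, ⟨h0, h1⟩, h2⟩ | ⟨h1, _⟩
      · rcases h' with ⟨_, ⟨_, h1'⟩, _⟩ | ⟨_, h'' | h''⟩
        · exact h1.symm.trans h1'
        · exfalso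
          obtain ⟨hd, h3 | h3⟩ := h''
          · have h4 : (m / 2) = (g x').unpair.1.unpair.1 := by
              have := h3.2
              simp only at this
              omega
            refine hdn _ hd ?_
            rw [← h4]
            refine ⟨?_, h2⟩
            simp only at h1
            rw [h1]; exact hx
          · have := h3.2
            simp only at this h0
            omega
        · exfalso
          have := h''.2
          simp only [hD2] at this h0
          omega
      · exact absurd h1 hx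
    intro m x x' h h'
    by_cases hx : res x
    · by_cases hx' : res x'
      · rcases h with ⟨h1, _⟩ | ⟨_, h⟩
        · exact absurd hx h1
        rcases h' with ⟨h1, _⟩ | ⟨_, h'⟩
        · exact absurd hx' h1
        refine hgi x x' hx hx' ?_
        rw [← Nat.pair_unpair (g x), ← Nat.pair_unpair (g x')]
        rcases h with ⟨hd, ⟨h0, h1⟩ | ⟨h0, h1⟩⟩ | ⟨hd, h1⟩
        · rcases h' with ⟨hd', ⟨h0', h1'⟩ | ⟨h0', h1'⟩⟩ | ⟨hd', h1'⟩
          · simp only at h0 h1 h0' h1'
            have h2 : (g x).unpair.1.unpair.1 = (g x').unpair.1.unpair.1 := by omega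
            rw [hdu _ _ hd hd' h2, h0, h0']
          · simp only at h0 h1 h0' h1'
            omega
          · simp only [hD2] at h0 h1 h1'
            omega
        · rcases h' with ⟨hd', ⟨h0', h1'⟩ | ⟨h0', h1'⟩⟩ | ⟨hd', h1'⟩
          · simp only at h0 h1 h0' h1'
            omega
          · simp only at h0 h1 h0' h1'
            have h2 : Nat.pair (g x).unpair.1 ((g x).unpair.2 - 1) =
              Nat.pair (g x').unpair.1 ((g x').unpair.2 - 1) := by omega
            rw [Nat.pair_eq_pair] at h2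
            have h3 : (g x).unpair.2 = (g x').unpair.2 := by omega
            rw [h2.1, h3]
          · simp only [hD2] at h0 h1 h1'
            have h2 : Nat.pair (g x).unpair.1 ((g x).unpair.2 - 1) =
              Nat.pair (g x').unpair.1 ((g x').unpair.2) := by omega
            rw [Nat.pair_eq_pair] at h2
            exfalso
            simp only at hd hd'
            rw [h2.1] at hd
            exact hd' hd
        · rcases h' with ⟨hd', ⟨h0', h1'⟩ | ⟨h0', h1'⟩⟩ | ⟨hd', h1'⟩
          · simp only [hD2] at h1 h0' h1'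
            omega
          · simp only [hD2] at h1 h0' h1'
            have h2 : Nat.pair (g x).unpair.1 ((g x).unpair.2) =
              Nat.pair (g x').unpair.1 ((g x').unpair.2 - 1) := by omega
            rw [Nat.pair_eq_pair] at h2
            exfalso
            simp only at hd hd'
            rw [h2.1] at hd
            exact hd hd'
          · simp only [hD2] at h1 h1'
            omega
      · exact (key m x' x h' h hx').symm
    · exact key m x x' h h' hx
  choose β hβ using hex
  have hiff : ∀ m x, β m = x ↔ G (m, x) := by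
    intro m x
    constructor
    · rintro rfl; exact hβ m
    · intro h; exact hun m _ _ (hβ m) h
  refine ⟨β, ?_, ?_, ?_⟩
  · intro m m' he
    have h := hβ m
    have h' := hβ m'
    rw [← he] at h'
    set x := β m with hx
    rcases h with ⟨hr1, ⟨h0, h1⟩, h2⟩ | ⟨hr1, h⟩
    · rcases h' with ⟨_, ⟨h0', h1'⟩, h2'⟩ | ⟨hr2, _⟩
      · simp only at h0 h1 h2 h0' h1' h2'
        rw [h1] at h2
        rw [h1'] at h2'
        have h3 := hu x _ _ h2 h2'
        have h4 : m / 2 = m' / 2 := by
          rw [← Nat.pair_unpair (m / 2), ← Nat.pair_unpair (m' / 2), h1, h1', h3]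
        omega
      · exact absurd hr2 hr1
    · rcases h' with ⟨hr2, _⟩ | ⟨_, h'⟩
      · exact absurd hr1 hr2
      · rcases h with ⟨hd, h⟩ | ⟨hd, h⟩
        · rcases h' with ⟨_, h'⟩ | ⟨hd', _⟩
          · rcases h with ⟨h0, h1⟩ | ⟨h0, h1⟩
            · rcases h' with ⟨h0', h1'⟩ | ⟨h0', h1'⟩
              · exact h1.trans h1'.symm
              · exact absurd h0 h0'
            · rcases h' with ⟨h0', h1'⟩ | ⟨h0', h1'⟩
              · exact absurd h0' h0
              · exact h1.trans h1'.symm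
          · exact absurd hd hd'
        · rcases h' with ⟨hd', _⟩ | ⟨_, h'⟩
          · exact absurd hd' hd
          · exact Eq.trans (show m = _ from h) (show m' = _ from h').symm
  · intro x
    constructor
    · rintro ⟨m, hm⟩
      rw [hiff] at hm
      rcases hm with ⟨_, ⟨_, h1⟩, h2⟩ | ⟨⟨y, hy⟩, _⟩
      · simp only at h1 h2
        rw [h1] at h2
        exact (hA x).2 ⟨_, h2⟩
      · simp only at hy
        rw [← hy]; exact hres y
    · intro hx
      by_cases hrx : res x
      · by_cases hd : disc (g x).unpair.1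
        · by_cases h0 : (g x).unpair.2 = 0
          · refine ⟨2 * (g x).unpair.1.unpair.1, ?_⟩
            rw [hiff]
            exact Or.inr ⟨hrx, Or.inl ⟨hd, Or.inl ⟨h0, rfl⟩⟩⟩
          · refine ⟨2 * Nat.pair (g x).unpair.1 ((g x).unpair.2 - 1) + 1, ?_⟩
            rw [hiff]
            exact Or.inr ⟨hrx, Or.inl ⟨hd, Or.inr ⟨h0, rfl⟩⟩⟩
        · refine ⟨2 * Nat.pair (g x).unpair.1 (g x).unpair.2 + 1, ?_⟩
          rw [hiff]
          exact Or.inr ⟨hrx, Or.inr ⟨hd, rfl⟩⟩
      · obtain ⟨c, hc⟩ := (hA x).1 hx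
        refine ⟨2 * Nat.pair x c, ?_⟩
        rw [hiff]
        refine Or.inl ⟨hrx, ⟨by simp, by simp⟩, ?_⟩
        simpa using hc
  · exact cG.of_eq fun z => (hiff z.1 z.2).symm

/-- The graph of `β`, coded by pairs `(value, argument)`. -/
def Gr (β : ℕ → ℕ) (x : ℕ) : Prop := β x.unpair.2 = x.unpair.1

/-- `mark_step` for `Q = Gr β`, with the reserved elements `Nat.pair y 0`, `y ≠ β 0`. -/
theorem mark_graph {n : ℕ} {β : ℕ → ℕ} (hβ : IsPi (n + 1) (fun z : ℕ × ℕ => β z.1 = z.2)) :
    ∃ β' : ℕ → ℕ, Function.Injective β' ∧ (∀ x, (∃ w, β' w = x) ↔ ¬ Gr β x) ∧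
      IsPi n (fun z : ℕ × ℕ => β' z.1 = z.2) := by
  have cu1 : Computable (fun x : ℕ => x.unpair.1) := Computable.fst.comp Computable.unpair
  have cu2 : Computable (fun x : ℕ => x.unpair.2) := Computable.snd.comp Computable.unpair
  have ceq : ComputablePred (fun z : ℕ × ℕ => z.1 = z.2) :=
    PrimrecPred.computablePred (Primrec.eq (α := ℕ))
  have hQ : IsPi (n + 1) (Gr β) :=
    IsPi.comp (p := fun z : ℕ × ℕ => β z.1 = z.2) (f := fun x : ℕ => (x.unpair.2, x.unpair.1)) hβ
      (cu2.pair cu1)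
  set e := β 0 with he
  refine mark_step (ρ := fun y => Nat.pair (if y < e then y else y + 1) 0) hQ ?_ ?_ ?_ ?_
  · have h1 : Primrec (fun y : ℕ => if y < e then y else y + 1) :=
      Primrec.ite (Primrec.nat_lt.comp Primrec.id (Primrec.const e)) Primrec.id
        (Primrec.succ.comp Primrec.id)
    exact (Primrec₂.natPair.comp h1 (Primrec.const 0)).to_comp
  · intro y y' h
    simp only [Nat.pair_eq_pair, and_true] at h
    split_ifs at h <;> omega
  · have h1 : ComputablePred (fun x : ℕ => x.unpair.2 = 0) :=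
      cp_comp (p := fun z : ℕ × ℕ => z.1 = z.2) (f := fun x : ℕ => (x.unpair.2, 0)) ceq
        (cu2.pair (Computable.const 0))
    have h2 : ComputablePred (fun x : ℕ => x.unpair.1 = e) :=
      cp_comp (p := fun z : ℕ × ℕ => z.1 = z.2) (f := fun x : ℕ => (x.unpair.1, e)) ceq
        (cu1.pair (Computable.const e))
    refine (cp_and h1 h2.not).of_eq fun x => ?_
    constructor
    · rintro ⟨h0, h3⟩
      rcases lt_or_gt_of_ne h3 with h4 | h4
      · refine ⟨x.unpair.1, ?_⟩
        rw [if_pos h4]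
        conv_rhs => rw [← Nat.pair_unpair x, h0]
      · refine ⟨x.unpair.1 - 1, ?_⟩
        rw [if_neg (by omega)]
        conv_rhs => rw [← Nat.pair_unpair x, h0]
        congr 1
        omega
    · rintro ⟨y, rfl⟩
      simp only [Nat.unpair_pair, true_and]
      split_ifs <;> omega
  · intro y
    simp only [Gr, Nat.unpair_pair]
    rw [← he]
    split_ifs <;> omega

/-- Induction on `h`. -/
theorem exists_chain (h : ℕ) (β0 : ℕ → ℕ) (hβ : IsPi h (fun z : ℕ × ℕ => β0 z.1 = z.2)) :
    ∃ β : ℕ → ℕ → ℕ, β 0 = β0 ∧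
      (∀ i < h, Function.Injective (β (i + 1)) ∧
        ∀ x, (∃ w, β (i + 1) w = x) ↔ ¬ Gr (β i) x) ∧ ComputablePred (Gr (β h)) := by
  induction h generalizing β0 with
  | zero =>
    refine ⟨fun _ => β0, rfl, fun i hi => absurd hi (Nat.not_lt_zero i), ?_⟩
    have h1 := isPi_zero.1 hβ
    have cu1 : Computable (fun x : ℕ => x.unpair.1) := Computable.fst.comp Computable.unpair
    have cu2 : Computable (fun x : ℕ => x.unpair.2) := Computable.snd.comp Computable.unpair
    exact cp_comp (p := fun z : ℕ × ℕ => β0 z.1 = z.2) (f := fun x : ℕ => (x.unpair.2, x.unpair.1))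
      h1 (cu2.pair cu1)
  | succ h ih =>
    obtain ⟨β1, hi1, hr1, hp1⟩ := mark_graph hβ
    obtain ⟨β, hb0, hb, hc⟩ := ih β1 hp1
    refine ⟨fun i => Nat.casesOn i β0 (fun j => β j), rfl, ?_, hc⟩
    intro i hi
    rcases i with _ | i
    · show Function.Injective (β 0) ∧ ∀ x, (∃ w, β 0 w = x) ↔ ¬ Gr β0 x
      rw [hb0]
      exact ⟨hi1, hr1⟩
    · exact hb i (by omega)

end Pool.Agent.H78.UC
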