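import Pool.Agent.H78.UC.PresC
import Pool.Agent.H78.UC.Base

/-!
Project UC, part C: all countable models.
-/

set_option autoImplicit false

namespace Pool.Agent.H78.UC

open Pool.Agent.H80

variable {N : ℕ} {T : ℕ → Finset ℕ → Set (List ℕ)}

/-- One computable family of sets of constants, with the same set of realized types.  For `h ≥ h0` there are models
with presentations: `exists_enum`, `exists_base`, `IsAr.exists_pi`, `exists_chain`, `data_cls`, `data_gen`, `data_presented`. -/
theorem exists_family (hT : IsTy N T) (hN : 1 ≤ N) {c : ℕ → ℕ → ℕ} (hc : Computable₂ c)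
    (hci : ∀ p, Function.Injective (c p)) (k : ℕ)
    (hk : ∀ p, (k : ℕ∞) = min (Set.range (c p))ᶜ.encard N) :
    ∃ h0, ∀ h ≥ h0, ∀ p, ∃ (M : Type) (_ : (RL (arU N h)).Structure M), Countable M ∧ Cls N h T M ∧
      gen N h M = (Set.range (c p))ᶜ.encard ∧ PresentedIn k (arU N h) M := by
  obtain ⟨τ, hτ, hτd⟩ := exists_enum hT hN (Set.range (c 0))ᶜ.encard k (hk 0)
  have hτ' : ∀ p, Set.range τ = realz N T (Set.range (c p))ᶜ.encard := by
    intro p
    rw [hτ]
    exact realz_congr ((hk 0).symm.trans (hk p))
  obtain ⟨β0, hb, hty, har⟩ := exists_base hT hN hc hci hτ' (ar_of_delta hτd)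
  obtain ⟨h0, hh0⟩ := har.exists_pi
  refine ⟨h0, fun h hh p => ?_⟩
  have hcp : Computable (c p) := hc.comp (Computable.const p) Computable.id
  have hpi : IsPi h (fun z : ℕ × ℕ => β0 p z.1 = z.2) :=
    IsPi.comp (p := fun z : (ℕ × ℕ) × ℕ => β0 z.1.1 z.1.2 = z.2)
      (f := fun z : ℕ × ℕ => ((p, z.1), z.2)) (hh0 h hh)
      (((Computable.const p).pair Computable.fst).pair Computable.snd)
  obtain ⟨β, hβ0, hβs, hβc⟩ := exists_chain h (β0 p) hpi
  have H : IsData N h T (c p) τ β :=
    { cinj := hci p
      bij := by rw [hβ0]; exact hb p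
      ty := by intro v; rw [hβ0]; exact hty p v
      step_inj := fun i hi => (hβs i hi).1
      step_ran := fun i hi => (hβs i hi).2 }
  exact ⟨Fin (h + 2) × ℕ, mkU N h (US h) (Ucst h (c p)) (UP h τ) (UR N h β h), inferInstance,
    data_cls H, data_gen H, data_presented hcp hτd hβc⟩

theorem Models_compl (k : ℕ) : (Set.range fun m : ℕ => m + k)ᶜ.encard = k := by
  have h1 : (Set.range fun m : ℕ => m + k)ᶜ = (Finset.range k : Set ℕ) := by
    ext x
    simp only [Set.mem_compl_iff, Set.mem_range, not_exists, Finset.coe_range, Set.mem_Iio]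
    constructor
    · intro h
      by_contra hx
      exact h (x - k) (by omega)
    · intro h y
      omega
  rw [h1, Set.encard_coe_eq_coe_finsetCard, Finset.card_range]

theorem Models_compl2 : (Set.range fun m : ℕ => 2 * m)ᶜ.encard = ⊤ := by
  rw [Set.encard_eq_top_iff]
  refine Set.infinite_of_injective_forall_mem (f := fun m : ℕ => 2 * m + 1) ?_ ?_
  · intro a b h
    simp only at h
    omega
  · intro m
    simp only [Set.mem_compl_iff, Set.mem_range, not_exists]
    intro y
    omega

/-- Families: for `k < N` the constants `c p m = m + k` (`k` generic elements), for `k = N` the constants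
`c p m = m + (N + p)`, and `c p m = 2 * m` (infinitely many generic elements).  Take the maximum of the `h0`. -/
theorem exists_models (hT : IsTy N T) (hN : 1 ≤ N) :
    ∃ h, ∀ j : ℕ∞, ∃ (M : Type) (_ : (RL (arU N h)).Structure M), Countable M ∧ Cls N h T M ∧
      gen N h M = j ∧ ∀ k : ℕ, (k : ℕ∞) = min j N → PresentedIn k (arU N h) M := by
  have f1 : ∀ k < N, ∃ h0, ∀ h ≥ h0, ∃ (M : Type) (_ : (RL (arU N h)).Structure M),
      Countable M ∧ Cls N h T M ∧ gen N h M = k ∧ PresentedIn k (arU N h) M := by
    intro k hk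
    obtain ⟨h0, hh0⟩ := exists_family hT hN (c := fun _ m => m + k)
      (((Primrec.nat_add.comp Primrec.snd (Primrec.const k)).to_comp : Computable
        (fun z : ℕ × ℕ => z.2 + k)))
      (fun p a b h => by simpa using h) k
      (fun p => by
        rw [Models_compl, min_eq_left]
        exact_mod_cast hk.le)
    refine ⟨h0, fun h hh => ?_⟩
    obtain ⟨M, i, h1, h2, h3, h4⟩ := hh0 h hh 0
    exact ⟨M, i, h1, h2, h3.trans (Models_compl k), h4⟩
  obtain ⟨h2, f2⟩ := exists_family hT hN (c := fun p m => m + (N + p))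
      (((Primrec.nat_add.comp Primrec.snd (Primrec.nat_add.comp (Primrec.const N)
        Primrec.fst)).to_comp : Computable (fun z : ℕ × ℕ => z.2 + (N + z.1))))
      (fun p a b h => by simpa using h) N
      (fun p => by
        rw [Models_compl, min_eq_right]
        exact_mod_cast Nat.le_add_right N p)
  obtain ⟨h3, f3⟩ := exists_family hT hN (c := fun _ m => 2 * m)
      (((Primrec.nat_mul.comp (Primrec.const 2) Primrec.snd).to_comp : Computable
        (fun z : ℕ × ℕ => 2 * z.2)))
      (fun p a b h => by simpa using h) N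
      (fun p => by
        rw [Models_compl2, min_eq_right]
        exact le_top)
  choose! h1 f1 using f1
  set hh := (Finset.range N).sup h1 + h2 + h3 with hhdef
  have e1 : ∀ k < N, h1 k ≤ hh := by
    intro k hk
    have := Finset.le_sup (f := h1) (Finset.mem_range.2 hk)
    omega
  refine ⟨hh, fun j => ?_⟩
  induction j using ENat.recTopCoe with
  | top =>
    obtain ⟨M, i, g1, g2, g3, g4⟩ := f3 hh (by omega) 0
    refine ⟨M, i, g1, g2, g3.trans Models_compl2, fun k hk => ?_⟩
    have : k = N := by
      rw [min_eq_right le_top] at hk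
      exact_mod_cast hk
    rw [this]; exact g4
  | coe n =>
    rcases lt_or_ge n N with hn | hn
    · obtain ⟨M, i, g1, g2, g3, g4⟩ := f1 n hn hh (e1 n hn)
      refine ⟨M, i, g1, g2, g3, fun k hk => ?_⟩
      have : k = n := by
        rw [min_eq_left (by exact_mod_cast hn.le)] at hk
        exact_mod_cast hk
      rw [this]; exact g4
    · obtain ⟨M, i, g1, g2, g3, g4⟩ := f2 hh (by omega) (n - N)
      refine ⟨M, i, g1, g2, ?_, fun k hk => ?_⟩
      · rw [g3, Models_compl]
        congr 1
        omega
      · have : k = N := by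
          rw [min_eq_right (by exact_mod_cast hn)] at hk
          exact_mod_cast hk
        rw [this]; exact g4

end Pool.Agent.H78.UC
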