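import Pool.Agent.H78.UC.Base
import Pool.Agent.H78.UC.Mark

/-!
Project UC, part C: the structure given by a chain of bijections.
-/

set_option autoImplicit false

namespace Pool.Agent.H78.UC

open Pool.Agent.H80

variable {N h : ℕ} {T : ℕ → Finset ℕ → Set (List ℕ)}

/-- The sorts. -/
def US (h i : ℕ) (x : Fin (h + 2) × ℕ) : Prop := x.1.val = i

/-- The constants. -/
def Ucst (h : ℕ) (c : ℕ → ℕ) (m : ℕ) (x : Fin (h + 2) × ℕ) : Prop := x.1.val = 0 ∧ x.2 = c m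

/-- The unary predicates. -/
def UP (h : ℕ) (τ : ℕ → Set (List ℕ)) (k : ℕ) (x : Fin (h + 2) × ℕ) : Prop :=
  x.1.val = 1 ∧ dec k ∈ τ x.2.unpair.1

/-- The relations. -/
def UR (N h : ℕ) (β : ℕ → ℕ → ℕ) (i : ℕ) (z : Fin (N + 2 + i) → Fin (h + 2) × ℕ) : Prop :=
  Zs N (US h) z ∧ Gr (β i) (tc (N + 2 + i) fun t => (z t).2)

/-- The data of the construction. -/
structure IsData (N h : ℕ) (T : ℕ → Finset ℕ → Set (List ℕ)) (c : ℕ → ℕ)
    (τ : ℕ → Set (List ℕ)) (β : ℕ → ℕ → ℕ) : Prop where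
  cinj : Function.Injective c
  bij : Function.Bijective (β 0)
  ty : ∀ v, τ v.unpair.1 = TyZ N T c (utc N (β 0 v))
  step_inj : ∀ i < h, Function.Injective (β (i + 1))
  step_ran : ∀ i < h, ∀ x, (∃ w, β (i + 1) w = x) ↔ ¬ Gr (β i) x

variable {c : ℕ → ℕ} {τ : ℕ → Set (List ℕ)} {β : ℕ → ℕ → ℕ}

theorem Pres_Zs_snoc {U : Type} (S : ℕ → U → Prop) {m : ℕ} (z : Fin m → U) (w : U) :
    Zs N S (Fin.snoc (α := fun _ => U) z w) ↔ Zs N S z ∧ S (m - N) w := by
  unfold Zs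
  constructor
  · intro H
    refine ⟨fun t => ?_, ?_⟩
    · have := H t.castSucc
      rw [Fin.snoc_castSucc] at this
      exact this
    · have := H (Fin.last m)
      rw [Fin.snoc_last] at this
      exact this
  · rintro ⟨H1, H2⟩ t
    refine Fin.lastCases ?_ (fun t => ?_) t
    · rw [Fin.snoc_last]
      exact H2
    · rw [Fin.snoc_castSucc]
      exact H1 t

theorem Pres_snd_snoc {m : ℕ} (z : Fin m → Fin (h + 2) × ℕ) (w : Fin (h + 2) × ℕ) :
    (fun t => (Fin.snoc (α := fun _ => Fin (h + 2) × ℕ) z w t).2) =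
      Fin.snoc (α := fun _ => ℕ) (fun t => (z t).2) w.2 := by
  funext t
  refine Fin.lastCases ?_ (fun t => ?_) t
  · rw [Fin.snoc_last, Fin.snoc_last]
  · rw [Fin.snoc_castSucc, Fin.snoc_castSucc]

theorem Pres_Gr_pair (b : ℕ → ℕ) (x y : ℕ) : Gr b (Nat.pair x y) ↔ b y = x := by
  unfold Gr
  rw [Nat.unpair_pair]

theorem Pres_UR_zero (β : ℕ → ℕ → ℕ) (d : Fin (N + 1) → Fin (h + 2) × ℕ)
    (v : Fin (h + 2) × ℕ) :
    UR N h β 0 (Fin.snoc (α := fun _ => Fin (h + 2) × ℕ) d v) ↔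
      ((∀ t, US h 0 (d t)) ∧ US h 1 v) ∧ β 0 v.2 = tc (N + 1) (fun t => (d t).2) := by
  have h1 : Zs N (US h) (Fin.snoc (α := fun _ => Fin (h + 2) × ℕ) d v) ↔
      ((∀ t, US h 0 (d t)) ∧ US h 1 v) := by
    rw [Pres_Zs_snoc, Nat.add_sub_cancel_left]
    refine and_congr_left fun _ => ?_
    unfold Zs
    refine forall_congr' fun t => ?_
    have ht : t.val - N = 0 := by have := t.isLt; omega
    rw [ht]
  have h2 : Gr (β 0) (tc (N + 2) fun t => (Fin.snoc (α := fun _ => Fin (h + 2) × ℕ) d v t).2) ↔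
      β 0 v.2 = tc (N + 1) (fun t => (d t).2) := by
    rw [Pres_snd_snoc, tc_snoc (by omega), Pres_Gr_pair]
  exact and_congr h1 h2

theorem Pres_UR_succ (β : ℕ → ℕ → ℕ) (i : ℕ) (z : Fin (N + 2 + i) → Fin (h + 2) × ℕ)
    (w : Fin (h + 2) × ℕ) :
    UR N h β (i + 1) (Fin.snoc (α := fun _ => Fin (h + 2) × ℕ) z w) ↔
      (Zs N (US h) z ∧ US h (i + 2) w) ∧
        β (i + 1) w.2 = tc (N + 2 + i) (fun t => (z t).2) := by
  have h1 : Zs N (US h) (Fin.snoc (α := fun _ => Fin (h + 2) × ℕ) z w) ↔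
      (Zs N (US h) z ∧ US h (i + 2) w) := by
    rw [Pres_Zs_snoc]
    have ht : N + 2 + i - N = i + 2 := by omega
    rw [ht]
  have h2 : Gr (β (i + 1)) (tc (N + 2 + i + 1)
      fun t => (Fin.snoc (α := fun _ => Fin (h + 2) × ℕ) z w t).2) ↔
      β (i + 1) w.2 = tc (N + 2 + i) (fun t => (z t).2) := by
    rw [Pres_snd_snoc, tc_snoc (by omega), Pres_Gr_pair]
  exact and_congr h1 h2

theorem Pres_ext {x y : Fin (h + 2) × ℕ} (h1 : x.1.val = y.1.val) (h2 : x.2 = y.2) : x = y :=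
  Prod.ext (Fin.ext h1) h2

/-- The coordinates of a sorted tuple with a given code. -/
theorem Pres_exists_tuple {i : ℕ} (hi : i ≤ h) (x : ℕ) :
    ∃ z : Fin (N + 2 + i) → Fin (h + 2) × ℕ, Zs N (US h) z ∧
      tc (N + 2 + i) (fun t => (z t).2) = x := by
  obtain ⟨y, hy⟩ := (tc_bij (m := N + 2 + i) (by omega)).2 x
  refine ⟨fun t => (⟨t.val - N, by have := t.isLt; omega⟩, y t), fun t => rfl, hy⟩

theorem Pres_tuple_ext {m : ℕ} (hm : 1 ≤ m) {z z' : Fin m → Fin (h + 2) × ℕ}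
    (hz : Zs N (US h) z) (hz' : Zs N (US h) z')
    (h2 : tc m (fun t => (z t).2) = tc m (fun t => (z' t).2)) : z = z' := by
  have h3 := (tc_bij hm).1 h2
  funext t
  refine Pres_ext ?_ (congrFun h3 t)
  exact (hz t).trans (hz' t).symm

theorem Pres_Zs_one {d : Fin (N + 1) → Fin (h + 2) × ℕ} :
    Zs N (US h) d ↔ ∀ t, US h 0 (d t) := by
  unfold Zs
  refine forall_congr' fun t => ?_
  have ht : t.val - N = 0 := by have := t.isLt; omega
  rw [ht]

theorem Pres_cset (c : ℕ → ℕ) {d : Fin (N + 1) → Fin (h + 2) × ℕ} (hd : ∀ t, US h 0 (d t))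
    (v : Fin (h + 2) × ℕ) :
    cset N (Ucst h c) (Fin.snoc (α := fun _ => Fin (h + 2) × ℕ) d v) =
      cset N (fun m x => x = c m) (fun t => (d t).2) := by
  ext m
  constructor
  · rintro ⟨t, ht, h1, h2⟩
    refine ⟨⟨t.val, by omega⟩, ht, ?_⟩
    have he : t = (⟨t.val, by omega⟩ : Fin (N + 1)).castSucc := rfl
    rw [he, Fin.snoc_castSucc] at h2
    exact h2
  · rintro ⟨t, ht, h1⟩
    refine ⟨t.castSucc, ht, ?_⟩
    rw [Fin.snoc_castSucc]
    exact ⟨hd t, h1⟩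

theorem Pres_eset {d : Fin (N + 1) → Fin (h + 2) × ℕ} (hd : ∀ t, US h 0 (d t))
    (v : Fin (h + 2) × ℕ) :
    (eset N (Fin.snoc (α := fun _ => Fin (h + 2) × ℕ) d v)).ncard =
      (eset N (fun t => (d t).2)).ncard := by
  have he : eset N (fun t => (d t).2) =
      Prod.snd '' eset N (Fin.snoc (α := fun _ => Fin (h + 2) × ℕ) d v) := by
    ext x
    constructor
    · rintro ⟨t, ht, rfl⟩
      refine ⟨d t, ⟨t.castSucc, ht, ?_⟩, rfl⟩
      rw [Fin.snoc_castSucc]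
    · rintro ⟨y, ⟨t, ht, rfl⟩, rfl⟩
      obtain ⟨t', rfl⟩ : ∃ t' : Fin (N + 1), t = t'.castSucc := ⟨⟨t.val, by omega⟩, rfl⟩
      refine ⟨t', ht, ?_⟩
      rw [Fin.snoc_castSucc]
  rw [he, Set.InjOn.ncard_image]
  have hs : ∀ x ∈ eset N (Fin.snoc (α := fun _ => Fin (h + 2) × ℕ) d v), x.1.val = 0 := by
    rintro x ⟨t, ht, rfl⟩
    have he : t = (⟨t.val, by omega⟩ : Fin (N + 1)).castSucc := rfl
    rw [he, Fin.snoc_castSucc]
    exact hd _
  intro x hx y hy hxy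
  exact Pres_ext ((hs x hx).trans (hs y hy).symm) hxy

/-- `tc_snoc`, `tc_bij`, `tc_utc`. -/
theorem data_isUC (H : IsData N h T c τ β) :
    IsUC N h T (US h) (Ucst h c) (UP h τ) (UR N h β) where
  sort_ex := fun x => ⟨x.1.val, by have := x.1.isLt; omega, rfl⟩
  sort_uniq := fun i j x hi hj => hi.symm.trans hj
  c_ex := fun m => ⟨(0, c m), rfl, rfl⟩
  c_uniq := fun m x y hx hy => Pres_ext (hx.1.trans hy.1.symm) (hx.2.trans hy.2.symm)
  c_sort := fun m x hx => hx.1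
  c_inj := fun m m' x hx hx' => H.cinj (hx.2.symm.trans hx'.2)
  r_sort := fun i _ z hz => hz.1
  zero_fun := by
    intro v hv
    refine ⟨fun t => (0, utc N (β 0 v.2) t), ?_, ?_⟩
    · show UR N h β 0 _
      rw [Pres_UR_zero]
      refine ⟨⟨fun t => rfl, hv⟩, ?_⟩
      exact (tc_utc N (β 0 v.2)).symm
    · intro d hd
      replace hd := (Pres_UR_zero β d v).1 hd
      refine Pres_tuple_ext (N := N) (by omega) (Pres_Zs_one.2 hd.1.1)
        (Pres_Zs_one.2 fun t => rfl) ?_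
      rw [← hd.2]
      exact (tc_utc N (β 0 v.2)).symm
  zero_bij := by
    intro d hd
    obtain ⟨y, hy⟩ := H.bij.2 (tc (N + 1) (fun t => (d t).2))
    refine ⟨(1, y), ?_, ?_⟩
    · show UR N h β 0 _
      rw [Pres_UR_zero]
      exact ⟨⟨hd, rfl⟩, hy⟩
    · intro v hv
      replace hv := (Pres_UR_zero β d v).1 hv
      refine Pres_ext hv.1.2 (H.bij.1 ?_)
      rw [hv.2]
      exact hy.symm
  step_iff := by
    intro i hi z
    constructor
    · rintro ⟨h1, h2⟩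
      refine ⟨h1, ?_⟩
      rintro ⟨w, hw⟩
      rw [Pres_UR_succ] at hw
      exact ((H.step_ran i hi _).1 ⟨_, hw.2⟩) h2
    · rintro ⟨h1, h2⟩
      refine ⟨h1, ?_⟩
      by_contra h3
      obtain ⟨w, hw⟩ := (H.step_ran i hi _).2 h3
      refine h2 ⟨(⟨i + 2, by omega⟩, w), ?_⟩
      rw [Pres_UR_succ]
      exact ⟨⟨h1, rfl⟩, hw⟩
  step_fun := by
    intro i hi w hw
    obtain ⟨z, hz1, hz2⟩ := Pres_exists_tuple (N := N) (h := h) (i := i) hi.le (β (i + 1) w.2)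
    refine ⟨z, ?_, ?_⟩
    · show UR N h β (i + 1) _
      rw [Pres_UR_succ]
      exact ⟨⟨hz1, hw⟩, hz2.symm⟩
    · intro z' hz'
      replace hz' := (Pres_UR_succ β i z' w).1 hz'
      refine Pres_tuple_ext (N := N) (by omega) hz'.1.1 hz1 ?_
      rw [hz2, hz'.2]
  step_inj := by
    intro i hi z w w' hw hw'
    rw [Pres_UR_succ] at hw hw'
    exact Pres_ext (hw.1.2.trans hw'.1.2.symm) (H.step_inj i hi (hw.2.trans hw'.2.symm))
  p_sort := fun k v hv => hv.1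
  p_iff := by
    intro k z hz
    obtain ⟨d, v, rfl⟩ : ∃ (d : Fin (N + 1) → Fin (h + 2) × ℕ) (v : Fin (h + 2) × ℕ),
        z = Fin.snoc (α := fun _ => Fin (h + 2) × ℕ) d v :=
      ⟨Fin.init z, z (Fin.last _), (Fin.snoc_init_self z).symm⟩
    replace hz := (Pres_UR_zero β d v).1 hz
    have hlast : (Fin.snoc (α := fun _ => Fin (h + 2) × ℕ) d v) (Fin.last (N + 1)) = v :=
      Fin.snoc_last _ _
    have hty : τ v.2.unpair.1 = TyZ N T c (fun t => (d t).2) := by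
      rw [H.ty, hz.2, utc_tc]
    rw [hlast, Pres_cset c hz.1.1 v, Pres_eset hz.1.1 v]
    constructor
    · rintro ⟨_, h2⟩
      rw [hty] at h2
      exact h2
    · intro h2
      refine ⟨hz.1.2, ?_⟩
      rw [hty]
      exact h2

theorem data_cls (H : IsData N h T c τ β) :
    letI := mkU N h (US h) (Ucst h c) (UP h τ) (UR N h β h)
    Cls N h T (Fin (h + 2) × ℕ) := by
  let := mkU N h (US h) (Ucst h c) (UP h τ) (UR N h β h)
  have h1 : sS N h (Fin (h + 2) × ℕ) = US h := by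
    funext i x
    exact propext (sS_mk (N := N) (h := h) (US h) (Ucst h c) (UP h τ) (UR N h β h) i x)
  have h2 : sC N h (Fin (h + 2) × ℕ) = Ucst h c := by
    funext i x
    exact propext (sC_mk (N := N) (h := h) (US h) (Ucst h c) (UP h τ) (UR N h β h) i x)
  have h3 : sP N h (Fin (h + 2) × ℕ) = UP h τ := by
    funext i x
    exact propext (sP_mk (N := N) (h := h) (US h) (Ucst h c) (UP h τ) (UR N h β h) i x)
  refine ⟨UR N h β, ?_, ?_⟩
  · rw [h1, h2, h3]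
    exact data_isUC H
  · intro z
    exact (sQ_mk (N := N) (h := h) (US h) (Ucst h c) (UP h τ) (UR N h β h) z).symm

theorem data_gen (H : IsData N h T c τ β) :
    letI := mkU N h (US h) (Ucst h c) (UP h τ) (UR N h β h)
    gen N h (Fin (h + 2) × ℕ) = (Set.range c)ᶜ.encard := by
  let := mkU N h (US h) (Ucst h c) (UP h τ) (UR N h β h)
  have h1 : sS N h (Fin (h + 2) × ℕ) = US h := by
    funext i x
    exact propext (sS_mk (N := N) (h := h) (US h) (Ucst h c) (UP h τ) (UR N h β h) i x)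
  have h2 : sC N h (Fin (h + 2) × ℕ) = Ucst h c := by
    funext i x
    exact propext (sC_mk (N := N) (h := h) (US h) (Ucst h c) (UP h τ) (UR N h β h) i x)
  show {x : Fin (h + 2) × ℕ | sS N h (Fin (h + 2) × ℕ) 0 x ∧
    ∀ m, ¬ sC N h (Fin (h + 2) × ℕ) m x}.encard = (Set.range c)ᶜ.encard
  rw [h1, h2]
  have hi : Function.Injective (fun n : ℕ => ((0 : Fin (h + 2)), n)) := by
    intro a b hab
    exact congrArg Prod.snd hab
  rw [← hi.encard_image (Set.range c)ᶜ]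
  congr 1
  ext x
  constructor
  · rintro ⟨h3, h4⟩
    refine ⟨x.2, ?_, ?_⟩
    · rintro ⟨m, hm⟩
      exact h4 m ⟨h3, hm.symm⟩
    · exact Pres_ext h3.symm rfl
  · rintro ⟨n, hn, rfl⟩
    refine ⟨rfl, ?_⟩
    rintro m ⟨_, hm⟩
    exact hn ⟨m, hm.symm⟩

end Pool.Agent.H78.UC
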