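import Pool.Agent.H78.UC.Pres

/-!
Project UC, part C: complexity of the presentation.
-/

set_option autoImplicit false

namespace Pool.Agent.H78.UC

open Pool.Agent.H80

variable {N h : ℕ} {T : ℕ → Finset ℕ → Set (List ℕ)} {c : ℕ → ℕ} {τ : ℕ → Set (List ℕ)}
  {β : ℕ → ℕ → ℕ}

theorem PresC_eq {α : Type} [Primcodable α] {f g : α → ℕ} (hf : Computable f)
    (hg : Computable g) : ComputablePred (fun a => f a = g a) :=
  cp_comp (p := fun z : ℕ × ℕ => z.1 = z.2) (PrimrecPred.computablePred Primrec.eq) (hf.pair hg)

/-- the numbering -/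
def PresC_num (h m : ℕ) : Fin (h + 2) × ℕ := (⟨m % (h + 2), Nat.mod_lt _ (by omega)⟩, m / (h + 2))

theorem PresC_num_surj (h : ℕ) : Function.Surjective (PresC_num h) := by
  rintro ⟨⟨i, hi⟩, x⟩
  refine ⟨i + (h + 2) * x, ?_⟩
  unfold PresC_num
  have h1 : (i + (h + 2) * x) % (h + 2) = i := by
    rw [Nat.add_mul_mod_self_left, Nat.mod_eq_of_lt hi]
  have h2 : (i + (h + 2) * x) / (h + 2) = x := by
    rw [Nat.add_mul_div_left _ _ (by omega), Nat.div_eq_of_lt hi, zero_add]
  simp [h1, h2]

theorem PresC_num_eq (h m m' : ℕ) : PresC_num h m = PresC_num h m' ↔ m = m' := by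
  constructor
  · intro e
    unfold PresC_num at e
    rw [Prod.mk.injEq, Fin.mk.injEq] at e
    rw [← Nat.mod_add_div m (h + 2), ← Nat.mod_add_div m' (h + 2), e.1, e.2]
  · rintro rfl
    rfl

theorem PresC_getD (d : ℕ) (l : List ℕ) (t : ℕ) :
    (l.map (fun x => x / (d + 2))).getD t 0 = l.getD t 0 / (d + 2) := by
  rw [List.getD_eq_getElem?_getD, List.getD_eq_getElem?_getD, List.getElem?_map]
  cases l[t]? with
  | none => simp
  | some a => simp

/-- the relation of arity `N + 2 + h` -/
theorem PresC_UR (hβ : ComputablePred (Gr (β h))) : ComputablePred (fun l : List ℕ =>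
    UR N h β h (fun t => PresC_num h (l.getD t.val 0))) := by
  have h1 : ComputablePred (fun l : List ℕ => ∀ t < N + 2 + h,
      (l.getD t 0) % (h + 2) = t - N) := by
    refine cp_forall_lt (p := fun z : List ℕ × ℕ => (z.1.getD z.2 0) % (h + 2) = z.2 - N)
      (f := fun _ => N + 2 + h) (PresC_eq ?_ ?_) (Computable.const _)
    · exact (Primrec.nat_mod.comp ((Primrec.list_getD 0).comp Primrec.fst Primrec.snd)
        (Primrec.const _)).to_comp
    · exact (Primrec.nat_sub.comp Primrec.snd (Primrec.const _)).to_comp
  have h2 : ComputablePred (fun l : List ℕ => Gr (β h) (tc (N + 2 + h)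
      (fun t => (l.map (fun x => x / (h + 2))).getD t.val 0))) := by
    have h3 : Computable (fun l : List ℕ => l.map (fun x => x / (h + 2))) :=
      (Primrec.list_map Primrec.id
        (Primrec.nat_div.comp Primrec.snd (Primrec.const (h + 2))).to₂).to_comp
    exact cp_comp hβ ((tc_comp (N + 2 + h)).comp h3)
  refine (cp_and h1 h2).of_eq fun l => ?_
  unfold UR
  have h4 : (fun t : Fin (N + 2 + h) => (l.map (fun x => x / (h + 2))).getD t.val 0) =
      fun t : Fin (N + 2 + h) => (PresC_num h (l.getD t.val 0)).2 := by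
    funext t
    rw [PresC_getD]
    rfl
  rw [h4]
  refine and_congr_left fun _ => ?_
  constructor
  · intro H t
    exact H t.val t.isLt
  · intro H t ht
    exact H ⟨t, ht⟩

/-- Numbering: `m ↦ (m % (h + 2), m / (h + 2))`.  All relations are computable, except for `UP` which is `Δ⁰ₖ₊₁`. -/
theorem data_presented {k : ℕ} (hc : Computable c)
    (hτ : IsDelta (k + 1) (fun p : ℕ × List ℕ => p.2 ∈ τ p.1)) (hβ : ComputablePred (Gr (β h))) :
    letI := mkU N h (US h) (Ucst h c) (UP h τ) (UR N h β h)
    PresentedIn k (arU N h) (Fin (h + 2) × ℕ) := by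
  refine ⟨PresC_num h, PresC_num_surj h, ?_, ?_⟩
  · have hlen : ComputablePred (fun p : ℕ × List ℕ => p.2.length = arU N h p.1) :=
      PresC_eq (Primrec.list_length.comp Primrec.snd).to_comp
        ((arU_comp N h).comp Computable.fst)
    have hx0 : Computable (fun p : ℕ × List ℕ => p.2.getD 0 0) :=
      ((Primrec.list_getD 0).comp Primrec.snd (Primrec.const 0)).to_comp
    have hm : Computable (fun p : ℕ × List ℕ => p.2.getD 0 0 % (h + 2)) :=
      Primrec.nat_mod.to_comp.comp hx0 (Computable.const (h + 2))
    have hd : Computable (fun p : ℕ × List ℕ => p.2.getD 0 0 / (h + 2)) :=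
      Primrec.nat_div.to_comp.comp hx0 (Computable.const (h + 2))
    have hk : Computable (fun p : ℕ × List ℕ => (p.1 - 1) / 3) :=
      (Primrec.nat_div.comp (Primrec.nat_sub.comp Primrec.fst (Primrec.const 1))
        (Primrec.const 3)).to_comp
    have hk3 : Computable (fun p : ℕ × List ℕ => (p.1 - 1) % 3) :=
      (Primrec.nat_mod.comp (Primrec.nat_sub.comp Primrec.fst (Primrec.const 1))
        (Primrec.const 3)).to_comp
    have e0 : ComputablePred (fun p : ℕ × List ℕ => p.1 = 0) :=
      PresC_eq Computable.fst (Computable.const 0)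
    have e1 : ComputablePred (fun p : ℕ × List ℕ => (p.1 - 1) % 3 = 0) :=
      PresC_eq hk3 (Computable.const 0)
    have e2 : ComputablePred (fun p : ℕ × List ℕ => (p.1 - 1) % 3 = 1) :=
      PresC_eq hk3 (Computable.const 1)
    have hA : ComputablePred (fun p : ℕ × List ℕ =>
        UR N h β h (fun t => PresC_num h (p.2.getD t.val 0))) :=
      cp_comp (p := fun l : List ℕ => UR N h β h (fun t => PresC_num h (l.getD t.val 0)))
        (f := fun p : ℕ × List ℕ => p.2) (PresC_UR (N := N) hβ) Computable.snd
    have hB : ComputablePred (fun p : ℕ × List ℕ => p.2.getD 0 0 % (h + 2) = (p.1 - 1) / 3) :=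
      PresC_eq hm hk
    have hC : ComputablePred (fun p : ℕ × List ℕ => p.2.getD 0 0 % (h + 2) = 0 ∧
        p.2.getD 0 0 / (h + 2) = c ((p.1 - 1) / 3)) :=
      cp_and (PresC_eq hm (Computable.const 0)) (PresC_eq hd (hc.comp hk))
    have hD1 : ComputablePred (fun p : ℕ × List ℕ => p.2.getD 0 0 % (h + 2) = 1) :=
      PresC_eq hm (Computable.const 1)
    have hD2 : IsDelta (k + 1) (fun p : ℕ × List ℕ =>
        dec ((p.1 - 1) / 3) ∈ τ (p.2.getD 0 0 / (h + 2)).unpair.1) := by
      have hf : Computable (fun p : ℕ × List ℕ =>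
          ((p.2.getD 0 0 / (h + 2)).unpair.1, dec ((p.1 - 1) / 3))) :=
        ((Primrec.fst.comp Primrec.unpair).to_comp.comp hd).pair (dec_comp.comp hk)
      exact IsDelta.comp (f := fun p : ℕ × List ℕ =>
          ((p.2.getD 0 0 / (h + 2)).unpair.1, dec ((p.1 - 1) / 3))) hτ hf
    have H := (delta_of_computable hlen (k + 1)).and
      (((delta_of_computable e0 (k + 1)).and (delta_of_computable hA (k + 1))).or
        ((delta_of_computable e0 (k + 1)).not.and
          (((delta_of_computable e1 (k + 1)).and (delta_of_computable hB (k + 1))).or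
            ((delta_of_computable e1 (k + 1)).not.and
              (((delta_of_computable e2 (k + 1)).and (delta_of_computable hC (k + 1))).or
                ((delta_of_computable e2 (k + 1)).not.and
                  ((delta_of_computable hD1 (k + 1)).and hD2)))))))
    refine H.of_eq ?_
    rintro ⟨q, l⟩
    unfold diagRel
    refine and_congr_right fun _ => ?_
    rw [rel_mk]
    rcases q with _ | q
    · simp only [true_and, not_true_eq_false, false_and, or_false]
      exact Iff.rfl
    · simp only [Nat.add_sub_cancel, Nat.succ_ne_zero, false_and, false_or, not_false_eq_true,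
        true_and]
      unfold relU
      by_cases h1 : q % 3 = 0
      · simp only [h1, if_true, true_and, not_true_eq_false, false_and, or_false]
        exact Iff.rfl
      · by_cases h2 : q % 3 = 1
        · simp only [h2, if_true, true_and, not_true_eq_false, false_and, or_false,
            one_ne_zero, if_false, not_false_eq_true, false_or]
          exact Iff.rfl
        · simp only [h1, h2, if_false, false_and, false_or, not_false_eq_true, true_and]
          exact Iff.rfl
  · have h1 : ComputablePred (fun p : ℕ × ℕ => p.1 = p.2) :=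
      PresC_eq Computable.fst Computable.snd
    exact (delta_of_computable h1 (k + 1)).of_eq fun p => (PresC_num_eq h p.1 p.2).symm

end Pool.Agent.H78.UC
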