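import Pool.Agent.H78.UC.SysDef

/-!
Project UC, part A: the points of the system, indexed by decreasing lists of natural numbers.
-/

set_option autoImplicit false

namespace Pool.Agent.H78.UC

open Pool.Agent.H80

/-- The string number `m`. -/
def dec (m : ℕ) : List ℕ := Denumerable.ofNat (List ℕ) m

theorem dec_bij : Function.Bijective dec := by
  exact (Denumerable.eqv (List ℕ)).symm.bijective

theorem dec_comp : Computable dec := by
  refine Computable.encode_iff.1 ?_
  have h : (fun m : ℕ => Encodable.encode (dec m)) = fun m => m := by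
    funext m
    exact Denumerable.encode_ofNat (α := List ℕ) m
  rw [h]
  exact Computable.id

/-- The codes of the elements of the fibre over `σ`. -/
def Fib (S : ℕ → List ℕ → Prop) (l : ℕ) (σ : List ℕ) (m : ℕ) : Prop :=
  S l (dec m) ∧ IsLP (S (l + 1)) σ (dec m)

open Classical in
/-- The element number `k` of the fibre over `σ`. -/
noncomputable def nx (S : ℕ → List ℕ → Prop) (l : ℕ) (σ : List ℕ) (k : ℕ) : List ℕ :=
  dec (Nat.nth (Fib S l σ) k)

open Classical in
/-- The element number `k` of the top tree. -/
noncomputable def tpt (S : ℕ → List ℕ → Prop) (s k : ℕ) : List ℕ :=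
  dec (Nat.nth (fun m => S (s - 1) (dec m)) k)

/-- The point of a decreasing list. -/
noncomputable def pt (s : ℕ) (S : ℕ → List ℕ → Prop) : List ℕ → List ℕ
  | [] => []
  | [m] => tpt S s m
  | m' :: m :: l => nx S (s - (l.length + 2)) (pt s S (m :: l)) (m' - m - 1)

theorem pt_cons_cons (s : ℕ) (S : ℕ → List ℕ → Prop) (m' m : ℕ) (l : List ℕ) :
    pt s S (m' :: m :: l) = nx S (s - (l.length + 2)) (pt s S (m :: l)) (m' - m - 1) := rfl

variable {s : ℕ} {S : ℕ → List ℕ → Prop} {f : ℕ → ℕ}

/-- The fibres are infinite (`SysFrom.inf`). -/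
theorem fib_infinite (h : SysFrom 0 s S f) {l : ℕ} (hl : l + 1 < s) {σ : List ℕ}
    (hσ : S (l + 1) σ) : {m | Fib S l σ m}.Infinite := by
  have hinj : ∀ (b : ℕ), ∃ m, dec m = σ ++ [b] := fun b => dec_bij.2 _
  choose g hg using hinj
  have hginj : Function.Injective g := by
    intro a b hab
    have h1 : σ ++ [a] = σ ++ [b] := by rw [← hg a, ← hg b, hab]
    have h2 := List.append_cancel_left h1
    simpa using h2
  have hB : {b | S l (σ ++ [b]) ∧ ¬ S (l + 1) (σ ++ [b])}.Infinite := by
    refine Set.infinite_of_forall_exists_gt ?_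
    intro B
    obtain ⟨b, hb, h1, h2⟩ := h.inf l (Nat.zero_le l) hl σ hσ (B + 1)
    exact ⟨b, ⟨h1, h2⟩, by omega⟩
  refine (hB.image (hginj.injOn)).mono ?_
  rintro m ⟨b, ⟨h1, h2⟩, rfl⟩
  show Fib S l σ (g b)
  unfold Fib
  rw [hg b]
  refine ⟨h1, hσ, List.prefix_append _ _, ?_⟩
  intro τ hτ hpre
  rcases List.prefix_concat_iff.1 hpre with h3 | h3
  · rw [h3] at hτ
    exact absurd hτ h2
  · exact h3

theorem top_infinite (h : SysFrom 0 s S f) : {m | S (s - 1) (dec m)}.Infinite := by
  have hinj : ∀ (n : ℕ), ∃ m, dec m = pre f n := fun b => dec_bij.2 _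
  choose g hg using hinj
  have hginj : Function.Injective g := by
    intro a b hab
    have h1 : pre f a = pre f b := by rw [← hg a, ← hg b, hab]
    have h2 := congrArg List.length h1
    rwa [pre_length, pre_length] at h2
  refine (Set.infinite_range_of_injective hginj).mono ?_
  rintro m ⟨n, rfl⟩
  show S (s - 1) (dec (g n))
  rw [hg n]
  exact h.path n

private theorem Pt_step (h : SysFrom 0 s S f) {m' m : ℕ} {l : List ℕ} (hs : l.length + 2 ≤ s)
    (hm : S (s - (l.length + 1)) (pt s S (m :: l))) :
    S (s - (l.length + 2)) (pt s S (m' :: m :: l)) ∧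
      IsLP (S (s - (l.length + 1))) (pt s S (m :: l)) (pt s S (m' :: m :: l)) := by
  have h1 : s - (l.length + 2) + 1 = s - (l.length + 1) := by omega
  have h2 : s - (l.length + 2) + 1 < s := by omega
  have h3 := fib_infinite h h2 (σ := pt s S (m :: l)) (by rw [h1]; exact hm)
  have h4 : Fib S (s - (l.length + 2)) (pt s S (m :: l))
      (Nat.nth (Fib S (s - (l.length + 2)) (pt s S (m :: l))) (m' - m - 1)) :=
    Nat.nth_mem_of_infinite h3 _
  rw [pt_cons_cons]
  unfold nx
  refine ⟨h4.1, ?_⟩
  rw [← h1]
  exact h4.2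

/-- Induction on the list (`Nat.nth_mem_of_infinite`). -/
theorem pt_mem (h : SysFrom 0 s S f) {l : List ℕ} (hl : l ≠ []) (hs : l.length ≤ s) :
    S (s - l.length) (pt s S l) := by
  induction l with
  | nil => exact absurd rfl hl
  | cons m' l ih =>
    cases l with
    | nil =>
      have h1 : S (s - 1) (dec (Nat.nth (fun m => S (s - 1) (dec m)) m')) :=
        Nat.nth_mem_of_infinite (top_infinite h) m'
      exact h1
    | cons m l =>
      have hs' : l.length + 2 ≤ s := by
        simp only [List.length_cons] at hs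
        omega
      have h1 : S (s - (l.length + 1)) (pt s S (m :: l)) := by
        have := ih (List.cons_ne_nil _ _) (by simp only [List.length_cons]; omega)
        simpa using this
      have h2 := (Pt_step h (m' := m') hs' h1).1
      simpa using h2

theorem pt_isLP (h : SysFrom 0 s S f) {m' m : ℕ} {l : List ℕ} (hs : l.length + 2 ≤ s) :
    IsLP (S (s - (l.length + 1))) (pt s S (m :: l)) (pt s S (m' :: m :: l)) := by
  have h1 : S (s - (l.length + 1)) (pt s S (m :: l)) := by
    have := pt_mem h (l := m :: l) (List.cons_ne_nil _ _)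
      (by simp only [List.length_cons]; omega)
    simpa using this
  exact (Pt_step h (m' := m') hs h1).2

theorem pt_prefix (h : SysFrom 0 s S f) {l' l : List ℕ} (hl : l ≠ [])
    (hs : (l' ++ l).length ≤ s) : pt s S l <+: pt s S (l' ++ l) := by
  induction l' with
  | nil => exact List.prefix_rfl
  | cons a l' ih =>
    have hs1 : (l' ++ l).length + 1 ≤ s := by
      simpa using hs
    have h1 := ih (by omega)
    refine h1.trans ?_
    rw [List.cons_append]
    cases hll : l' ++ l with
    | nil =>
      exfalso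
      have := List.append_eq_nil_iff.1 hll
      exact hl this.2
    | cons m r =>
      rw [hll] at hs1
      have h2 := pt_isLP h (m' := a) (m := m) (l := r) (by
        simp only [List.length_cons] at hs1
        omega)
      exact h2.2.1

/-- All `pt s S l`, `l ≠ []`, are in `S 0`. -/
theorem pt_mem_zero (h : SysFrom 0 s S f) {l : List ℕ} (hl : l ≠ []) (hs : l.length ≤ s) :
    S 0 (pt s S l) := by
  have h1 := pt_mem h hl hs
  have hlen : 1 ≤ l.length := List.length_pos_iff.2 hl
  have key : ∀ n, n < s → ∀ σ, S n σ → S 0 σ := by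
    intro n
    induction n with
    | zero => intro _ σ hσ; exact hσ
    | succ n ih =>
      intro hn σ hσ
      exact ih (by omega) σ (h.sub n (Nat.zero_le n) hn σ hσ)
  exact key (s - l.length) (by omega) _ h1

/-- `w` is an initial segment of the point `l` (for `l = []` this point is `f`). -/
def Ini (s : ℕ) (S : ℕ → List ℕ → Prop) (f : ℕ → ℕ) (l w : List ℕ) : Prop :=
  (l = [] ∧ w = pre f w.length) ∨ (l ≠ [] ∧ w <+: pt s S l)

end Pool.Agent.H78.UC
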