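import Pool.Agent.H78.UC.Pt

/-!
Project UC, part A: convergence of the points.
-/

set_option autoImplicit false

namespace Pool.Agent.H78.UC

open Pool.Agent.H80

variable {s : ℕ} {S : ℕ → List ℕ → Prop} {f : ℕ → ℕ}

theorem PtConv_ev {p : ℕ → Prop} (hinf : {m | p m}.Infinite) {F : Set (List ℕ)} (hF : F.Finite) :
    ∃ r, ∀ k, r ≤ k → dec (Nat.nth p k) ∉ F := by
  have hinj : Function.Injective (fun k => dec (Nat.nth p k)) :=
    dec_bij.1.comp (Nat.nth_injective hinf)
  have h1 : {k | dec (Nat.nth p k) ∈ F}.Finite := hF.preimage hinj.injOn
  obtain ⟨r, hr⟩ := h1.bddAbove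
  refine ⟨r + 1, fun k hk hmem => ?_⟩
  have := hr hmem
  omega

/-- Convergence.  For `l ≠ []`, `σ = pt s S l`: the element number `k` of the fibre over `σ` is for all but finitely many
`k` different from `σ` and its entry after `σ` is larger than all the entries of `w` (`SysFrom.fin`, the numbering
is injective); all the points of the lists `l' ++ m' :: l` extend this element (`pt_prefix`).
For `l = []` use `SysFrom.conv` with `n = |w|`. -/
theorem pt_conv (h : SysFrom 0 s S f) (l w : List ℕ) : ∃ r, ∀ (l' : List ℕ) (m' : ℕ), r ≤ m' →
    (l' ++ m' :: l).Pairwise (· > ·) → (l' ++ m' :: l).length ≤ s →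
      (Ini s S f (l' ++ m' :: l) w ↔ Ini s S f l w) := by
  cases l with
  | nil =>
    obtain ⟨r, hr⟩ := PtConv_ev (top_infinite h) (h.conv w.length)
    refine ⟨r, fun l' m' hm hpw hlen => ?_⟩
    have hs : 1 ≤ s := by
      simp only [List.length_append, List.length_cons, List.length_nil] at hlen
      omega
    have h1 := hr m' hm
    have hmem : S (s - 1) (pt s S [m']) :=
      pt_mem h (l := [m']) (by simp) (by simpa using hs)
    have h2 : pre f w.length <+: pt s S [m'] := by
      by_contra hne
      exact h1 ⟨hmem, hne⟩
    have h3 : pre f w.length <+: pt s S (l' ++ [m']) :=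
      h2.trans (pt_prefix h (by simp) hlen)
    unfold Ini
    constructor
    · rintro (⟨h4, -⟩ | ⟨-, h4⟩)
      · simp at h4
      · refine Or.inl ⟨rfl, ?_⟩
        have h5 := List.prefix_of_prefix_length_le h4 h3 (by rw [pre_length])
        exact h5.eq_of_length (by rw [pre_length])
    · rintro (⟨-, h4⟩ | ⟨h4, -⟩)
      · refine Or.inr ⟨by simp, ?_⟩
        rw [h4]
        exact h3
      · exact absurd rfl h4
  | cons m l =>
    by_cases hs : l.length + 2 ≤ s
    · have hσ : S (s - (l.length + 2) + 1) (pt s S (m :: l)) := by
        have h1 := pt_mem h (l := m :: l) (by simp) (by simp only [List.length_cons]; omega)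
        rw [List.length_cons] at h1
        have h2 : s - (l.length + 2) + 1 = s - (l.length + 1) := by omega
        rw [h2]
        exact h1
      have hinf := fib_infinite h (l := s - (l.length + 2)) (by omega) hσ
      have hfin := h.fin (s - (l.length + 2)) (by omega) (by omega) (pt s S (m :: l)) hσ
        (w.getD (pt s S (m :: l)).length 0 + 1)
      obtain ⟨r, hr⟩ := PtConv_ev hinf (hfin.union (Set.finite_singleton (pt s S (m :: l))))
      refine ⟨r + m + 1, fun l' m' hm hpw hlen => ?_⟩
      have hsub : (m' :: m :: l).Sublist (l' ++ m' :: m :: l) := List.sublist_append_right _ _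
      have hlen2 : (l' ++ m' :: m :: l).length = l'.length + (l.length + 2) := by
        simp
      have hu := hr (m' - m - 1) (by omega)
      have huu : dec (Nat.nth (Fib S (s - (l.length + 2)) (pt s S (m :: l))) (m' - m - 1))
          = pt s S (m' :: m :: l) := rfl
      rw [huu] at hu
      have hmem : S (s - (l.length + 2)) (pt s S (m' :: m :: l)) := by
        have h1 := pt_mem h (l := m' :: m :: l) (by simp)
          (by simp only [List.length_cons]; omega)
        rw [List.length_cons, List.length_cons] at h1
        exact h1
      have hlp : IsLP (S (s - (l.length + 2) + 1)) (pt s S (m :: l)) (pt s S (m' :: m :: l)) := by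
        have h1 := pt_isLP h (m' := m') (m := m) (l := l) hs
        have h2 : s - (l.length + 2) + 1 = s - (l.length + 1) := by omega
        rw [h2]
        exact h1
      have hpre : pt s S (m' :: m :: l) <+: pt s S (l' ++ m' :: m :: l) :=
        pt_prefix h (by simp) hlen
      unfold Ini
      constructor
      · rintro (⟨h4, -⟩ | ⟨-, h4⟩)
        · simp at h4
        · refine Or.inr ⟨by simp, ?_⟩
          by_cases hle : w.length ≤ (pt s S (m :: l)).length
          · exact List.prefix_of_prefix_length_le h4 (hlp.2.1.trans hpre) hle
          · exfalso
            push Not at hle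
            apply hu
            by_cases heq : pt s S (m' :: m :: l) = pt s S (m :: l)
            · exact Or.inr heq
            · left
              refine ⟨hmem, hlp, ?_⟩
              obtain ⟨t, ht⟩ := hlp.2.1
              cases t with
              | nil =>
                rw [List.append_nil] at ht
                exact absurd ht.symm heq
              | cons b t =>
                refine ⟨b, ?_, ⟨t, by rw [← ht]; simp⟩⟩
                have h5 : pt s S (m :: l) ++ [b] <+: pt s S (l' ++ m' :: m :: l) :=
                  (show pt s S (m :: l) ++ [b] <+: pt s S (m' :: m :: l) from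
                    ⟨t, by rw [← ht]; simp⟩).trans hpre
                have h6 : pt s S (m :: l) ++ [b] <+: w :=
                  List.prefix_of_prefix_length_le h5 h4 (by
                    rw [List.length_append, List.length_singleton]
                    omega)
                obtain ⟨t', ht'⟩ := h6
                have h7 : w.getD (pt s S (m :: l)).length 0 = b := by
                  rw [← ht']
                  simp
                rw [h7]
                exact Nat.lt_succ_self b
      · rintro (⟨h4, -⟩ | ⟨-, h4⟩)
        · simp at h4
        · exact Or.inr ⟨by simp, h4.trans (hlp.2.1.trans hpre)⟩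
    · refine ⟨0, fun l' m' hm hpw hlen => ?_⟩
      exfalso
      apply hs
      simp only [List.length_append, List.length_cons] at hlen
      omega

end Pool.Agent.H78.UC
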