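import Pool.Agent.H78.UC.Str
import Pool.Agent.H78.UC.ArX

/-!
Project UC, part A: the pull-down lemma.  `S` is a tree with unique witnesses: `S σ ↔ ∃ c, ∀ b, R ((σ, c), b)`.
The string `σ` in `S` gets the stamps `stp R (σ|(j+1))`; the strings with the right stamps form the tree
`im (stp R) S`; the tree `LT R` consists of the strings of pairs whose initial segments are not yet refuted.
-/

set_option autoImplicit false

namespace Pool.Agent.H78.UC

open Pool.Agent.H80

open Classical in
/-- The stamp of `σ`. -/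
noncomputable def stp (R : (List ℕ × ℕ) × ℕ → Prop) (σ : List ℕ) : ℕ :=
  if h : ∃ c, ∀ b, R ((σ, c), b) then Classical.choose h else 0

/-- `w` is in `LT R` if for each `j < |w|` the entry `w_j` is at least `j` and at the stage `w_j` no stamp of
`w|j` is refuted. -/
def LT (R : (List ℕ × ℕ) × ℕ → Prop) (w : List ℕ) : Prop :=
  ∀ j < w.length, j ≤ w.getD j 0 ∧
    ∀ i < j, ∀ b < w.getD j 0, R (((fs w).take (i + 1), (w.getD i 0).unpair.2), b)

/-- The hypotheses. -/
structure Wit (S : List ℕ → Prop) (R : (List ℕ × ℕ) × ℕ → Prop) : Prop where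
  tree : IsTree S
  iff : ∀ σ, S σ ↔ ∃ c, ∀ b, R ((σ, c), b)
  uniq : ∀ σ c c', (∀ b, R ((σ, c), b)) → (∀ b, R ((σ, c'), b)) → c = c'
  le : ∀ σ c b, R ((σ, c), b) → σ.length ≤ c

variable {S : List ℕ → Prop} {R : (List ℕ × ℕ) × ℕ → Prop}

theorem stp_spec (h : Wit S R) {σ : List ℕ} (hσ : S σ) (b : ℕ) : R ((σ, stp R σ), b) := by
  have h1 := (h.iff σ).1 hσ
  unfold stp
  rw [dif_pos h1]
  exact Classical.choose_spec h1 b

theorem stp_unique (h : Wit S R) {σ : List ℕ} {c : ℕ} (hc : ∀ b, R ((σ, c), b)) :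
    c = stp R σ :=
  h.uniq σ c (stp R σ) hc (fun b => stp_spec h ((h.iff σ).2 ⟨c, hc⟩) b)

private theorem Pull_rc_getD (c : List ℕ → ℕ) (σ : List ℕ) {j : ℕ} (hj : j < σ.length) :
    (rc c σ).getD j 0 = Nat.pair (σ.getD j 0) (c (σ.take (j + 1))) := by
  unfold rc
  rw [List.getD_eq_getElem?_getD, List.getElem?_map, List.getElem?_range hj]
  rfl

private theorem Pull_fs_getD (w : List ℕ) (j : ℕ) : (fs w).getD j 0 = (w.getD j 0).unpair.1 := by
  unfold fs
  rw [List.getD_eq_getElem?_getD, List.getD_eq_getElem?_getD, List.getElem?_map]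
  cases w[j]? with
  | none => simp
  | some x => rfl

private theorem Pull_fs_length (w : List ℕ) : (fs w).length = w.length := by
  unfold fs
  rw [List.length_map]

private theorem Pull_getD_append {w : List ℕ} (t : List ℕ) {j : ℕ} (hj : j < w.length) :
    (w ++ t).getD j 0 = w.getD j 0 := by
  rw [List.getD_eq_getElem?_getD, List.getD_eq_getElem?_getD, List.getElem?_append_left hj]

private theorem Pull_getD_last (w : List ℕ) (b : ℕ) : (w ++ [b]).getD w.length 0 = b := by
  rw [List.getD_eq_getElem?_getD, List.getElem?_append_right le_rfl, Nat.sub_self]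
  rfl

private theorem Pull_fs_append (w t : List ℕ) : fs (w ++ t) = fs w ++ fs t := by
  unfold fs
  rw [List.map_append]

private theorem Pull_take_append {w t : List ℕ} {i : ℕ} (hi : i < w.length) :
    (fs (w ++ t)).take (i + 1) = (fs w).take (i + 1) := by
  rw [Pull_fs_append, List.take_append_of_le_length (by rw [Pull_fs_length]; omega)]

theorem im_stp_iff (h : Wit S R) (w : List ℕ) : im (stp R) S w ↔
    ∀ j < w.length, ∀ b, R (((fs w).take (j + 1), (w.getD j 0).unpair.2), b) := by
  constructor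
  · rintro ⟨σ, hσ, rfl⟩ j hj b
    rw [rc_length] at hj
    rw [fs_rc, Pull_rc_getD _ _ hj, Nat.unpair_pair]
    exact stp_spec h (h.tree.mono _ _ (List.take_prefix _ _) hσ) b
  · intro hw
    refine ⟨fs w, ?_, ?_⟩
    · rcases Nat.eq_zero_or_pos w.length with h0 | h0
      · rw [List.length_eq_zero_iff.1 h0]
        exact h.tree.nil
      · rw [h.iff]
        refine ⟨(w.getD (w.length - 1) 0).unpair.2, fun b => ?_⟩
        have h1 := hw (w.length - 1) (by omega) b
        rwa [Nat.sub_add_cancel h0, ← Pull_fs_length w, List.take_length, Pull_fs_length w] at h1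
    · refine List.ext_getElem? fun j => ?_
      by_cases hj : j < w.length
      · have hj1 : j < (fs w).length := by rwa [Pull_fs_length]
        have hj2 : j < (rc (stp R) (fs w)).length := by rwa [rc_length]
        have h1 : (rc (stp R) (fs w)).getD j 0 = w.getD j 0 := by
          rw [Pull_rc_getD _ _ hj1, Pull_fs_getD, ← stp_unique h (hw j hj), Nat.pair_unpair]
        rw [List.getD_eq_getElem _ _ hj2, List.getD_eq_getElem _ _ hj] at h1
        rw [List.getElem?_eq_getElem hj2, List.getElem?_eq_getElem hj, h1]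
      · rw [List.getElem?_eq_none (by rw [rc_length, Pull_fs_length]; omega),
          List.getElem?_eq_none (by omega)]

theorem LT_tree (R : (List ℕ × ℕ) × ℕ → Prop) : IsTree (LT R) := by
  refine ⟨fun j hj => absurd hj (Nat.not_lt_zero j), ?_⟩
  rintro σ τ ⟨t, rfl⟩ hτ j hj
  have hj2 : j < (σ ++ t).length := by
    rw [List.length_append]
    omega
  have h1 := hτ j hj2
  rw [Pull_getD_append t hj] at h1
  refine ⟨h1.1, fun i hi b hb => ?_⟩
  have h2 := h1.2 i hi b hb
  rwa [Pull_take_append (by omega), Pull_getD_append t (by omega)] at h2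

/-- Entries with right stamps are `Nat.pair a c ≥ c ≥ j + 1` (`Wit.le`). -/
theorem LT_of_im (h : Wit S R) {w : List ℕ} (hw : im (stp R) S w) : LT R w := by
  have hw' := (im_stp_iff h w).1 hw
  intro j hj
  refine ⟨?_, fun i hi b _ => hw' i (by omega) b⟩
  have h1 := h.le _ _ _ (hw' j hj 0)
  rw [List.length_take, Pull_fs_length, Nat.min_eq_left (by omega)] at h1
  have h2 := Nat.unpair_right_le (w.getD j 0)
  omega

/-- For `b < B` with `rc σ ++ [b]` an initial segment of such a `u`, the string `rc σ ++ [b]` is not in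
`im (stp R) S`, so its last stamp is refuted by some `t` (`im_stp_iff`); then all later entries of `u` are at most
`t` (definition of `LT`, with `i = |σ|`), hence also `|u| ≤ |σ| + 1 + (t + 1)`; `finite_bounded`. -/
theorem LT_fin (h : Wit S R) {σ : List ℕ} (hσ : S σ) (B : ℕ) :
    {u | LT R u ∧ IsLP (im (stp R) S) (rc (stp R) σ) u ∧
      ∃ b < B, rc (stp R) σ ++ [b] <+: u}.Finite := by
  have key : ∀ b : ℕ, {u | LT R u ∧ IsLP (im (stp R) S) (rc (stp R) σ) u ∧
      rc (stp R) σ ++ [b] <+: u}.Finite := by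
    intro b
    by_cases hne : ∃ u, LT R u ∧ IsLP (im (stp R) S) (rc (stp R) σ) u ∧
      rc (stp R) σ ++ [b] <+: u
    · obtain ⟨u0, _, h2, h3⟩ := hne
      have hnot : ¬ im (stp R) S (rc (stp R) σ ++ [b]) := by
        intro h4
        have h5 := (h2.2.2 _ h4 h3).length_le
        rw [List.length_append] at h5
        simp only [List.length_cons, List.length_nil] at h5
        omega
      rw [im_stp_iff h] at hnot
      push Not at hnot
      obtain ⟨j, hj, t, ht⟩ := hnot
      obtain ⟨w, hw⟩ : ∃ w, w = rc (stp R) σ ++ [b] := ⟨_, rfl⟩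
      rw [← hw] at hj ht
      refine (finite_bounded (w.length + t + 1) (w.sum + t)).subset ?_
      rintro u ⟨hu1, _, hu3⟩
      rw [← hw] at hu3
      obtain ⟨v, rfl⟩ := hu3
      have hbound : ∀ j', w.length ≤ j' → j' < (w ++ v).length → (w ++ v).getD j' 0 ≤ t := by
        intro j' h1 h2
        by_contra hcon
        push Not at hcon
        have h3 := (hu1 j' h2).2 j (by omega) t hcon
        rw [Pull_take_append hj, Pull_getD_append v hj] at h3
        exact ht h3
      constructor
      · by_contra hcon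
        push Not at hcon
        have h1 := hbound (w.length + t + 1) (by omega) hcon
        have h2 := (hu1 (w.length + t + 1) hcon).1
        omega
      · intro x hx
        rw [List.mem_iff_getElem] at hx
        obtain ⟨j', hj', rfl⟩ := hx
        rw [← List.getD_eq_getElem _ 0 hj']
        by_cases h1 : j' < w.length
        · rw [Pull_getD_append v h1, List.getD_eq_getElem _ 0 h1]
          have h2 := List.le_sum_of_mem (List.getElem_mem h1)
          omega
        · have h2 := hbound j' (by omega) hj'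
          omega
    · convert Set.finite_empty
      ext u
      simp only [Set.mem_setOf_eq, Set.mem_empty_iff_false, iff_false]
      exact fun h => hne ⟨u, h⟩
  have h1 : (⋃ b ∈ Finset.range B, {u | LT R u ∧ IsLP (im (stp R) S) (rc (stp R) σ) u ∧
      rc (stp R) σ ++ [b] <+: u}).Finite :=
    Set.Finite.biUnion (Finset.finite_toSet (Finset.range B)) fun b _ => key b
  refine h1.subset ?_
  rintro u ⟨hu1, hu2, b, hb, hu3⟩
  simp only [Set.mem_iUnion, Set.mem_setOf_eq]
  exact ⟨b, Finset.mem_range.2 hb, hu1, hu2, hu3⟩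

/-- `b = Nat.pair 0 c` with `c ≥ B, |σ|` and `c ≠ stp R (σ ++ [0])`. -/
theorem LT_inf (h : Wit S R) {σ : List ℕ} (hσ : S σ) (B : ℕ) :
    ∃ b ≥ B, LT R (rc (stp R) σ ++ [b]) ∧ ¬ im (stp R) S (rc (stp R) σ ++ [b]) := by
  obtain ⟨c, hc1, hc2, hc3⟩ : ∃ c, B ≤ c ∧ σ.length ≤ c ∧ c ≠ stp R (σ ++ [0]) :=
    ⟨B + σ.length + stp R (σ ++ [0]) + 1, by omega, by omega, by omega⟩
  have hcb : c ≤ Nat.pair 0 c := Nat.right_le_pair 0 c
  have him : im (stp R) S (rc (stp R) σ) := ⟨σ, hσ, rfl⟩
  have him' := (im_stp_iff h _).1 him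
  have hLT := LT_of_im h him
  refine ⟨Nat.pair 0 c, by omega, ?_, ?_⟩
  · intro j hj
    rw [List.length_append] at hj
    simp only [List.length_cons, List.length_nil] at hj
    by_cases h1 : j < (rc (stp R) σ).length
    · have h2 := hLT j h1
      rw [Pull_getD_append _ h1]
      refine ⟨h2.1, fun i hi b hb => ?_⟩
      rw [Pull_take_append (by omega), Pull_getD_append _ (by omega)]
      exact h2.2 i hi b hb
    · have h2 : j = (rc (stp R) σ).length := by omega
      subst h2
      rw [Pull_getD_last]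
      refine ⟨by rw [rc_length]; omega, fun i hi b hb => ?_⟩
      rw [Pull_take_append hi, Pull_getD_append _ hi]
      exact him' i hi b
  · intro hcon
    have h1 := (im_stp_iff h _).1 hcon (rc (stp R) σ).length (by
      rw [List.length_append]
      simp)
    rw [Pull_getD_last, Nat.unpair_pair, Pull_fs_append, fs_rc, rc_length] at h1
    have h2 : fs [Nat.pair 0 c] = [0] := by
      unfold fs
      simp
    rw [h2] at h1
    have h3 : (σ ++ [0]).take (σ.length + 1) = σ ++ [0] := by
      apply List.take_of_length_le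
      rw [List.length_append]
      simp
    rw [h3] at h1
    exact hc3 (stp_unique h h1)

private theorem Pull_comp1 {α : Type} [Primcodable α] {f : α → List ℕ} {g : α → ℕ}
    (hf : Primrec f) (hg : Primrec g) : Primrec (fun a => (f a).getD (g a) 0) :=
  (Primrec.list_getD 0).comp hf hg

private theorem Pull_comp2 {α : Type} [Primcodable α] {f : α → List ℕ} {g : α → ℕ}
    (hf : Primrec f) (hg : Primrec g) : Primrec (fun a => (fs (f a)).take (g a + 1)) := by
  have h1 : Primrec fs :=
    Primrec.list_map Primrec.id (Primrec.fst.comp (Primrec.unpair.comp Primrec.snd)).to₂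
  exact Primrec.list_take.comp (Primrec.succ.comp hg) (h1.comp hf)

private theorem Pull_comp3 {α : Type} [Primcodable α] {f : α → List ℕ} {g : α → ℕ}
    (hf : Primrec f) (hg : Primrec g) :
    Primrec (fun a => ((fs (f a)).take (g a + 1), ((f a).getD (g a) 0).unpair.2)) :=
  (Pull_comp2 hf hg).pair (Primrec.snd.comp (Primrec.unpair.comp (Pull_comp1 hf hg)))

theorem LT_delta {n : ℕ} (hR : IsDelta n R) : IsDelta n (LT R) := by
  have h1 : IsDelta n (fun z : ((List ℕ × ℕ) × ℕ) × ℕ =>
      R (((fs z.1.1.1).take (z.1.2 + 1), (z.1.1.1.getD z.1.2 0).unpair.2), z.2)) := by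
    refine hR.comp (f := fun z : ((List ℕ × ℕ) × ℕ) × ℕ =>
      (((fs z.1.1.1).take (z.1.2 + 1), (z.1.1.1.getD z.1.2 0).unpair.2), z.2)) ?_
    exact ((Pull_comp3 (Primrec.fst.comp (Primrec.fst.comp Primrec.fst))
      (Primrec.snd.comp Primrec.fst)).pair Primrec.snd).to_comp
  have h2 : IsDelta n (fun z : (List ℕ × ℕ) × ℕ => ∀ b < z.1.1.getD z.1.2 0,
      R (((fs z.1.1).take (z.2 + 1), (z.1.1.getD z.2 0).unpair.2), b)) :=
    h1.ball (f := fun z : (List ℕ × ℕ) × ℕ => z.1.1.getD z.1.2 0)
      (Pull_comp1 (Primrec.fst.comp Primrec.fst) (Primrec.snd.comp Primrec.fst)).to_comp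
  have h3 : IsDelta n (fun z : List ℕ × ℕ => ∀ i < z.2, ∀ b < z.1.getD z.2 0,
      R (((fs z.1).take (i + 1), (z.1.getD i 0).unpair.2), b)) :=
    h2.ball (f := fun z : List ℕ × ℕ => z.2) Primrec.snd.to_comp
  have h4 : IsDelta n (fun z : List ℕ × ℕ => z.2 ≤ z.1.getD z.2 0) := by
    have h5 : PrimrecRel (fun a b : ℕ => a ≤ b) := Primrec.nat_le
    have h6 : PrimrecPred (fun z : List ℕ × ℕ => z.2 ≤ z.1.getD z.2 0) :=
      h5.comp Primrec.snd (Pull_comp1 Primrec.fst Primrec.snd)
    exact delta_of_computable h6.computablePred n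
  have h5 := (h4.and h3).ball (f := fun w : List ℕ => w.length) Primrec.list_length.to_comp
  exact h5.of_eq fun w => Iff.rfl

theorem im_pi {n : ℕ} (h : Wit S R) (hR : IsPi n (fun z : List ℕ × ℕ => ∀ b, R (z, b))) :
    IsPi n (im (stp R) S) := by
  have h1 : IsPi n (fun z : List ℕ × ℕ => ∀ b,
      R (((fs z.1).take (z.2 + 1), (z.1.getD z.2 0).unpair.2), b)) :=
    IsPi.comp (f := fun z : List ℕ × ℕ => ((fs z.1).take (z.2 + 1), (z.1.getD z.2 0).unpair.2))
      hR (Pull_comp3 Primrec.fst Primrec.snd).to_comp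
  have h2 := IsPi.ball (f := fun w : List ℕ => w.length) h1 Primrec.list_length.to_comp
  exact IsPi.of_eq h2 fun w => (im_stp_iff h w).symm

end Pool.Agent.H78.UC
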