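import Pool.Agent.H78.UC.FO
import Pool.Agent.H78.UC.Cls

/-!
Project UC, part B: the relations `R i` are definable.
-/

set_option autoImplicit false

namespace Pool.Agent.H78.UC

open FirstOrder Cardinal

/-- The relation `R i` defined from `sQ`, by recursion on `k = h - i`. -/
def Rf (N h : ℕ) : ∀ (k i : ℕ), i + k = h → ∀ (M : Type) [(RL (arU N h)).Structure M],
    (Fin (N + 2 + i) → M) → Prop
  | 0, i, hi, M, _, z => sQ N h M (fun t => z (Fin.cast (by omega) t))
  | k + 1, i, hi, M, _, z => Zs N (sS N h M) z ∧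
      ¬ ∃ w : M, Rf N h k (i + 1) (by omega) M (Fin.snoc (α := fun _ => M) z w)

theorem isFO_Zs (N h n : ℕ) : IsFO (RL (arU N h)) (n := n) (fun M _ z => Zs N (sS N h M) z) :=
  isFO_of_data (ι := Fin n) (fun t M _ z => sS N h M (t.val - N) (z t))
    (fun t => isFO_rel (ar := arU N h) (3 * (t.val - N) + 1) (fun _ => t)) (fun p => ∀ t, p t)

theorem isFO_Rf (N h k i : ℕ) (hi : i + k = h) :
    IsFO (RL (arU N h)) (n := N + 2 + i) (fun M _ z => Rf N h k i hi M z) := by
  induction k generalizing i with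
  | zero =>
    exact isFO_rel (ar := arU N h) 0
      (fun t : Fin (N + 2 + h) => (Fin.cast (by omega) t : Fin (N + 2 + i)))
  | succ k ih =>
    exact (isFO_Zs N h (N + 2 + i)).and (ih (i + 1) (by omega)).ex.not

/-- In a structure of the class the relations `R i` are the ones defined by `Rf`. -/
theorem Rf_eq {N h : ℕ} {T : ℕ → Finset ℕ → Set (List ℕ)} {M : Type}
    [(RL (arU N h)).Structure M] {R : ∀ i, (Fin (N + 2 + i) → M) → Prop}
    (hR : IsUC N h T (sS N h M) (sC N h M) (sP N h M) R) (hQ : ∀ z, R h z ↔ sQ N h M z)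
    (k i : ℕ) (hi : i + k = h) (z : Fin (N + 2 + i) → M) : Rf N h k i hi M z ↔ R i z := by
  induction k generalizing i with
  | zero =>
    obtain rfl : i = h := by omega
    exact (hQ z).symm
  | succ k ih =>
    rw [hR.step_iff i (by omega) z]
    show (Zs N (sS N h M) z ∧ ¬ ∃ w : M, Rf N h k (i + 1) (by omega) M
      (Fin.snoc (α := fun _ => M) z w)) ↔ _
    refine and_congr_right fun _ => not_congr (exists_congr fun w => ?_)
    exact ih (i + 1) (by omega) _

/-- Elementary embeddings preserve the relations `R i` (`isFO_Rf`, `Rf_eq`, `IsFO.elem`). -/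
theorem R_elem {N h : ℕ} {T : ℕ → Finset ℕ → Set (List ℕ)} {M M' : Type}
    [(RL (arU N h)).Structure M] [(RL (arU N h)).Structure M']
    {R : ∀ i, (Fin (N + 2 + i) → M) → Prop} {R' : ∀ i, (Fin (N + 2 + i) → M') → Prop}
    (hR : IsUC N h T (sS N h M) (sC N h M) (sP N h M) R) (hQ : ∀ z, R h z ↔ sQ N h M z)
    (hR' : IsUC N h T (sS N h M') (sC N h M') (sP N h M') R')
    (hQ' : ∀ z, R' h z ↔ sQ N h M' z) (f : M ↪ₑ[RL (arU N h)] M') (i : ℕ) (hi : i ≤ h)
    (z : Fin (N + 2 + i) → M) : R' i (f ∘ z) ↔ R i z := by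
  rw [← Rf_eq hR hQ (h - i) i (by omega) z, ← Rf_eq hR' hQ' (h - i) i (by omega) (f ∘ z)]
  exact (isFO_Rf N h (h - i) i (by omega)).elem f z

end Pool.Agent.H78.UC
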