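import Mathlib

/-!
Project UC, part A: strings, trees, recoding with stamps.
-/

set_option autoImplicit false

namespace Pool.Agent.H78.UC

/-- The initial segment of length `n` of `f`. -/
def pre (f : ℕ → ℕ) (n : ℕ) : List ℕ := (List.range n).map f

theorem pre_length (f : ℕ → ℕ) (n : ℕ) : (pre f n).length = n := by simp [pre]

theorem pre_succ (f : ℕ → ℕ) (n : ℕ) : pre f (n + 1) = pre f n ++ [f n] := by
  simp [pre, List.range_succ]

theorem Str_take_pre (f : ℕ → ℕ) (n m : ℕ) (h : m ≤ n) : (pre f n).take m = pre f m := by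
  unfold pre
  rw [← List.map_take, List.take_range, min_eq_left h]

theorem prefix_pre_iff {f : ℕ → ℕ} {n : ℕ} {w : List ℕ} :
    w <+: pre f n ↔ w.length ≤ n ∧ w = pre f w.length := by
  constructor
  · intro h
    have hl : w.length ≤ n := by simpa [pre_length] using h.length_le
    refine ⟨hl, ?_⟩
    have := List.prefix_iff_eq_take.1 h
    rw [Str_take_pre f n _ hl] at this
    exact this
  · rintro ⟨hl, hw⟩
    rw [hw, ← Str_take_pre f n _ hl]
    exact List.take_prefix _ _

/-- A nonempty set of strings closed under initial segments. -/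
structure IsTree (S : List ℕ → Prop) : Prop where
  nil : S []
  mono : ∀ σ τ, σ <+: τ → S τ → S σ

/-- `σ` is the longest initial segment of `u` which is in `S`. -/
def IsLP (S : List ℕ → Prop) (σ u : List ℕ) : Prop :=
  S σ ∧ σ <+: u ∧ ∀ τ, S τ → τ <+: u → τ <+: σ

theorem Str_isLP_self {S : List ℕ → Prop} {σ : List ℕ} (h : S σ) : IsLP S σ σ :=
  ⟨h, List.prefix_rfl, fun _ _ h => h⟩

theorem exists_isLP {S : List ℕ → Prop} (hS : IsTree S) (u : List ℕ) : ∃ σ, IsLP S σ u := by
  classical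
  induction u using List.reverseRecOn with
  | nil =>
    exact ⟨[], hS.nil, List.prefix_rfl, fun τ _ h => h⟩
  | append_singleton u a ih =>
    by_cases hu : S (u ++ [a])
    · exact ⟨u ++ [a], Str_isLP_self hu⟩
    · obtain ⟨σ, h1, h2, h3⟩ := ih
      refine ⟨σ, h1, h2.trans (List.prefix_append _ _), ?_⟩
      intro τ hτ hp
      rcases List.prefix_concat_iff.1 hp with rfl | hp'
      · exact absurd hτ hu
      · exact h3 τ hτ hp'

theorem IsLP.unique {S : List ℕ → Prop} {σ τ u : List ℕ} (h : IsLP S σ u) (h' : IsLP S τ u) :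
    σ = τ := by
  have h1 := h.2.2 τ h'.1 h'.2.1
  have h2 := h'.2.2 σ h.1 h.2.1
  exact h2.eq_of_length (le_antisymm h2.length_le h1.length_le)

theorem isLP_self {S : List ℕ → Prop} {σ : List ℕ} (h : S σ) : IsLP S σ σ :=
  ⟨h, List.prefix_rfl, fun _ _ h => h⟩

/-- The string with stamps: entry `j` is replaced by `⟨σ_j, c (σ|(j+1))⟩`. -/
def rc (c : List ℕ → ℕ) (σ : List ℕ) : List ℕ :=
  (List.range σ.length).map fun j => Nat.pair (σ.getD j 0) (c (σ.take (j + 1)))

/-- Remove the stamps. -/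
def fs (w : List ℕ) : List ℕ := w.map fun x => x.unpair.1

theorem rc_length (c : List ℕ → ℕ) (σ : List ℕ) : (rc c σ).length = σ.length := by simp [rc]

theorem fs_rc (c : List ℕ → ℕ) (σ : List ℕ) : fs (rc c σ) = σ := by
  apply List.ext_getElem
  · simp [fs, rc]
  · intro i h1 h2
    simp [fs, rc, List.getElem?_eq_getElem h2]

theorem rc_nil (c : List ℕ → ℕ) : rc c [] = [] := rfl

theorem rc_append (c : List ℕ → ℕ) (σ : List ℕ) (a : ℕ) :
    rc c (σ ++ [a]) = rc c σ ++ [Nat.pair a (c (σ ++ [a]))] := by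
  unfold rc
  rw [List.length_append, List.length_singleton, List.range_succ, List.map_append]
  congr 1
  · apply List.map_congr_left
    intro j hj
    rw [List.mem_range] at hj
    rw [List.take_append_of_le_length (by omega)]
    congr 1
    simp [List.getD, List.getElem?_append_left hj]
  · simp only [List.map_cons, List.map_nil]
    rw [List.take_of_length_le (by simp)]
    simp

theorem Str_take_rc (c : List ℕ → ℕ) (σ : List ℕ) (m : ℕ) : (rc c σ).take m = rc c (σ.take m) := by
  induction σ using List.reverseRecOn with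
  | nil => simp [rc_nil]
  | append_singleton σ a ih =>
    rw [rc_append]
    by_cases hm : m ≤ σ.length
    · rw [List.take_append_of_le_length (by rw [rc_length]; exact hm),
        List.take_append_of_le_length hm, ih]
    · rw [List.take_of_length_le (by simp [rc_length]; omega),
        List.take_of_length_le (by simp; omega), rc_append]

theorem rc_prefix_iff {c : List ℕ → ℕ} {σ τ : List ℕ} : rc c σ <+: rc c τ ↔ σ <+: τ := by
  constructor
  · intro h
    have h1 := List.prefix_iff_eq_take.1 h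
    rw [rc_length, Str_take_rc] at h1
    have h2 : fs (rc c σ) = fs (rc c (τ.take σ.length)) := by rw [h1]
    rw [fs_rc, fs_rc] at h2
    exact List.prefix_iff_eq_take.2 h2
  · intro h
    have h1 := List.prefix_iff_eq_take.1 h
    apply List.prefix_iff_eq_take.2
    rw [rc_length, Str_take_rc, ← h1]

theorem prefix_rc_iff {c : List ℕ → ℕ} {σ w : List ℕ} :
    w <+: rc c σ ↔ ∃ τ, τ <+: σ ∧ w = rc c τ := by
  constructor
  · intro h
    refine ⟨σ.take w.length, List.take_prefix _ _, ?_⟩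
    rw [← Str_take_rc]
    exact List.prefix_iff_eq_take.1 h
  · rintro ⟨τ, hτ, rfl⟩
    exact rc_prefix_iff.2 hτ

theorem rc_inj {c : List ℕ → ℕ} {σ τ : List ℕ} (h : rc c σ = rc c τ) : σ = τ := by
  rw [← fs_rc c σ, h, fs_rc]

/-- The path with stamps. -/
def rcf (c : List ℕ → ℕ) (f : ℕ → ℕ) (m : ℕ) : ℕ := Nat.pair (f m) (c (pre f (m + 1)))

theorem rc_pre (c : List ℕ → ℕ) (f : ℕ → ℕ) (n : ℕ) : rc c (pre f n) = pre (rcf c f) n := by
  induction n with
  | zero => rfl
  | succ n ih => rw [pre_succ, rc_append, ih, pre_succ (rcf c f), ← pre_succ, rcf]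

/-- The image of a tree. -/
def im (c : List ℕ → ℕ) (S : List ℕ → Prop) (w : List ℕ) : Prop := ∃ σ, S σ ∧ rc c σ = w

theorem im_rc_iff {c : List ℕ → ℕ} {S : List ℕ → Prop} {σ : List ℕ} : im c S (rc c σ) ↔ S σ := by
  constructor
  · rintro ⟨τ, hτ, h⟩
    rwa [← rc_inj h]
  · intro h
    exact ⟨σ, h, rfl⟩

theorem IsTree.im {c : List ℕ → ℕ} {S : List ℕ → Prop} (h : IsTree S) : IsTree (im c S) := by
  constructor
  · exact ⟨[], h.nil, rfl⟩
  · rintro σ τ hp ⟨ρ, hρ, rfl⟩
    obtain ⟨τ', h1, rfl⟩ := prefix_rc_iff.1 hp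
    exact ⟨τ', h.mono _ _ h1 hρ, rfl⟩

theorem isLP_im_iff {c : List ℕ → ℕ} {S : List ℕ → Prop} {σ u : List ℕ} :
    IsLP (im c S) (rc c σ) (rc c u) ↔ IsLP S σ u := by
  constructor
  · rintro ⟨h1, h2, h3⟩
    refine ⟨im_rc_iff.1 h1, rc_prefix_iff.1 h2, ?_⟩
    intro τ hτ hp
    exact rc_prefix_iff.1 (h3 _ (im_rc_iff.2 hτ) (rc_prefix_iff.2 hp))
  · rintro ⟨h1, h2, h3⟩
    refine ⟨im_rc_iff.2 h1, rc_prefix_iff.2 h2, ?_⟩
    rintro _ ⟨τ, hτ, rfl⟩ hp
    exact rc_prefix_iff.2 (h3 τ hτ (rc_prefix_iff.1 hp))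

/-- Finitely many strings have bounded length and bounded entries. -/
theorem finite_bounded (m B : ℕ) : {u : List ℕ | u.length ≤ m ∧ ∀ x ∈ u, x ≤ B}.Finite := by
  have hfin : {v : List (Fin (B + 1)) | v.length ≤ m}.Finite :=
    List.finite_length_le _ _
  refine (hfin.image (List.map Fin.val)).subset ?_
  rintro u ⟨h1, h2⟩
  refine ⟨u.pmap (fun x hx => (⟨x, hx⟩ : Fin (B + 1))) (fun x hx => Nat.lt_succ_of_le (h2 x hx)), ?_, ?_⟩
  · simpa using h1
  · rw [List.map_pmap]
    simp

end Pool.Agent.H78.UC
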