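import Pool.Agent.H78.UC.ArX

/-!
Project UC, part A: unique witnesses.
-/

set_option autoImplicit false

namespace Pool.Agent.H78.UC

open Pool.Agent.H80

variable {α : Type} [Primcodable α]

/-- equality of two computable functions -/
private theorem Uniq_eq {f g : α → ℕ} (hf : Computable f) (hg : Computable g) :
    ComputablePred (fun a => f a = g a) := by
  refine ComputablePred.computable_iff.2 ⟨fun a => f a == g a, ?_, ?_⟩
  · exact ((Primrec.beq (α := ℕ)).to_comp).comp hf hg
  · funext a
    simp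

/-- a list is determined by its length and its entries -/
private theorem Uniq_list {l l' : List ℕ} (h : l.length = l'.length)
    (hj : ∀ j < l.length, l.getD j 0 = l'.getD j 0) : l = l' := by
  refine List.ext_getElem h (fun j h1 h2 => ?_)
  have h3 := hj j h1
  rw [List.getD_eq_getElem _ _ h1, List.getD_eq_getElem _ _ h2] at h3
  exact h3

/-- the predicate used for the unique witnesses -/
private def Uniq_R (r : (α × ℕ) × ℕ → Prop) (z : (α × ℕ) × ℕ) : Prop :=
  r ((z.1.1, (Denumerable.ofNat (List ℕ) z.1.2).length), z.2) ∧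
    ∀ j < (Denumerable.ofNat (List ℕ) z.1.2).length,
      (¬ r ((z.1.1, j), (Denumerable.ofNat (List ℕ) z.1.2).getD j 0)) ∧
      ∀ b < (Denumerable.ofNat (List ℕ) z.1.2).getD j 0, r ((z.1.1, j), b)

private theorem Uniq_R_delta {n : ℕ} {r : (α × ℕ) × ℕ → Prop} (hr : IsDelta n r) :
    IsDelta n (Uniq_R r) := by
  have hdec : Computable (fun z : (α × ℕ) × ℕ => Denumerable.ofNat (List ℕ) z.1.2) :=
    (Primrec.ofNat (List ℕ)).to_comp.comp (Computable.snd.comp Computable.fst)
  have hlen : Computable (fun z : (α × ℕ) × ℕ => (Denumerable.ofNat (List ℕ) z.1.2).length) :=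
    Primrec.list_length.to_comp.comp hdec
  have hget : Computable (fun w : ((α × ℕ) × ℕ) × ℕ =>
      (Denumerable.ofNat (List ℕ) w.1.1.2).getD w.2 0) :=
    ((Primrec.list_getD (0 : ℕ)).to_comp).comp (hdec.comp Computable.fst) Computable.snd
  have h1 : IsDelta n (fun z : (α × ℕ) × ℕ =>
      r ((z.1.1, (Denumerable.ofNat (List ℕ) z.1.2).length), z.2)) :=
    hr.comp (f := fun z : (α × ℕ) × ℕ =>
      ((z.1.1, (Denumerable.ofNat (List ℕ) z.1.2).length), z.2))
      (((Computable.fst.comp Computable.fst).pair hlen).pair Computable.snd)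
  have h2 : IsDelta n (fun w : ((α × ℕ) × ℕ) × ℕ =>
      ¬ r ((w.1.1.1, w.2), (Denumerable.ofNat (List ℕ) w.1.1.2).getD w.2 0)) :=
    (hr.not).comp (f := fun w : ((α × ℕ) × ℕ) × ℕ =>
      ((w.1.1.1, w.2), (Denumerable.ofNat (List ℕ) w.1.1.2).getD w.2 0))
      (((Computable.fst.comp (Computable.fst.comp Computable.fst)).pair Computable.snd).pair hget)
  have h3 : IsDelta n (fun w : ((α × ℕ) × ℕ) × ℕ =>
      ∀ b < (Denumerable.ofNat (List ℕ) w.1.1.2).getD w.2 0, r ((w.1.1.1, w.2), b)) := by
    refine IsDelta.ball (p := fun v : (((α × ℕ) × ℕ) × ℕ) × ℕ => r ((v.1.1.1.1, v.1.2), v.2)) ?_ hget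
    exact hr.comp (f := fun v : (((α × ℕ) × ℕ) × ℕ) × ℕ => ((v.1.1.1.1, v.1.2), v.2))
      (((Computable.fst.comp (Computable.fst.comp (Computable.fst.comp Computable.fst))).pair
        (Computable.snd.comp Computable.fst)).pair Computable.snd)
  exact h1.and (IsDelta.ball (p := fun w : ((α × ℕ) × ℕ) × ℕ =>
      (¬ r ((w.1.1.1, w.2), (Denumerable.ofNat (List ℕ) w.1.1.2).getD w.2 0)) ∧
      ∀ b < (Denumerable.ofNat (List ℕ) w.1.1.2).getD w.2 0, r ((w.1.1.1, w.2), b)) (h2.and h3) hlen)

/-- Unique witnesses for `Σ⁰ₙ₊₁` predicates.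
`n = 0`: `A a ↔ ∃ x, q (a, x)`, `q` computable; `R ((a, c), b) = q (a, c) ∧ ∀ j < c, ¬ q (a, j)`.
`n = i + 1`: `A a ↔ ∃ x, ∀ b, r ((a, x), b)` with `r` in `Σ⁰ᵢ`, hence `Δ⁰ᵢ₊₁`.  The witness `c` is the code of a list
`[b_0, …, b_(x-1)]` (`x` its length), and `R ((a, c), b)` says: `r ((a, x), b)` and for all `j < x`:
`¬ r ((a, j), b_j)` and `r ((a, j), b')` for all `b' < b_j`.  So `x` is the least witness and `b_j` the least
counterexample for `j < x`.  (`c` decodes to a list for each `c`, `Denumerable (List ℕ)`.) -/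
theorem uniq_sigma {n : ℕ} {A : α → Prop} (hA : IsSigma (n + 1) A) :
    ∃ R : (α × ℕ) × ℕ → Prop, IsDelta n R ∧ IsPi n (fun z : α × ℕ => ∀ b, R (z, b)) ∧
      (∀ a, A a ↔ ∃ c, ∀ b, R ((a, c), b)) ∧
      ∀ a c c', (∀ b, R ((a, c), b)) → (∀ b, R ((a, c'), b)) → c = c' := by
  classical
  obtain ⟨q, hq, hAq⟩ := isSigma_succ.1 hA
  cases n with
  | zero =>
    have hq' : ComputablePred q := isPi_zero.1 hq
    have hc : ComputablePred (fun z : α × ℕ => q z ∧ ∀ j < z.2, ¬ q (z.1, j)) := by
      refine cp_and hq' (cp_forall_lt (p := fun w : (α × ℕ) × ℕ => ¬ q (w.1.1, w.2)) ?_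
        Computable.snd)
      exact cp_comp (f := fun w : (α × ℕ) × ℕ => (w.1.1, w.2)) hq'.not
        ((Computable.fst.comp Computable.fst).pair Computable.snd)
    refine ⟨fun z => q z.1 ∧ ∀ j < z.1.2, ¬ q (z.1.1, j), ?_, ?_, ?_, ?_⟩
    · exact delta_of_computable (cp_comp hc Computable.fst) 0
    · refine IsPi.of_eq (ComputablePred.pi hc 0) (fun z => ?_)
      exact ⟨fun h _ => h, fun h => h 0⟩
    · intro a
      rw [hAq]
      constructor
      · intro h
        exact ⟨Nat.find h, fun _ => ⟨Nat.find_spec h, fun j hj => Nat.find_min h hj⟩⟩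
      · rintro ⟨c, hc⟩
        exact ⟨c, (hc 0).1⟩
    · intro a c c' h h'
      by_contra hne
      rcases lt_or_gt_of_ne hne with hlt | hlt
      · exact (h' 0).2 c hlt (h 0).1
      · exact (h 0).2 c' hlt (h' 0).1
  | succ i =>
    obtain ⟨r', hr', hqr⟩ := isSigma_succ.1 (show IsSigma (i + 1) (fun z => ¬ q z) from hq)
    have hr : IsDelta (i + 1) (fun z => ¬ r' z) :=
      delta_of_sigma (show IsSigma i (fun z => ¬ r' z) from hr')
    have hqr2 : ∀ z, q z ↔ ∀ b, ¬ r' (z, b) := by
      intro z
      have := hqr z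
      rw [← not_iff_not, this]
      push Not
      rfl
    have hR := Uniq_R_delta hr
    refine ⟨Uniq_R (fun z => ¬ r' z), hR, IsPi.all hR.2, ?_, ?_⟩
    · intro a
      rw [hAq]
      constructor
      · intro h
        have hmin : ∀ j, j < Nat.find h → ∃ b, r' ((a, j), b) := by
          intro j hj
          have h1 := Nat.find_min h hj
          rw [hqr2] at h1
          push Not at h1
          exact h1
        set l : List ℕ := (List.range (Nat.find h)).map
          (fun j => if hj : ∃ b, r' ((a, j), b) then Nat.find hj else 0) with hl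
        have hlen : l.length = Nat.find h := by simp [hl]
        have hget : ∀ j, (hj : j < Nat.find h) → l.getD j 0 = Nat.find (hmin j hj) := by
          intro j hj
          rw [List.getD_eq_getElem _ _ (by rw [hlen]; exact hj)]
          simp only [hl, List.getElem_map, List.getElem_range]
          rw [dif_pos (hmin j hj)]
        refine ⟨Encodable.encode l, fun b => ?_⟩
        unfold Uniq_R
        simp only [Denumerable.ofNat_encode]
        refine ⟨?_, ?_⟩
        · rw [hlen]
          exact (hqr2 _).1 (Nat.find_spec h) b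
        · intro j hj
          rw [hlen] at hj
          rw [hget j hj]
          refine ⟨not_not.2 (Nat.find_spec (hmin j hj)), fun b' hb' => ?_⟩
          exact Nat.find_min (hmin j hj) hb'
      · rintro ⟨c, hc⟩
        refine ⟨(Denumerable.ofNat (List ℕ) c).length, ?_⟩
        rw [hqr2]
        intro b
        exact (hc b).1
    · intro a c c' h h'
      unfold Uniq_R at h h'
      simp only at h h'
      have key : ∀ d d' : ℕ, (∀ b, Uniq_R (fun z => ¬ r' z) ((a, d), b)) →
          (∀ b, Uniq_R (fun z => ¬ r' z) ((a, d'), b)) →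
          (Denumerable.ofNat (List ℕ) d).length ≤ (Denumerable.ofNat (List ℕ) d').length := by
        intro d d' hd hd'
        by_contra hlt
        push Not at hlt
        have h1 := ((hd 0).2 _ hlt).1
        exact h1 ((hd' _).1)
      have hlen : (Denumerable.ofNat (List ℕ) c).length = (Denumerable.ofNat (List ℕ) c').length :=
        le_antisymm (key c c' h h') (key c' c h' h)
      have hll : Denumerable.ofNat (List ℕ) c = Denumerable.ofNat (List ℕ) c' := by
        refine Uniq_list hlen (fun j hj => ?_)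
        have h1 := (h 0).2 j hj
        have h2 := (h' 0).2 j (by rw [← hlen]; exact hj)
        by_contra hne
        rcases lt_or_gt_of_ne hne with hlt | hlt
        · exact h1.1 (h2.2 _ hlt)
        · exact h2.1 (h1.2 _ hlt)
      have := congrArg Encodable.encode hll
      simpa using this

/-- The same with witnesses which are at least as large as a given computable function: use
`c = Nat.pair c₀ (m a)`, `R' ((a, c), b) = R ((a, c.unpair.1), b) ∧ c.unpair.2 = m a`. -/
theorem uniq_pad {n : ℕ} {A : α → Prop} (hA : IsSigma (n + 1) A) {m : α → ℕ} (hm : Computable m) :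
    ∃ R : (α × ℕ) × ℕ → Prop, IsDelta n R ∧ IsPi n (fun z : α × ℕ => ∀ b, R (z, b)) ∧
      (∀ a, A a ↔ ∃ c, ∀ b, R ((a, c), b)) ∧
      (∀ a c c', (∀ b, R ((a, c), b)) → (∀ b, R ((a, c'), b)) → c = c') ∧
      ∀ a c b, R ((a, c), b) → m a ≤ c := by
  obtain ⟨R, h1, h2, h3, h4⟩ := uniq_sigma hA
  have hu1 : Computable (fun k : ℕ => k.unpair.1) := Computable.fst.comp Primrec.unpair.to_comp
  have hu2 : Computable (fun k : ℕ => k.unpair.2) := Computable.snd.comp Primrec.unpair.to_comp
  have hE : ComputablePred (fun z : α × ℕ => z.2.unpair.2 = m z.1) :=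
    Uniq_eq (hu2.comp Computable.snd) (hm.comp Computable.fst)
  refine ⟨fun z => R ((z.1.1, z.1.2.unpair.1), z.2) ∧ z.1.2.unpair.2 = m z.1.1, ?_, ?_, ?_, ?_, ?_⟩
  · refine IsDelta.and ?_ ?_
    · exact h1.comp (f := fun z : (α × ℕ) × ℕ => ((z.1.1, z.1.2.unpair.1), z.2))
        (((Computable.fst.comp Computable.fst).pair
          (hu1.comp (Computable.snd.comp Computable.fst))).pair Computable.snd)
    · exact delta_of_computable (cp_comp hE Computable.fst) n
  · have h5 : IsPi n (fun z : α × ℕ => (∀ b, R ((z.1, z.2.unpair.1), b)) ∧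
        z.2.unpair.2 = m z.1) := by
      refine IsPi.and ?_ (ComputablePred.pi hE n)
      exact IsPi.comp (f := fun z : α × ℕ => (z.1, z.2.unpair.1)) h2
        (Computable.fst.pair (hu1.comp Computable.snd))
    refine h5.of_eq (fun z => ?_)
    constructor
    · intro h b
      exact ⟨h.1 b, h.2⟩
    · intro h
      exact ⟨fun b => (h b).1, (h 0).2⟩
  · intro a
    rw [h3]
    constructor
    · rintro ⟨c, hc⟩
      refine ⟨Nat.pair c (m a), fun b => ?_⟩
      simp only [Nat.unpair_pair]
      exact ⟨hc b, trivial⟩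
    · rintro ⟨c, hc⟩
      exact ⟨c.unpair.1, fun b => (hc b).1⟩
  · intro a c c' h h'
    have h5 := h4 a c.unpair.1 c'.unpair.1 (fun b => (h b).1) (fun b => (h' b).1)
    have h6 : c.unpair.2 = c'.unpair.2 := (h 0).2.trans (h' 0).2.symm
    rw [← Nat.pair_unpair c, ← Nat.pair_unpair c', h5, h6]
  · intro a c b h
    have h5 : c.unpair.2 = m a := h.2
    rw [← h5]
    exact Nat.unpair_right_le c

end Pool.Agent.H78.UC
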