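import Pool.Agent.H78.UC.Pull
import Pool.Agent.H78.UC.Uniq
import Pool.Agent.H78.UC.Hier

/-!
Project UC, part A: systems of trees `S 0 ⊇ S 1 ⊇ … ⊇ S (s - 1)` with a path `f` of degree `0^(s)`.
-/

set_option autoImplicit false

namespace Pool.Agent.H78.UC

open Pool.Agent.H80

/-- Only the trees `S l` with `j ≤ l < s` matter. -/
structure SysFrom (j s : ℕ) (S : ℕ → List ℕ → Prop) (f : ℕ → ℕ) : Prop where
  tree : ∀ l, j ≤ l → l < s → IsTree (S l)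
  sub : ∀ l, j ≤ l → l + 1 < s → ∀ σ, S (l + 1) σ → S l σ
  fin : ∀ l, j ≤ l → l + 1 < s → ∀ σ, S (l + 1) σ → ∀ B,
    {u | S l u ∧ IsLP (S (l + 1)) σ u ∧ ∃ b < B, σ ++ [b] <+: u}.Finite
  inf : ∀ l, j ≤ l → l + 1 < s → ∀ σ, S (l + 1) σ → ∀ B,
    ∃ b ≥ B, S l (σ ++ [b]) ∧ ¬ S (l + 1) (σ ++ [b])
  path : ∀ n, S (s - 1) (pre f n)
  conv : ∀ n, {u | S (s - 1) u ∧ ¬ pre f n <+: u}.Finite
  sig : IsSigma (j + 1) (S j)
  ar : ∀ l, j ≤ l → l < s → IsAr (S l)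
  fd : IsDelta (s + 1) (fun w : List ℕ => w = pre f w.length)
  fn : ¬ IsDelta s (fun w : List ℕ => w = pre f w.length)

end Pool.Agent.H78.UC
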