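import Mathlib

/-!
Project UC, part C: codes of tuples of natural numbers.
-/

set_option autoImplicit false

namespace Pool.Agent.H78.UC

/-- The code of a tuple. -/
def tc : ∀ m, (Fin m → ℕ) → ℕ
  | 0, _ => 0
  | 1, z => z 0
  | m + 2, z => Nat.pair (tc (m + 1) (fun t => z t.castSucc)) (z (Fin.last (m + 1)))

theorem tc_snoc {m : ℕ} (hm : 1 ≤ m) (z : Fin m → ℕ) (w : ℕ) :
    tc (m + 1) (Fin.snoc (α := fun _ => ℕ) z w) = Nat.pair (tc m z) w := by
  obtain ⟨k, rfl⟩ := Nat.exists_eq_add_of_le' hm
  show Nat.pair (tc (k + 1) (fun t => Fin.snoc (α := fun _ => ℕ) z w t.castSucc))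
    (Fin.snoc (α := fun _ => ℕ) z w (Fin.last (k + 1))) = _
  simp only [Fin.snoc_castSucc, Fin.snoc_last]

theorem tc_bij {m : ℕ} (hm : 1 ≤ m) : Function.Bijective (tc m) := by
  obtain ⟨k, rfl⟩ := Nat.exists_eq_add_of_le' hm
  clear hm
  induction k with
  | zero =>
    constructor
    · intro z z' h
      funext t
      have ht : t = ⟨0, by omega⟩ := Fin.ext (by omega)
      rw [ht]
      exact h
    · intro d
      exact ⟨fun _ => d, rfl⟩
  | succ k ih =>
    constructor
    · intro z z' h
      have h1 : Nat.pair (tc (k + 1) (fun t => z t.castSucc)) (z (Fin.last (k + 1))) =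
          Nat.pair (tc (k + 1) (fun t => z' t.castSucc)) (z' (Fin.last (k + 1))) := h
      rw [Nat.pair_eq_pair] at h1
      have h2 := ih.1 h1.1
      funext t
      refine Fin.lastCases ?_ (fun i => ?_) t
      · exact h1.2
      · exact congrFun h2 i
    · intro d
      obtain ⟨z, hz⟩ := ih.2 d.unpair.1
      refine ⟨Fin.snoc (α := fun _ => ℕ) z d.unpair.2, ?_⟩
      rw [tc_snoc (by omega), hz, Nat.pair_unpair]

theorem TCode_tc_prim (m : ℕ) : Primrec (fun l : List ℕ => tc m (fun t => l.getD t.val 0)) := by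
  have hg : ∀ n : ℕ, Primrec (fun l : List ℕ => l.getD n 0) := fun n =>
    (Primrec.list_getD 0).comp Primrec.id (Primrec.const n)
  have key : ∀ k : ℕ, Primrec (fun l : List ℕ => tc (k + 1) (fun t => l.getD t.val 0)) := by
    intro k
    induction k with
    | zero => exact hg 0
    | succ k ih => exact Primrec₂.natPair.comp ih (hg (k + 1))
  cases m with
  | zero => exact Primrec.const 0
  | succ k => exact key k

theorem tc_comp (m : ℕ) : Computable (fun l : List ℕ => tc m (fun t => l.getD t.val 0)) :=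
  (TCode_tc_prim m).to_comp

/-- The tuple with a given code. -/
noncomputable def utc (m : ℕ) (d : ℕ) : Fin (m + 1) → ℕ :=
  Function.surjInv (tc_bij (m := m + 1) (by omega)).2 d

theorem tc_utc (m d : ℕ) : tc (m + 1) (utc m d) = d :=
  Function.surjInv_eq (tc_bij (m := m + 1) (by omega)).2 d

theorem utc_tc (m : ℕ) (z : Fin (m + 1) → ℕ) : utc m (tc (m + 1) z) = z :=
  (tc_bij (m := m + 1) (by omega)).1 (tc_utc m _)

theorem TCode_utc_succ (m d : ℕ) :
    utc (m + 1) d = Fin.snoc (α := fun _ => ℕ) (utc m d.unpair.1) d.unpair.2 := by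
  apply (tc_bij (m := m + 1 + 1) (by omega)).1
  rw [tc_utc, tc_snoc (by omega), tc_utc, Nat.pair_unpair]

theorem TCode_utc_prim (m : ℕ) : Primrec (fun d : ℕ => List.ofFn (utc m d)) := by
  induction m with
  | zero =>
    have h : ∀ d : ℕ, [d] = List.ofFn (utc 0 d) := by
      intro d
      have h1 : utc 0 d = fun _ => d := by
        apply (tc_bij (m := 0 + 1) (by omega)).1
        rw [tc_utc]
        rfl
      rw [h1]
      rfl
    exact (Primrec.list_cons.comp Primrec.id (Primrec.const [])).of_eq h
  | succ m ih =>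
    have h : ∀ d : ℕ, List.ofFn (utc m d.unpair.1) ++ [d.unpair.2] =
        List.ofFn (utc (m + 1) d) := by
      intro d
      rw [TCode_utc_succ]
      have h3 : ∀ (f : Fin (m + 1) → ℕ) (a : ℕ),
          List.ofFn (Fin.snoc (α := fun _ => ℕ) f a) = List.ofFn f ++ [a] := by
        intro f a
        have h4 := List.ofFn_succ' (f := Fin.snoc (α := fun _ => ℕ) f a)
        rw [h4, List.concat_eq_append]
        simp only [Fin.snoc_castSucc, Fin.snoc_last]
      exact (h3 _ _).symm
    have h1 : Primrec (fun d : ℕ => d.unpair.1) := Primrec.fst.comp Primrec.unpair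
    have h2 : Primrec (fun d : ℕ => d.unpair.2) := Primrec.snd.comp Primrec.unpair
    exact (Primrec.list_append.comp (ih.comp h1)
      (Primrec.list_cons.comp h2 (Primrec.const []))).of_eq h

/-- The coordinates are computable functions of the code (iterated `Nat.unpair`). -/
theorem utc_comp (m t : ℕ) : Computable (fun d : ℕ => (List.ofFn (utc m d)).getD t 0) :=
  ((Primrec.list_getD 0).comp (TCode_utc_prim m) (Primrec.const t)).to_comp

end Pool.Agent.H78.UC
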