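import Pool.Agent.H78.UC.SysDef

/-!
Project UC, part A: the top tree.
-/

set_option autoImplicit false

namespace Pool.Agent.H78.UC

open Pool.Agent.H80

section Top

/-- Limit approximation of the function `x ↦ 0` if `∀ i, ¬ R (x, i)`, and `1 + ` the least `i` with `R (x, i)`
otherwise: only the `i < t` are considered. -/
def IsApp (R : ℕ × ℕ → Prop) (t x y : ℕ) : Prop :=
  (y = 0 ∧ ∀ i < t, ¬ R (x, i)) ∨ ∃ i < t, y = i + 1 ∧ R (x, i) ∧ ∀ i' < i, ¬ R (x, i')

/-- The tree of the initial segments of length at most `t` of the `t`-th approximation. -/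
def TopT (R : ℕ × ℕ → Prop) (σ : List ℕ) : Prop :=
  ∃ t, σ.length ≤ t ∧ ∀ x < σ.length, IsApp R t x (σ.getD x 0)

theorem Top_app {R : ℕ × ℕ → Prop} {f : ℕ → ℕ}
    (h0 : ∀ x, f x = 0 ↔ ∀ i, ¬ R (x, i))
    (h1 : ∀ x i, f x = i + 1 ↔ R (x, i) ∧ ∀ i' < i, ¬ R (x, i')) (x t : ℕ) (ht : f x ≤ t) (y : ℕ) :
    IsApp R t x y ↔ y = f x := by
  unfold IsApp
  rcases Nat.eq_zero_or_pos (f x) with hf | hf
  · have h := (h0 x).mp hf
    rw [hf]
    constructor
    · rintro (⟨hy, _⟩ | ⟨i, _, _, hR, _⟩)
      · exact hy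
      · exact absurd hR (h i)
    · intro hy
      exact Or.inl ⟨hy, fun i _ => h i⟩
  · obtain ⟨i, hi⟩ : ∃ i, f x = i + 1 := ⟨f x - 1, by omega⟩
    obtain ⟨hR, hlt⟩ := (h1 x i).mp hi
    rw [hi]
    constructor
    · rintro (⟨_, hall⟩ | ⟨i', _, hy, hR', hlt'⟩)
      · exact absurd hR (hall i (by omega))
      · rcases lt_trichotomy i i' with h | h | h
        · exact absurd hR (hlt' i h)
        · rw [hy, h]
        · exact absurd hR' (hlt i' h)
    · intro hy
      exact Or.inr ⟨i, by omega, hy, hR, hlt⟩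

theorem Top_cp_eq {α : Type} [Primcodable α] {f g : α → ℕ} (hf : Computable f)
    (hg : Computable g) : ComputablePred (fun a => f a = g a) := by
  have h : ComputablePred (fun z : ℕ × ℕ => z.1 = z.2) := by
    have := Primrec.eq (α := ℕ)
    exact PrimrecPred.computablePred this
  exact cp_comp (p := fun z : ℕ × ℕ => z.1 = z.2) (f := fun a => (f a, g a)) h (hf.pair hg)

theorem Top_cp_le {α : Type} [Primcodable α] {f g : α → ℕ} (hf : Computable f)
    (hg : Computable g) : ComputablePred (fun a => f a ≤ g a) := by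
  have h : ComputablePred (fun z : ℕ × ℕ => z.1 ≤ z.2) := by
    have := Primrec.nat_le
    exact PrimrecPred.computablePred this
  exact cp_comp (p := fun z : ℕ × ℕ => z.1 ≤ z.2) (f := fun a => (f a, g a)) h (hf.pair hg)

theorem Top_getD {α : Type} [Primcodable α] {w : α → List ℕ} {x : α → ℕ} (hw : Computable w)
    (hx : Computable x) : Computable (fun a => (w a).getD (x a) 0) := by
  have h : Primrec₂ (fun (l : List ℕ) (n : ℕ) => l.getD n 0) := Primrec.list_getD 0
  exact (Primrec₂.to_comp h).comp hw hx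

theorem Top_pre_getD (f : ℕ → ℕ) (n x : ℕ) (hx : x < n) : (pre f n).getD x 0 = f x := by
  unfold pre
  rw [List.getD_eq_getElem _ _ (by simpa using hx)]
  simp

theorem Top_eq_pre {f : ℕ → ℕ} {u : List ℕ} (h : ∀ x < u.length, u.getD x 0 = f x) :
    u = pre f u.length := by
  apply List.ext_getElem
  · rw [pre_length]
  · intro i h1 h2
    have h3 := h i h1
    rw [List.getD_eq_getElem _ _ h1] at h3
    rw [h3]
    simp [pre]

theorem Top_delta_R {s : ℕ} {R : ℕ × ℕ → Prop} (hR : IsPi s R) {α : Type} [Primcodable α]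
    {x i : α → ℕ} (hx : Computable x) (hi : Computable i) :
    IsDelta (s + 1) (fun a => R (x a, i a)) :=
  IsDelta.comp (p := R) (f := fun a => (x a, i a)) (delta_of_pi hR) (hx.pair hi)

theorem Top_delta_min {s : ℕ} {R : ℕ × ℕ → Prop} (hR : IsPi s R) {α : Type} [Primcodable α]
    {x i : α → ℕ} (hx : Computable x) (hi : Computable i) :
    IsDelta (s + 1) (fun a => ∀ i' < i a, ¬ R (x a, i')) :=
  IsDelta.ball (p := fun z : α × ℕ => ¬ R (x z.1, z.2)) (f := i)
    (Top_delta_R hR (hx.comp Computable.fst) Computable.snd).not hi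

theorem Top_delta_app {s : ℕ} {R : ℕ × ℕ → Prop} (hR : IsPi s R) {α : Type} [Primcodable α]
    {t x y : α → ℕ} (ht : Computable t) (hx : Computable x) (hy : Computable y) :
    IsDelta (s + 1) (fun a => IsApp R (t a) (x a) (y a)) := by
  unfold IsApp
  apply IsDelta.or
  · exact (delta_of_computable (Top_cp_eq hy (Computable.const 0)) _).and (Top_delta_min hR hx ht)
  · refine IsDelta.bex (p := fun z : α × ℕ => y z.1 = z.2 + 1 ∧ R (x z.1, z.2) ∧
      ∀ i' < z.2, ¬ R (x z.1, i')) (f := t) ?_ ht
    have hy' : Computable (fun z : α × ℕ => y z.1) := hy.comp Computable.fst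
    have hx' : Computable (fun z : α × ℕ => x z.1) := hx.comp Computable.fst
    have hs : Computable (fun z : α × ℕ => z.2 + 1) := Computable.succ.comp Computable.snd
    exact (delta_of_computable (Top_cp_eq hy' hs) _).and
      ((Top_delta_R hR hx' Computable.snd).and (Top_delta_min hR hx' Computable.snd))

/-- The limit. -/
theorem exists_lim (R : ℕ × ℕ → Prop) : ∃ f : ℕ → ℕ, (∀ x, f x = 0 ↔ ∀ i, ¬ R (x, i)) ∧
    (∀ x i, f x = i + 1 ↔ R (x, i) ∧ ∀ i' < i, ¬ R (x, i')) ∧
    ∀ x, ∃ t0, ∀ t ≥ t0, ∀ y, IsApp R t x y ↔ y = f x := by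
  classical
  have h0 : ∀ x, (if h : ∃ i, R (x, i) then Nat.find h + 1 else 0) = 0 ↔ ∀ i, ¬ R (x, i) := by
    intro x
    split_ifs with h
    · constructor
      · intro h'
        exact absurd h' (by simp)
      · intro h'
        obtain ⟨i, hi⟩ := h
        exact absurd hi (h' i)
    · constructor
      · intro _ i hi
        exact h ⟨i, hi⟩
      · intro _
        rfl
  have h1 : ∀ x i, (if h : ∃ i, R (x, i) then Nat.find h + 1 else 0) = i + 1 ↔
      R (x, i) ∧ ∀ i' < i, ¬ R (x, i') := by
    intro x i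
    split_ifs with h
    · rw [Nat.add_right_cancel_iff, Nat.find_eq_iff]
    · constructor
      · intro h'
        exact absurd h' (by simp)
      · rintro ⟨h', _⟩
        exact absurd ⟨i, h'⟩ h
  exact ⟨fun x => if h : ∃ i, R (x, i) then Nat.find h + 1 else 0, h0, h1,
    fun x => ⟨_, fun t ht y => Top_app h0 h1 x t ht y⟩⟩

theorem TopT_tree (R : ℕ × ℕ → Prop) : IsTree (TopT R) := by
  constructor
  · exact ⟨0, le_rfl, fun x hx => absurd hx (Nat.not_lt_zero x)⟩
  · rintro σ _ ⟨r, rfl⟩ ⟨t, ht, h⟩
    rw [List.length_append] at ht h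
    refine ⟨t, by omega, fun x hx => ?_⟩
    have h1 := h x (by omega)
    rwa [List.getD_append _ _ _ _ hx] at h1

/-- `R` is in `Π⁰ₛ`, so `IsApp` is `Δ⁰ₛ₊₁`. -/
theorem TopT_sigma {s : ℕ} {R : ℕ × ℕ → Prop} (hR : IsPi s R) : IsSigma (s + 1) (TopT R) := by
  unfold TopT
  refine IsSigma.ex (p := fun z : List ℕ × ℕ => z.1.length ≤ z.2 ∧
    ∀ x < z.1.length, IsApp R z.2 x (z.1.getD x 0)) ?_
  have hl : Computable (fun z : List ℕ × ℕ => z.1.length) :=
    Computable.list_length.comp Computable.fst
  refine ((Top_cp_le hl Computable.snd).sigma _).and ?_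
  refine IsSigma.ball (p := fun z : (List ℕ × ℕ) × ℕ => IsApp R z.1.2 z.2 (z.1.1.getD z.2 0))
    (f := fun z : List ℕ × ℕ => z.1.length) ?_ hl
  exact (Top_delta_app hR (Computable.snd.comp Computable.fst) Computable.snd
    (Top_getD (Computable.fst.comp Computable.fst) Computable.snd)).1

/-- For large `t` the values of the approximation below `n` are right; the bad `u` belong to the finitely many small
`t` (their length is at most `t`, and the approximation has only one value at each place), or they are initial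
segments `pre f m` with `m < n`. -/
theorem TopT_conv {R : ℕ × ℕ → Prop} {f : ℕ → ℕ}
    (h0 : ∀ x, f x = 0 ↔ ∀ i, ¬ R (x, i))
    (h1 : ∀ x i, f x = i + 1 ↔ R (x, i) ∧ ∀ i' < i, ¬ R (x, i'))
    (h2 : ∀ x, ∃ t0, ∀ t ≥ t0, ∀ y, IsApp R t x y ↔ y = f x) (n : ℕ) :
    {u | TopT R u ∧ ¬ pre f n <+: u}.Finite := by
  choose t0 ht0 using h2
  set T := (Finset.range n).sup t0 with hT
  have hle : ∀ x < n, t0 x ≤ T := fun x hx => Finset.le_sup (f := t0) (Finset.mem_range.mpr hx)
  refine Set.Finite.subset ((finite_bounded T T).union ((Finset.range n).finite_toSet.image (pre f)))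
    ?_
  rintro u ⟨⟨t, htl, htu⟩, hnu⟩
  rcases lt_or_ge t T with h | h
  · left
    refine ⟨by omega, fun x hx => ?_⟩
    obtain ⟨i, hi, rfl⟩ := List.mem_iff_getElem.mp hx
    have h3 := htu i hi
    rw [List.getD_eq_getElem _ _ hi] at h3
    rcases h3 with ⟨h4, _⟩ | ⟨i', hi', h4, _⟩ <;> omega
  · right
    have h3 : ∀ x < n, x < u.length → u.getD x 0 = f x := by
      intro x hx hxu
      exact (ht0 x t ((hle x hx).trans h) _).mp (htu x hxu)
    have h4 : u.length < n := by
      by_contra hcon
      push Not at hcon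
      apply hnu
      have h5 : u.take n = pre f n := by
        have h6 := Top_eq_pre (f := f) (u := u.take n) (by
          intro x hx
          rw [List.length_take] at hx
          rw [← h3 x (by omega) (by omega)]
          conv_rhs => rw [← List.take_append_drop n u]
          rw [List.getD_append _ _ _ _ (by rw [List.length_take]; exact hx)])
        rw [List.length_take, min_eq_left hcon] at h6
        exact h6
      rw [← h5]
      exact List.take_prefix n u
    refine ⟨u.length, ?_, (Top_eq_pre fun x hx => h3 x (by omega) hx).symm⟩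
    rw [Finset.mem_coe, Finset.mem_range]
    exact h4

/-- Take `K` in `Σ⁰ₛ₊₁` but not in `Π⁰ₛ₊₁` (`exists_sigma_not_pi`), `K x ↔ ∃ i, R (x, i)` with `R` in `Π⁰ₛ`, the
limit `f` and `S s = TopT R`.  `K x ↔ f x ≠ 0`: if the set of the initial segments of `f` were `Δ⁰ₛ₊₁`, then the
complement of `K` would be `Σ⁰ₛ₊₁` (`∃ w`, `w` an initial segment of `f`, `|w| = x + 1`, `w_x = 0`).  The relation
`f x = y` is a Boolean combination of `Σ⁰ₛ₊₁` relations. -/
theorem top_sys (s : ℕ) : ∃ (S : ℕ → List ℕ → Prop) (f : ℕ → ℕ), SysFrom s (s + 1) S f := by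
  obtain ⟨K, hK, hKn⟩ := exists_sigma_not_pi s
  obtain ⟨R, hR, hKR⟩ := isSigma_succ.mp hK
  obtain ⟨f, h0, h1, h2⟩ := exists_lim R
  have hK0 : ∀ x, ¬ K x ↔ f x = 0 := by
    intro x
    rw [h0, hKR]
    push Not
    rfl
  refine ⟨fun _ => TopT R, f, ?_⟩
  refine
    { tree := fun _ _ _ => TopT_tree R
      sub := fun l h3 h4 => by omega
      fin := fun l h3 h4 => by omega
      inf := fun l h3 h4 => by omega
      path := fun n => ?_
      conv := TopT_conv h0 h1 h2
      sig := TopT_sigma hR
      ar := fun _ _ _ => ar_of_sigma (TopT_sigma hR)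
      fd := ?_
      fn := ?_ }
  · choose t0 ht0 using h2
    refine ⟨max n ((Finset.range n).sup t0), ?_, ?_⟩
    · rw [pre_length]
      exact le_max_left _ _
    · intro x hx
      rw [pre_length] at hx
      rw [ht0 x _ ((Finset.le_sup (f := t0) (Finset.mem_range.mpr hx)).trans (le_max_right _ _))]
      exact Top_pre_getD f n x hx
  · have hg : IsDelta (s + 1 + 1) (fun z : ℕ × ℕ => f z.1 = z.2) := by
      have e1 : IsDelta (s + 1 + 1) (fun z : ℕ × ℕ => z.2 = 0 ∧ ¬ K z.1) :=
        (delta_of_computable (Top_cp_eq Computable.snd (Computable.const 0)) _).and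
          (IsDelta.comp (p := fun a => ¬ K a) (delta_of_sigma hK).not Computable.fst)
      have hp : Computable (fun z : ℕ × ℕ => z.2 - 1) :=
        Computable.pred.comp Computable.snd
      have e2 : IsDelta (s + 1 + 1) (fun z : ℕ × ℕ => ¬ z.2 = 0 ∧ R (z.1, z.2 - 1) ∧
          ∀ i' < z.2 - 1, ¬ R (z.1, i')) :=
        ((delta_of_computable (Top_cp_eq Computable.snd (Computable.const 0)) _).not).and
          (((Top_delta_R hR Computable.fst hp).mono (Nat.le_succ _)).and
            ((Top_delta_min hR Computable.fst hp).mono (Nat.le_succ _)))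
      refine (e1.or e2).of_eq fun z => ?_
      rcases Nat.eq_zero_or_pos z.2 with hz | hz
      · rw [hz, ← hK0]
        simp
      · obtain ⟨i, hi⟩ : ∃ i, z.2 = i + 1 := ⟨z.2 - 1, by omega⟩
        rw [hi, h1]
        simp
    have hb : IsDelta (s + 1 + 1) (fun w : List ℕ => ∀ x < w.length, f x = w.getD x 0) := by
      refine IsDelta.ball (p := fun z : List ℕ × ℕ => f z.2 = z.1.getD z.2 0)
        (f := fun w : List ℕ => w.length) ?_ Computable.list_length
      exact IsDelta.comp (p := fun z : ℕ × ℕ => f z.1 = z.2)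
        (f := fun z : List ℕ × ℕ => (z.2, z.1.getD z.2 0)) hg
        (Computable.snd.pair (Top_getD Computable.fst Computable.snd))
    refine hb.of_eq fun w => ?_
    constructor
    · intro h
      exact Top_eq_pre fun x hx => (h x hx).symm
    · intro h x hx
      rw [h, Top_pre_getD f _ x hx]
  · intro hd
    apply hKn
    have hs := hd.1
    have e1 : IsSigma (s + 1) (fun z : ℕ × List ℕ => z.2 = pre f z.2.length ∧
        z.2.length = z.1 + 1 ∧ z.2.getD z.1 0 = 0) := by
      refine (IsSigma.comp (p := fun w : List ℕ => w = pre f w.length)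
        (f := fun z : ℕ × List ℕ => z.2) hs Computable.snd).and ?_
      refine ((Top_cp_eq (Computable.list_length.comp Computable.snd)
        (Computable.succ.comp Computable.fst)).sigma _).and ?_
      exact (Top_cp_eq (Top_getD Computable.snd Computable.fst) (Computable.const 0)).sigma _
    refine IsSigma.of_eq (IsSigma.ex_type e1) fun x => ?_
    rw [hK0]
    constructor
    · rintro ⟨w, hw, hl, h3⟩
      simp only at hw hl h3
      rw [hw, hl, Top_pre_getD f _ x (by omega)] at h3
      exact h3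
    · intro h3
      refine ⟨pre f (x + 1), ?_, ?_, ?_⟩
      · simp only [pre_length]
      · simp only [pre_length]
      · simp only
        rw [Top_pre_getD f _ x (by omega)]
        exact h3

end Top

end Pool.Agent.H78.UC
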