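import Pool.Agent.H78.UC.TyDef
import Pool.Agent.H78.UC.PtConv

/-!
Project UC, part A: continuity of the types.
-/

set_option autoImplicit false

namespace Pool.Agent.H78.UC

open Pool.Agent.H80

variable {s : ℕ} {S : ℕ → List ℕ → Prop} {f : ℕ → ℕ}

/-- The decreasing list of `u` is the decreasing list of `u \ v` followed by the one of `v`, when the elements of
`u \ v` are larger than those of `v`. -/
theorem TyCont_sort {u v : Finset ℕ} (hvu : v ⊆ u) (h : ∀ m ∈ u, m ∉ v → ∀ k ∈ v, k < m) :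
    u.sort (· ≥ ·) = (u \ v).sort (· ≥ ·) ++ v.sort (· ≥ ·) := by
  have hp : (u.sort (· ≥ ·)).Pairwise (· ≥ ·) := Finset.pairwise_sort _ _
  have hq : ((u \ v).sort (· ≥ ·) ++ v.sort (· ≥ ·)).Pairwise (· ≥ ·) := by
    rw [List.pairwise_append]
    refine ⟨Finset.pairwise_sort _ _, Finset.pairwise_sort _ _, ?_⟩
    intro a ha b hb
    rw [Finset.mem_sort] at ha hb
    rw [Finset.mem_sdiff] at ha
    exact (h a ha.1 ha.2 b hb).le
  refine List.Perm.eq_of_pairwise' hp hq ?_
  rw [List.perm_iff_count]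
  intro a
  have hn1 : (u.sort (· ≥ ·)).Nodup := Finset.sort_nodup _ _
  have hn2 : ((u \ v).sort (· ≥ ·) ++ v.sort (· ≥ ·)).Nodup := by
    rw [List.nodup_append']
    refine ⟨Finset.sort_nodup _ _, Finset.sort_nodup _ _, ?_⟩
    intro a ha hb
    rw [Finset.mem_sort] at ha hb
    rw [Finset.mem_sdiff] at ha
    exact ha.2 hb
  rw [hn1.count, hn2.count]
  have : a ∈ u.sort (· ≥ ·) ↔ a ∈ (u \ v).sort (· ≥ ·) ++ v.sort (· ≥ ·) := by
    rw [List.mem_append, Finset.mem_sort, Finset.mem_sort, Finset.mem_sort, Finset.mem_sdiff]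
    constructor
    · intro ha
      by_cases hav : a ∈ v
      · exact Or.inr hav
      · exact Or.inl ⟨ha, hav⟩
    · rintro (ha | ha)
      · exact ha.1
      · exact hvu ha
  simp only [this]

/-- Pointwise continuity: from `pt_conv` (if `u ≠ v` has all its additional elements `≥ r` and `≥` all elements of `v`, then
the decreasing list of `u` is `l' ++ m' :: (the decreasing list of v)`, `m'` the least additional element). -/
theorem TyS_cont_pt (h : SysFrom 0 s S f) (v : Finset ℕ) (w : List ℕ) :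
    ∃ r, ∀ u : Finset ℕ, u.card ≤ s → v ⊆ u → (∀ m ∈ u, m ∉ v → r ≤ m) →
      (w ∈ TyS s S f u ↔ w ∈ TyS s S f v) := by
  obtain ⟨r0, hr0⟩ := pt_conv h (v.sort (· ≥ ·)) w
  refine ⟨max r0 (v.sup id + 1), ?_⟩
  intro u hu hvu hm
  have hlt : ∀ m ∈ u, m ∉ v → ∀ k ∈ v, k < m := by
    intro m hmu hmv k hk
    have h1 : max r0 (v.sup id + 1) ≤ m := hm m hmu hmv
    have h2 : k ≤ v.sup id := Finset.le_sup (f := id) hk
    have h3 := le_max_right r0 (v.sup id + 1)
    omega
  have hs := TyCont_sort hvu hlt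
  by_cases he : (u \ v).sort (· ≥ ·) = []
  · rw [he, List.nil_append] at hs
    unfold TyS
    rw [hs]
  · obtain ⟨l', m', hl⟩ : ∃ l' m', (u \ v).sort (· ≥ ·) = l' ++ [m'] :=
      ⟨_, _, (List.dropLast_append_getLast he).symm⟩
    have hm' : m' ∈ u \ v := by
      have : m' ∈ (u \ v).sort (· ≥ ·) := by rw [hl]; simp
      exact (Finset.mem_sort _).1 this
    rw [Finset.mem_sdiff] at hm'
    have hrm : r0 ≤ m' := (le_max_left _ _).trans (hm m' hm'.1 hm'.2)
    rw [hl, List.append_assoc, List.singleton_append] at hs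
    have hpw : (l' ++ m' :: v.sort (· ≥ ·)).Pairwise (· > ·) := by
      rw [← hs]
      exact (Finset.sortedGT_sort u).pairwise
    have hlen : (l' ++ m' :: v.sort (· ≥ ·)).length ≤ s := by
      rw [← hs, Finset.length_sort]
      exact hu
    have key := hr0 l' m' hrm hpw hlen
    unfold TyS
    rw [hs]
    exact key

/-- The radii: `R 0 = 0`, `R (i + 1)` is the maximum of `R i` and of the `r v` with `v ⊆ [0, R i)`. -/
noncomputable def TyCont_R (r : Finset ℕ → ℕ) : ℕ → ℕ
  | 0 => 0
  | i + 1 => max (TyCont_R r i) ((Finset.range (TyCont_R r i)).powerset.sup r)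

theorem TyCont_R_mono (r : Finset ℕ → ℕ) : Monotone (TyCont_R r) :=
  monotone_nat_of_le_succ fun i => by
    show TyCont_R r i ≤ max (TyCont_R r i) _
    exact le_max_left _ _

theorem TyCont_R_ge (r : Finset ℕ → ℕ) (i : ℕ) {v : Finset ℕ} (hv : ∀ m ∈ v, m < TyCont_R r i) :
    r v ≤ TyCont_R r (i + 1) := by
  show r v ≤ max (TyCont_R r i) ((Finset.range (TyCont_R r i)).powerset.sup r)
  refine le_trans ?_ (le_max_right _ _)
  refine Finset.le_sup (f := r) ?_
  rw [Finset.mem_powerset]
  intro m hm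
  exact Finset.mem_range.2 (hv m hm)

theorem TyCont_pigeon (R : ℕ → ℕ) (hR : Monotone R) (s : ℕ) (u : Finset ℕ) (hu : u.card ≤ s) :
    ∃ i ≤ s, ∀ m ∈ u, m < R i ∨ R (i + 1) ≤ m := by
  by_contra hcon
  push Not at hcon
  have key : ∀ i ≤ s + 1, i ≤ (u.filter fun m => m < R i).card := by
    intro i
    induction i with
    | zero => intro _; exact Nat.zero_le _
    | succ i ih =>
      intro hi
      have h1 := ih (by omega)
      obtain ⟨m, hmu, hm1, hm2⟩ := hcon i (by omega)
      have hss : (u.filter fun m => m < R i) ⊂ (u.filter fun m => m < R (i + 1)) := by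
        rw [Finset.ssubset_iff_of_subset]
        · refine ⟨m, ?_, ?_⟩
          · rw [Finset.mem_filter]
            exact ⟨hmu, hm2⟩
          · rw [Finset.mem_filter]
            intro hh
            omega
        · intro x hx
          rw [Finset.mem_filter] at hx ⊢
          exact ⟨hx.1, lt_of_lt_of_le hx.2 (hR (Nat.le_succ i))⟩
      have := Finset.card_lt_card hss
      omega
  have h1 := key (s + 1) le_rfl
  have h2 := Finset.card_filter_le u (fun m => m < R (s + 1))
  omega

/-- A general compactness argument: pointwise continuity implies uniform continuity.  Choose `r v` for each finite set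
`v`; `R_0 = 0`, `R_(i+1) =` the maximum of `R_i` and of the `r v` with `v ⊆ [0, R_i)`; `r = R_(s+1)`.  For `|u| ≤ s` there
is `i ≤ s` with `u ∩ [0, R_i) = u ∩ [0, R_(i+1)) =: v`; both `u` and `u ∩ [0, r)` have the additional elements
`≥ R_(i+1) ≥ r v`. -/
theorem unif_of_pt {s : ℕ} {P : Finset ℕ → Prop}
    (h : ∀ v : Finset ℕ, ∃ r, ∀ u : Finset ℕ, u.card ≤ s → v ⊆ u → (∀ m ∈ u, m ∉ v → r ≤ m) →
      (P u ↔ P v)) :
    ∃ r, ∀ r' ≥ r, ∀ u : Finset ℕ, u.card ≤ s → (P u ↔ P (u.filter fun m => m < r')) := by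
  choose r hr using h
  refine ⟨TyCont_R r (s + 1), ?_⟩
  intro r' hr' u hu
  obtain ⟨i, his, hi⟩ := TyCont_pigeon (TyCont_R r) (TyCont_R_mono r) s u hu
  have hge : r (u.filter fun m => m < TyCont_R r i) ≤ TyCont_R r (i + 1) := by
    refine TyCont_R_ge r i ?_
    intro m hm
    rw [Finset.mem_filter] at hm
    exact hm.2
  have h1 : P u ↔ P (u.filter fun m => m < TyCont_R r i) := by
    refine hr _ u hu (Finset.filter_subset _ _) ?_
    intro m hmu hmv
    rw [Finset.mem_filter] at hmv
    rcases hi m hmu with hlt | hle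
    · exact absurd ⟨hmu, hlt⟩ hmv
    · exact hge.trans hle
  have h2 : P (u.filter fun m => m < r') ↔ P (u.filter fun m => m < TyCont_R r i) := by
    refine hr _ _ ((Finset.card_filter_le _ _).trans hu) ?_ ?_
    · intro m hm
      rw [Finset.mem_filter] at hm ⊢
      refine ⟨hm.1, ?_⟩
      have h3 : TyCont_R r i ≤ TyCont_R r (s + 1) := TyCont_R_mono r (by omega)
      omega
    · intro m hmu hmv
      rw [Finset.mem_filter] at hmv hmu
      rcases hi m hmu.1 with hlt | hle
      · exact absurd ⟨hmu.1, hlt⟩ hmv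
      · exact hge.trans hle
  rw [h1, h2]

end Pool.Agent.H78.UC
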