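import Pool.Agent.H78.UC.Cls
import Pool.Agent.H78.UC.Enum
import Pool.Agent.H78.UC.TCode

/-!
Project UC, part C: the types of the tuples.  `S 0` is `ℕ` with the constants `c p m`, `S 1` is `ℕ` and the type of `v` is
`τ v.unpair.1` (`p` is a parameter).
-/

set_option autoImplicit false

namespace Pool.Agent.H78.UC

open Pool.Agent.H80

variable {N : ℕ} {T : ℕ → Finset ℕ → Set (List ℕ)}

/-- The type of the tuple `z`. -/
def TyZ (N : ℕ) (T : ℕ → Finset ℕ → Set (List ℕ)) (c : ℕ → ℕ) (z : Fin (N + 1) → ℕ) :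
    Set (List ℕ) :=
  {w | ∃ u : Finset ℕ, (u : Set ℕ) = cset N (fun m x => x = c m) z ∧ w ∈ T (eset N z).ncard u}

theorem TyZ_eq {c : ℕ → ℕ} (hc : Function.Injective c) {z : Fin (N + 1) → ℕ} {u : Finset ℕ}
    (hu : (u : Set ℕ) = cset N (fun m x => x = c m) z) : TyZ N T c z = T (eset N z).ncard u := by
  ext w
  unfold TyZ
  rw [Set.mem_ofPred_eq]
  constructor
  · rintro ⟨u', hu', hw⟩
    have h1 : u' = u := Finset.coe_injective (hu'.trans hu.symm)
    rw [← h1]
    exact hw
  · intro hw
    exact ⟨u, hu, hw⟩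

private theorem TyZ_mem_eset {m : ℕ} (z : Fin m → ℕ) (x : ℕ) :
    x ∈ eset N z ↔ ∃ t : Fin m, t.val < N ∧ z t = x := Iff.rfl

private theorem TyZ_mem_cset {c : ℕ → ℕ} {m : ℕ} (z : Fin m → ℕ) (x : ℕ) :
    x ∈ cset N (fun m x => x = c m) z ↔ c x ∈ eset N z := by
  unfold cset eset
  rw [Set.mem_ofPred_eq, Set.mem_ofPred_eq]

open Classical in
/-- The finite set of the first `N` coordinates. -/
private noncomputable def TyZ_E (N : ℕ) (z : Fin (N + 1) → ℕ) : Finset ℕ :=
  (Finset.univ.filter (fun t : Fin (N + 1) => t.val < N)).image z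

private theorem TyZ_E_coe (z : Fin (N + 1) → ℕ) : (TyZ_E N z : Set ℕ) = eset N z := by
  ext x
  rw [TyZ_mem_eset]
  simp [TyZ_E]

private theorem TyZ_tuple {E : Finset ℕ} (h1 : 1 ≤ E.card) (h2 : E.card ≤ N) :
    ∃ z : Fin (N + 1) → ℕ, eset N z = E := by
  have hlen : E.toList.length = E.card := Finset.length_toList E
  refine ⟨fun t => E.toList.getD (min t.val (E.card - 1)) 0, ?_⟩
  ext x
  rw [TyZ_mem_eset]
  constructor
  · rintro ⟨t, ht, rfl⟩
    have h3 : min t.val (E.card - 1) < E.toList.length := by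
      rw [hlen]
      have := min_le_right t.val (E.card - 1)
      omega
    rw [List.getD_eq_getElem _ _ h3]
    exact Finset.mem_coe.2 (Finset.mem_toList.1 (List.getElem_mem h3))
  · intro hx
    have hx' : x ∈ E.toList := Finset.mem_toList.2 (Finset.mem_coe.1 hx)
    obtain ⟨i, hi, rfl⟩ := List.getElem_of_mem hx'
    rw [hlen] at hi
    refine ⟨⟨i, by omega⟩, by simp only; omega, ?_⟩
    have h4 : min i (E.card - 1) = i := min_eq_left (by omega)
    simp only [h4]
    rw [List.getD_eq_getElem]

/-- The types of the tuples are exactly the elements of `realz N T j`: `s` is the number of the elements of `eset N z`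
(`1 ≤ s ≤ N`), `u` the set of the numbers of the constants in it. -/
theorem range_TyZ (hN : 1 ≤ N) {c : ℕ → ℕ} (hc : Function.Injective c) :
    Set.range (TyZ N T c) = realz N T (Set.range c)ᶜ.encard := by
  classical
  ext t
  constructor
  · rintro ⟨z, rfl⟩
    have hE := TyZ_E_coe z
    have hpre : ((TyZ_E N z).preimage c hc.injOn : Set ℕ) = cset N (fun m x => x = c m) z := by
      ext m
      rw [TyZ_mem_cset, ← hE]
      simp
    have hcard : (eset N z).ncard = (TyZ_E N z).card := by
      rw [← hE, Set.ncard_coe_finset]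
    have hA : ((TyZ_E N z).preimage c hc.injOn).card =
        ((TyZ_E N z).filter (fun x => x ∈ Set.range c)).card := by
      rw [← Finset.card_image_of_injective _ hc]
      congr 1
      ext x
      simp only [Finset.mem_image, Finset.mem_preimage, Finset.mem_filter, Set.mem_range]
      constructor
      · rintro ⟨m, hm, rfl⟩
        exact ⟨hm, m, rfl⟩
      · rintro ⟨hx, m, rfl⟩
        exact ⟨m, hx, rfl⟩
    have hAB : ((TyZ_E N z).filter (fun x => x ∈ Set.range c)).card +
        ((TyZ_E N z).filter (fun x => ¬ x ∈ Set.range c)).card = (TyZ_E N z).card :=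
      Finset.card_filter_add_card_filter_not _
    refine ⟨(eset N z).ncard, ?_, ?_, (TyZ_E N z).preimage c hc.injOn, ?_, ?_, TyZ_eq hc hpre⟩
    · rw [hcard]
      refine Finset.card_pos.2 ⟨z ⟨0, by omega⟩, ?_⟩
      refine Finset.mem_image.2 ⟨⟨0, by omega⟩, ?_, rfl⟩
      simp only [Finset.mem_filter, Finset.mem_univ, true_and]
      omega
    · rw [hcard]
      refine Finset.card_image_le.trans ?_
      have h1 : (Finset.univ.filter (fun t : Fin (N + 1) => t.val < N)) ⊆
          Finset.univ.erase (Fin.last N) := by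
        intro t ht
        simp only [Finset.mem_filter, Finset.mem_univ, true_and] at ht
        rw [Finset.mem_erase]
        refine ⟨?_, Finset.mem_univ _⟩
        rintro rfl
        simp at ht
      refine (Finset.card_le_card h1).trans ?_
      rw [Finset.card_erase_of_mem (Finset.mem_univ _), Finset.card_univ, Fintype.card_fin]
      omega
    · rw [hcard]
      omega
    · have h1 : (eset N z).ncard - ((TyZ_E N z).preimage c hc.injOn).card =
          ((TyZ_E N z).filter (fun x => ¬ x ∈ Set.range c)).card := by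
        rw [hcard]
        omega
      rw [h1, ← Set.encard_coe_eq_coe_finsetCard]
      refine Set.encard_le_encard ?_
      intro x hx
      have hx' := Finset.mem_coe.1 hx
      rw [Finset.mem_filter] at hx'
      exact hx'.2
  · rintro ⟨s, hs1, hsN, u, hus, hj, rfl⟩
    obtain ⟨F, hF, hFc⟩ := Set.exists_subset_encard_eq hj
    have hFfin : F.Finite := Set.finite_of_encard_eq_coe hFc
    have hFF : hFfin.toFinset.card = s - u.card := by
      have h1 : ((hFfin.toFinset : Set ℕ)).encard = ((s - u.card : ℕ) : ℕ∞) := by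
        rw [hFfin.coe_toFinset]
        exact hFc
      rw [Set.encard_coe_eq_coe_finsetCard] at h1
      exact_mod_cast h1
    have hdisj : Disjoint (u.image c) hFfin.toFinset := by
      rw [Finset.disjoint_left]
      intro x hx hx'
      rw [Finset.mem_image] at hx
      obtain ⟨m, -, rfl⟩ := hx
      have := hF (hFfin.mem_toFinset.1 hx')
      exact this ⟨m, rfl⟩
    have hcard : (u.image c ∪ hFfin.toFinset).card = s := by
      rw [Finset.card_union_of_disjoint hdisj, Finset.card_image_of_injective _ hc, hFF]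
      omega
    obtain ⟨z, hz⟩ := TyZ_tuple (N := N) (E := u.image c ∪ hFfin.toFinset) (by omega) (by omega)
    refine ⟨z, ?_⟩
    have hu : (u : Set ℕ) = cset N (fun m x => x = c m) z := by
      ext m
      rw [TyZ_mem_cset, hz, Finset.mem_coe, Finset.mem_coe, Finset.mem_union, Finset.mem_image]
      constructor
      · intro hm
        exact Or.inl ⟨m, hm, rfl⟩
      · rintro (⟨m', hm', h⟩ | h)
        · rw [hc h] at hm'
          exact hm'
        · exact absurd ⟨m, rfl⟩ (hF (hFfin.mem_toFinset.1 h))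
    rw [TyZ_eq hc hu, hz, Set.ncard_coe_finset, hcard]

private theorem TyZ_cp_eq {α : Type} [Primcodable α] {f g : α → ℕ} (hf : Computable f)
    (hg : Computable g) : ComputablePred (fun a => f a = g a) := by
  refine ComputablePred.computable_iff.2 ⟨fun a => f a == g a, ?_, ?_⟩
  · exact ((Primrec.beq (α := ℕ)).to_comp).comp hf hg
  · funext a
    simp

private theorem TyZ_cp_mem {α : Type} [Primcodable α] {f : α → ℕ} {g : α → List ℕ}
    (hf : Computable f) (hg : Computable g) : ComputablePred (fun a => f a ∈ g a) := by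
  have h1 : ComputablePred (fun a => (g a).idxOf (f a) = (g a).length) :=
    TyZ_cp_eq ((Primrec.list_idxOf.to_comp).comp hf hg) (Primrec.list_length.to_comp.comp hg)
  refine h1.not.of_eq (fun a => ?_)
  have h2 := List.idxOf_lt_length_iff (a := f a) (l := g a)
  have h3 := List.idxOf_le_length (a := f a) (l := g a)
  rw [← h2]
  omega

private theorem TyZ_fin_or {α : Type} [Primcodable α] (P : ℕ → α → Prop) :
    ∀ k, (∀ t < k, IsAr (P t)) → IsAr (fun a => ∃ t < k, P t a)
  | 0, _ => (ar_const False).of_eq (fun a => by simp)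
  | k + 1, h => by
    have h1 := TyZ_fin_or P k (fun t ht => h t (by omega))
    refine (h1.or (h k (by omega))).of_eq (fun a => ?_)
    constructor
    · rintro (⟨t, ht, hP⟩ | hP)
      · exact ⟨t, by omega, hP⟩
      · exact ⟨k, by omega, hP⟩
    · rintro ⟨t, ht, hP⟩
      rcases Nat.lt_succ_iff_lt_or_eq.1 ht with h2 | rfl
      · exact Or.inl ⟨t, h2, hP⟩
      · exact Or.inr hP

private theorem TyZ_eset_list (d x : ℕ) :
    x ∈ eset N (utc N d) ↔ ∃ t < N, (List.ofFn (utc N d)).getD t 0 = x := by
  rw [TyZ_mem_eset]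
  constructor
  · rintro ⟨t, ht, h⟩
    refine ⟨t.val, ht, ?_⟩
    rw [List.getD_eq_getElem _ _ (by rw [List.length_ofFn]; exact t.2), List.getElem_ofFn]
    exact h
  · rintro ⟨t, ht, h⟩
    refine ⟨⟨t, by omega⟩, ht, ?_⟩
    rw [List.getD_eq_getElem _ _ (by rw [List.length_ofFn]; omega), List.getElem_ofFn] at h
    exact h

/-- Membership in the set of the first `N` coordinates is arithmetical. -/
private theorem TyZ_eset_ar {α : Type} [Primcodable α] {f g : α → ℕ} (hf : Computable f)
    (hg : Computable g) : IsAr (fun a => g a ∈ eset N (utc N (f a))) := by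
  have h1 : IsAr (fun a => ∃ t < N, (List.ofFn (utc N (f a))).getD t 0 = g a) :=
    TyZ_fin_or (fun t a => (List.ofFn (utc N (f a))).getD t 0 = g a) N
      (fun t _ => ar_of_computable (TyZ_cp_eq ((utc_comp N t).comp hf) hg))
  exact h1.of_eq (fun a => (TyZ_eset_list (f a) (g a)).symm)

/-- The number of elements is arithmetical. -/
private theorem TyZ_ncard_ar (s : ℕ) : IsAr (fun d : ℕ => (eset N (utc N d)).ncard = s) := by
  have h1 : IsAr (fun z : ℕ × ℕ => z.2 ∈ eset N (utc N z.1)) :=
    TyZ_eset_ar Computable.fst Computable.snd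
  have h2 := h1.cnt
  have h3 : IsAr (fun z : ℕ × ℕ => UC.cnt (fun m => m ∈ eset N (utc N z.1)) z.2 = s) :=
    h2.comp (f := fun z : ℕ × ℕ => (z.1, z.2, s))
      (Computable.fst.pair (Computable.snd.pair (Computable.const s)))
  have h4 : IsAr (fun w : (ℕ × ℕ) × ℕ => w.2 ∈ eset N (utc N w.1.1) → w.2 < w.1.2) := by
    refine IsAr.imp (TyZ_eset_ar (Computable.fst.comp Computable.fst) Computable.snd) ?_
    refine ar_of_computable (ComputablePred.computable_iff.2
      ⟨fun w => decide (w.2 < w.1.2), ?_, ?_⟩)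
    · exact ((Primrec.nat_lt.decide).to_comp).comp Computable.snd
        (Computable.snd.comp Computable.fst)
    · funext w
      simp
  have h5 := h4.all
  refine (h5.and h3).ex.of_eq (fun d => ?_)
  have hfin : (eset N (utc N d)).Finite := by
    rw [← TyZ_E_coe]
    exact Finset.finite_toSet _
  have hcnt : ∀ n, (∀ x, x ∈ eset N (utc N d) → x < n) →
      UC.cnt (fun m => m ∈ eset N (utc N d)) n = (eset N (utc N d)).ncard := by
    intro n hn
    unfold UC.cnt
    congr 1
    ext x
    rw [Set.mem_ofPred_eq]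
    exact ⟨fun h => h.2, fun h => ⟨hn x h, h⟩⟩
  constructor
  · rintro ⟨n, h6, h7⟩
    rw [← hcnt n h6]
    exact h7
  · intro h6
    obtain ⟨n, hn⟩ := hfin.bddAbove
    have h7 : ∀ x, x ∈ eset N (utc N d) → x < n + 1 := fun x hx =>
      Nat.lt_succ_of_le (hn hx)
    exact ⟨n + 1, h7, (hcnt _ h7).trans h6⟩

theorem TyZ_ar (hT : IsTy N T) {c : ℕ → ℕ → ℕ} (hc : Computable₂ c)
    (hci : ∀ p, Function.Injective (c p)) :
    IsAr (fun z : (ℕ × ℕ) × List ℕ => z.2 ∈ TyZ N T (c z.1.1) (utc N z.1.2)) := by
  have h1 : IsAr (fun w : (((ℕ × ℕ) × List ℕ) × List ℕ) × ℕ => w.2 ∈ w.1.2 ↔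
      c w.1.1.1.1 w.2 ∈ eset N (utc N w.1.1.1.2)) := by
    refine IsAr.iff (ar_of_computable (TyZ_cp_mem Computable.snd
      (Computable.snd.comp Computable.fst))) ?_
    refine TyZ_eset_ar ?_ ?_
    · exact Computable.snd.comp (Computable.fst.comp (Computable.fst.comp Computable.fst))
    · exact Computable₂.comp hc
        (Computable.fst.comp (Computable.fst.comp (Computable.fst.comp Computable.fst)))
        Computable.snd
  have h2 : IsAr (fun w : ((ℕ × ℕ) × List ℕ) × List ℕ =>
      ∃ s < N + 1, (eset N (utc N w.1.1.2)).ncard = s ∧ w.1.2 ∈ T s w.2.toFinset) := by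
    refine TyZ_fin_or (fun s (w : ((ℕ × ℕ) × List ℕ) × List ℕ) =>
      (eset N (utc N w.1.1.2)).ncard = s ∧ w.1.2 ∈ T s w.2.toFinset) (N + 1) (fun s hs => ?_)
    refine IsAr.and ?_ ?_
    · exact (TyZ_ncard_ar (N := N) s).comp (f := fun w : ((ℕ × ℕ) × List ℕ) × List ℕ => w.1.1.2)
        (Computable.snd.comp (Computable.fst.comp Computable.fst))
    · exact (hT.ar s (by omega)).comp
        (f := fun w : ((ℕ × ℕ) × List ℕ) × List ℕ => (w.1.2, w.2))
        ((Computable.snd.comp Computable.fst).pair Computable.snd)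
  refine (h1.all.and h2).ex.of_eq (fun z => ?_)
  have hle : (eset N (utc N z.1.2)).ncard < N + 1 := by
    rw [← TyZ_E_coe, Set.ncard_coe_finset]
    refine Nat.lt_succ_of_le (Finset.card_image_le.trans ?_)
    have h1 : (Finset.univ.filter (fun t : Fin (N + 1) => t.val < N)) ⊆
        Finset.univ.erase (Fin.last N) := by
      intro t ht
      simp only [Finset.mem_filter, Finset.mem_univ, true_and] at ht
      rw [Finset.mem_erase]
      refine ⟨?_, Finset.mem_univ _⟩
      rintro rfl
      simp at ht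
    refine (Finset.card_le_card h1).trans ?_
    rw [Finset.card_erase_of_mem (Finset.mem_univ _), Finset.card_univ, Fintype.card_fin]
    omega
  constructor
  · rintro ⟨l, h3, s, hs, h4, h5⟩
    refine ⟨l.toFinset, ?_, ?_⟩
    · ext m
      rw [TyZ_mem_cset, Finset.mem_coe, List.mem_toFinset]
      exact h3 m
    · rw [h4]
      exact h5
  · rintro ⟨u, hu, hw⟩
    refine ⟨u.toList, ?_, (eset N (utc N z.1.2)).ncard, hle, rfl, ?_⟩
    · intro m
      simp only
      rw [Finset.mem_toList, ← TyZ_mem_cset, ← hu, Finset.mem_coe]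
    · simp only [Finset.toList_toFinset]
      exact hw

end Pool.Agent.H78.UC
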